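import Pool.Agent.P.MP_95bcfc_an.Stmt

-- part Pool.Agent.P.MP_95bcfc_an.Defs
section

set_option autoImplicit false

open scoped TensorProduct

namespace Pool.Agent.P.MP_95bcfc_an

/-- The minimal (spatial) C*-norm of `x`, an element of the algebraic tensor product of the group
algebras of `Γ` and `Λ`, is at most `r`: the bound holds in the Hilbert tensor product of any two
unitary representations. -/
def MinLe {Γ Λ : Type} [Group Γ] [Group Λ] (x : Γ × Λ →₀ ℂ) (r : ℝ) : Prop :=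
  ∀ (H : Type) [NormedAddCommGroup H] [InnerProductSpace ℂ H] [CompleteSpace H]
    (K : Type) [NormedAddCommGroup K] [InnerProductSpace ℂ K] [CompleteSpace K]
    (π : Γ →* unitary (H →L[ℂ] H)) (ρ : Λ →* unitary (K →L[ℂ] K)),
    ‖x.sum fun p c => c • TensorProduct.mapL (π p.1 : H →L[ℂ] H) (ρ p.2 : K →L[ℂ] K)‖ ≤ r

/-- The maximal C*-norm of `x` is at most `r`: the bound holds for any two commuting unitary
representations on one Hilbert space. -/
def MaxLe {Γ Λ : Type} [Group Γ] [Group Λ] (x : Γ × Λ →₀ ℂ) (r : ℝ) : Prop :=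
  ∀ (L : Type) [NormedAddCommGroup L] [InnerProductSpace ℂ L] [CompleteSpace L]
    (π : Γ →* unitary (L →L[ℂ] L)) (ρ : Λ →* unitary (L →L[ℂ] L)),
    (∀ g h, Commute (π g : L →L[ℂ] L) (ρ h : L →L[ℂ] L)) →
    ‖x.sum fun p c => c • ((π p.1 : L →L[ℂ] L) * (ρ p.2 : L →L[ℂ] L))‖ ≤ r

/-- The minimal and the maximal C*-norm agree on the algebraic tensor product of the full group
C*-algebras of `Γ` and `Λ`. -/
def Nuc (Γ Λ : Type) [Group Γ] [Group Λ] : Prop :=
  ∀ (x : Γ × Λ →₀ ℂ) (r : ℝ), MinLe x r → MaxLe x r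

/-- Kirchberg's property. -/
def Kirchberg (Γ : Type) [Group Γ] : Prop := Nuc Γ Γ

theorem shift_apply {A G : Type} [AddCommGroup A] [Group G] (g : G)
    (f : Multiplicative (G →₀ A)) (x : G) :
    (shift A G g f).toAdd x = f.toAdd (g⁻¹ * x) := rfl

end Pool.Agent.P.MP_95bcfc_an
end

-- part Pool.Agent.P.MP_95bcfc_an.Bridge
section

set_option autoImplicit false

open scoped TensorProduct

namespace Pool.Agent.P.MP_95bcfc_an

section
variable {Γ : Type} [Group Γ]

/-- From unitaries to isometric equivalences. -/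
noncomputable def toU {H : Type} [NormedAddCommGroup H] [InnerProductSpace ℂ H] [CompleteSpace H]
    (π : Γ →* unitary (H →L[ℂ] H)) : URep Γ H :=
  (Unitary.linearIsometryEquiv (𝕜 := ℂ) (H := H)).toMonoidHom.comp π

/-- From isometric equivalences to unitaries. -/
noncomputable def ofU {H : Type} [NormedAddCommGroup H] [InnerProductSpace ℂ H] [CompleteSpace H]
    (π : URep Γ H) : Γ →* unitary (H →L[ℂ] H) :=
  (Unitary.linearIsometryEquiv (𝕜 := ℂ) (H := H)).symm.toMonoidHom.comp π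

theorem toU_op {H : Type} [NormedAddCommGroup H] [InnerProductSpace ℂ H] [CompleteSpace H]
    (π : Γ →* unitary (H →L[ℂ] H)) (g : Γ) :
    (toU π).op g = (π g : H →L[ℂ] H).toLinearMap := rfl

theorem ofU_op {H : Type} [NormedAddCommGroup H] [InnerProductSpace ℂ H] [CompleteSpace H]
    (π : URep Γ H) (g : Γ) :
    π.op g = (ofU π g : H →L[ℂ] H).toLinearMap := rfl

theorem sum_apply' {ι E : Type} [NormedAddCommGroup E] [InnerProductSpace ℂ E] (x : ι →₀ ℂ)
    (T : ι → E →L[ℂ] E) (v : E) :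
    (x.sum fun p c => c • T p) v = x.sum fun p c => c • T p v := by
  unfold Finsupp.sum
  rw [ContinuousLinearMap.sum_apply]
  rfl

theorem sumLe_of_norm {ι E : Type} [NormedAddCommGroup E] [InnerProductSpace ℂ E] (x : ι →₀ ℂ)
    (T : ι → E →L[ℂ] E) {r : ℝ} (h : ‖x.sum fun p c => c • T p‖ ≤ r) :
    SumLe x (fun p => (T p).toLinearMap) r := by
  intro v
  have h1 := (x.sum fun p c => c • T p).le_opNorm v
  rw [sum_apply'] at h1
  exact h1.trans (mul_le_mul_of_nonneg_right h (norm_nonneg v))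

theorem norm_of_sumLe {ι E : Type} [NormedAddCommGroup E] [InnerProductSpace ℂ E] (x : ι →₀ ℂ)
    (T : ι → E →L[ℂ] E) {r : ℝ} (hr : 0 ≤ r) (h : SumLe x (fun p => (T p).toLinearMap) r) :
    ‖x.sum fun p c => c • T p‖ ≤ r := by
  refine ContinuousLinearMap.opNorm_le_bound _ hr fun v => ?_
  rw [sum_apply']
  exact h v

theorem MinBound.nonneg {x : Γ × Γ →₀ ℂ} {r : ℝ} (h : MinBound x r) : 0 ≤ r := by
  have h1 := h ℂ ℂ 1 1 ((1 : ℂ) ⊗ₜ[ℂ] (1 : ℂ))
  rw [TensorProduct.norm_tmul] at h1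
  simp only [norm_one, mul_one] at h1
  exact (norm_nonneg _).trans h1

theorem MaxBound.nonneg {x : Γ × Γ →₀ ℂ} {r : ℝ} (h : MaxBound x r) : 0 ≤ r := by
  have h1 := h ℂ 1 1 (fun _ _ => rfl) (1 : ℂ)
  simp only [norm_one, mul_one] at h1
  exact (norm_nonneg _).trans h1

theorem minBound_iff (x : Γ × Γ →₀ ℂ) (r : ℝ) : MinBound x r ↔ MinLe x r := by
  constructor
  · intro h H _ _ _ K _ _ _ π ρ
    refine norm_of_sumLe x _ h.nonneg ?_
    have h1 := h H K (toU π) (toU ρ)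
    simp only [TensorProduct.toLinearMap_mapL]
    exact h1
  · intro h H _ _ _ K _ _ _ π ρ
    have h1 := sumLe_of_norm x _ (h H K (ofU π) (ofU ρ))
    simp only [TensorProduct.toLinearMap_mapL] at h1
    exact h1

theorem maxBound_iff (x : Γ × Γ →₀ ℂ) (r : ℝ) : MaxBound x r ↔ MaxLe x r := by
  constructor
  · intro h L _ _ _ π ρ hc
    refine norm_of_sumLe x _ h.nonneg ?_
    refine h L (toU π) (toU ρ) fun g k => ?_
    rw [toU_op, toU_op]
    exact congrArg ContinuousLinearMap.toLinearMap (hc g k).eq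
  · intro h L _ _ _ π ρ hc
    refine sumLe_of_norm x _ (h L (ofU π) (ofU ρ) fun g k => ?_)
    apply ContinuousLinearMap.coe_injective
    exact hc g k

theorem kirchberg_iff (Γ : Type) [Group Γ] : KirchbergProperty Γ ↔ Kirchberg Γ := by
  unfold KirchbergProperty Kirchberg Nuc
  simp only [minBound_iff, maxBound_iff]

end

end Pool.Agent.P.MP_95bcfc_an
end

-- part Pool.Agent.P.MP_95bcfc_an.Blk
section

set_option autoImplicit false
set_option linter.unusedSectionVars false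
set_option linter.deprecated false

open scoped TensorProduct InnerProductSpace

namespace Pool.Agent.P.MP_95bcfc_an

/-- direct sum of `D` copies of `E` -/
abbrev HD (D E : Type) : Type := PiLp 2 (fun _ : D => E)

section Blk

variable {D : Type} [Fintype D] [DecidableEq D]
variable {E : Type} [NormedAddCommGroup E] [InnerProductSpace ℂ E]

/-- coordinate projection -/
noncomputable def pr (E : Type) [NormedAddCommGroup E] [InnerProductSpace ℂ E] (i : D) :
    HD D E →L[ℂ] E := PiLp.proj 2 (fun _ : D => E) i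

/-- coordinate inclusion -/
noncomputable def inc (E : Type) [NormedAddCommGroup E] [InnerProductSpace ℂ E] (i : D) :
    E →L[ℂ] HD D E :=
  (PiLp.continuousLinearEquiv 2 ℂ (fun _ : D => E)).symm.toContinuousLinearMap.comp
    (ContinuousLinearMap.single ℂ (fun _ : D => E) i)

@[simp] theorem pr_apply (i : D) (v : HD D E) : pr E i v = v i := rfl

@[simp] theorem inc_apply (i j : D) (v : E) : inc E i v j = if j = i then v else 0 := by
  change Pi.single (M := fun _ : D => E) i v j = _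
  rw [Pi.single_apply]

theorem inner_inc_left (i : D) (v : E) (w : HD D E) : ⟪inc E i v, w⟫_ℂ = ⟪v, w i⟫_ℂ := by
  rw [PiLp.inner_apply, Finset.sum_eq_single i]
  · simp
  · intro j _ hj
    simp [hj]
  · simp

theorem norm_inc (i : D) (v : E) : ‖inc E i v‖ = ‖v‖ := by
  have h := inner_inc_left i v (inc E i v)
  simp only [inc_apply, if_true, inner_self_eq_norm_sq_to_K] at h
  have h2 : ‖inc E i v‖ ^ 2 = ‖v‖ ^ 2 := by exact_mod_cast h
  exact (sq_eq_sq₀ (norm_nonneg _) (norm_nonneg _)).1 h2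

theorem sum_inc (v : HD D E) : ∑ i, inc E i (v i) = v := by
  ext j
  simp [WithLp.ofLp_sum, Finset.sum_apply]

/-- block operator -/
noncomputable def blkFun (M : Matrix D D (E →L[ℂ] E)) : HD D E →L[ℂ] HD D E :=
  ∑ i, ∑ j, (inc E i).comp ((M i j).comp (pr E j))

theorem blkFun_apply (M : Matrix D D (E →L[ℂ] E)) (v : HD D E) (i : D) :
    blkFun M v i = ∑ j, M i j (v j) := by
  simp [blkFun, WithLp.ofLp_sum, Finset.sum_apply, Finset.sum_ite_eq]

/-- block operators as an algebra homomorphism -/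
noncomputable def blk : Matrix D D (E →L[ℂ] E) →ₐ[ℂ] (HD D E →L[ℂ] HD D E) where
  toFun := blkFun
  map_one' := by
    ext v i
    rw [blkFun_apply, Finset.sum_eq_single i]
    · simp
    · intro k _ hk
      simp [Matrix.one_apply_ne hk.symm]
    · simp
  map_mul' M N := by
    ext v i
    simp only [blkFun_apply, Matrix.mul_apply, ContinuousLinearMap.sum_apply,
      ContinuousLinearMap.mul_apply, map_sum]
    rw [Finset.sum_comm]
  map_zero' := by
    ext v i
    simp [blkFun_apply]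
  map_add' M N := by
    ext v i
    simp [blkFun_apply, Finset.sum_add_distrib]
  commutes' c := by
    ext v i
    rw [blkFun_apply, Finset.sum_eq_single i]
    · simp [Algebra.algebraMap_eq_smul_one]
    · intro k _ hk
      simp [Algebra.algebraMap_eq_smul_one, Matrix.one_apply_ne hk.symm]
    · simp

theorem blk_apply (M : Matrix D D (E →L[ℂ] E)) (v : HD D E) (i : D) :
    blk M v i = ∑ j, M i j (v j) := blkFun_apply M v i

theorem blk_inc (M : Matrix D D (E →L[ℂ] E)) (j : D) (v : E) (i : D) :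
    blk M (inc E j v) i = M i j v := by
  rw [blk_apply, Finset.sum_eq_single j]
  · simp
  · intro k _ hk
    simp [hk]
  · simp

theorem norm_entry_le (M : Matrix D D (E →L[ℂ] E)) (i j : D) : ‖M i j‖ ≤ ‖blk M‖ := by
  refine ContinuousLinearMap.opNorm_le_bound _ (norm_nonneg (blk M)) fun v => ?_
  rw [← blk_inc]
  calc _ ≤ ‖blk M (inc E j v)‖ := PiLp.norm_apply_le _ i
    _ ≤ ‖blk M‖ * ‖inc E j v‖ := ContinuousLinearMap.le_opNorm _ _
    _ = _ := by rw [norm_inc]

theorem norm_blk_le (M : Matrix D D (E →L[ℂ] E)) : ‖blk M‖ ≤ ∑ i, ∑ j, ‖M i j‖ := by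
  refine ContinuousLinearMap.opNorm_le_bound _ (by positivity) fun v => ?_
  rw [← sum_inc (blk M v), Finset.sum_mul]
  refine (norm_sum_le _ _).trans (Finset.sum_le_sum fun i _ => ?_)
  rw [norm_inc, blk_apply, Finset.sum_mul]
  refine (norm_sum_le _ _).trans (Finset.sum_le_sum fun j _ => ?_)
  exact ((M i j).le_opNorm _).trans
    (mul_le_mul_of_nonneg_left (PiLp.norm_apply_le v j) (norm_nonneg _))

/-- diagonal operator -/
noncomputable def diag (D : Type) [Fintype D] [DecidableEq D] (T : E →L[ℂ] E) :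
    HD D E →L[ℂ] HD D E := blk (Matrix.diagonal fun _ => T)

theorem diag_apply (T : E →L[ℂ] E) (v : HD D E) (i : D) : diag D T v i = T (v i) := by
  rw [diag, blk_apply, Finset.sum_eq_single i]
  · simp
  · intro k _ hk
    simp [Matrix.diagonal_apply_ne _ hk.symm]
  · simp

theorem norm_diag_le (T : E →L[ℂ] E) : ‖diag D T‖ ≤ ‖T‖ := by
  refine ContinuousLinearMap.opNorm_le_bound _ (norm_nonneg _) fun v => ?_
  refine (sq_le_sq₀ (norm_nonneg _) (by positivity)).1 ?_
  rw [PiLp.norm_sq_eq_of_L2, mul_pow, PiLp.norm_sq_eq_of_L2, Finset.mul_sum]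
  refine Finset.sum_le_sum fun i _ => ?_
  rw [diag_apply, ← mul_pow]
  exact pow_le_pow_left₀ (norm_nonneg _) (T.le_opNorm _) 2

variable {Δ : Type} [Group Δ]

/-- evaluation of the group algebra in a representation -/
noncomputable def ev (U : Δ →* (E →L[ℂ] E)) : MonoidAlgebra ℂ Δ →ₐ[ℂ] (E →L[ℂ] E) :=
  MonoidAlgebra.lift ℂ (E →L[ℂ] E) Δ U

@[simp] theorem ev_single (U : Δ →* (E →L[ℂ] E)) (g : Δ) (c : ℂ) :
    ev U (MonoidAlgebra.single g c) = c • U g := MonoidAlgebra.lift_single _ _ _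

theorem ev_apply (U : Δ →* (E →L[ℂ] E)) (z : MonoidAlgebra ℂ Δ) :
    ev U z = z.coeff.sum fun p c => c • U p := MonoidAlgebra.lift_apply _ _

/-- evaluation of matrices over the group algebra -/
noncomputable def evM (U : Δ →* (E →L[ℂ] E)) :
    Matrix D D (MonoidAlgebra ℂ Δ) →ₐ[ℂ] (HD D E →L[ℂ] HD D E) :=
  blk.comp (ev U).mapMatrix

theorem evM_eq (U : Δ →* (E →L[ℂ] E)) (Z : Matrix D D (MonoidAlgebra ℂ Δ)) :
    evM U Z = blk (Z.map (ev U)) := rfl

theorem evM_apply (U : Δ →* (E →L[ℂ] E)) (Z : Matrix D D (MonoidAlgebra ℂ Δ)) (v : HD D E)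
    (i : D) : evM U Z v i = ∑ j, ev U (Z i j) (v j) := by
  rw [evM_eq, blk_apply]
  rfl

end Blk

/-- `U` is a unitary representation on a pre-Hilbert space -/
def IsUni {Δ : Type} [Group Δ] {E : Type} [NormedAddCommGroup E] [InnerProductSpace ℂ E]
    (U : Δ →* (E →L[ℂ] E)) : Prop := ∀ g u v, ⟪U g u, v⟫_ℂ = ⟪u, U g⁻¹ v⟫_ℂ

theorem exists_adj {Δ : Type} [Group Δ] (z : MonoidAlgebra ℂ Δ) :
    ∃ z' : MonoidAlgebra ℂ Δ, ∀ (E : Type) [NormedAddCommGroup E] [InnerProductSpace ℂ E]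
      (U : Δ →* (E →L[ℂ] E)), IsUni U → ∀ u v, ⟪ev U z' u, v⟫_ℂ = ⟪u, ev U z v⟫_ℂ := by
  induction z using MonoidAlgebra.induction_linear with
  | zero => exact ⟨0, fun E _ _ U _ u v => by simp⟩
  | add a b ha hb =>
    obtain ⟨a', ha⟩ := ha
    obtain ⟨b', hb⟩ := hb
    refine ⟨a' + b', fun E _ _ U hU u v => ?_⟩
    simp only [map_add, ContinuousLinearMap.add_apply, inner_add_left, inner_add_right,
      ha E U hU, hb E U hU]
  | single g c =>
    refine ⟨MonoidAlgebra.single g⁻¹ (starRingEnd ℂ c), fun E _ _ U hU u v => ?_⟩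
    simp only [ev_single, ContinuousLinearMap.smul_apply, inner_smul_left, inner_smul_right]
    rw [hU]
    simp

theorem exists_adjM {Δ : Type} [Group Δ] {D : Type} [Fintype D] [DecidableEq D]
    (Z : Matrix D D (MonoidAlgebra ℂ Δ)) :
    ∃ Z' : Matrix D D (MonoidAlgebra ℂ Δ), ∀ (E : Type) [NormedAddCommGroup E]
      [InnerProductSpace ℂ E] (U : Δ →* (E →L[ℂ] E)), IsUni U →
      ∀ u v, ⟪evM U Z' u, v⟫_ℂ = ⟪u, evM U Z v⟫_ℂ := by
  choose f hf using exists_adj (Δ := Δ)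
  refine ⟨Matrix.of fun i j => f (Z j i), fun E _ _ U hU u v => ?_⟩
  simp only [PiLp.inner_apply, evM_apply, sum_inner, inner_sum]
  rw [Finset.sum_comm]
  exact Finset.sum_congr rfl fun i _ => Finset.sum_congr rfl fun j _ => hf _ E U hU _ _

theorem norm_le_of_adj {E E' : Type} [NormedAddCommGroup E] [InnerProductSpace ℂ E]
    [NormedAddCommGroup E'] [InnerProductSpace ℂ E'] {S : E →L[ℂ] E'} {T : E' →L[ℂ] E}
    (h : ∀ u v, ⟪S u, v⟫_ℂ = ⟪u, T v⟫_ℂ) : ‖S‖ ≤ ‖T‖ := by
  refine ContinuousLinearMap.opNorm_le_bound _ (norm_nonneg _) fun u => ?_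
  have h1 : ‖S u‖ ^ 2 ≤ ‖u‖ * (‖T‖ * ‖S u‖) := by
    calc ‖S u‖ ^ 2 = ‖⟪S u, S u⟫_ℂ‖ := by simp [inner_self_eq_norm_sq_to_K]
      _ = ‖⟪u, T (S u)⟫_ℂ‖ := by rw [h]
      _ ≤ ‖u‖ * ‖T (S u)‖ := norm_inner_le_norm _ _
      _ ≤ _ := mul_le_mul_of_nonneg_left (T.le_opNorm _) (norm_nonneg _)
  rcases (norm_nonneg (S u)).eq_or_lt with h0 | h0
  · rw [← h0]; positivity
  · nlinarith

section Reps

variable {Γ Λ : Type} [Group Γ] [Group Λ]
variable {H : Type} [NormedAddCommGroup H] [InnerProductSpace ℂ H] [CompleteSpace H]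
variable {K : Type} [NormedAddCommGroup K] [InnerProductSpace ℂ K] [CompleteSpace K]

/-- underlying operators of a unitary representation -/
noncomputable def und (π : Γ →* unitary (H →L[ℂ] H)) : Γ →* (H →L[ℂ] H) := (unitary _).subtype.comp π

@[simp] theorem und_apply (π : Γ →* unitary (H →L[ℂ] H)) (g : Γ) : und π g = π g := rfl

theorem uni_inner (u : unitary (H →L[ℂ] H)) (a b : H) :
    ⟪(u : H →L[ℂ] H) a, b⟫_ℂ = ⟪a, ((u⁻¹ : unitary (H →L[ℂ] H)) : H →L[ℂ] H) b⟫_ℂ := by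
  rw [← Unitary.star_eq_inv, Unitary.coe_star, ContinuousLinearMap.star_eq_adjoint,
    ContinuousLinearMap.adjoint_inner_right]

theorem isUni_und (π : Γ →* unitary (H →L[ℂ] H)) : IsUni (und π) := fun g u v => by
  simp only [und_apply, map_inv]
  exact uni_inner _ _ _

theorem uni_norm (u : unitary (H →L[ℂ] H)) (a : H) : ‖(u : H →L[ℂ] H) a‖ = ‖a‖ :=
  ContinuousLinearMap.norm_map_of_mem_unitary u.2 a

theorem uni_opNorm_le (u : unitary (H →L[ℂ] H)) : ‖(u : H →L[ℂ] H)‖ ≤ 1 :=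
  ContinuousLinearMap.opNorm_le_bound _ zero_le_one fun a => by rw [uni_norm, one_mul]

/-- product of two commuting representations -/
noncomputable def pair (π : Γ →* unitary (H →L[ℂ] H)) (ρ : Λ →* unitary (H →L[ℂ] H))
    (h : ∀ g l, Commute (π g : H →L[ℂ] H) (ρ l : H →L[ℂ] H)) : Γ × Λ →* (H →L[ℂ] H) :=
  (und π).noncommCoprod (und ρ) h

@[simp] theorem pair_apply (π : Γ →* unitary (H →L[ℂ] H)) (ρ : Λ →* unitary (H →L[ℂ] H))
    (h : ∀ g l, Commute (π g : H →L[ℂ] H) (ρ l : H →L[ℂ] H)) (p : Γ × Λ) :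
    pair π ρ h p = (π p.1 : H →L[ℂ] H) * (ρ p.2 : H →L[ℂ] H) := rfl

theorem isUni_pair (π : Γ →* unitary (H →L[ℂ] H)) (ρ : Λ →* unitary (H →L[ℂ] H))
    (h : ∀ g l, Commute (π g : H →L[ℂ] H) (ρ l : H →L[ℂ] H)) : IsUni (pair π ρ h) := by
  intro p u v
  rw [pair_apply, pair_apply, (h _ _).eq, ContinuousLinearMap.mul_apply, uni_inner, uni_inner]
  simp

/-- tensor product of two representations -/
noncomputable def tens (π : Γ →* unitary (H →L[ℂ] H)) (ρ : Λ →* unitary (K →L[ℂ] K)) :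
    Γ × Λ →* (H ⊗[ℂ] K →L[ℂ] H ⊗[ℂ] K) where
  toFun p := TensorProduct.mapL (π p.1 : H →L[ℂ] H) (ρ p.2 : K →L[ℂ] K)
  map_one' := by
    simp only [Prod.fst_one, map_one, Prod.snd_one, OneMemClass.coe_one]
    exact TensorProduct.mapL_id_id
  map_mul' p q := by
    simp only [Prod.fst_mul, map_mul, Prod.snd_mul, Submonoid.coe_mul]
    exact TensorProduct.mapL_mul _ _ _ _

@[simp] theorem tens_apply (π : Γ →* unitary (H →L[ℂ] H)) (ρ : Λ →* unitary (K →L[ℂ] K))
    (p : Γ × Λ) :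
    tens π ρ p = TensorProduct.mapL (π p.1 : H →L[ℂ] H) (ρ p.2 : K →L[ℂ] K) := rfl

theorem isUni_tens (π : Γ →* unitary (H →L[ℂ] H)) (ρ : Λ →* unitary (K →L[ℂ] K)) :
    IsUni (tens π ρ) := by
  intro p u v
  induction u using TensorProduct.induction_on with
  | zero => simp
  | add a b ha hb => simp only [map_add, inner_add_left, ha, hb]
  | tmul a b =>
    induction v using TensorProduct.induction_on with
    | zero => simp
    | add a b ha hb => simp only [map_add, inner_add_right, ha, hb]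
    | tmul c d =>
      simp only [tens_apply, TensorProduct.mapL_tmul, TensorProduct.inner_tmul, uni_inner,
        Prod.fst_inv, Prod.snd_inv, map_inv]

end Reps

end Pool.Agent.P.MP_95bcfc_an
end

-- part Pool.Agent.P.MP_95bcfc_an.Transfer
section

set_option autoImplicit false
set_option linter.unusedSectionVars false
set_option linter.deprecated false

open scoped TensorProduct InnerProductSpace

namespace Pool.Agent.P.MP_95bcfc_an

variable {Γ Λ : Type} [Group Γ] [Group Λ] {D : Type} [Fintype D] [DecidableEq D]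

theorem le_of_pow_le {a r C : ℝ} (hr : 0 ≤ r) (h : ∀ k : ℕ, a ^ 2 ^ k ≤ C * r ^ 2 ^ k) :
    a ≤ r := by
  by_contra hc
  push Not at hc
  have ha : 0 < a := hr.trans_lt hc
  have h1 : r / a < 1 := (div_lt_one ha).2 hc
  have h0 : 0 ≤ r / a := div_nonneg hr ha.le
  have ht : Filter.Tendsto (fun k : ℕ => C * (r / a) ^ 2 ^ k) Filter.atTop (nhds (C * 0)) :=
    ((tendsto_pow_atTop_nhds_zero_of_lt_one h0 h1).comp
      (tendsto_pow_atTop_atTop_of_one_lt one_lt_two)).const_mul C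
  rw [mul_zero] at ht
  obtain ⟨k, hk⟩ := (ht.eventually (gt_mem_nhds zero_lt_one)).exists
  have h2 := h k
  rw [div_pow, ← mul_div_assoc, div_lt_one (by positivity)] at hk
  linarith

/-- the matrix version of `Nuc` -/
theorem Nuc.matrix (hN : Nuc Γ Λ) (X : Matrix D D (MonoidAlgebra ℂ (Γ × Λ))) {r : ℝ}
    (hX : ∀ (H : Type) [NormedAddCommGroup H] [InnerProductSpace ℂ H] [CompleteSpace H]
      (K : Type) [NormedAddCommGroup K] [InnerProductSpace ℂ K] [CompleteSpace K]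
      (π : Γ →* unitary (H →L[ℂ] H)) (ρ : Λ →* unitary (K →L[ℂ] K)), ‖evM (tens π ρ) X‖ ≤ r)
    (L : Type) [NormedAddCommGroup L] [InnerProductSpace ℂ L] [CompleteSpace L]
    (π : Γ →* unitary (L →L[ℂ] L)) (ρ : Λ →* unitary (L →L[ℂ] L))
    (h : ∀ g l, Commute (π g : L →L[ℂ] L) (ρ l : L →L[ℂ] L)) : ‖evM (pair π ρ h) X‖ ≤ r := by
  have hr : 0 ≤ r := (norm_nonneg (evM (tens π ρ) X)).trans (hX L L π ρ)
  obtain ⟨X', hX'⟩ := exists_adjM X
  have hent : ∀ (n : ℕ), 0 < n → ∀ i j,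
      ‖ev (pair π ρ h) (((X' * X) ^ n) i j)‖ ≤ (r * r) ^ n := by
    intro n hn i j
    rw [ev_apply]
    refine hN _ _ ?_ L π ρ h
    intro H _ _ _ K _ _ _ π' ρ'
    have h1 : ‖evM (tens π' ρ') X'‖ ≤ r :=
      (norm_le_of_adj (hX' _ _ (isUni_tens π' ρ'))).trans (hX H K π' ρ')
    have h2 : ‖evM (tens π' ρ') ((X' * X) ^ n)‖ ≤ (r * r) ^ n := by
      rw [map_pow, map_mul]
      have h4 := norm_mul_le (evM (tens π' ρ') X') (evM (tens π' ρ') X)
      have h5 := h4.trans (mul_le_mul h1 (hX H K π' ρ') (norm_nonneg (evM (tens π' ρ') X)) hr)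
      have h6 := norm_pow_le' (evM (tens π' ρ') X' * evM (tens π' ρ') X) hn
      exact h6.trans (pow_le_pow_left₀
        (norm_nonneg (evM (tens π' ρ') X' * evM (tens π' ρ') X)) h5 _)
    have h3 := norm_entry_le (((X' * X) ^ n).map (ev (tens π' ρ'))) i j
    rw [← evM_eq, Matrix.map_apply, ev_apply] at h3
    exact h3.trans h2
  set T := evM (pair π ρ h) X with hT
  have hs : evM (pair π ρ h) X' = star T := by
    rw [ContinuousLinearMap.star_eq_adjoint, ContinuousLinearMap.eq_adjoint_iff]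
    exact hX' _ _ (isUni_pair π ρ h)
  have h2 : ‖T‖ * ‖T‖ ≤ r * r := by
    refine le_of_pow_le (C := (Fintype.card D : ℝ) * Fintype.card D) (by positivity) fun k => ?_
    rw [← CStarRing.norm_star_mul_self, ← (IsSelfAdjoint.star_mul_self T).norm_pow_two_pow,
      ← hs, hT, ← map_mul, ← map_pow, evM_eq]
    refine (norm_blk_le _).trans ?_
    calc _ ≤ ∑ _i : D, ∑ _j : D, (r * r) ^ 2 ^ k :=
          Finset.sum_le_sum fun i _ => Finset.sum_le_sum fun j _ => hent _ (by positivity) i j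
      _ = _ := by simp [mul_assoc]
  nlinarith [norm_nonneg T]

section Psi

variable {H : Type} [NormedAddCommGroup H] [InnerProductSpace ℂ H]
variable {K : Type} [NormedAddCommGroup K] [InnerProductSpace ℂ K]

/-- regrouping a direct sum of tensor products -/
noncomputable def psi (D H K : Type) [Fintype D] [DecidableEq D] [NormedAddCommGroup H]
    [InnerProductSpace ℂ H] [NormedAddCommGroup K] [InnerProductSpace ℂ K] :
    HD D (H ⊗[ℂ] K) →L[ℂ] (HD D H) ⊗[ℂ] K :=
  ∑ i : D, ((inc H i).rTensor K).comp (pr (H ⊗[ℂ] K) i)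

/-- the inverse regrouping -/
noncomputable def psi' (D H K : Type) [Fintype D] [DecidableEq D] [NormedAddCommGroup H]
    [InnerProductSpace ℂ H] [NormedAddCommGroup K] [InnerProductSpace ℂ K] :
    (HD D H) ⊗[ℂ] K →L[ℂ] HD D (H ⊗[ℂ] K) :=
  ∑ i : D, (inc (H ⊗[ℂ] K) i).comp ((pr H i).rTensor K)

theorem psi_apply (u : HD D (H ⊗[ℂ] K)) : psi D H K u = ∑ i, (inc H i).rTensor K (u i) := by
  simp only [psi, ContinuousLinearMap.sum_apply, ContinuousLinearMap.comp_apply, pr_apply]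

theorem psi'_apply (v : (HD D H) ⊗[ℂ] K) (i : D) : psi' D H K v i = (pr H i).rTensor K v := by
  simp only [psi', ContinuousLinearMap.sum_apply, ContinuousLinearMap.comp_apply,
    WithLp.ofLp_sum, Finset.sum_apply, inc_apply]
  simp

theorem inner_rT (i : D) (a : H ⊗[ℂ] K) (v : (HD D H) ⊗[ℂ] K) :
    ⟪(inc H i).rTensor K a, v⟫_ℂ = ⟪a, (pr H i).rTensor K v⟫_ℂ := by
  induction a using TensorProduct.induction_on with
  | zero => simp
  | add a b ha hb => simp only [map_add, inner_add_left, ha, hb]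
  | tmul a b =>
    induction v using TensorProduct.induction_on with
    | zero => simp
    | add a b ha hb => simp only [map_add, inner_add_right, ha, hb]
    | tmul c d =>
      simp only [ContinuousLinearMap.rTensor_tmul, TensorProduct.inner_tmul, inner_inc_left,
        pr_apply]

theorem psi_adj (u : HD D (H ⊗[ℂ] K)) (v : (HD D H) ⊗[ℂ] K) :
    ⟪psi D H K u, v⟫_ℂ = ⟪u, psi' D H K v⟫_ℂ := by
  rw [psi_apply, sum_inner, PiLp.inner_apply]
  exact Finset.sum_congr rfl fun i _ => by rw [inner_rT, psi'_apply]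

theorem psi_conj (M : Matrix D D (H →L[ℂ] H)) (S : K →L[ℂ] K) :
    (psi' D H K).comp ((TensorProduct.mapL (blk M) S).comp (psi D H K)) =
      blk (M.map fun T => TensorProduct.mapL T S) := by
  refine ContinuousLinearMap.ext fun u => PiLp.ext fun i => ?_
  rw [blk_apply, ContinuousLinearMap.comp_apply, ContinuousLinearMap.comp_apply, psi'_apply,
    psi_apply, map_sum, map_sum]
  refine Finset.sum_congr rfl fun j _ => ?_
  rw [Matrix.map_apply]
  induction u j using TensorProduct.induction_on with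
  | zero => simp
  | add a b ha hb => simp only [map_add, ha, hb]
  | tmul a b =>
    simp only [ContinuousLinearMap.rTensor_tmul, TensorProduct.mapL_tmul, pr_apply, blk_inc]

theorem norm_psi_apply (u : HD D (H ⊗[ℂ] K)) : ‖psi D H K u‖ = ‖u‖ := by
  have h1 : psi' D H K (psi D H K u) = u := by
    ext i
    rw [psi'_apply, psi_apply, map_sum, Finset.sum_eq_single i]
    · induction u i using TensorProduct.induction_on with
      | zero => simp
      | add a b ha hb => simp only [map_add, ha, hb]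
      | tmul a b => simp only [ContinuousLinearMap.rTensor_tmul, pr_apply, inc_apply, if_true]
    · intro j _ hj
      induction u j using TensorProduct.induction_on with
      | zero => simp
      | add a b ha hb => simp only [map_add, ha, hb, add_zero]
      | tmul a b =>
        simp only [ContinuousLinearMap.rTensor_tmul, pr_apply, inc_apply, if_neg hj.symm,
          TensorProduct.zero_tmul]
    · simp
  have h := psi_adj u (psi D H K u)
  rw [h1, inner_self_eq_norm_sq_to_K (𝕜 := ℂ) (psi D H K u),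
    inner_self_eq_norm_sq_to_K (𝕜 := ℂ) u] at h
  have h2 : ‖psi D H K u‖ ^ 2 = ‖u‖ ^ 2 := by exact_mod_cast h
  exact (sq_eq_sq₀ (norm_nonneg _) (norm_nonneg _)).1 h2

theorem norm_psi_le : ‖psi D H K‖ ≤ 1 :=
  ContinuousLinearMap.opNorm_le_bound _ zero_le_one fun u => by rw [norm_psi_apply, one_mul]

theorem norm_psi'_le : ‖psi' D H K‖ ≤ 1 := by
  refine (norm_le_of_adj (T := psi D H K) fun u v => ?_).trans norm_psi_le
  rw [← inner_conj_symm (psi' D H K u) v, ← psi_adj]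
  exact inner_conj_symm (𝕜 := ℂ) u (psi D H K v)

theorem norm_psi_conj_le (T : (HD D H) ⊗[ℂ] K →L[ℂ] (HD D H) ⊗[ℂ] K) :
    ‖(psi' D H K).comp (T.comp (psi D H K))‖ ≤ ‖T‖ := by
  refine (ContinuousLinearMap.opNorm_comp_le _ _).trans ?_
  have h1 := ContinuousLinearMap.opNorm_comp_le T (psi D H K)
  have h2 := norm_psi_le (D := D) (H := H) (K := K)
  have h3 := norm_psi'_le (D := D) (H := H) (K := K)
  have h4 := norm_nonneg T
  have h5 := norm_nonneg (T.comp (psi D H K))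
  have h6 := norm_nonneg (psi' D H K)
  nlinarith

end Psi

/-- a unitary representation on a Hilbert space -/
structure Rep (Γ : Type) [Group Γ] where
  /-- the space -/
  H : Type
  [i1 : NormedAddCommGroup H]
  [i2 : InnerProductSpace ℂ H]
  [i3 : CompleteSpace H]
  /-- the representation -/
  π : Γ →* unitary (H →L[ℂ] H)

attribute [instance] Rep.i1 Rep.i2 Rep.i3

/-- a family of operators that is uniformly approximated by matrices over the group algebra -/
def Approx (T : ∀ R : Rep Γ, HD D R.H →L[ℂ] HD D R.H) : Prop :=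
  ∀ ε : ℝ, 0 < ε → ∃ Z : Matrix D D (MonoidAlgebra ℂ Γ), ∀ R : Rep Γ,
    ‖T R - evM (und R.π) Z‖ ≤ ε

theorem norm_finsuppSum_sub_le {ι A : Type} [NormedAddCommGroup A] [NormedSpace ℂ A]
    (x : ι →₀ ℂ) (f g : ι → A) {ε : ℝ} (h : ∀ p ∈ x.support, ‖f p - g p‖ ≤ ε) :
    ‖x.sum fun p c => c • f p‖ ≤ ‖x.sum fun p c => c • g p‖ + (∑ p ∈ x.support, ‖x p‖) * ε := by
  have h1 : (x.sum fun p c => c • f p) = (x.sum fun p c => c • g p) +
      ∑ p ∈ x.support, x p • (f p - g p) := by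
    simp only [Finsupp.sum, smul_sub, Finset.sum_sub_distrib]
    abel
  rw [h1]
  refine (norm_add_le _ _).trans (add_le_add le_rfl ((norm_sum_le _ _).trans ?_))
  rw [Finset.sum_mul]
  refine Finset.sum_le_sum fun p hp => ?_
  rw [norm_smul]
  exact mul_le_mul_of_nonneg_left (h p hp) (norm_nonneg _)

theorem transfer1 {F : Type} [Group F] (hN : Nuc Γ Λ)
    (β : ∀ R : Rep Γ, F →* unitary (HD D R.H →L[ℂ] HD D R.H))
    (hβ : ∀ w, Approx fun R => (β R w : HD D R.H →L[ℂ] HD D R.H))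
    {x : F × Λ →₀ ℂ} {r : ℝ} (hx : MinLe x r) (R : Rep Γ) (ρ : Λ →* unitary (R.H →L[ℂ] R.H))
    (h : ∀ g l, Commute (R.π g : R.H →L[ℂ] R.H) (ρ l : R.H →L[ℂ] R.H)) :
    ‖x.sum fun p c => c • ((β R p.1 : HD D R.H →L[ℂ] HD D R.H) *
      diag D (ρ p.2 : R.H →L[ℂ] R.H))‖ ≤ r := by
  set C := ∑ p ∈ x.support, ‖x p‖ with hC
  have hC0 : 0 ≤ C := Finset.sum_nonneg fun _ _ => norm_nonneg _
  refine le_of_forall_pos_le_add fun η hη => ?_
  have hε : 0 < η / (2 * C + 1) := by positivity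
  set ε := η / (2 * C + 1) with hεd
  choose Z hZ using fun w => hβ w ε hε
  let Y : F × Λ → Matrix D D (MonoidAlgebra ℂ (Γ × Λ)) := fun p =>
    (Z p.1).map fun z => MonoidAlgebra.mapDomainAlgHom ℂ ℂ (MonoidHom.inl Γ Λ) z *
      MonoidAlgebra.single (1, p.2) 1
  have hX := hN.matrix (x.sum fun p c => c • Y p) (r := r + C * ε) ?_ R.H R.π ρ h
  · have e1 : evM (pair R.π ρ h) (x.sum fun p c => c • Y p) =
        x.sum fun p c => c • (evM (und R.π) (Z p.1) * diag D (ρ p.2 : R.H →L[ℂ] R.H)) := by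
      rw [map_finsuppSum]
      refine Finsupp.sum_congr fun p _ => ?_
      rw [map_smul, evM_eq, evM_eq, diag, ← map_mul]
      congr 2
      refine Matrix.ext fun i j => ?_
      rw [Matrix.mul_diagonal]
      simp only [Y, Matrix.map_apply, map_mul, ev_single, one_smul, pair_apply, map_one,
        OneMemClass.coe_one, one_mul]
      congr 1
      induction Z p.1 i j using MonoidAlgebra.induction_linear with
      | zero => simp
      | add a b ha hb => simp only [map_add, ha, hb]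
      | single g c => simp
    rw [e1] at hX
    have h2 := norm_finsuppSum_sub_le x
      (fun p => (β R p.1 : HD D R.H →L[ℂ] HD D R.H) * diag D (ρ p.2 : R.H →L[ℂ] R.H))
      (fun p => evM (und R.π) (Z p.1) * diag D (ρ p.2 : R.H →L[ℂ] R.H)) (ε := ε) (fun p _ => by
        rw [← sub_mul]
        refine (norm_mul_le _ _).trans ?_
        have h3 := (norm_diag_le (D := D) _).trans (uni_opNorm_le (ρ p.2))
        have h4 := hZ p.1 R
        nlinarith [norm_nonneg (diag D (ρ p.2 : R.H →L[ℂ] R.H))])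
    have h5 : (2 * C + 1) * ε = η := by rw [hεd]; field_simp
    nlinarith
  · intro H _ _ _ K _ _ _ π' ρ'
    let R' : Rep Γ := ⟨H, π'⟩
    have e1 : evM (tens π' ρ') (x.sum fun p c => c • Y p) =
        (psi' D H K).comp ((x.sum fun p c => c • TensorProduct.mapL (evM (und π') (Z p.1))
          (ρ' p.2 : K →L[ℂ] K)).comp (psi D H K)) := by
      rw [map_finsuppSum, Finsupp.sum, Finsupp.sum, ContinuousLinearMap.finset_sum_comp,
        ContinuousLinearMap.comp_finset_sum]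
      refine Finset.sum_congr rfl fun p _ => ?_
      rw [map_smul, ContinuousLinearMap.smul_comp, ContinuousLinearMap.comp_smul, evM_eq, evM_eq,
        psi_conj]
      congr 2
      refine Matrix.ext fun i j => ?_
      simp only [Y, Matrix.map_apply, map_mul, ev_single, one_smul, tens_apply, map_one,
        OneMemClass.coe_one]
      induction Z p.1 i j using MonoidAlgebra.induction_linear with
      | zero => simp
      | add a b ha hb => simp only [map_add, add_mul, ha, hb, TensorProduct.mapL_add_left]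
      | single g c =>
        simp only [MonoidAlgebra.mapDomainAlgHom_apply, MonoidAlgebra.mapDomain_single,
          ev_single, tens_apply, MonoidHom.inl_apply, map_one, OneMemClass.coe_one,
          und_apply, TensorProduct.mapL_smul_left]
        have h9 := TensorProduct.mapL_mul (π' g : H →L[ℂ] H) 1 1 (ρ' p.2 : K →L[ℂ] K)
        rw [mul_one, one_mul] at h9
        rw [h9]
        rfl
    rw [e1]
    refine (norm_psi_conj_le _).trans ?_
    have h2 := norm_finsuppSum_sub_le x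
      (fun p => TensorProduct.mapL (evM (und π') (Z p.1)) (ρ' p.2 : K →L[ℂ] K))
      (fun p => TensorProduct.mapL (β R' p.1 : HD D H →L[ℂ] HD D H) (ρ' p.2 : K →L[ℂ] K))
      (ε := ε) (fun p _ => by
        have e2 : TensorProduct.mapL (evM (und π') (Z p.1)) (ρ' p.2 : K →L[ℂ] K) -
            TensorProduct.mapL (β R' p.1 : HD D H →L[ℂ] HD D H) (ρ' p.2 : K →L[ℂ] K) =
            TensorProduct.mapL (evM (und π') (Z p.1) - (β R' p.1 : HD D H →L[ℂ] HD D H))
              (ρ' p.2 : K →L[ℂ] K) := by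
          rw [sub_eq_iff_eq_add, ← TensorProduct.mapL_add_left, sub_add_cancel]
        rw [e2]
        refine (TensorProduct.norm_mapL_le _ _).trans ?_
        have h3 := uni_opNorm_le (ρ' p.2)
        have h4 := hZ p.1 R'
        rw [norm_sub_rev] at h4
        nlinarith [norm_nonneg (ρ' p.2 : K →L[ℂ] K)])
    have h3 := hx (HD D H) K (β R') ρ'
    exact h2.trans (add_le_add h3 le_rfl)

end Pool.Agent.P.MP_95bcfc_an
end

-- part Pool.Agent.P.MP_95bcfc_an.Exp
section

set_option autoImplicit false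
set_option linter.unusedSectionVars false
set_option linter.deprecated false

open scoped TensorProduct InnerProductSpace Nat

namespace Pool.Agent.P.MP_95bcfc_an

variable {Γ Λ : Type} [Group Γ] [Group Λ] {D : Type} [Fintype D] [DecidableEq D]

theorem Approx.one : Approx (Γ := Γ) (D := D) fun _ => 1 :=
  fun ε hε => ⟨1, fun R => by simpa using hε.le⟩

theorem Approx.mul {S T : ∀ R : Rep Γ, unitary (HD D R.H →L[ℂ] HD D R.H)}
    (hS : Approx fun R => (S R : HD D R.H →L[ℂ] HD D R.H))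
    (hT : Approx fun R => (T R : HD D R.H →L[ℂ] HD D R.H)) :
    Approx fun R => ((S R * T R : unitary (HD D R.H →L[ℂ] HD D R.H)) :
      HD D R.H →L[ℂ] HD D R.H) := by
  intro ε hε
  obtain ⟨Z, hZ⟩ := hS (min 1 (ε / 3)) (by positivity)
  obtain ⟨W, hW⟩ := hT (ε / 3) (by positivity)
  refine ⟨Z * W, fun R => ?_⟩
  have h1 := hZ R
  have h2 := hW R
  simp only at h1 h2 ⊢
  rw [map_mul, Submonoid.coe_mul]
  have ha := uni_opNorm_le (S R)
  have hb := uni_opNorm_le (T R)
  generalize (S R).1 = a at *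
  generalize (T R).1 = b at *
  generalize evM (und R.π) Z = z at *
  generalize evM (und R.π) W = w at *
  have e : a * b - z * w = (a - z) * b + (a - (a - z)) * (b - w) := by
    rw [sub_sub_cancel, sub_mul, mul_sub]
    abel
  have h3 : ‖a - (a - z)‖ ≤ 2 := (norm_sub_le _ _).trans (by linarith [min_le_left 1 (ε / 3)])
  rw [e]
  refine (norm_add_le _ _).trans ?_
  have h4 := norm_mul_le (a - z) b
  have h5 := norm_mul_le (a - (a - z)) (b - w)
  have h6 := min_le_right 1 (ε / 3)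
  nlinarith [norm_nonneg (a - z), norm_nonneg b, norm_nonneg (b - w), norm_nonneg (a - (a - z))]

theorem evM_adj {Z Z' : Matrix D D (MonoidAlgebra ℂ Γ)}
    (h : ∀ (E : Type) [NormedAddCommGroup E] [InnerProductSpace ℂ E] (U : Γ →* (E →L[ℂ] E)),
      IsUni U → ∀ u v, ⟪evM U Z' u, v⟫_ℂ = ⟪u, evM U Z v⟫_ℂ) (R : Rep Γ) :
    evM (und R.π) Z' = star (evM (und R.π) Z) := by
  rw [ContinuousLinearMap.star_eq_adjoint, ContinuousLinearMap.eq_adjoint_iff]
  exact h _ _ (isUni_und R.π)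

theorem Approx.inv {S : ∀ R : Rep Γ, unitary (HD D R.H →L[ℂ] HD D R.H)}
    (hS : Approx fun R => (S R : HD D R.H →L[ℂ] HD D R.H)) :
    Approx fun R => (((S R)⁻¹ : unitary (HD D R.H →L[ℂ] HD D R.H)) :
      HD D R.H →L[ℂ] HD D R.H) := by
  intro ε hε
  obtain ⟨Z, hZ⟩ := hS ε hε
  obtain ⟨Z', hZ'⟩ := exists_adjM Z
  refine ⟨Z', fun R => ?_⟩
  have h1 := hZ R
  simp only at h1 ⊢
  rw [evM_adj hZ' R, ← Unitary.star_eq_inv, Unitary.coe_star]
  have h2 := norm_star ((S R).1 - evM (und R.π) Z)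
  rw [star_sub] at h2
  exact h2.le.trans h1

theorem exists_bound (Z : Matrix D D (MonoidAlgebra ℂ Γ)) :
    ∃ C : ℝ, 0 ≤ C ∧ ∀ R : Rep Γ, ‖evM (und R.π) Z‖ ≤ C := by
  refine ⟨∑ i, ∑ j, ∑ g ∈ (Z i j).coeff.support, ‖(Z i j).coeff g‖, by positivity, fun R => ?_⟩
  rw [evM_eq]
  refine (norm_blk_le _).trans (Finset.sum_le_sum fun i _ => Finset.sum_le_sum fun j _ => ?_)
  rw [Matrix.map_apply, ev_apply, Finsupp.sum]
  refine (norm_sum_le _ _).trans (Finset.sum_le_sum fun g _ => ?_)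
  rw [norm_smul]
  exact mul_le_of_le_one_right (norm_nonneg _) (uni_opNorm_le _)

theorem approx_exp (Z : Matrix D D (MonoidAlgebra ℂ Γ)) :
    Approx fun R => NormedSpace.exp (evM (und R.π) Z) := by
  intro ε hε
  obtain ⟨C, hC0, hC⟩ := exists_bound Z
  have hs := Real.summable_pow_div_factorial C
  have ht := tendsto_sum_nat_add fun n : ℕ => C ^ n / (n ! : ℝ)
  obtain ⟨N, hN, hN1⟩ := ((ht.eventually (gt_mem_nhds hε)).and
    (Filter.eventually_ge_atTop 1)).exists
  refine ⟨∑ n ∈ Finset.range N, ((n ! : ℂ)⁻¹) • Z ^ n, fun R => ?_⟩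
  set a := evM (und R.π) Z with ha
  have h1 := NormedSpace.exp_series_hasSum_exp' (𝕂 := ℂ) a
  have h2 := (hasSum_nat_add_iff' N).2 h1
  simp only [map_sum, map_smul, map_pow]
  rw [← ha, ← h2.tsum_eq]
  refine (tsum_of_norm_bounded ((summable_nat_add_iff N).2 hs).hasSum fun n => ?_).trans hN.le
  rw [norm_smul, norm_inv, Complex.norm_natCast, div_eq_inv_mul]
  refine mul_le_mul_of_nonneg_left ?_ (by positivity)
  exact (norm_pow_le' a (by omega)).trans (pow_le_pow_left₀ (norm_nonneg _) (hC R) _)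

theorem exp_invol {A : Type} [NormedRing A] [NormedAlgebra ℂ A] [CompleteSpace A] {J : A}
    (hJ : J * J = 1) :
    NormedSpace.exp (((Real.pi : ℂ) * Complex.I) • ((1 / 2 : ℂ) • (1 - J))) = J := by
  set P : A := (1 / 2 : ℂ) • (1 - J) with hP
  set t : ℂ := (Real.pi : ℂ) * Complex.I with ht
  have hPP : P * P = P := by
    rw [hP, smul_mul_smul_comm, sub_mul, mul_sub, mul_sub, hJ]
    simp only [mul_one, one_mul]
    rw [show (1 : A) - J - (J - 1) = (2 : ℂ) • (1 - J) by rw [two_smul]; abel, smul_smul]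
    norm_num
  have hPn : ∀ n : ℕ, P ^ (n + 1) = P := by
    intro n
    induction n with
    | zero => simp
    | succ n ih => rw [pow_succ, ih, hPP]
  have h1 := NormedSpace.exp_series_hasSum_exp' (𝕂 := ℂ) (t • P)
  have h2 := (hasSum_nat_add_iff' 1).2 h1
  have h3 := (hasSum_nat_add_iff' 1).2 (NormedSpace.exp_series_hasSum_exp' (𝕂 := ℂ) t)
  have h4 := h3.smul_const P
  have h5 : (fun n : ℕ => (((n + 1)! : ℂ)⁻¹) • (t • P) ^ (n + 1)) =
      fun n : ℕ => ((((n + 1)! : ℂ)⁻¹) • t ^ (n + 1)) • P := by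
    funext n
    rw [smul_pow, hPn, smul_assoc]
  have h6 := h2.unique (h5 ▸ h4)
  rw [← Complex.exp_eq_exp_ℂ, ht, Complex.exp_pi_mul_I] at h6
  simp only [Finset.range_one, Finset.sum_singleton, Nat.factorial_zero, Nat.cast_one, inv_one,
    pow_zero, one_smul] at h6
  rw [sub_eq_iff_eq_add.1 h6, hP, smul_smul]
  norm_num

theorem exists_lift (Z : Matrix D D (MonoidAlgebra ℂ Γ)) :
    ∃ S : ∀ R : Rep Γ, unitary (HD D R.H →L[ℂ] HD D R.H),
      (Approx fun R => (S R : HD D R.H →L[ℂ] HD D R.H)) ∧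
      ∀ R : Rep Γ, star (evM (und R.π) Z) = evM (und R.π) Z →
        evM (und R.π) Z * evM (und R.π) Z = 1 → (S R : HD D R.H →L[ℂ] HD D R.H) = evM (und R.π) Z := by
  obtain ⟨Z', hZ'⟩ := exists_adjM Z
  let Y : Matrix D D (MonoidAlgebra ℂ Γ) :=
    ((Real.pi : ℂ) * Complex.I) • ((1 / 2 : ℂ) • (1 - (1 / 2 : ℂ) • (Z + Z')))
  have hY : ∀ R : Rep Γ, evM (und R.π) Y = ((Real.pi : ℂ) * Complex.I) • ((1 / 2 : ℂ) •
      (1 - (1 / 2 : ℂ) • (evM (und R.π) Z + star (evM (und R.π) Z)))) := by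
    intro R
    simp only [Y, map_smul, map_sub, map_one, map_add, evM_adj hZ' R]
  have hsk : ∀ R : Rep Γ, evM (und R.π) Y ∈ skewAdjoint (HD D R.H →L[ℂ] HD D R.H) := by
    intro R
    rw [hY, skewAdjoint.mem_iff]
    simp only [star_smul, star_sub, star_one, star_add, star_star, star_mul', RCLike.star_def,
      Complex.conj_ofReal, Complex.conj_I, map_div₀, map_one, map_ofNat, add_comm (star _),
      mul_neg]
    exact neg_smul (M := HD D R.H →L[ℂ] HD D R.H) (Real.pi * Complex.I : ℂ) _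
  refine ⟨fun R => ⟨NormedSpace.exp (evM (und R.π) Y), ?_⟩, approx_exp Y, fun R h1 h2 => ?_⟩
  · let +nondep : NormedAlgebra ℚ (HD D R.H →L[ℂ] HD D R.H) := .restrictScalars ℚ ℂ _
    exact NormedSpace.exp_mem_unitary_of_mem_skewAdjoint (hsk R)
  · change NormedSpace.exp (evM (und R.π) Y) = _
    rw [hY, h1, ← two_smul ℂ (evM (und R.π) Z), smul_smul (1 / 2 : ℂ) 2]
    norm_num only [one_smul]
    exact exp_invol h2

/-- the free group of rank two -/
abbrev F2 : Type := FreeGroup (Fin 2)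

theorem transfer (hN : Nuc Γ Λ)
    (hyp : ∀ (L : Type) [NormedAddCommGroup L] [InnerProductSpace ℂ L] [CompleteSpace L]
      (σ : F2 →* unitary (L →L[ℂ] L)) (ρ : Λ →* unitary (L →L[ℂ] L)),
      (∀ g h, Commute (σ g : L →L[ℂ] L) (ρ h : L →L[ℂ] L)) → ∀ δ : ℝ, 0 < δ →
      ∃ (D : Type) (_ : Fintype D) (_ : DecidableEq D)
        (Z : Fin 2 → Fin 2 → Matrix D D (MonoidAlgebra ℂ Γ)) (R : Rep Γ)
        (ρ' : Λ →* unitary (R.H →L[ℂ] R.H)) (V : L →L[ℂ] HD D R.H),
        (∀ g l, Commute (R.π g : R.H →L[ℂ] R.H) (ρ' l : R.H →L[ℂ] R.H)) ∧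
        (∀ ξ, ‖V ξ‖ = ‖ξ‖) ∧
        (∀ l ξ, diag D (ρ' l : R.H →L[ℂ] R.H) (V ξ) = V ((ρ l : L →L[ℂ] L) ξ)) ∧
        (∀ k m, star (evM (und R.π) (Z k m)) = evM (und R.π) (Z k m) ∧
          evM (und R.π) (Z k m) * evM (und R.π) (Z k m) = 1) ∧
        ∀ k ξ, ‖evM (und R.π) (Z k 1) (evM (und R.π) (Z k 0) (V ξ)) -
          V ((σ (FreeGroup.of k) : L →L[ℂ] L) ξ)‖ ≤ δ * ‖ξ‖) : Nuc F2 Λ := by
  intro x r hx L _ _ _ σ ρ hc
  set C := ∑ p ∈ x.support, ‖x p‖ * (p.1.norm : ℝ) with hC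
  have hC0 : 0 ≤ C := Finset.sum_nonneg fun _ _ => by positivity
  refine le_of_forall_pos_le_add fun η hη => ?_
  have hδ : 0 < η / (C + 1) := by positivity
  set δ := η / (C + 1) with hδd
  obtain ⟨D, _, _, Z, R, ρ', V, h1, h2, h3, h4, h5⟩ := hyp L σ ρ hc δ hδ
  choose S hS hS' using fun k m => exists_lift (Z k m)
  let β : ∀ R : Rep Γ, F2 →* unitary (HD D R.H →L[ℂ] HD D R.H) := fun R =>
    FreeGroup.lift fun k => S k 1 R * S k 0 R
  have hβ : ∀ w, Approx fun R => (β R w : HD D R.H →L[ℂ] HD D R.H) := by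
    intro w
    induction w using FreeGroup.induction_on with
    | C1 => simpa using Approx.one
    | of k => simpa only [β, FreeGroup.lift_apply_of] using (hS k 1).mul (hS k 0)
    | inv_of k ih => simpa only [map_inv] using ih.inv
    | mul a b ha hb => simpa only [MonoidHom.map_mul] using ha.mul hb
  have hT := transfer1 hN β hβ hx R ρ' h1
  have hgen : ∀ k ξ, ‖(β R (FreeGroup.of k) : HD D R.H →L[ℂ] HD D R.H) (V ξ) -
      V ((σ (FreeGroup.of k) : L →L[ℂ] L) ξ)‖ ≤ δ * ‖ξ‖ := by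
    intro k ξ
    simp only [β, FreeGroup.lift_apply_of, Submonoid.coe_mul, ContinuousLinearMap.mul_apply,
      hS' k 1 R (h4 k 1).1 (h4 k 1).2, hS' k 0 R (h4 k 0).1 (h4 k 0).2]
    exact h5 k ξ
  have hmul : ∀ (a b : F2) (s t : ℝ),
      (∀ ξ, ‖(β R a : HD D R.H →L[ℂ] HD D R.H) (V ξ) - V ((σ a : L →L[ℂ] L) ξ)‖ ≤ s * ‖ξ‖) →
      (∀ ξ, ‖(β R b : HD D R.H →L[ℂ] HD D R.H) (V ξ) - V ((σ b : L →L[ℂ] L) ξ)‖ ≤ t * ‖ξ‖) →
      ∀ ξ, ‖(β R (a * b) : HD D R.H →L[ℂ] HD D R.H) (V ξ) - V ((σ (a * b) : L →L[ℂ] L) ξ)‖ ≤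
        (s + t) * ‖ξ‖ := by
    intro a b s t ha hb ξ
    have e : (β R (a * b) : HD D R.H →L[ℂ] HD D R.H) (V ξ) - V ((σ (a * b) : L →L[ℂ] L) ξ) =
        ((β R a : HD D R.H →L[ℂ] HD D R.H) (V ((σ b : L →L[ℂ] L) ξ)) -
          V ((σ a : L →L[ℂ] L) ((σ b : L →L[ℂ] L) ξ))) +
        (β R a : HD D R.H →L[ℂ] HD D R.H) ((β R b : HD D R.H →L[ℂ] HD D R.H) (V ξ) -
          V ((σ b : L →L[ℂ] L) ξ)) := by
      simp only [MonoidHom.map_mul, Submonoid.coe_mul, ContinuousLinearMap.mul_apply, map_sub]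
      abel
    rw [e]
    refine (norm_add_le _ _).trans ?_
    rw [uni_norm]
    have h6 := ha ((σ b : L →L[ℂ] L) ξ)
    rw [uni_norm] at h6
    linarith [hb ξ]
  have hinv : ∀ (a : F2) (s : ℝ),
      (∀ ξ, ‖(β R a : HD D R.H →L[ℂ] HD D R.H) (V ξ) - V ((σ a : L →L[ℂ] L) ξ)‖ ≤ s * ‖ξ‖) →
      ∀ ξ, ‖(β R a⁻¹ : HD D R.H →L[ℂ] HD D R.H) (V ξ) - V ((σ a⁻¹ : L →L[ℂ] L) ξ)‖ ≤ s * ‖ξ‖ := by
    intro a s ha ξ
    have h6 := ha ((σ a⁻¹ : L →L[ℂ] L) ξ)
    rw [uni_norm] at h6
    rw [← uni_norm (β R a), map_sub, norm_sub_rev]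
    have e1 : (β R a : HD D R.H →L[ℂ] HD D R.H) ((β R a⁻¹ : HD D R.H →L[ℂ] HD D R.H) (V ξ)) =
        V ξ := by
      rw [← ContinuousLinearMap.mul_apply, ← Submonoid.coe_mul, ← MonoidHom.map_mul]
      simp
    have e2 : (σ a : L →L[ℂ] L) ((σ a⁻¹ : L →L[ℂ] L) ξ) = ξ := by
      rw [← ContinuousLinearMap.mul_apply, ← Submonoid.coe_mul, ← MonoidHom.map_mul]
      simp
    rw [e1]
    rwa [e2] at h6
  have hlist : ∀ (l : List (Fin 2 × Bool)) (ξ : L),
      ‖(β R (FreeGroup.mk l) : HD D R.H →L[ℂ] HD D R.H) (V ξ) -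
        V ((σ (FreeGroup.mk l) : L →L[ℂ] L) ξ)‖ ≤ (l.length * δ) * ‖ξ‖ := by
    intro l
    induction l with
    | nil => intro ξ; simp [← FreeGroup.one_eq_mk]
    | cons a l ih =>
      have e : FreeGroup.mk (a :: l) = FreeGroup.mk [a] * FreeGroup.mk l := by
        rw [FreeGroup.mul_mk]; rfl
      have h7 : ∀ ξ, ‖(β R (FreeGroup.mk [a]) : HD D R.H →L[ℂ] HD D R.H) (V ξ) -
          V ((σ (FreeGroup.mk [a]) : L →L[ℂ] L) ξ)‖ ≤ δ * ‖ξ‖ := by
        obtain ⟨k, b⟩ := a
        cases b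
        · have e3 : FreeGroup.mk [(k, false)] = (FreeGroup.of k)⁻¹ := by
            rw [FreeGroup.of, FreeGroup.inv_mk]; rfl
          rw [e3]
          exact hinv _ _ (hgen k)
        · exact hgen k
      intro ξ
      have h8 := hmul _ _ _ _ h7 ih ξ
      rw [e]
      refine h8.trans (le_of_eq ?_)
      simp only [List.length_cons, Nat.cast_add, Nat.cast_one]
      ring
  have hall : ∀ (w : F2) (ξ : L), ‖(β R w : HD D R.H →L[ℂ] HD D R.H) (V ξ) -
      V ((σ w : L →L[ℂ] L) ξ)‖ ≤ (w.norm * δ) * ‖ξ‖ := by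
    intro w ξ
    have := hlist w.toWord ξ
    rwa [FreeGroup.mk_toWord] at this
  have hr : 0 ≤ r := (norm_nonneg _).trans hT
  refine ContinuousLinearMap.opNorm_le_bound _ (by positivity) fun ξ => ?_
  have e : V ((x.sum fun p c => c • ((σ p.1 : L →L[ℂ] L) * (ρ p.2 : L →L[ℂ] L))) ξ) =
      (x.sum fun p c => c • ((β R p.1 : HD D R.H →L[ℂ] HD D R.H) *
        diag D (ρ' p.2 : R.H →L[ℂ] R.H))) (V ξ) -
      ∑ p ∈ x.support, x p • ((β R p.1 : HD D R.H →L[ℂ] HD D R.H) (V ((ρ p.2 : L →L[ℂ] L) ξ)) -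
        V ((σ p.1 : L →L[ℂ] L) ((ρ p.2 : L →L[ℂ] L) ξ))) := by
    simp only [Finsupp.sum, ContinuousLinearMap.sum_apply, ContinuousLinearMap.smul_apply,
      ContinuousLinearMap.mul_apply, map_sum, map_smul, h3, smul_sub, Finset.sum_sub_distrib]
    abel
  rw [← h2, e]
  refine (norm_sub_le _ _).trans ?_
  have h6 := (ContinuousLinearMap.le_opNorm _ (V ξ)).trans
    (mul_le_mul_of_nonneg_right hT (norm_nonneg _))
  rw [h2] at h6
  have h7 : ‖∑ p ∈ x.support, x p •
      ((β R p.1 : HD D R.H →L[ℂ] HD D R.H) (V ((ρ p.2 : L →L[ℂ] L) ξ)) -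
        V ((σ p.1 : L →L[ℂ] L) ((ρ p.2 : L →L[ℂ] L) ξ)))‖ ≤ C * δ * ‖ξ‖ := by
    rw [hC, Finset.sum_mul, Finset.sum_mul]
    refine (norm_sum_le _ _).trans (Finset.sum_le_sum fun p _ => ?_)
    rw [norm_smul, mul_assoc, mul_assoc]
    refine mul_le_mul_of_nonneg_left ?_ (norm_nonneg _)
    have h8 := hall p.1 ((ρ p.2 : L →L[ℂ] L) ξ)
    rw [uni_norm] at h8
    rwa [← mul_assoc]
  have h8 : (C + 1) * δ = η := by rw [hδd]; field_simp
  nlinarith [norm_nonneg ξ, mul_nonneg hδ.le (norm_nonneg ξ)]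

end Pool.Agent.P.MP_95bcfc_an
end

-- part Pool.Agent.P.MP_95bcfc_an.Gns
section

set_option autoImplicit false
set_option linter.unusedSectionVars false
set_option linter.deprecated false

open scoped TensorProduct InnerProductSpace ComplexConjugate

namespace Pool.Agent.P.MP_95bcfc_an

theorem exists_kernel_space {Y : Type} (k : Y → Y → ℂ) (hs : ∀ y y', conj (k y y') = k y' y)
    (hp : ∀ (s : Finset Y) (c : Y → ℂ),
      0 ≤ (∑ y ∈ s, ∑ y' ∈ s, conj (c y) * c y' * k y y').re) :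
    ∃ (H : Type) (_ : NormedAddCommGroup H) (_ : InnerProductSpace ℂ H) (_ : CompleteSpace H)
      (e : Y → H), (∀ y y', ⟪e y, e y'⟫_ℂ = k y y') ∧
        Dense (Submodule.span ℂ (Set.range e) : Set H) := by
  classical
  let K : Matrix Y Y (ℂ →L[ℂ] ℂ) := Matrix.of fun x y => k x y • (1 : ℂ →L[ℂ] ℂ)
  have hK : K.PosSemidef := by
    have ht := (RKHS.posSemidef_tfae (K := K)).out 2 0
    refine ht.mp ⟨?_, fun vv => ?_⟩
    · ext x y
      simp [K, Matrix.conjTranspose_apply, hs]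
    · have := hp vv.support vv
      refine this.trans (le_of_eq ?_)
      change _ = Complex.re _
      congr 1
      refine Finset.sum_congr rfl fun x _ => Finset.sum_congr rfl fun y _ => ?_
      simp [K, hs]
      ring
  haveI : Fact K.PosSemidef := ⟨hK⟩
  refine ⟨RKHS.OfKernel K, inferInstance, inferInstance, inferInstance,
    fun y => RKHS.kerFun (RKHS.OfKernel K) y 1, fun y y' => ?_, ?_⟩
  · rw [← RKHS.kernel_inner, RKHS.OfKernel.kernel_ofKernel]
    simp [K, hs]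
  · have h := RKHS.kerFun_dense (𝕜 := ℂ) (RKHS.OfKernel K)
    rw [← Submodule.dense_iff_topologicalClosure_eq_top] at h
    refine h.mono ?_
    refine Submodule.span_le.2 ?_
    rintro _ ⟨x, v, rfl⟩
    have : RKHS.kerFun (RKHS.OfKernel K) x v = v • RKHS.kerFun (RKHS.OfKernel K) x 1 := by
      rw [← map_smul]; simp
    rw [this]
    exact Submodule.smul_mem _ _ (Submodule.subset_span ⟨x, rfl⟩)

theorem gns {Y Δ : Type} [Group Δ] [MulAction Δ Y] (k : Y → Y → ℂ)
    (hs : ∀ y y', conj (k y y') = k y' y)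
    (hp : ∀ (s : Finset Y) (c : Y → ℂ),
      0 ≤ (∑ y ∈ s, ∑ y' ∈ s, conj (c y) * c y' * k y y').re)
    (hinv : ∀ (g : Δ) y y', k (g • y) (g • y') = k y y') :
    ∃ (R : Rep Δ) (e : Y → R.H), (∀ y y', ⟪e y, e y'⟫_ℂ = k y y') ∧
      (∀ g y, (R.π g : R.H →L[ℂ] R.H) (e y) = e (g • y)) ∧
        Dense (Submodule.span ℂ (Set.range e) : Set R.H) := by
  obtain ⟨H, _, _, _, e, he, hd⟩ := exists_kernel_space k hs hp
  let E : (Y →₀ ℂ) →ₗ[ℂ] H := Finsupp.linearCombination ℂ e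
  have hE : DenseRange E := by
    have : Set.range E = (Submodule.span ℂ (Set.range e) : Set H) := by
      rw [← Finsupp.range_linearCombination]; rfl
    rwa [DenseRange, this]
  let f : Δ → (Y →₀ ℂ) ≃ₗ[ℂ] (Y →₀ ℂ) := fun g => Finsupp.domLCongr (MulAction.toPerm g)
  have hf : ∀ g y, E (f g (Finsupp.single y 1)) = e (g • y) := by
    intro g y
    simp [E, f]
  have hE1 : ∀ y, E (Finsupp.single y 1) = e y := fun y => by simp [E]
  have hin : ∀ g a b, ⟪E (f g a), E (f g b)⟫_ℂ = ⟪E a, E b⟫_ℂ := by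
    intro g a b
    induction a using Finsupp.induction_linear with
    | zero => simp
    | add a a' h1 h2 => simp only [map_add, inner_add_left, h1, h2]
    | single y c =>
      induction b using Finsupp.induction_linear with
      | zero => simp
      | add a a' h1 h2 => simp only [map_add, inner_add_right, h1, h2]
      | single y' c' =>
        rw [← Finsupp.smul_single_one y c, ← Finsupp.smul_single_one y' c']
        simp only [map_smul, inner_smul_left, inner_smul_right, hf, hE1, he, hinv]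
  have hn : ∀ g a, ‖E (f g a)‖ = ‖E a‖ := by
    intro g a
    rw [@norm_eq_sqrt_re_inner ℂ, @norm_eq_sqrt_re_inner ℂ, hin]
  let U : Δ → unitary (H →L[ℂ] H) := fun g =>
    Unitary.linearIsometryEquiv.symm ((f g).extendOfIsometry E E hE hE (hn g))
  have hU : ∀ g y, (U g : H →L[ℂ] H) (e y) = e (g • y) := by
    intro g y
    rw [← hf, ← hE1]
    exact LinearEquiv.extendOfIsometry_eq _ _ _ hE hE (hn g) _
  refine ⟨⟨H, MonoidHom.mk' U fun g h => ?_⟩, e, he, hU, hd⟩
  refine Subtype.ext (ContinuousLinearMap.ext_on hd ?_)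
  rintro _ ⟨y, rfl⟩
  simp only [Submonoid.coe_mul, ContinuousLinearMap.mul_apply, hU, mul_smul]

variable {Γ Λ : Type} [Group Γ] [Group Λ]

theorem Nuc.symm (h : Nuc Γ Λ) : Nuc Λ Γ := by
  intro x r hx L _ _ _ π ρ hc
  have h1 := h (x.equivMapDomain (Equiv.prodComm Λ Γ)) r ?_ L ρ π fun g l => (hc l g).symm
  · rw [Finsupp.sum_equivMapDomain] at h1
    refine le_of_eq_of_le ?_ h1
    congr 1
    refine Finsupp.sum_congr fun p _ => ?_
    rw [(hc _ _).eq]
    rfl
  · intro H _ _ _ K _ _ _ π' ρ'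
    have h2 := hx K H ρ' π'
    rw [Finsupp.sum_equivMapDomain]
    have hr : 0 ≤ r := (norm_nonneg (x.sum fun p c =>
      c • TensorProduct.mapL (ρ' p.1 : K →L[ℂ] K) (π' p.2 : H →L[ℂ] H))).trans h2
    refine ContinuousLinearMap.opNorm_le_bound _ hr fun v => ?_
    have h3 := (ContinuousLinearMap.le_opNorm _ (TensorProduct.comm ℂ H K v)).trans
      (mul_le_mul_of_nonneg_right h2 (norm_nonneg _))
    rw [TensorProduct.norm_comm] at h3
    refine le_of_eq_of_le ?_ h3
    rw [← TensorProduct.norm_comm]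
    congr 1
    simp only [Finsupp.sum, ContinuousLinearMap.sum_apply, ContinuousLinearMap.smul_apply,
      map_sum, map_smul]
    refine Finset.sum_congr rfl fun p _ => ?_
    congr 1
    clear h3
    induction v using TensorProduct.induction_on with
    | zero => simp
    | add a b ha hb => simp only [map_add, ha, hb]
    | tmul a b => simp

/-- a sum of inner products over pairs in the same class is nonnegative -/
theorem sum_class_nonneg {Y C L : Type} [NormedAddCommGroup L] [InnerProductSpace ℂ L]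
    [DecidableEq C] (s : Finset Y) (cl : Y → C) (v : Y → L) :
    0 ≤ (∑ y ∈ s, ∑ y' ∈ s, if cl y = cl y' then ⟪v y, v y'⟫_ℂ else 0).re := by
  have h : (∑ y ∈ s, ∑ y' ∈ s, if cl y = cl y' then ⟪v y, v y'⟫_ℂ else 0) =
      ∑ c ∈ s.image cl, ⟪∑ y ∈ s with cl y = c, v y, ∑ y ∈ s with cl y = c, v y⟫_ℂ := by
    rw [← Finset.sum_fiberwise_of_maps_to (g := cl) (t := s.image cl)
      fun y hy => Finset.mem_image_of_mem _ hy]
    refine Finset.sum_congr rfl fun c _ => ?_
    rw [sum_inner]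
    refine Finset.sum_congr rfl fun y hy => ?_
    rw [inner_sum, Finset.sum_filter]
    refine Finset.sum_congr rfl fun y' _ => ?_
    rw [(Finset.mem_filter.1 hy).2]
    simp only [eq_comm]
  rw [h, Complex.re_sum]
  exact Finset.sum_nonneg fun c _ => inner_self_nonneg (𝕜 := ℂ)

theorem uni_inner_map {L : Type} [NormedAddCommGroup L] [InnerProductSpace ℂ L] [CompleteSpace L]
    (u : unitary (L →L[ℂ] L)) (a b : L) :
    ⟪(u : L →L[ℂ] L) a, (u : L →L[ℂ] L) b⟫_ℂ = ⟪a, b⟫_ℂ :=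
  ContinuousLinearMap.inner_map_map_of_mem_unitary u.2 a b

/-- a map into a Hilbert space with the inner products of an isometry is a linear isometry -/
theorem exists_clm {L H : Type} [NormedAddCommGroup L] [InnerProductSpace ℂ L]
    [NormedAddCommGroup H] [InnerProductSpace ℂ H] (f : L → H)
    (h : ∀ a b, ⟪f a, f b⟫_ℂ = ⟪a, b⟫_ℂ) :
    ∃ V : L →L[ℂ] H, (∀ a, V a = f a) ∧ ∀ a, ‖V a‖ = ‖a‖ := by
  have hn : ∀ a, ‖f a‖ = ‖a‖ := fun a => by
    rw [@norm_eq_sqrt_re_inner ℂ, @norm_eq_sqrt_re_inner ℂ, h]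
  let g : L →ₗ[ℂ] H :=
    { toFun := f
      map_add' := fun a b => by
        rw [← sub_eq_zero, ← @inner_self_eq_zero ℂ]
        simp only [inner_sub_left, inner_sub_right, inner_add_left, inner_add_right, h]
        ring
      map_smul' := fun c a => by
        rw [← sub_eq_zero, ← @inner_self_eq_zero ℂ]
        simp only [inner_sub_left, inner_sub_right, inner_smul_left, inner_smul_right, h,
          RingHom.id_apply]
        ring }
  exact ⟨g.mkContinuous 1 fun a => by simp [g, hn], fun a => rfl, hn⟩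

theorem Nuc.subgroup (h : Nuc Γ Λ) (S : Subgroup Γ) : Nuc S Λ := by
  classical
  intro x r hx L _ _ _ σ ρ hc
  letI act : MulAction (Γ × Λ) (Γ × L) :=
    { smul := fun g y => (g.1 * y.1, (ρ g.2 : L →L[ℂ] L) y.2)
      one_smul := fun y => by
        change ((1 : Γ × Λ).1 * y.1, (ρ (1 : Γ × Λ).2 : L →L[ℂ] L) y.2) = y
        simp
      mul_smul := fun g h y => by
        change ((g * h).1 * y.1, (ρ (g * h).2 : L →L[ℂ] L) y.2) =
          (g.1 * (h.1 * y.1), (ρ g.2 : L →L[ℂ] L) ((ρ h.2 : L →L[ℂ] L) y.2))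
        simp [mul_assoc] }
  have hact : ∀ (g : Γ × Λ) (y : Γ × L),
      g • y = (g.1 * y.1, (ρ g.2 : L →L[ℂ] L) y.2) := fun _ _ => rfl
  let k : Γ × L → Γ × L → ℂ := fun y y' =>
    if hh : y.1⁻¹ * y'.1 ∈ S then ⟪y.2, (σ ⟨_, hh⟩ : L →L[ℂ] L) y'.2⟫_ℂ else 0
  have hφ : ∀ g : Γ, ((g : Γ ⧸ S).out)⁻¹ * g ∈ S := fun g =>
    QuotientGroup.eq.1 (QuotientGroup.out_eq' (g : Γ ⧸ S))
  have hk : ∀ y y', k y y' = if (y.1 : Γ ⧸ S) = (y'.1 : Γ ⧸ S) then
      ⟪(σ ⟨_, hφ y.1⟩ : L →L[ℂ] L) y.2, (σ ⟨_, hφ y'.1⟩ : L →L[ℂ] L) y'.2⟫_ℂ else 0 := by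
    intro y y'
    by_cases hh : y.1⁻¹ * y'.1 ∈ S
    · have h1 : (y.1 : Γ ⧸ S) = (y'.1 : Γ ⧸ S) := QuotientGroup.eq.2 hh
      simp only [k, dif_pos hh, if_pos h1]
      rw [uni_inner, ← ContinuousLinearMap.mul_apply, ← Submonoid.coe_mul, ← map_inv,
        ← MonoidHom.map_mul]
      congr 4
      ext
      simp [h1]
    · have h1 : ¬ (y.1 : Γ ⧸ S) = (y'.1 : Γ ⧸ S) := fun h => hh (QuotientGroup.eq.1 h)
      simp only [k, dif_neg hh, if_neg h1]
  obtain ⟨R, e, he, hU, -⟩ := gns (Δ := Γ × Λ) k (fun y y' => by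
      rw [hk, hk]
      by_cases h1 : (y.1 : Γ ⧸ S) = (y'.1 : Γ ⧸ S)
      · rw [if_pos h1, if_pos h1.symm, inner_conj_symm]
      · rw [if_neg h1, if_neg fun h => h1 h.symm, map_zero])
    (fun s c => by
      refine (sum_class_nonneg s (fun y => (y.1 : Γ ⧸ S))
        fun y => c y • (σ ⟨_, hφ y.1⟩ : L →L[ℂ] L) y.2).trans (le_of_eq ?_)
      congr 1
      refine Finset.sum_congr rfl fun y _ => Finset.sum_congr rfl fun y' _ => ?_
      rw [hk, inner_smul_left, inner_smul_right]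
      split_ifs <;> ring)
    (fun g y y' => by
      have e1 : (g.1 * y.1)⁻¹ * (g.1 * y'.1) = y.1⁻¹ * y'.1 := by group
      simp only [k, hact, e1]
      split_ifs with hh
      · rw [← ContinuousLinearMap.mul_apply, (hc _ _).eq, ContinuousLinearMap.mul_apply,
          uni_inner_map]
      · rfl)
  obtain ⟨V, hV, hVn⟩ := exists_clm (fun ξ => e (1, ξ)) fun a b => by
    rw [he]
    simp [k, ← Subtype.ext_iff, show (⟨1, S.one_mem⟩ : S) = 1 from rfl]
  have hcomm : ∀ g l, Commute ((R.π.comp (MonoidHom.inl Γ Λ)) g : R.H →L[ℂ] R.H)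
      ((R.π.comp (MonoidHom.inr Γ Λ)) l : R.H →L[ℂ] R.H) := by
    intro g l
    change _ * _ = _ * _
    simp only [MonoidHom.comp_apply, ← Submonoid.coe_mul, ← MonoidHom.map_mul]
    simp
  have h1 := h (x.mapDomain fun p => ((p.1 : Γ), p.2)) r ?_ R.H (R.π.comp (MonoidHom.inl Γ Λ))
    (R.π.comp (MonoidHom.inr Γ Λ)) hcomm
  · rw [Finsupp.sum_mapDomain_index (by simp) (by simp [add_smul])] at h1
    have hr : 0 ≤ r := (norm_nonneg _).trans h1
    refine ContinuousLinearMap.opNorm_le_bound _ hr fun ξ => ?_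
    have h2 := (ContinuousLinearMap.le_opNorm _ (V ξ)).trans
      (mul_le_mul_of_nonneg_right h1 (norm_nonneg _))
    rw [hVn] at h2
    refine le_of_eq_of_le ?_ h2
    rw [← hVn]
    congr 1
    simp only [Finsupp.sum, ContinuousLinearMap.sum_apply, ContinuousLinearMap.smul_apply,
      map_sum, map_smul, ContinuousLinearMap.mul_apply, MonoidHom.comp_apply]
    refine Finset.sum_congr rfl fun p _ => ?_
    congr 1
    rw [hV, hV, hU, hU, ← sub_eq_zero, ← @inner_self_eq_zero ℂ]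
    simp only [inner_sub_left, inner_sub_right, he, hact, k]
    simp only [MonoidHom.inl_apply, MonoidHom.inr_apply, mul_one, map_one, OneMemClass.coe_one,
      ContinuousLinearMap.one_apply, inv_one, one_mul, inv_mul_cancel, S.one_mem, dif_pos,
      p.1.2, S.inv_mem p.1.2]
    have e1 : (⟨(p.1 : Γ)⁻¹, S.inv_mem p.1.2⟩ : S) = p.1⁻¹ := rfl
    have e2 : (⟨1, S.one_mem⟩ : S) = 1 := rfl
    simp only [e1, e2, map_inv, ← uni_inner, map_one, OneMemClass.coe_one,
      ContinuousLinearMap.one_apply, Subtype.coe_eta, uni_inner_map]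
    ring
  · intro H _ _ _ K _ _ _ π' ρ'
    rw [Finsupp.sum_mapDomain_index (fun _ => ContinuousLinearMap.ext fun v => by simp)
      (fun _ _ _ => ContinuousLinearMap.ext fun v => by simp [add_smul])]
    exact hx H K (π'.comp S.subtype) ρ'

end Pool.Agent.P.MP_95bcfc_an
end

-- part Pool.Agent.P.MP_95bcfc_an.Induce
section

set_option autoImplicit false
set_option linter.unusedSectionVars false
set_option linter.deprecated false

open scoped InnerProductSpace ComplexConjugate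
open MeasureTheory

namespace Pool.Agent.P.MP_95bcfc_an

/-- bounded measurable functions -/
def BM (X : Type) [MeasurableSpace X] : Subalgebra ℂ (X → ℂ) where
  carrier := {f | Measurable f ∧ ∃ C, ∀ ω, ‖f ω‖ ≤ C}
  mul_mem' := by
    rintro f g ⟨h1, C, hC⟩ ⟨h2, C', hC'⟩
    refine ⟨h1.mul h2, C * C', fun ω => ?_⟩
    rw [Pi.mul_apply, norm_mul]
    exact mul_le_mul (hC ω) (hC' ω) (norm_nonneg _) ((norm_nonneg _).trans (hC ω))
  add_mem' := by
    rintro f g ⟨h1, C, hC⟩ ⟨h2, C', hC'⟩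
    exact ⟨h1.add h2, C + C', fun ω => (norm_add_le _ _).trans (add_le_add (hC ω) (hC' ω))⟩
  algebraMap_mem' c := ⟨measurable_const, ‖c‖, fun _ => le_rfl⟩

/-- the data from which a representation is induced -/
structure Sys (W G X : Type) [Group W] [Group G] [MeasurableSpace X] [MulAction G X] where
  /-- quotient map -/
  q : W →* G
  /-- scalar cocycle -/
  χ : W → BM X
  χ_norm : ∀ γ ω, ‖(χ γ).1 ω‖ = 1
  χ_one : χ 1 = 1
  χ_mul : ∀ γ γ' ω, (χ (γ * γ')).1 ω = (χ γ).1 ω * (χ γ').1 ((q γ)⁻¹ • ω)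
  /-- partial cocycle into the free group -/
  Rel : X → G → F2 → G → Prop
  pot : ∀ ω, ∃ (C : Type) (cl : G → C) (φ : G → F2), ∀ v w v',
    Rel ω v w v' ↔ cl v = cl v' ∧ w = (φ v)⁻¹ * φ v'
  rel_meas : ∀ v w v', MeasurableSet {ω | Rel ω v w v'}
  rel_smul : ∀ (g : G) ω v w v', Rel ω v w v' → Rel (g • ω) (g * v) w (g * v')

variable {W G X Λ : Type} [Group W] [Group G] [Group Λ] [MeasurableSpace X] [MulAction G X]
  [MeasurableConstSMul G X] {μ : Measure X} [IsProbabilityMeasure μ] [SMulInvariantMeasure G X μ]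
  {L : Type} [NormedAddCommGroup L] [InnerProductSpace ℂ L] [CompleteSpace L]

/-- translate of a function -/
def BM.sh (h : G) (f : BM X) : BM X :=
  ⟨fun ω => f.1 (h⁻¹ • ω), f.2.1.comp (measurable_const_smul _), f.2.2.imp fun _ hC _ => hC _⟩

@[simp] theorem BM.sh_apply (h : G) (f : BM X) (ω : X) : (BM.sh h f).1 ω = f.1 (h⁻¹ • ω) := rfl

open Classical in
/-- indicator function -/
noncomputable def BM.ind (s : Set X) (hs : MeasurableSet s) : BM X :=
  ⟨fun ω => if ω ∈ s then 1 else 0, Measurable.ite hs measurable_const measurable_const, 1,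
    fun ω => by by_cases h : ω ∈ s <;> simp [h]⟩

namespace Sys

variable (S : Sys W G X) (σ : F2 →* unitary (L →L[ℂ] L))

open Classical in
/-- the fibrewise kernel -/
noncomputable def κ (ω : X) (g g' : G) (ξ ξ' : L) : ℂ :=
  if h : ∃ w, S.Rel ω g w g' then ⟪ξ, (σ h.choose : L →L[ℂ] L) ξ'⟫_ℂ else 0

variable {S}

theorem rel_unique {ω : X} {g g' : G} {w w' : F2} (h : S.Rel ω g w g') (h' : S.Rel ω g w' g') :
    w = w' := by
  obtain ⟨C, cl, φ, hp⟩ := S.pot ω
  rw [((hp _ _ _).1 h).2, ((hp _ _ _).1 h').2]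

theorem rel_refl (ω : X) (g : G) : S.Rel ω g 1 g := by
  obtain ⟨C, cl, φ, hp⟩ := S.pot ω
  exact (hp _ _ _).2 ⟨rfl, by simp⟩

theorem κ_of_rel {ω : X} {g g' : G} {w : F2} (h : S.Rel ω g w g') (ξ ξ' : L) :
    S.κ σ ω g g' ξ ξ' = ⟪ξ, (σ w : L →L[ℂ] L) ξ'⟫_ℂ := by
  have h1 : ∃ w, S.Rel ω g w g' := ⟨w, h⟩
  rw [κ, dif_pos h1, rel_unique h1.choose_spec h]

theorem κ_of_not {ω : X} {g g' : G} (h : ¬ ∃ w, S.Rel ω g w g') (ξ ξ' : L) :
    S.κ σ ω g g' ξ ξ' = 0 := dif_neg h

theorem norm_κ_le (ω : X) (g g' : G) (ξ ξ' : L) : ‖S.κ σ ω g g' ξ ξ'‖ ≤ ‖ξ‖ * ‖ξ'‖ := by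
  by_cases h : ∃ w, S.Rel ω g w g'
  · obtain ⟨w, h⟩ := h
    rw [κ_of_rel σ h]
    exact (norm_inner_le_norm _ _).trans (by rw [uni_norm])
  · rw [κ_of_not σ h, norm_zero]; positivity

theorem κ_smul (h : G) (ω : X) (g g' : G) (ξ ξ' : L) :
    S.κ σ (h • ω) (h * g) (h * g') ξ ξ' = S.κ σ ω g g' ξ ξ' := by
  by_cases h1 : ∃ w, S.Rel ω g w g'
  · obtain ⟨w, h1⟩ := h1
    rw [κ_of_rel σ h1, κ_of_rel σ (S.rel_smul h _ _ _ _ h1)]
  · rw [κ_of_not σ h1, κ_of_not]
    rintro ⟨w, h2⟩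
    exact h1 ⟨w, by simpa using S.rel_smul h⁻¹ _ _ _ _ h2⟩

open Classical in
theorem κ_pot (ω : X) : ∃ (C : Type) (cl : G → C) (φ : G → F2), ∀ g g' (ξ ξ' : L), S.κ σ ω g g' ξ ξ' =
    if cl g = cl g' then ⟪(σ (φ g) : L →L[ℂ] L) ξ, (σ (φ g') : L →L[ℂ] L) ξ'⟫_ℂ else 0 := by
  obtain ⟨C, cl, φ, hp⟩ := S.pot ω
  refine ⟨C, cl, φ, fun g g' ξ ξ' => ?_⟩
  split_ifs with h
  · rw [κ_of_rel σ ((hp _ _ _).2 ⟨h, rfl⟩), uni_inner, MonoidHom.map_mul, map_inv]
    rfl
  · exact κ_of_not σ (fun ⟨w, hw⟩ => h ((hp _ _ _).1 hw).1) _ _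

theorem meas_κ (g g' : G) (ξ ξ' : L) : Measurable fun ω => S.κ σ ω g g' ξ ξ' := by
  classical
  letI : MeasurableSpace (Option F2) := ⊤
  let c : X → Option F2 := fun ω => if h : ∃ w, S.Rel ω g w g' then some h.choose else none
  have hc : Measurable c := by
    refine measurable_to_countable' fun o => ?_
    cases o with
    | none =>
      have : c ⁻¹' {none} = (⋃ w, {ω | S.Rel ω g w g'})ᶜ := by
        ext ω
        by_cases h : ∃ w, S.Rel ω g w g'
        · simpa [c, h] using h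
        · simpa [c, h] using fun w hw => h ⟨w, hw⟩
      rw [this]
      exact (MeasurableSet.iUnion fun w => S.rel_meas _ _ _).compl
    | some w =>
      have : c ⁻¹' {some w} = {ω | S.Rel ω g w g'} := by
        ext ω
        by_cases h : ∃ w, S.Rel ω g w g'
        · simp only [c, Set.mem_preimage, dif_pos h, Set.mem_singleton_iff, Option.some.injEq,
            Set.mem_setOf_eq]
          exact ⟨fun e => e ▸ h.choose_spec, fun e => rel_unique h.choose_spec e⟩
        · simp only [c, Set.mem_preimage, dif_neg h, Set.mem_singleton_iff, Set.mem_setOf_eq]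
          exact ⟨fun e => by simp at e, fun e => absurd ⟨w, e⟩ h⟩
      rw [this]
      exact S.rel_meas _ _ _
  have e : (fun ω => S.κ σ ω g g' ξ ξ') =
      (fun o : Option F2 => o.elim 0 fun w => ⟪ξ, (σ w : L →L[ℂ] L) ξ'⟫_ℂ) ∘ c := by
    funext ω
    simp only [κ, c, Function.comp]
    split_ifs <;> rfl
  rw [e]
  exact measurable_from_top.comp hc

variable (S) in
/-- the integrand of the kernel -/
noncomputable def kf (y y' : BM X × G × L) (ω : X) : ℂ :=
  conj (y.1.1 ω) * y'.1.1 ω * S.κ σ ω y.2.1 y'.2.1 y.2.2 y'.2.2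

theorem integrable_kf (y y' : BM X × G × L) : Integrable (S.kf σ y y') μ := by
  obtain ⟨C, hC⟩ := y.1.2.2
  obtain ⟨C', hC'⟩ := y'.1.2.2
  refine Integrable.of_bound (((Complex.continuous_conj.measurable.comp y.1.2.1).mul
    y'.1.2.1).mul (meas_κ σ _ _ _ _)).aestronglyMeasurable (C * C' * (‖y.2.2‖ * ‖y'.2.2‖))
    (Filter.Eventually.of_forall fun ω => ?_)
  have h0 := (norm_nonneg _).trans (hC ω)
  have h0' := (norm_nonneg _).trans (hC' ω)
  rw [kf, norm_mul, norm_mul, RCLike.norm_conj]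
  exact mul_le_mul (mul_le_mul (hC ω) (hC' ω) (norm_nonneg _) h0) (norm_κ_le σ _ _ _ _ _)
    (norm_nonneg _) (by positivity)

variable (μ) in
theorem exists_rep (ρ : Λ →* unitary (L →L[ℂ] L))
    (hc : ∀ g h, Commute (σ g : L →L[ℂ] L) (ρ h : L →L[ℂ] L)) :
    ∃ (R : Rep (W × Λ)) (e : BM X × G × L → R.H),
      (∀ y y', ⟪e y, e y'⟫_ℂ = ∫ ω, S.kf σ y y' ω ∂μ) ∧
      (∀ γ l f g ξ, (R.π (γ, l) : R.H →L[ℂ] R.H) (e (f, g, ξ)) =
        e (S.χ γ * BM.sh (S.q γ) f, S.q γ * g, (ρ l : L →L[ℂ] L) ξ)) ∧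
      Dense (Submodule.span ℂ (Set.range e) : Set R.H) := by
  classical
  letI act : MulAction (W × Λ) (BM X × G × L) :=
    { smul := fun p y => (S.χ p.1 * BM.sh (S.q p.1) y.1, S.q p.1 * y.2.1,
        (ρ p.2 : L →L[ℂ] L) y.2.2)
      one_smul := fun y => by
        change (S.χ 1 * BM.sh (S.q 1) y.1, S.q 1 * y.2.1, (ρ 1 : L →L[ℂ] L) y.2.2) = y
        refine Prod.ext ?_ (by simp)
        ext ω
        simp [S.χ_one]
      mul_smul := fun p p' y => by
        change (S.χ (p.1 * p'.1) * BM.sh (S.q (p.1 * p'.1)) y.1, S.q (p.1 * p'.1) * y.2.1,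
          (ρ (p.2 * p'.2) : L →L[ℂ] L) y.2.2) =
          (S.χ p.1 * BM.sh (S.q p.1) (S.χ p'.1 * BM.sh (S.q p'.1) y.1),
            S.q p.1 * (S.q p'.1 * y.2.1), (ρ p.2 : L →L[ℂ] L) ((ρ p'.2 : L →L[ℂ] L) y.2.2))
        refine Prod.ext ?_ (by simp [mul_assoc])
        ext ω
        simp [S.χ_mul, mul_smul, mul_assoc] }
  have hact : ∀ (p : W × Λ) (y : BM X × G × L), p • y = (S.χ p.1 * BM.sh (S.q p.1) y.1,
      S.q p.1 * y.2.1, (ρ p.2 : L →L[ℂ] L) y.2.2) := fun _ _ => rfl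
  obtain ⟨R, e, h1, h2, h3⟩ := gns (Δ := W × Λ) (fun y y' => ∫ ω, S.kf σ y y' ω ∂μ)
    (fun y y' => by
      rw [← integral_conj]
      refine integral_congr_ae (Filter.Eventually.of_forall fun ω => ?_)
      obtain ⟨C, cl, φ, hp⟩ := κ_pot (S := S) σ ω
      simp only [kf, hp, map_mul, Complex.conj_conj]
      by_cases h : cl y.2.1 = cl y'.2.1
      · rw [if_pos h, if_pos h.symm, inner_conj_symm]; ring
      · rw [if_neg h, if_neg fun h' => h h'.symm]; simp)
    (fun s c => by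
      have e1 : ∑ y ∈ s, ∑ y' ∈ s, conj (c y) * c y' * ∫ ω, S.kf σ y y' ω ∂μ =
          ∫ ω, ∑ y ∈ s, ∑ y' ∈ s, conj (c y) * c y' * S.kf σ y y' ω ∂μ := by
        rw [integral_finset_sum _ fun y _ => integrable_finset_sum _ fun y' _ =>
          (integrable_kf σ y y').const_mul _]
        refine Finset.sum_congr rfl fun y _ => ?_
        rw [integral_finset_sum _ fun y' _ => (integrable_kf σ y y').const_mul _]
        exact Finset.sum_congr rfl fun y' _ => (integral_const_mul _ _).symm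
      rw [e1]
      have e2 := integral_re (μ := μ) (𝕜 := ℂ) (integrable_finset_sum s fun y _ =>
        integrable_finset_sum s fun y' _ => (integrable_kf (S := S) σ y y').const_mul
          (conj (c y) * c y'))
      refine le_of_le_of_eq (integral_nonneg fun ω => ?_) e2
      obtain ⟨C, cl, φ, hp⟩ := κ_pot (S := S) σ ω
      refine (sum_class_nonneg s (fun y => cl y.2.1)
        fun y => (c y * y.1.1 ω) • (σ (φ y.2.1) : L →L[ℂ] L) y.2.2).trans (le_of_eq ?_)
      change _ = Complex.re _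
      congr 1
      refine Finset.sum_congr rfl fun y _ => Finset.sum_congr rfl fun y' _ => ?_
      rw [kf, hp, inner_smul_left, inner_smul_right, map_mul]
      split_ifs <;> ring)
    (fun p y y' => by
      rw [← integral_smul_eq_self (μ := μ) (g := S.q p.1)]
      refine integral_congr_ae (Filter.Eventually.of_forall fun ω => ?_)
      have e1 : conj ((S.χ p.1).1 (S.q p.1 • ω)) * (S.χ p.1).1 (S.q p.1 • ω) = 1 := by
        rw [Complex.conj_mul', S.χ_norm]; simp
      have e2 : S.κ σ ω y.2.1 y'.2.1 ((ρ p.2 : L →L[ℂ] L) y.2.2) ((ρ p.2 : L →L[ℂ] L) y'.2.2) =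
          S.κ σ ω y.2.1 y'.2.1 y.2.2 y'.2.2 := by
        simp only [κ]
        split_ifs with h
        · rw [← ContinuousLinearMap.mul_apply, (hc _ _).eq, ContinuousLinearMap.mul_apply,
            uni_inner_map]
        · rfl
      simp only [kf, hact, κ_smul, e2, MulMemClass.coe_mul, Pi.mul_apply, BM.sh_apply,
        inv_smul_smul, map_mul]
      linear_combination (conj (y.1.1 ω) * y'.1.1 ω * S.κ σ ω y.2.1 y'.2.1 y.2.2 y'.2.2) * e1)
  exact ⟨R, e, h1, fun γ l f g ξ => h2 (γ, l) (f, g, ξ), h3⟩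

end Sys

end Pool.Agent.P.MP_95bcfc_an
end
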