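import Pool.Agent.K.MP_95bcfc_an.C0

set_option autoImplicit false
set_option linter.unusedSectionVars false
set_option linter.deprecated false
set_option linter.style.haveILetI false

open scoped TensorProduct InnerProductSpace Nat

namespace Pool.Agent.P.MP_95bcfc_an.EM

variable {Γ Λ : Type} [Group Γ] [Group Λ] {D : Type} [Fintype D] [DecidableEq D]

/-- the exponential of an approximate infinitesimal rotation -/
theorem rot {E : Type} [NormedAddCommGroup E] [InnerProductSpace ℂ E] [CompleteSpace E]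
    (K : E →L[ℂ] E) (hK : K ∈ skewAdjoint (E →L[ℂ] E)) (v v' : E) {δ : ℝ}
    (h1 : ‖K v - (Real.pi / 2 : ℝ) • v'‖ ≤ δ) (h2 : ‖K v' + (Real.pi / 2 : ℝ) • v‖ ≤ δ) :
    ‖NormedSpace.exp K v - v'‖ ≤ 2 * δ := by
  let +nondep : NormedAlgebra ℚ (E →L[ℂ] E) := .restrictScalars ℚ ℂ _
  have hu : ∀ t : ℝ, NormedSpace.exp (t • (-K)) ∈ unitary (E →L[ℂ] E) := fun t =>
    NormedSpace.exp_mem_unitary_of_mem_skewAdjoint (by
      rw [skewAdjoint.mem_iff] at hK ⊢
      rw [star_smul, star_neg, hK, star_trivial, neg_neg, smul_neg, neg_neg])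
  set c : ℝ := Real.pi / 2 with hc
  let p : ℝ → E := fun t => Real.cos (c * t) • v + Real.sin (c * t) • v'
  let p' : ℝ → E := fun t => (-Real.sin (c * t) * c) • v + (Real.cos (c * t) * c) • v'
  have hp : ∀ t, HasDerivAt p (p' t) t := fun t => by
    have h0 : HasDerivAt (fun t : ℝ => c * t) c t := by simpa using (hasDerivAt_id t).const_mul c
    exact (h0.cos.smul_const v).add (h0.sin.smul_const v')
  let ρ : (E →L[ℂ] E) →L[ℝ] (E →L[ℝ] E) := ContinuousLinearMap.restrictScalarsL ℂ E E ℝ ℝ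
  have hd : ∀ t : ℝ, HasDerivAt (fun t : ℝ => NormedSpace.exp (t • (-K)) (p t))
      (NormedSpace.exp (t • (-K)) (p' t - K (p t))) t := fun t => by
    have h3 := (ρ.hasFDerivAt.comp_hasDerivAt t
      (hasDerivAt_exp_smul_const (𝕂 := ℝ) (-K) t)).clm_apply (hp t)
    refine h3.congr_deriv ?_
    change NormedSpace.exp (t • (-K)) ((-K) (p t)) + NormedSpace.exp (t • (-K)) (p' t) = _
    rw [← map_add, ContinuousLinearMap.neg_apply, neg_add_eq_sub]
  have hb : ∀ t : ℝ, ‖NormedSpace.exp (t • (-K)) (p' t - K (p t))‖ ≤ 2 * δ := fun t => by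
    rw [ContinuousLinearMap.norm_map_of_mem_unitary (hu t)]
    have e : p' t - K (p t) = -(Real.cos (c * t) • (K v - c • v') +
        Real.sin (c * t) • (K v' + c • v)) := by
      simp only [p, p', map_add, ContinuousLinearMap.map_smul_of_tower, smul_sub, smul_add,
        smul_smul, neg_mul, neg_smul]
      abel
    rw [e, norm_neg]
    refine (norm_add_le _ _).trans ?_
    rw [norm_smul, norm_smul]
    have a1 := mul_le_mul (Real.abs_cos_le_one (c * t)) h1 (norm_nonneg _) zero_le_one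
    have a2 := mul_le_mul (Real.abs_sin_le_one (c * t)) h2 (norm_nonneg _) zero_le_one
    simp only [Real.norm_eq_abs]
    linarith
  have h4 := norm_image_sub_le_of_norm_deriv_le_segment_01'
    (fun t _ => (hd t).hasDerivWithinAt) fun t _ => hb t
  simp only [p, hc, mul_one, Real.cos_pi_div_two, Real.sin_pi_div_two, zero_smul, one_smul,
    zero_add, mul_zero, Real.cos_zero, Real.sin_zero, add_zero, NormedSpace.exp_zero,
    ContinuousLinearMap.one_apply] at h4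
  have h5 := hu 1
  rw [one_smul] at h5
  rw [← ContinuousLinearMap.norm_map_of_mem_unitary h5, map_sub, ← ContinuousLinearMap.mul_apply,
    ← NormedSpace.exp_add_of_commute (Commute.refl K).neg_left, neg_add_cancel,
    NormedSpace.exp_zero, ContinuousLinearMap.one_apply, norm_sub_rev]
  exact h4

theorem transfer0 (hN : Nuc Γ Λ)
    (hyp : ∀ (L : Type) [NormedAddCommGroup L] [InnerProductSpace ℂ L] [CompleteSpace L]
      (σ : F2 →* unitary (L →L[ℂ] L)) (ρ : Λ →* unitary (L →L[ℂ] L)),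
      (∀ g h, Commute (σ g : L →L[ℂ] L) (ρ h : L →L[ℂ] L)) → ∀ δ : ℝ, 0 < δ →
      ∃ (D : Type) (_ : Fintype D) (_ : DecidableEq D)
        (S : Fin 2 → ∀ R : Rep Γ, unitary (HD D R.H →L[ℂ] HD D R.H)) (R : Rep Γ)
        (ρ' : Λ →* unitary (R.H →L[ℂ] R.H)) (V : L →L[ℂ] HD D R.H),
        (∀ g l, Commute (R.π g : R.H →L[ℂ] R.H) (ρ' l : R.H →L[ℂ] R.H)) ∧
        (∀ ξ, ‖V ξ‖ = ‖ξ‖) ∧
        (∀ l ξ, diag D (ρ' l : R.H →L[ℂ] R.H) (V ξ) = V ((ρ l : L →L[ℂ] L) ξ)) ∧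
        (∀ k, Approx fun R => (S k R : HD D R.H →L[ℂ] HD D R.H)) ∧
        ∀ k ξ, ‖(S k R : HD D R.H →L[ℂ] HD D R.H) (V ξ) -
          V ((σ (FreeGroup.of k) : L →L[ℂ] L) ξ)‖ ≤ δ * ‖ξ‖) : Nuc F2 Λ := by
  intro x r hx L _ _ _ σ ρ hc
  set C := ∑ p ∈ x.support, ‖x p‖ * (p.1.norm : ℝ) with hC
  have hC0 : 0 ≤ C := Finset.sum_nonneg fun _ _ => by positivity
  refine le_of_forall_pos_le_add fun η hη => ?_
  have hδ : 0 < η / (C + 1) := by positivity
  set δ := η / (C + 1) with hδd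
  obtain ⟨D, _, _, S, R, ρ', V, h1, h2, h3, hS, h5⟩ := hyp L σ ρ hc δ hδ
  let β : ∀ R : Rep Γ, F2 →* unitary (HD D R.H →L[ℂ] HD D R.H) := fun R =>
    FreeGroup.lift fun k => S k R
  have hβ : ∀ w, Approx fun R => (β R w : HD D R.H →L[ℂ] HD D R.H) := by
    intro w
    induction w using FreeGroup.induction_on with
    | C1 => simpa using Approx.one
    | of k => simpa only [β, FreeGroup.lift_apply_of] using hS k
    | inv_of k ih => simpa only [map_inv] using ih.inv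
    | mul a b ha hb => simpa only [MonoidHom.map_mul] using ha.mul hb
  have hT := transfer1 hN β hβ hx R ρ' h1
  have hgen : ∀ k ξ, ‖(β R (FreeGroup.of k) : HD D R.H →L[ℂ] HD D R.H) (V ξ) -
      V ((σ (FreeGroup.of k) : L →L[ℂ] L) ξ)‖ ≤ δ * ‖ξ‖ := by
    intro k ξ
    simp only [β, FreeGroup.lift_apply_of]
    exact h5 k ξ
  have hmul : ∀ (a b : F2) (s t : ℝ),
      (∀ ξ, ‖(β R a : HD D R.H →L[ℂ] HD D R.H) (V ξ) - V ((σ a : L →L[ℂ] L) ξ)‖ ≤ s * ‖ξ‖) →
      (∀ ξ, ‖(β R b : HD D R.H →L[ℂ] HD D R.H) (V ξ) - V ((σ b : L →L[ℂ] L) ξ)‖ ≤ t * ‖ξ‖) →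
      ∀ ξ, ‖(β R (a * b) : HD D R.H →L[ℂ] HD D R.H) (V ξ) - V ((σ (a * b) : L →L[ℂ] L) ξ)‖ ≤
        (s + t) * ‖ξ‖ := by
    intro a b s t ha hb ξ
    have e : (β R (a * b) : HD D R.H →L[ℂ] HD D R.H) (V ξ) - V ((σ (a * b) : L →L[ℂ] L) ξ) =
        ((β R a : HD D R.H →L[ℂ] HD D R.H) (V ((σ b : L →L[ℂ] L) ξ)) -
          V ((σ a : L →L[ℂ] L) ((σ b : L →L[ℂ] L) ξ))) +
        (β R a : HD D R.H →L[ℂ] HD D R.H) ((β R b : HD D R.H →L[ℂ] HD D R.H) (V ξ) -
          V ((σ b : L →L[ℂ] L) ξ)) := by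
      simp only [MonoidHom.map_mul, Submonoid.coe_mul, ContinuousLinearMap.mul_apply, map_sub]
      abel
    rw [e]
    refine (norm_add_le _ _).trans ?_
    rw [uni_norm]
    have h6 := ha ((σ b : L →L[ℂ] L) ξ)
    rw [uni_norm] at h6
    linarith [hb ξ]
  have hinv : ∀ (a : F2) (s : ℝ),
      (∀ ξ, ‖(β R a : HD D R.H →L[ℂ] HD D R.H) (V ξ) - V ((σ a : L →L[ℂ] L) ξ)‖ ≤ s * ‖ξ‖) →
      ∀ ξ, ‖(β R a⁻¹ : HD D R.H →L[ℂ] HD D R.H) (V ξ) - V ((σ a⁻¹ : L →L[ℂ] L) ξ)‖ ≤ s * ‖ξ‖ := by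
    intro a s ha ξ
    have h6 := ha ((σ a⁻¹ : L →L[ℂ] L) ξ)
    rw [uni_norm] at h6
    rw [← uni_norm (β R a), map_sub, norm_sub_rev]
    have e1 : (β R a : HD D R.H →L[ℂ] HD D R.H) ((β R a⁻¹ : HD D R.H →L[ℂ] HD D R.H) (V ξ)) =
        V ξ := by
      rw [← ContinuousLinearMap.mul_apply, ← Submonoid.coe_mul, ← MonoidHom.map_mul]
      simp
    have e2 : (σ a : L →L[ℂ] L) ((σ a⁻¹ : L →L[ℂ] L) ξ) = ξ := by
      rw [← ContinuousLinearMap.mul_apply, ← Submonoid.coe_mul, ← MonoidHom.map_mul]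
      simp
    rw [e1]
    rwa [e2] at h6
  have hlist : ∀ (l : List (Fin 2 × Bool)) (ξ : L),
      ‖(β R (FreeGroup.mk l) : HD D R.H →L[ℂ] HD D R.H) (V ξ) -
        V ((σ (FreeGroup.mk l) : L →L[ℂ] L) ξ)‖ ≤ (l.length * δ) * ‖ξ‖ := by
    intro l
    induction l with
    | nil => intro ξ; simp [← FreeGroup.one_eq_mk]
    | cons a l ih =>
      have e : FreeGroup.mk (a :: l) = FreeGroup.mk [a] * FreeGroup.mk l := by
        rw [FreeGroup.mul_mk]; rfl
      have h7 : ∀ ξ, ‖(β R (FreeGroup.mk [a]) : HD D R.H →L[ℂ] HD D R.H) (V ξ) -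
          V ((σ (FreeGroup.mk [a]) : L →L[ℂ] L) ξ)‖ ≤ δ * ‖ξ‖ := by
        obtain ⟨k, b⟩ := a
        cases b
        · have e3 : FreeGroup.mk [(k, false)] = (FreeGroup.of k)⁻¹ := by
            rw [FreeGroup.of, FreeGroup.inv_mk]; rfl
          rw [e3]
          exact hinv _ _ (hgen k)
        · exact hgen k
      intro ξ
      have h8 := hmul _ _ _ _ h7 ih ξ
      rw [e]
      refine h8.trans (le_of_eq ?_)
      simp only [List.length_cons, Nat.cast_add, Nat.cast_one]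
      ring
  have hall : ∀ (w : F2) (ξ : L), ‖(β R w : HD D R.H →L[ℂ] HD D R.H) (V ξ) -
      V ((σ w : L →L[ℂ] L) ξ)‖ ≤ (w.norm * δ) * ‖ξ‖ := by
    intro w ξ
    have := hlist w.toWord ξ
    rwa [FreeGroup.mk_toWord] at this
  have hr : 0 ≤ r := (norm_nonneg _).trans hT
  refine ContinuousLinearMap.opNorm_le_bound _ (by positivity) fun ξ => ?_
  have e : V ((x.sum fun p c => c • ((σ p.1 : L →L[ℂ] L) * (ρ p.2 : L →L[ℂ] L))) ξ) =
      (x.sum fun p c => c • ((β R p.1 : HD D R.H →L[ℂ] HD D R.H) *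
        diag D (ρ' p.2 : R.H →L[ℂ] R.H))) (V ξ) -
      ∑ p ∈ x.support, x p • ((β R p.1 : HD D R.H →L[ℂ] HD D R.H) (V ((ρ p.2 : L →L[ℂ] L) ξ)) -
        V ((σ p.1 : L →L[ℂ] L) ((ρ p.2 : L →L[ℂ] L) ξ))) := by
    simp only [Finsupp.sum, ContinuousLinearMap.sum_apply, ContinuousLinearMap.smul_apply,
      ContinuousLinearMap.mul_apply, map_sum, map_smul, h3, smul_sub, Finset.sum_sub_distrib]
    abel
  rw [← h2, e]
  refine (norm_sub_le _ _).trans ?_
  have h6 := (ContinuousLinearMap.le_opNorm _ (V ξ)).trans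
    (mul_le_mul_of_nonneg_right hT (norm_nonneg _))
  rw [h2] at h6
  have h7 : ‖∑ p ∈ x.support, x p •
      ((β R p.1 : HD D R.H →L[ℂ] HD D R.H) (V ((ρ p.2 : L →L[ℂ] L) ξ)) -
        V ((σ p.1 : L →L[ℂ] L) ((ρ p.2 : L →L[ℂ] L) ξ)))‖ ≤ C * δ * ‖ξ‖ := by
    rw [hC, Finset.sum_mul, Finset.sum_mul]
    refine (norm_sum_le _ _).trans (Finset.sum_le_sum fun p _ => ?_)
    rw [norm_smul, mul_assoc, mul_assoc]
    refine mul_le_mul_of_nonneg_left ?_ (norm_nonneg _)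
    have h8 := hall p.1 ((ρ p.2 : L →L[ℂ] L) ξ)
    rw [uni_norm] at h8
    rwa [← mul_assoc]
  have h8 : (C + 1) * δ = η := by rw [hδd]; field_simp
  nlinarith [norm_nonneg ξ, mul_nonneg hδ.le (norm_nonneg ξ)]

/-- inclusion of one of two blocks -/
noncomputable def emb (D E : Type) [Fintype D] [DecidableEq D] [NormedAddCommGroup E]
    [InnerProductSpace ℂ E] (b : Bool) : HD D E →L[ℂ] HD (D × Bool) E :=
  ∑ i : D, (inc E (i, b)).comp (pr E i)

section Emb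

variable {E : Type} [NormedAddCommGroup E] [InnerProductSpace ℂ E]

theorem emb_apply (b : Bool) (v : HD D E) (p : D × Bool) :
    emb D E b v p = if p.2 = b then v p.1 else 0 := by
  obtain ⟨i, c⟩ := p
  simp only [emb, ContinuousLinearMap.sum_apply, ContinuousLinearMap.comp_apply,
    WithLp.ofLp_sum, Finset.sum_apply, inc_apply, pr_apply, Prod.mk.injEq]
  by_cases h : c = b <;> simp [h]

theorem norm_emb (b : Bool) (v : HD D E) : ‖emb D E b v‖ = ‖v‖ := by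
  refine (sq_eq_sq₀ (norm_nonneg _) (norm_nonneg _)).1 ?_
  rw [PiLp.norm_sq_eq_of_L2, PiLp.norm_sq_eq_of_L2, Fintype.sum_prod_type]
  refine Finset.sum_congr rfl fun i _ => ?_
  cases b <;> simp [emb_apply]

end Emb

/-- labels of the three classes -/
def lab (k : Option (Fin 2)) : F2 := k.elim 1 FreeGroup.of

theorem exists_rot (T T' : Matrix D D (MonoidAlgebra ℂ Γ))
    (hT : ∀ R : Rep Γ, ∀ u v, ⟪evM (und R.π) T' u, v⟫_ℂ = ⟪u, evM (und R.π) T v⟫_ℂ) :
    ∃ S : ∀ R : Rep Γ, unitary (HD (D × Bool) R.H →L[ℂ] HD (D × Bool) R.H),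
      (Approx fun R => (S R : HD (D × Bool) R.H →L[ℂ] HD (D × Bool) R.H)) ∧
      ∀ (R : Rep Γ) (v v' : HD D R.H) (δ : ℝ), ‖evM (und R.π) T v - v'‖ ≤ δ →
        ‖evM (und R.π) T' v' - v‖ ≤ δ →
        ‖(S R : HD (D × Bool) R.H →L[ℂ] HD (D × Bool) R.H) (emb D R.H false v) -
          emb D R.H true v'‖ ≤ 4 * δ := by
  let Z : Matrix (D × Bool) (D × Bool) (MonoidAlgebra ℂ Γ) := Matrix.of fun p q =>
    if p.2 = q.2 then 0 else if p.2 = true then T p.1 q.1 else -T' p.1 q.1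
  have hZ : ∀ (R : Rep Γ) (u : HD (D × Bool) R.H), evM (und R.π) Z u =
      emb D R.H true (evM (und R.π) T (WithLp.toLp 2 fun i => u (i, false))) -
      emb D R.H false (evM (und R.π) T' (WithLp.toLp 2 fun i => u (i, true))) := by
    intro R u
    ext ⟨i, b⟩
    rw [evM_apply, Fintype.sum_prod_type]
    cases b <;> simp [Z, emb_apply, evM_apply]
  have hin : ∀ (R : Rep Γ) (b : Bool) (v : HD D R.H) (u : HD (D × Bool) R.H),
      ⟪emb D R.H b v, u⟫_ℂ = ⟪v, (WithLp.toLp 2 fun i => u (i, b) : HD D R.H)⟫_ℂ := by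
    intro R b v u
    rw [PiLp.inner_apply, PiLp.inner_apply, Fintype.sum_prod_type]
    refine Finset.sum_congr rfl fun i _ => ?_
    cases b <;> simp [emb_apply]
  let Y : Matrix (D × Bool) (D × Bool) (MonoidAlgebra ℂ Γ) := ((Real.pi / 2 : ℝ) : ℂ) • Z
  have hY : ∀ R : Rep Γ, evM (und R.π) Y = ((Real.pi / 2 : ℝ) : ℂ) • evM (und R.π) Z :=
    fun R => map_smul _ _ _
  have hsk : ∀ R : Rep Γ, evM (und R.π) Y ∈
      skewAdjoint (HD (D × Bool) R.H →L[ℂ] HD (D × Bool) R.H) := by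
    intro R
    have h1 : star (evM (und R.π) Z) = -evM (und R.π) Z := by
      rw [ContinuousLinearMap.star_eq_adjoint, eq_comm, ContinuousLinearMap.eq_adjoint_iff]
      intro u v
      rw [ContinuousLinearMap.neg_apply, inner_neg_left, hZ, hZ, inner_sub_left, inner_sub_right,
        hin, hin, ← inner_conj_symm u, ← inner_conj_symm u, hin, hin, inner_conj_symm,
        inner_conj_symm, hT, ← inner_conj_symm (evM (und R.π) T _), ← hT, inner_conj_symm]
      ring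
    rw [hY, skewAdjoint.mem_iff, star_smul, h1, RCLike.star_def, Complex.conj_ofReal, smul_neg]
  refine ⟨fun R => ⟨NormedSpace.exp (evM (und R.π) Y), ?_⟩, approx_exp Y,
    fun R v v' δ h1 h2 => ?_⟩
  · let +nondep : NormedAlgebra ℚ (HD (D × Bool) R.H →L[ℂ] HD (D × Bool) R.H) :=
      .restrictScalars ℚ ℂ _
    exact NormedSpace.exp_mem_unitary_of_mem_skewAdjoint (hsk R)
  · have hδ : 0 ≤ δ := (norm_nonneg _).trans h1
    have hπ : ‖((Real.pi / 2 : ℝ) : ℂ)‖ ≤ 2 := by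
      rw [Complex.norm_real, Real.norm_of_nonneg (by positivity)]
      linarith [Real.pi_le_four]
    have e1 : evM (und R.π) Z (emb D R.H false v) = emb D R.H true (evM (und R.π) T v) := by
      rw [hZ]
      simp [emb_apply, show (WithLp.toLp 2 fun _ : D => (0 : R.H) : HD D R.H) = 0 from rfl]
    have e2 : evM (und R.π) Z (emb D R.H true v') = -emb D R.H false (evM (und R.π) T' v') := by
      rw [hZ]
      simp [emb_apply, show (WithLp.toLp 2 fun _ : D => (0 : R.H) : HD D R.H) = 0 from rfl]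
    have h3 := rot _ (hsk R) (emb D R.H false v) (emb D R.H true v') (δ := 2 * δ) ?_ ?_
    · exact h3.trans (le_of_eq (by ring))
    · rw [hY, ContinuousLinearMap.smul_apply, e1, ← Complex.coe_smul, ← smul_sub, ← map_sub,
        norm_smul, norm_emb]
      exact mul_le_mul hπ h1 (norm_nonneg _) zero_le_two
    · rw [hY, ContinuousLinearMap.smul_apply, e2, ← Complex.coe_smul, ← smul_add, neg_add_eq_sub,
        ← map_sub, norm_smul, norm_emb, norm_sub_rev]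
      exact mul_le_mul hπ h2 (norm_nonneg _) zero_le_two

theorem transfer2 (hN : Nuc Γ Λ)
    (hyp : ∀ (L : Type) [NormedAddCommGroup L] [InnerProductSpace ℂ L] [CompleteSpace L]
      (σ : F2 →* unitary (L →L[ℂ] L)) (ρ : Λ →* unitary (L →L[ℂ] L)),
      (∀ g h, Commute (σ g : L →L[ℂ] L) (ρ h : L →L[ℂ] L)) → ∀ δ : ℝ, 0 < δ →
      ∃ (D : Type) (_ : Fintype D) (_ : DecidableEq D)
        (T T' : Option (Fin 2) → Matrix D D (MonoidAlgebra ℂ Γ)) (R : Rep Γ)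
        (ρ' : Λ →* unitary (R.H →L[ℂ] R.H)) (V V' : L →L[ℂ] HD D R.H),
        (∀ g l, Commute (R.π g : R.H →L[ℂ] R.H) (ρ' l : R.H →L[ℂ] R.H)) ∧
        (∀ ξ, ‖V ξ‖ = ‖ξ‖) ∧
        (∀ l ξ, diag D (ρ' l : R.H →L[ℂ] R.H) (V ξ) = V ((ρ l : L →L[ℂ] L) ξ)) ∧
        (∀ k (R : Rep Γ) u v, ⟪evM (und R.π) (T' k) u, v⟫_ℂ = ⟪u, evM (und R.π) (T k) v⟫_ℂ) ∧
        (∀ k ξ, ‖evM (und R.π) (T k) (V ξ) - V' ((σ (lab k) : L →L[ℂ] L) ξ)‖ ≤ δ * ‖ξ‖) ∧
        ∀ k ξ, ‖evM (und R.π) (T' k) (V' ξ) - V ((σ (lab k)⁻¹ : L →L[ℂ] L) ξ)‖ ≤ δ * ‖ξ‖) :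
    Nuc F2 Λ := by
  refine transfer0 hN fun L _ _ _ σ ρ hc δ hδ => ?_
  obtain ⟨D, _, _, T, T', R, ρ', V, V', h1, h2, h3, h4, h5, h6⟩ :=
    hyp L σ ρ hc (δ / 8) (by positivity)
  choose S hS hS' using fun k => exists_rot (T k) (T' k) (h4 k)
  have key : ∀ k ξ, ‖(S k R : HD (D × Bool) R.H →L[ℂ] HD (D × Bool) R.H) (emb D R.H false (V ξ)) -
      emb D R.H true (V' ((σ (lab k) : L →L[ℂ] L) ξ))‖ ≤ 4 * (δ / 8 * ‖ξ‖) := by
    intro k ξ
    refine hS' k R _ _ _ (h5 k ξ) ?_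
    have h7 := h6 k ((σ (lab k) : L →L[ℂ] L) ξ)
    rwa [uni_norm, ← ContinuousLinearMap.mul_apply, ← Submonoid.coe_mul, ← MonoidHom.map_mul,
      inv_mul_cancel, map_one, OneMemClass.coe_one, ContinuousLinearMap.one_apply] at h7
  refine ⟨D × Bool, inferInstance, inferInstance, fun k R => (S none R)⁻¹ * S (some k) R, R, ρ',
    (emb D R.H false).comp V, h1, fun ξ => ?_, fun l ξ => ?_,
    fun k => (hS none).inv.mul (hS (some k)), fun k ξ => ?_⟩
  · rw [ContinuousLinearMap.comp_apply, norm_emb, h2]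
  · ext ⟨i, b⟩
    rw [diag_apply, ContinuousLinearMap.comp_apply, ContinuousLinearMap.comp_apply, ← h3,
      emb_apply, emb_apply, diag_apply]
    cases b <;> simp
  · have a1 := key (some k) ξ
    have a2 := key none ((σ (FreeGroup.of k) : L →L[ℂ] L) ξ)
    rw [uni_norm] at a2
    simp only [lab, Option.elim, map_one, OneMemClass.coe_one, ContinuousLinearMap.one_apply]
      at a1 a2
    rw [← uni_norm (S none R), map_sub, ← ContinuousLinearMap.mul_apply, ← Submonoid.coe_mul,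
      mul_inv_cancel_left]
    refine (norm_sub_le_norm_sub_add_norm_sub _
      (emb D R.H true (V' ((σ (FreeGroup.of k) : L →L[ℂ] L) ξ))) _).trans ?_
    rw [norm_sub_rev] at a2
    simp only [ContinuousLinearMap.comp_apply]
    linarith

end Pool.Agent.P.MP_95bcfc_an.EM
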