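import Pool.Agent.P.MP_95bcfc_an.EM.Stmt
import Mathlib
import Pool.Agent.K.MP_95bcfc_an.C0
import Pool.Agent.K.MP_95bcfc_an.C1

-- part Pool.Agent.P.MP_95bcfc_an.EM.Path
section

set_option autoImplicit false
set_option linter.unusedSectionVars false
set_option linter.deprecated false
set_option linter.style.haveILetI false

open MeasureTheory

namespace Pool.Agent.P.MP_95bcfc_an.EM

variable {G ι : Type} [Group G] [DecidableEq ι] (s : ι → G)

/-- a letter as an element of the free group -/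
def lw (x : ι × Bool) : FreeGroup ι := FreeGroup.mk [x]

/-- the group element of a letter -/
def st (x : ι × Bool) : G := FreeGroup.lift s (lw x)

/-- the edge used by a step -/
def edge (g : G) (x : ι × Bool) : G × ι := if x.2 then (g, x.1) else (g * (s x.1)⁻¹, x.1)

theorem lw_true (i : ι) : lw (i, true) = FreeGroup.of i := rfl

theorem lw_false (i : ι) : lw (i, false) = (FreeGroup.of i)⁻¹ := by
  rw [lw, FreeGroup.of, FreeGroup.inv_mk]; rfl

theorem lw_not (i : ι) (b : Bool) : lw (i, !b) = (lw (i, b))⁻¹ := by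
  cases b <;> simp [lw_true, lw_false]

@[simp] theorem st_true (i : ι) : st s (i, true) = s i := by simp [st, lw_true]

@[simp] theorem st_false (i : ι) : st s (i, false) = (s i)⁻¹ := by simp [st, lw_false]

theorem st_not (i : ι) (b : Bool) : st s (i, !b) = (st s (i, b))⁻¹ := by
  cases b <;> simp

theorem mk_cons (x : ι × Bool) (L : List (ι × Bool)) :
    FreeGroup.mk (x :: L) = lw x * FreeGroup.mk L := by
  rw [lw, FreeGroup.mul_mk]; rfl

theorem norm_lw (x : ι × Bool) : (lw x).norm ≤ 1 := FreeGroup.norm_mk_le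

theorem edge_rev (g : G) (i : ι) (b : Bool) : edge s (g * st s (i, b)) (i, !b) = edge s g (i, b) := by
  cases b <;> simp [edge]

variable {s} {ω ω' : G × ι → Bool}

theorem openPath_cons {g : G} {x : ι × Bool} {L : List (ι × Bool)} :
    OpenPath s ω g (x :: L) ↔ ω (edge s g x) = true ∧ OpenPath s ω (g * st s x) L := by
  obtain ⟨i, b⟩ := x
  cases b <;> simp [OpenPath, edge]

@[simp] theorem openPath_nil {g : G} : OpenPath s ω g [] := trivial

theorem openPath_append {g : G} {L L' : List (ι × Bool)} :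
    OpenPath s ω g (L ++ L') ↔
      OpenPath s ω g L ∧ OpenPath s ω (g * FreeGroup.lift s (FreeGroup.mk L)) L' := by
  induction L generalizing g with
  | nil => simp [← FreeGroup.one_eq_mk]
  | cons x L ih =>
    rw [List.cons_append, openPath_cons, openPath_cons, ih, mk_cons, map_mul, and_assoc, mul_assoc]
    rfl

theorem openPath_step {g : G} {L L' : List (ι × Bool)} (h : FreeGroup.Red.Step L L')
    (hp : OpenPath s ω g L) : OpenPath s ω g L' := by
  cases h with
  | @not L1 L2 x b =>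
    rw [openPath_append, openPath_cons, openPath_cons, st_not] at hp
    rw [openPath_append]
    exact ⟨hp.1, by simpa using hp.2.2.2⟩

theorem openPath_red {g : G} {L L' : List (ι × Bool)} (h : FreeGroup.Red L L')
    (hp : OpenPath s ω g L) : OpenPath s ω g L' := by
  induction h with
  | refl => exact hp
  | tail _ h2 ih => exact openPath_step h2 ih

theorem openPath_mk {g : G} {L : List (ι × Bool)} (hp : OpenPath s ω g L) :
    OpenPath s ω g (FreeGroup.mk L).toWord := openPath_red FreeGroup.reduce.red hp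

theorem openPath_invRev {g : G} {L : List (ι × Bool)} (hp : OpenPath s ω g L) :
    OpenPath s ω (g * FreeGroup.lift s (FreeGroup.mk L)) (FreeGroup.invRev L) := by
  induction L generalizing g with
  | nil => simp [FreeGroup.invRev]
  | cons x L ih =>
    obtain ⟨i, b⟩ := x
    rw [openPath_cons] at hp
    rw [FreeGroup.invRev_cons, openPath_append, ← FreeGroup.inv_mk, mk_cons, map_mul, ← mul_assoc]
    refine ⟨ih hp.2, ?_⟩
    have e : FreeGroup.invRev [(i, b)] = [(i, !b)] := rfl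
    rw [e, map_inv, mul_inv_cancel_right, openPath_cons]
    exact ⟨(congrArg ω (edge_rev s g i b)).trans hp.1, trivial⟩

theorem openPath_mul {g : G} {w w' : FreeGroup ι} (h : OpenPath s ω g w.toWord)
    (h' : OpenPath s ω (g * FreeGroup.lift s w) w'.toWord) : OpenPath s ω g (w * w').toWord := by
  rw [FreeGroup.toWord_mul]
  refine openPath_red FreeGroup.reduce.red (openPath_append.2 ⟨h, ?_⟩)
  rwa [FreeGroup.mk_toWord]

theorem openPath_inv {g : G} {w : FreeGroup ι} (h : OpenPath s ω g w.toWord) :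
    OpenPath s ω (g * FreeGroup.lift s w) w⁻¹.toWord := by
  have := openPath_invRev h
  rwa [FreeGroup.mk_toWord, ← FreeGroup.toWord_inv] at this

theorem edge_mul (h g : G) (x : ι × Bool) :
    edge s (h * g) x = (h * (edge s g x).1, (edge s g x).2) := by
  obtain ⟨i, b⟩ := x
  cases b <;> simp [edge, mul_assoc]

theorem openPath_shift (h : G) {g : G} {L : List (ι × Bool)} :
    OpenPath s (shiftCfg h ω) (h * g) L ↔ OpenPath s ω g L := by
  induction L generalizing g with
  | nil => simp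
  | cons x L ih =>
    rw [openPath_cons, openPath_cons, mul_assoc, ih, edge_mul]
    simp [shiftCfg]

theorem isForest_shift (h : G) : IsForest s (shiftCfg h ω) ↔ IsForest s ω := by
  refine ⟨fun hF g w hp => hF (h * g) w ((openPath_shift h).2 hp), fun hF g w hp => hF (h⁻¹ * g) w ?_⟩
  rw [← openPath_shift h, mul_inv_cancel_left]
  exact hp

variable (s) in
/-- joined by a reduced walk in a forest -/
def FRel (ω : G × ι → Bool) (g : G) (w : FreeGroup ι) (g' : G) : Prop :=
  OpenPath s ω g w.toWord ∧ g' = g * FreeGroup.lift s w ∧ (IsForest s ω ∨ w = 1)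

theorem FRel.refl (g : G) : FRel s ω g 1 g := ⟨by simp, by simp, Or.inr rfl⟩

theorem FRel.symm {g g' : G} {w : FreeGroup ι} (h : FRel s ω g w g') : FRel s ω g' w⁻¹ g := by
  obtain ⟨h1, rfl, h3⟩ := h
  exact ⟨openPath_inv h1, by simp, h3.imp id fun e => by simp [e]⟩

theorem FRel.trans {g g' g'' : G} {w w' : FreeGroup ι} (h : FRel s ω g w g')
    (h' : FRel s ω g' w' g'') : FRel s ω g (w * w') g'' := by
  obtain ⟨h1, rfl, h3⟩ := h
  obtain ⟨h1', rfl, h3'⟩ := h'
  refine ⟨openPath_mul h1 h1', by simp [mul_assoc], ?_⟩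
  rcases h3 with h3 | rfl
  · exact Or.inl h3
  · simpa using h3'

theorem FRel.unique {g g' : G} {w w' : FreeGroup ι} (h : FRel s ω g w g')
    (h' : FRel s ω g w' g') : w = w' := by
  obtain ⟨h1, h2, h3⟩ := h.trans h'.symm
  rw [← mul_inv_eq_one]
  rcases h3 with h3 | h3
  · exact h3 g _ h1 (by simpa using h2.symm)
  · exact h3

theorem FRel.shift (h : G) {g g' : G} {w : FreeGroup ι} (hr : FRel s ω g w g') :
    FRel s (shiftCfg h ω) (h * g) w (h * g') := by
  obtain ⟨h1, rfl, h3⟩ := hr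
  exact ⟨(openPath_shift h).2 h1, (mul_assoc _ _ _).symm, h3.imp (isForest_shift h).2 id⟩

variable (s ω) in
theorem exists_pot : ∃ (cl : G → G) (φ : G → FreeGroup ι), ∀ v w v',
    FRel s ω v w v' ↔ cl v = cl v' ∧ w = (φ v)⁻¹ * φ v' := by
  let r : Setoid G := ⟨fun v v' => ∃ w, FRel s ω v w v', fun v => ⟨1, FRel.refl v⟩,
    fun ⟨_, h⟩ => ⟨_, h.symm⟩, fun ⟨_, h⟩ ⟨_, h'⟩ => ⟨_, h.trans h'⟩⟩
  have h1 : ∀ v, ∃ w, FRel s ω (Quotient.mk r v).out w v := fun v => Quotient.mk_out (s := r) v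
  choose φ hφ using h1
  refine ⟨fun v => (Quotient.mk r v).out, φ, fun v w v' => ⟨fun h => ?_, fun h => ?_⟩⟩
  · have e : Quotient.mk r v = Quotient.mk r v' := Quotient.sound ⟨w, h⟩
    refine ⟨by simp only [e], ?_⟩
    have h2 := (hφ v).trans h
    rw [e] at h2
    rw [← h2.unique (hφ v')]
    simp
  · have h2 := (hφ v).symm
    have h3 : (Quotient.mk r v).out = (Quotient.mk r v').out := h.1
    rw [h3] at h2
    rw [h.2]
    exact h2.trans (hφ v')

/-- the edge from the neighbour `(st x)⁻¹` to `1` is an edge of the forest -/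
def Op (s : ι → G) (x : ι × Bool) : Set (G × ι → Bool) :=
  {ω | IsForest s ω ∧ ω (edge s (st s x)⁻¹ x) = true}

theorem Op.rel {x : ι × Bool} (h : ω ∈ Op s x) : FRel s ω (st s x)⁻¹ (lw x) 1 := by
  refine ⟨?_, by simp [st], Or.inl h.1⟩
  change OpenPath s ω _ [x]
  exact openPath_cons.2 ⟨h.2, trivial⟩

theorem op_of_rel {i j : ι} (hij : i ≠ j) {b : Bool} {v : G}
    (h : FRel s ω (st s (i, b))⁻¹ (lw (i, b) * (lw (j, b))⁻¹) v) : ω ∈ Op s (i, b) := by
  have e : (lw (i, b) * (lw (j, b))⁻¹).toWord = [(i, b), (j, !b)] := by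
    rw [← lw_not, lw, lw, FreeGroup.mul_mk, FreeGroup.toWord_mk]
    simp [hij]
  obtain ⟨h1, -, h3⟩ := h
  rw [e, openPath_cons] at h1
  refine ⟨h3.resolve_right fun h4 => ?_, h1.1⟩
  rw [h4] at e
  simp at e

section Meas

variable [Countable G] [Countable ι]

theorem meas_edge (e : G × ι) : MeasurableSet {ω : G × ι → Bool | ω e = true} :=
  measurableSet_eq_fun (measurable_pi_apply e) measurable_const

theorem meas_openPath (g : G) (L : List (ι × Bool)) : MeasurableSet {ω | OpenPath s ω g L} := by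
  induction L generalizing g with
  | nil => simp
  | cons x L ih =>
    simp only [openPath_cons]
    exact (meas_edge _).inter (ih _)

theorem meas_forest : MeasurableSet {ω | IsForest s ω} := by
  have : {ω | IsForest s ω} = ⋂ g : G, ⋂ w : FreeGroup ι, ({ω | OpenPath s ω g w.toWord}ᶜ ∪
      {_ω | FreeGroup.lift s w = 1 → w = 1}) := by
    ext ω
    simp only [IsForest, Set.mem_setOf_eq, Set.mem_iInter, Set.mem_union, Set.mem_compl_iff]
    exact forall₂_congr fun g w => imp_iff_not_or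
  rw [this]
  exact MeasurableSet.iInter fun g => MeasurableSet.iInter fun w =>
    (meas_openPath _ _).compl.union (MeasurableSet.const _)

theorem meas_rel (g : G) (w : FreeGroup ι) (g' : G) : MeasurableSet {ω | FRel s ω g w g'} :=
  (meas_openPath _ _).inter ((MeasurableSet.const _).inter
    (meas_forest.union (MeasurableSet.const _)))

theorem meas_op (x : ι × Bool) : MeasurableSet (Op s x) := meas_forest.inter (meas_edge _)

theorem meas_shift (h : G) : Measurable (shiftCfg h : (G × ι → Bool) → (G × ι → Bool)) :=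
  measurable_pi_lambda _ fun _ => measurable_pi_apply _

/-- long connections are unlikely -/
theorem exists_tail (μ : Measure (G × ι → Bool)) [IsProbabilityMeasure μ] (g g' : G) {ε : ℝ}
    (hε : 0 < ε) : ∀ᶠ n : ℕ in Filter.atTop,
      μ.real {ω | ∃ w, n < w.norm ∧ FRel s ω g w g'} ≤ ε := by
  let U : ℕ → Set (G × ι → Bool) := fun n => {ω | ∃ w, n < w.norm ∧ FRel s ω g w g'}
  have hm : ∀ n, MeasurableSet (U n) := fun n => by
    have : U n = ⋃ w : FreeGroup ι, {_ω | n < w.norm} ∩ {ω | FRel s ω g w g'} := by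
      ext ω; simp [U]
    rw [this]
    exact MeasurableSet.iUnion fun w => (MeasurableSet.const _).inter (meas_rel _ _ _)
  have ha : Antitone U := fun n m hnm ω ⟨w, h1, h2⟩ => ⟨w, lt_of_le_of_lt hnm h1, h2⟩
  have he : ⋂ n, U n = ∅ := by
    refine Set.eq_empty_of_forall_notMem fun ω h => ?_
    rw [Set.mem_iInter] at h
    obtain ⟨w, -, h1⟩ := h 0
    obtain ⟨w', h2, h3⟩ := h w.norm
    rw [h1.unique h3] at h2
    exact lt_irrefl _ h2
  have ht := tendsto_measure_iInter_atTop (μ := μ) (fun n => (hm n).nullMeasurableSet) ha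
    ⟨0, measure_ne_top _ _⟩
  rw [he, measure_empty] at ht
  have ht2 := (ENNReal.tendsto_toReal ENNReal.zero_ne_top).comp ht
  exact (ht2.eventually (gt_mem_nhds (by simpa using hε))).mono fun n hn => le_of_lt hn

end Meas

/-- finite quotients of a free group separate short words -/
theorem exists_quot [Finite ι] (n : ℕ) : ∃ (Q : Type) (_ : Group Q) (_ : Fintype Q)
    (_ : DecidableEq Q) (θ : FreeGroup ι →* Q), ∀ w, w.norm ≤ n → θ w = 1 → w = 1 := by
  classical
  let B : Set (FreeGroup ι) := {w | w.norm ≤ n}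
  have hB : B.Finite := by
    refine ((List.finite_length_le (ι × Bool) n).image FreeGroup.mk).subset fun w hw => ?_
    exact ⟨w.toWord, hw, FreeGroup.mk_toWord⟩
  haveI : Finite B := hB
  letI : Fintype B := Fintype.ofFinite B
  have h1 : ∀ i : ι, ∃ σ : Equiv.Perm B, ∀ (a : B) (h : FreeGroup.of i * a.1 ∈ B),
      σ a = ⟨_, h⟩ := by
    intro i
    obtain ⟨σ, hσ⟩ := Equiv.Perm.exists_extending_pair
      (α := {a : B // FreeGroup.of i * a.1 ∈ B}) (f := fun a => a.1) (g := fun a => (⟨_, a.2⟩ : B))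
      Subtype.val_injective fun a b h => by
        have := congrArg Subtype.val h
        exact Subtype.ext (Subtype.ext (mul_left_cancel this))
    exact ⟨σ, fun a h => hσ ⟨a, h⟩⟩
  choose σ hσ using h1
  have h0 : (1 : FreeGroup ι) ∈ B := by simp [B]
  have key : ∀ L : List (ι × Bool), L.length ≤ n →
      (FreeGroup.lift σ (FreeGroup.mk L) ⟨1, h0⟩).1 = FreeGroup.mk L := by
    intro L
    induction L with
    | nil => intro _; simp [← FreeGroup.one_eq_mk]
    | cons x L ih =>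
      intro hL
      have hL' : L.length ≤ n := le_trans (Nat.le_succ _) hL
      have hm : FreeGroup.mk L ∈ B := FreeGroup.norm_mk_le.trans hL'
      have hm' : FreeGroup.mk (x :: L) ∈ B := FreeGroup.norm_mk_le.trans hL
      have e : FreeGroup.lift σ (FreeGroup.mk L) ⟨1, h0⟩ = ⟨_, hm⟩ := Subtype.ext (ih hL')
      rw [mk_cons] at hm' ⊢
      rw [map_mul, Equiv.Perm.mul_apply, e]
      obtain ⟨i, b⟩ := x
      cases b
      · rw [lw_false] at hm' ⊢
        have h2 := hσ i ⟨_, hm'⟩ (by simpa using hm)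
        rw [map_inv, FreeGroup.lift_apply_of]
        have h3 : (σ i)⁻¹ ⟨_, hm⟩ = ⟨_, hm'⟩ := by
          rw [Equiv.Perm.inv_eq_iff_eq, h2]
          exact Subtype.ext (by simp)
        rw [h3]
      · rw [lw_true] at hm' ⊢
        rw [FreeGroup.lift_apply_of, hσ i ⟨_, hm⟩ hm']
  refine ⟨Equiv.Perm B, inferInstance, inferInstance, inferInstance, FreeGroup.lift σ,
    fun w hw h => ?_⟩
  have h2 := key w.toWord hw
  rw [FreeGroup.mk_toWord, h] at h2
  exact h2.symm

end Pool.Agent.P.MP_95bcfc_an.EM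
end

-- part Pool.Agent.P.MP_95bcfc_an.EM.Rank
section

set_option autoImplicit false
set_option linter.unusedSectionVars false
set_option linter.deprecated false
set_option linter.style.haveILetI false

namespace Pool.Agent.P.MP_95bcfc_an.EM

variable {G ι : Type} [Group G] [DecidableEq ι] (s : ι → G)

/-- connected by edges of `A` -/
def Conn (A : G × ι → Prop) : G → G → Prop :=
  Relation.EqvGen fun g g' => ∃ i, A (g, i) ∧ g' = g * s i

/-- the edges of a walk -/
def edges : G → List (ι × Bool) → List (G × ι)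
  | _, [] => []
  | g, x :: L => edge s g x :: edges (g * st s x) L

variable {s} {A A' : G × ι → Prop}

theorem Conn.refl (g : G) : Conn s A g g := Relation.EqvGen.refl g

theorem Conn.symm {a b : G} (h : Conn s A a b) : Conn s A b a := Relation.EqvGen.symm _ _ h

theorem Conn.trans {a b c : G} (h : Conn s A a b) (h' : Conn s A b c) : Conn s A a c :=
  Relation.EqvGen.trans _ _ _ h h'

theorem Conn.of {g : G} {i : ι} (h : A (g, i)) : Conn s A g (g * s i) :=
  Relation.EqvGen.rel _ _ ⟨i, h, rfl⟩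

theorem Conn.mono' (h : ∀ g i, A (g, i) → Conn s A' g (g * s i)) {a b : G} (hc : Conn s A a b) :
    Conn s A' a b := by
  induction hc with
  | rel _ _ h1 => obtain ⟨i, h2, rfl⟩ := h1; exact h _ _ h2
  | refl => exact Conn.refl _
  | symm _ _ _ ih => exact ih.symm
  | trans _ _ _ _ _ ih ih' => exact ih.trans ih'

theorem Conn.mono (h : ∀ e, A e → A' e) {a b : G} (hc : Conn s A a b) : Conn s A' a b :=
  hc.mono' fun _ _ h1 => Conn.of (h _ h1)

theorem Conn.shift (k : G) (h : ∀ g i, A (g, i) → A (k * g, i)) {a b : G} (hc : Conn s A a b) :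
    Conn s A (k * a) (k * b) := by
  induction hc with
  | rel _ _ h1 => obtain ⟨i, h2, rfl⟩ := h1; rw [← mul_assoc]; exact Conn.of (h _ _ h2)
  | refl => exact Conn.refl _
  | symm _ _ _ ih => exact ih.symm
  | trans _ _ _ _ _ ih ih' => exact ih.trans ih'

theorem conn_edge_iff {g : G} {x : ι × Bool} : Conn s A g (g * st s x) ↔
    Conn s A (edge s g x).1 ((edge s g x).1 * s (edge s g x).2) := by
  obtain ⟨i, b⟩ := x
  cases b
  · simp only [edge, st_false, Bool.false_eq_true, if_false, inv_mul_cancel_right]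
    exact ⟨Conn.symm, Conn.symm⟩
  · simp [edge]

theorem edges_append (g : G) (L L' : List (ι × Bool)) : edges s g (L ++ L') =
    edges s g L ++ edges s (g * FreeGroup.lift s (FreeGroup.mk L)) L' := by
  induction L generalizing g with
  | nil => simp [edges, ← FreeGroup.one_eq_mk]
  | cons x L ih =>
    rw [List.cons_append, edges, edges, ih, mk_cons, map_mul, mul_assoc]
    rfl

theorem conn_edges {g : G} {L : List (ι × Bool)} (h : ∀ e ∈ edges s g L, A e) :
    Conn s A g (g * FreeGroup.lift s (FreeGroup.mk L)) := by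
  induction L generalizing g with
  | nil => simpa [← FreeGroup.one_eq_mk] using Conn.refl g
  | cons x L ih =>
    rw [mk_cons, map_mul, ← mul_assoc]
    exact (conn_edge_iff.2 (Conn.of (h _ List.mem_cons_self))).trans
      (ih fun e he => h e (List.mem_cons_of_mem _ he))

theorem openPath_iff {ω : G × ι → Bool} {g : G} {L : List (ι × Bool)} :
    OpenPath s ω g L ↔ ∀ e ∈ edges s g L, ω e = true := by
  induction L generalizing g with
  | nil => simp [edges]
  | cons x L ih => rw [openPath_cons, ih, edges, List.forall_mem_cons]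

theorem edges_near {g : G} {L : List (ι × Bool)} {e : G × ι} (h : e ∈ edges s g L) :
    ∃ u : FreeGroup ι, u.norm ≤ L.length ∧ e.1 = g * FreeGroup.lift s u := by
  induction L generalizing g with
  | nil => simp [edges] at h
  | cons x L ih =>
    rcases List.mem_cons.1 h with rfl | h
    · obtain ⟨i, b⟩ := x
      cases b
      · exact ⟨lw (i, false), (norm_lw _).trans (by simp), by simp [edge, lw_false]⟩
      · exact ⟨1, by simp, by simp [edge]⟩
    · obtain ⟨u, h1, h2⟩ := ih h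
      refine ⟨lw x * u, ?_, by rw [h2, map_mul, mul_assoc]; rfl⟩
      have a1 := FreeGroup.norm_mul_le (lw x) u
      have a2 := norm_lw x
      rw [List.length_cons]
      omega

theorem edges_first {g : G} {L : List (ι × Bool)} {e : G × ι} (h : e ∈ edges s g L) :
    ∃ L1 y L2, L = L1 ++ y :: L2 ∧ edge s (g * FreeGroup.lift s (FreeGroup.mk L1)) y = e ∧
      e ∉ edges s g L1 := by
  induction L generalizing g with
  | nil => simp [edges] at h
  | cons x L ih =>
    by_cases hx : edge s g x = e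
    · exact ⟨[], x, L, rfl, by simpa [← FreeGroup.one_eq_mk] using hx, by simp [edges]⟩
    · obtain ⟨L1, y, L2, rfl, h2, h3⟩ := ih ((List.mem_cons.1 h).resolve_left (Ne.symm hx))
      refine ⟨x :: L1, y, L2, rfl, by rw [mk_cons, map_mul, ← mul_assoc]; exact h2, fun h4 => ?_⟩
      rcases List.mem_cons.1 h4 with h4 | h4
      · exact hx h4.symm
      · exact h3 h4

theorem edge_eq {g g' : G} {x y : ι × Bool} (h : edge s g' y = edge s g x) :
    g' = g ∨ (y = (x.1, !x.2) ∧ g' = g * st s x) := by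
  obtain ⟨i, b⟩ := x
  obtain ⟨j, c⟩ := y
  cases b <;> cases c <;> simp only [edge, Bool.false_eq_true, if_false, if_true, Prod.mk.injEq]
    at h <;> obtain ⟨h1, rfl⟩ := h
  · exact Or.inl (mul_right_cancel h1)
  · exact Or.inr ⟨rfl, by simpa using h1⟩
  · exact Or.inr ⟨rfl, by simp [← h1]⟩
  · exact Or.inl h1

/-- a closed walk with non-trivial label has an edge on a cycle -/
theorem exists_cycle (n : ℕ) : ∀ (L : List (ι × Bool)) (g : G), L.length ≤ n →
    FreeGroup.lift s (FreeGroup.mk L) = 1 → FreeGroup.mk L ≠ 1 →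
    ∃ e ∈ edges s g L, Conn s (fun e' => e' ∈ edges s g L ∧ e' ≠ e) e.1 (e.1 * s e.2) := by
  induction n with
  | zero =>
    intro L g hL _ h
    rw [List.length_eq_zero_iff.1 (Nat.le_zero.1 hL)] at h
    exact absurd FreeGroup.one_eq_mk.symm h
  | succ n ih =>
    intro L g hL h1 h2
    cases L with
    | nil => exact absurd FreeGroup.one_eq_mk.symm h2
    | cons x L =>
      rw [mk_cons] at h1 h2
      rw [map_mul] at h1
      by_cases hx : edge s g x ∈ edges s (g * st s x) L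
      · obtain ⟨L1, y, L2, rfl, h3, h4⟩ := edges_first hx
        rcases edge_eq h3 with h5 | ⟨rfl, h5⟩
        · refine ⟨_, List.mem_cons_self, conn_edge_iff.1 (Conn.symm ?_)⟩
          have h6 := conn_edges (s := s) (g := g * st s x) (L := L1)
            (A := fun e' => e' ∈ edges s g (x :: (L1 ++ y :: L2)) ∧ e' ≠ edge s g x) fun e he =>
              ⟨by rw [edges, edges_append]; simp [he], fun h7 => h4 (h7 ▸ he)⟩
          rwa [h5] at h6
        · have h6 : FreeGroup.lift s (FreeGroup.mk L1) = 1 := by simpa using h5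
          have hl : L1.length ≤ n ∧ L2.length ≤ n := by
            simp only [List.length_cons, List.length_append] at hL
            omega
          rw [← FreeGroup.mul_mk, mk_cons, lw_not] at h1 h2
          rw [map_mul, map_mul, h6, map_inv, one_mul, mul_inv_cancel_left] at h1
          by_cases h7 : FreeGroup.mk L1 = 1
          · rw [h7, one_mul, mul_inv_cancel_left] at h2
            obtain ⟨e, he, hc⟩ := ih L2 g hl.2 h1 h2
            have h8 : ∀ e' ∈ edges s g L2, e' ∈ edges s g (x :: (L1 ++ (x.1, !x.2) :: L2)) := by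
              intro e' he'
              rw [edges, edges_append, edges, h5, st_not, mul_inv_cancel_right]
              simp [he']
            exact ⟨e, h8 e he, hc.mono fun e' he' => ⟨h8 e' he'.1, he'.2⟩⟩
          · obtain ⟨e, he, hc⟩ := ih L1 (g * st s x) hl.1 h6 h7
            have h8 : ∀ e' ∈ edges s (g * st s x) L1,
                e' ∈ edges s g (x :: (L1 ++ (x.1, !x.2) :: L2)) := by
              intro e' he'
              rw [edges, edges_append]
              simp [he']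
            exact ⟨e, h8 e he, hc.mono fun e' he' => ⟨h8 e' he'.1, he'.2⟩⟩
      · refine ⟨_, List.mem_cons_self, conn_edge_iff.1 (Conn.symm ?_)⟩
        have h6 := conn_edges (s := s) (g := g * st s x) (L := L)
          (A := fun e' => e' ∈ edges s g (x :: L) ∧ e' ≠ edge s g x) fun e he =>
            ⟨List.mem_cons_of_mem _ he, fun h7 => hx (h7 ▸ he)⟩
        rwa [mul_assoc, show st s x * FreeGroup.lift s (FreeGroup.mk L) = 1 from h1, mul_one] at h6

variable [Fintype ι] (K : Subgroup G) [K.Normal] [K.FiniteIndex]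

/-- a periodic set of edges that connects and has no short cycle -/
theorem exists_periodic (R : ℕ)
    (hK : ∀ w : FreeGroup ι, w.norm ≤ 2 * R → FreeGroup.lift s w ∈ K → FreeGroup.lift s w = 1) :
    ∃ F : Finset ((G ⧸ K) × ι), (∀ g i, Conn s (fun e => ((e.1 : G ⧸ K), e.2) ∈ F) g (g * s i)) ∧
      ∀ (g : G) (w : FreeGroup ι), w.norm ≤ R →
        (∀ e ∈ edges s g w.toWord, ((e.1 : G ⧸ K), e.2) ∈ F) → FreeGroup.lift s w = 1 → w = 1 := by
  classical
  letI := K.fintypeQuotientOfFiniteIndex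
  let P : Finset ((G ⧸ K) × ι) → Prop := fun F =>
    ∀ g i, Conn s (fun e => ((e.1 : G ⧸ K), e.2) ∈ F) g (g * s i)
  obtain ⟨F, hF, hmin⟩ := Finset.exists_min_image (Finset.univ.filter P) Finset.card
    ⟨Finset.univ, Finset.mem_filter.2 ⟨Finset.mem_univ _, fun g i => Conn.of (Finset.mem_univ _)⟩⟩
  have hP : P F := (Finset.mem_filter.1 hF).2
  refine ⟨F, hP, fun g w hw h1 h2 => ?_⟩
  by_contra h3
  obtain ⟨e, he, hc⟩ := exists_cycle (s := s) _ w.toWord g le_rfl
    (by rwa [FreeGroup.mk_toWord]) (by rwa [FreeGroup.mk_toWord])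
  have h4 : Conn s (fun e' => ((e'.1 : G ⧸ K), e'.2) ∈ F.erase ((e.1 : G ⧸ K), e.2)) e.1
      (e.1 * s e.2) := by
    refine hc.mono fun e' he' => Finset.mem_erase.2 ⟨fun h5 => he'.2 ?_, h1 e' he'.1⟩
    obtain ⟨h6, h7⟩ := Prod.ext_iff.1 h5
    obtain ⟨u, hu, hu'⟩ := edges_near he
    obtain ⟨u', hv, hv'⟩ := edges_near he'.1
    have h8 : e'.1⁻¹ * e.1 = FreeGroup.lift s (u'⁻¹ * u) := by simp [hu', hv', mul_assoc]
    have h9 := hK (u'⁻¹ * u) (by
      have a1 := FreeGroup.norm_mul_le u'⁻¹ u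
      rw [FreeGroup.norm_inv_eq] at a1
      change w.toWord.length ≤ R at hw
      omega) (h8 ▸ QuotientGroup.eq.1 h6)
    exact Prod.ext (inv_mul_eq_one.1 (h8.trans h9)) h7
  have h5 : P (F.erase ((e.1 : G ⧸ K), e.2)) := fun g i => (hP g i).mono' fun g i hgi => by
    by_cases h6 : ((g : G ⧸ K), i) = ((e.1 : G ⧸ K), e.2)
    · obtain ⟨h7, rfl⟩ := Prod.ext_iff.1 h6
      have h8 := h4.shift (g * e.1⁻¹) fun g' i' h9 => by
        have : ((g * e.1⁻¹ * g' : G) : G ⧸ K) = g' := by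
          simp only [QuotientGroup.mk_mul, QuotientGroup.mk_inv]
          rw [show (g : G ⧸ K) = e.1 from h7, mul_inv_cancel, one_mul]
        simpa only [this] using h9
      simpa only [← mul_assoc, inv_mul_cancel_right] using h8
    · exact Conn.of (Finset.mem_erase.2 ⟨h6, hgi⟩)
  have h6 := hmin _ (Finset.mem_filter.2 ⟨Finset.mem_univ _, h5⟩)
  exact absurd h6 (not_le.2 (Finset.card_erase_lt_of_mem (h1 e he)))

/-- a connecting periodic set of edges is large -/
theorem card_periodic (I : Subgroup G) [I.FiniteIndex] (hKI : K ≤ I)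
    (hs : Subgroup.closure (Set.range s) = I) {m : ℝ}
    (hm : ∀ T : Finset G, Subgroup.closure (T : Set G) = K → m ≤ T.card)
    (F : Finset ((G ⧸ K) × ι))
    (hF : ∀ g i, Conn s (fun e => ((e.1 : G ⧸ K), e.2) ∈ F) g (g * s i)) :
    I.index * m ≤ F.card := by
  classical
  letI := I.fintypeQuotientOfFiniteIndex
  have h1 : ∀ u ∈ I, ∀ g, Conn s (fun e => ((e.1 : G ⧸ K), e.2) ∈ F) g (g * u) := by
    intro u hu
    rw [← hs] at hu
    induction hu using Subgroup.closure_induction with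
    | mem x hx => obtain ⟨i, rfl⟩ := hx; exact fun g => hF g i
    | one => exact fun g => by simpa using Conn.refl g
    | mul x y _ _ hx hy => exact fun g => by rw [← mul_assoc]; exact (hx g).trans (hy _)
    | inv x _ hx => exact fun g => by simpa using (hx (g * x⁻¹)).symm
  let c : G → G := fun g => g * ((g : G ⧸ K).out)⁻¹
  have hc : ∀ g, c g ∈ K := fun g =>
    Subgroup.Normal.mem_comm inferInstance (QuotientGroup.eq.1 (QuotientGroup.out_eq' _))
  have key : ∀ r : G ⧸ I,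
      m ≤ (F.filter fun p => Subgroup.quotientMapOfLE hKI p.1 = r).card := by
    intro r
    set Fr := F.filter fun p => Subgroup.quotientMapOfLE hKI p.1 = r with hFr
    let T : Finset G := Fr.image fun p => (c p.1.out)⁻¹ * c (p.1.out * s p.2)
    refine (hm T (le_antisymm ?_ fun h hh => ?_)).trans (by exact_mod_cast Finset.card_image_le)
    · rw [Subgroup.closure_le]
      intro x hx
      obtain ⟨p, -, rfl⟩ := Finset.mem_image.1 (Finset.mem_coe.1 hx)
      exact K.mul_mem (K.inv_mem (hc _)) (hc _)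
    · have h2 : ∀ a b, Conn s (fun e => ((e.1 : G ⧸ K), e.2) ∈ F) a b → a⁻¹ * b ∈ I ∧
          ((a : G ⧸ I) = r → (c a)⁻¹ * c b ∈ Subgroup.closure (T : Set G)) := by
        intro a b hab
        induction hab with
        | rel a _ h3 =>
          obtain ⟨i, h4, rfl⟩ := h3
          refine ⟨by simpa [← hs] using Subgroup.subset_closure (Set.mem_range_self i),
            fun h5 => Subgroup.subset_closure (Finset.mem_coe.2 (Finset.mem_image.2
              ⟨((a : G ⧸ K), i), Finset.mem_filter.2 ⟨h4, h5⟩, ?_⟩))⟩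
          simp [c, mul_assoc]
        | refl => simp
        | symm a b _ ih =>
          refine ⟨by simpa using I.inv_mem ih.1, fun h5 => ?_⟩
          simpa using Subgroup.inv_mem _ (ih.2 ((QuotientGroup.eq.2 ih.1).trans h5))
        | trans a b d _ _ ih ih' =>
          refine ⟨by simpa [mul_assoc] using I.mul_mem ih.1 ih'.1, fun h5 => ?_⟩
          simpa [mul_assoc] using Subgroup.mul_mem _ (ih.2 h5)
            (ih'.2 ((QuotientGroup.eq.2 ih.1).symm.trans h5))
      set g := r.out with hg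
      have h3 : c g * h * (c g)⁻¹ ∈ K := K.mul_mem (K.mul_mem (hc g) hh) (K.inv_mem (hc g))
      set k := c g * h * (c g)⁻¹ with hk
      have h4 : g⁻¹ * k * g ∈ K := by
        simpa using Subgroup.Normal.conj_mem inferInstance k h3 g⁻¹
      have h5 := (h2 _ _ (h1 _ (hKI h4) g)).2 (QuotientGroup.out_eq' r)
      have h6 : ((g * (g⁻¹ * k * g) : G) : G ⧸ K) = g :=
        (QuotientGroup.eq.2 (by simpa [mul_assoc] using h4)).symm
      have h7 : c (g * (g⁻¹ * k * g)) = k * c g := by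
        simp only [c, h6]
        simp [mul_assoc]
      rw [h7, hk] at h5
      simpa [mul_assoc] using h5
  rw [Finset.card_eq_sum_card_fiberwise (f := fun p => Subgroup.quotientMapOfLE hKI p.1)
    (t := Finset.univ) fun _ _ => Finset.mem_univ _, Nat.cast_sum, Subgroup.index_eq_card,
    Nat.card_eq_fintype_card, ← nsmul_eq_mul, ← Finset.card_univ]
  exact Finset.card_nsmul_le_sum _ _ _ fun r _ => key r

end Pool.Agent.P.MP_95bcfc_an.EM
end

-- part Pool.Agent.P.MP_95bcfc_an.EM.Perron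
section

set_option autoImplicit false
set_option linter.unusedSectionVars false
set_option linter.deprecated false
set_option linter.style.haveILetI false

open scoped InnerProductSpace

namespace Pool.Agent.P.MP_95bcfc_an.EM

variable {E : Type} [NormedAddCommGroup E] [InnerProductSpace ℂ E]

/-- approximate top singular vectors -/
theorem perron {M : Type} [AddCommGroup M] [Module ℂ M] (J : M →ₗ[ℂ] E) (A A' : M →ₗ[ℂ] M)
    (hadj : ∀ f f', ⟪J f', J (A f)⟫_ℂ = ⟪J (A' f'), J f⟫_ℂ) {C : ℝ}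
    (hC : ∀ f, ‖J (A f)‖ ≤ C * ‖J f‖) {u : M} (hu : ‖J u‖ = 1) {d : ℝ} (hd : 0 < d)
    (hud : d ≤ ‖J (A u)‖) {η : ℝ} (hη : 0 < η) :
    ∃ (l : ℝ) (h0 h1 : M), d ≤ l ∧ ‖J h0‖ = 1 ∧ ‖J h1‖ = 1 ∧
      ‖J (A h0) - (l : ℂ) • J h1‖ ≤ η * l ∧ ‖J (A' h1) - (l : ℂ) • J h0‖ ≤ η * l := by
  let T : Set ℝ := {t | ∃ f, ‖J f‖ = 1 ∧ t = ‖J (A f)‖}
  have hne : T.Nonempty := ⟨_, u, hu, rfl⟩
  have hbd : BddAbove T := ⟨C, by
    rintro _ ⟨f, h1, rfl⟩
    simpa [h1] using hC f⟩
  set l := sSup T with hl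
  have hdl : d ≤ l := hud.trans (le_csSup hbd ⟨u, hu, rfl⟩)
  have hl0 : 0 < l := hd.trans_le hdl
  have hA : ∀ f, ‖J (A f)‖ ≤ l * ‖J f‖ := by
    intro f
    rcases (norm_nonneg (J f)).eq_or_lt with h | h
    · have := hC f
      rw [← h] at this ⊢
      simpa using this
    · have h1 : ‖J (((‖J f‖⁻¹ : ℝ) : ℂ) • f)‖ = 1 := by
        rw [map_smul, norm_smul, Complex.norm_real, norm_inv, norm_norm, inv_mul_cancel₀ h.ne']
      have h2 := le_csSup hbd ⟨_, h1, rfl⟩
      rw [map_smul, map_smul, norm_smul, Complex.norm_real, norm_inv, norm_norm,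
        inv_mul_le_iff₀ h] at h2
      rwa [mul_comm]
  have hA' : ∀ f, ‖J (A' f)‖ ≤ l * ‖J f‖ := by
    intro f
    have h1 : ‖J (A' f)‖ ^ 2 ≤ ‖J f‖ * (l * ‖J (A' f)‖) := by
      calc ‖J (A' f)‖ ^ 2 = ‖⟪J (A' f), J (A' f)⟫_ℂ‖ := by simp [inner_self_eq_norm_sq_to_K]
        _ = ‖⟪J f, J (A (A' f))⟫_ℂ‖ := by rw [hadj]
        _ ≤ ‖J f‖ * ‖J (A (A' f))‖ := norm_inner_le_norm _ _
        _ ≤ _ := mul_le_mul_of_nonneg_left (hA _) (norm_nonneg _)
    rcases (norm_nonneg (J (A' f))).eq_or_lt with h | h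
    · rw [← h]; positivity
    · nlinarith
  set η' : ℝ := min (1 / 2) (min η (η ^ 2 / 2)) with hη'
  have hη0 : 0 < η' := by positivity
  have h1 : η' ≤ 1 / 2 := min_le_left _ _
  have h2 : η' ≤ η := (min_le_right _ _).trans (min_le_left _ _)
  have h3 : η' ≤ η ^ 2 / 2 := (min_le_right _ _).trans (min_le_right _ _)
  obtain ⟨_, ⟨h0, hh0, rfl⟩, ha⟩ := exists_lt_of_lt_csSup hne
    (show l - η' * l < l by nlinarith)
  set a := ‖J (A h0)‖ with haa
  have hal : a ≤ l := by simpa [hh0] using hA h0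
  have ha0 : 0 < a := by nlinarith
  have hac : (a : ℂ) ≠ 0 := by exact_mod_cast ha0.ne'
  have e : J (A h0) = (a : ℂ) • J (((a⁻¹ : ℝ) : ℂ) • A h0) := by
    rw [map_smul, smul_smul]
    push_cast
    rw [mul_inv_cancel₀ hac, one_smul]
  have hh1 : ‖J (((a⁻¹ : ℝ) : ℂ) • A h0)‖ = 1 := by
    rw [map_smul, norm_smul, Complex.norm_real, norm_inv, Real.norm_of_nonneg ha0.le,
      inv_mul_cancel₀ ha0.ne']
  refine ⟨l, h0, ((a⁻¹ : ℝ) : ℂ) • A h0, hdl, hh0, hh1, ?_, ?_⟩
  · set h1' := ((a⁻¹ : ℝ) : ℂ) • A h0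
    rw [e, ← sub_smul, norm_smul, hh1, ← Complex.ofReal_sub, Complex.norm_real, Real.norm_eq_abs,
      abs_sub_comm, abs_of_nonneg (by linarith)]
    nlinarith
  · set h1' := ((a⁻¹ : ℝ) : ℂ) • A h0
    refine (sq_le_sq₀ (norm_nonneg _) (by positivity)).1 ?_
    have h4 : (⟪J (A' h1'), (l : ℂ) • J h0⟫_ℂ).re = l * a := by
      rw [inner_smul_right, ← hadj, e, inner_smul_right, inner_self_eq_norm_sq_to_K, hh1]
      simp
    have h5 := hA' h1'
    rw [hh1, mul_one] at h5
    have h6 := pow_le_pow_left₀ (norm_nonneg _) h5 2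
    rw [@norm_sub_sq ℂ, norm_smul, hh0, Complex.norm_real, Real.norm_of_nonneg hl0.le]
    change _ - 2 * Complex.re _ + _ ≤ _
    rw [h4]
    nlinarith [mul_pos hl0 hl0]

variable {ι : Type} [DecidableEq ι]

/-- greedy balancing of two families of vectors -/
theorem split (s : Finset ι) (v w : ι → E) : ∃ t ⊆ s,
    ‖∑ i ∈ t, v i - ∑ i ∈ s \ t, v i‖ ^ 2 + ‖∑ i ∈ t, w i - ∑ i ∈ s \ t, w i‖ ^ 2 ≤
      ∑ i ∈ s, (‖v i‖ ^ 2 + ‖w i‖ ^ 2) := by
  induction s using Finset.induction_on with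
  | empty => exact ⟨∅, Finset.Subset.refl _, by simp⟩
  | insert a s ha ih =>
    obtain ⟨t, ht, h⟩ := ih
    have hat : a ∉ t := fun h' => ha (ht h')
    have e1 : insert a s \ insert a t = s \ t := by
      ext x
      simp only [Finset.mem_sdiff, Finset.mem_insert, not_or]
      exact ⟨fun h => ⟨h.1.resolve_left h.2.1, h.2.2⟩,
        fun h => ⟨Or.inr h.1, fun e => ha (e ▸ h.1), h.2⟩⟩
    have e2 : insert a s \ t = insert a (s \ t) := Finset.insert_sdiff_of_notMem s hat
    have hast : a ∉ s \ t := fun h' => ha (Finset.mem_sdiff.1 h').1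
    set x := ∑ i ∈ t, v i - ∑ i ∈ s \ t, v i with hx
    set y := ∑ i ∈ t, w i - ∑ i ∈ s \ t, w i with hy
    have p1 := parallelogram_law_with_norm ℂ x (v a)
    have p2 := parallelogram_law_with_norm ℂ y (w a)
    rw [Finset.sum_insert ha]
    by_cases hc : ‖x + v a‖ ^ 2 + ‖y + w a‖ ^ 2 ≤ ‖x - v a‖ ^ 2 + ‖y - w a‖ ^ 2
    · refine ⟨insert a t, Finset.insert_subset_insert a ht, ?_⟩
      rw [e1, Finset.sum_insert hat, Finset.sum_insert hat, add_sub_assoc, add_sub_assoc, ← hx,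
        ← hy, add_comm (v a), add_comm (w a)]
      nlinarith
    · refine ⟨t, ht.trans (Finset.subset_insert _ _), ?_⟩
      rw [e2, Finset.sum_insert hast, Finset.sum_insert hast, add_comm (v a), add_comm (w a),
        ← sub_sub, ← sub_sub, ← hx, ← hy]
      nlinarith

theorem split' (s : Finset ι) (v : Bool → ι → E) (hv : ∀ b i, ‖v b i‖ ≤ 1) {r : ℝ} (hr : 0 ≤ r)
    (hs : 2 * (s.card : ℝ) ≤ r ^ 2) : ∃ t ⊆ s, ∀ b,
      ‖(2 : ℂ) • ∑ i ∈ t, v b i - ∑ i ∈ s, v b i‖ ≤ r ∧
      ‖(2 : ℂ) • ∑ i ∈ s \ t, v b i - ∑ i ∈ s, v b i‖ ≤ r := by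
  obtain ⟨t, ht, h⟩ := split s (v true) (v false)
  have h1 : ∑ i ∈ s, (‖v true i‖ ^ 2 + ‖v false i‖ ^ 2) ≤ r ^ 2 := by
    refine le_trans ?_ hs
    refine (Finset.sum_le_card_nsmul s _ 2 fun i _ => ?_).trans (by simp [mul_comm])
    have := pow_le_pow_left₀ (norm_nonneg _) (hv true i) 2
    have := pow_le_pow_left₀ (norm_nonneg _) (hv false i) 2
    linarith
  refine ⟨t, ht, fun b => ?_⟩
  have h2 : ‖∑ i ∈ t, v b i - ∑ i ∈ s \ t, v b i‖ ≤ r := by
    refine (sq_le_sq₀ (norm_nonneg _) hr).1 ?_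
    cases b <;> nlinarith [sq_nonneg ‖∑ i ∈ t, v true i - ∑ i ∈ s \ t, v true i‖,
      sq_nonneg ‖∑ i ∈ t, v false i - ∑ i ∈ s \ t, v false i‖]
  rw [← Finset.sum_sdiff ht]
  constructor
  · convert h2 using 2
    rw [two_smul]; abel
  · rw [norm_sub_rev] at h2
    refine le_of_eq_of_le (congrArg _ ?_) h2
    rw [two_smul]; abel

/-- three disjoint classes, each carrying a quarter of the sum -/
theorem classes [Fintype ι] (v : Bool → ι → E) (hv : ∀ b i, ‖v b i‖ ≤ 1) {r : ℝ} (hr : 0 ≤ r)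
    (hs : 2 * (Fintype.card ι : ℝ) ≤ r ^ 2) : ∃ c : Option (Fin 2) → Finset ι,
      (∀ k k' i, i ∈ c k → i ∈ c k' → k = k') ∧
      ∀ k b, ‖(4 : ℂ) • ∑ i ∈ c k, v b i - ∑ i, v b i‖ ≤ 3 * r := by
  have hc : ∀ s : Finset ι, 2 * (s.card : ℝ) ≤ r ^ 2 := fun s => by
    have : (s.card : ℝ) ≤ Fintype.card ι := by exact_mod_cast Finset.card_le_univ s
    linarith
  obtain ⟨t, -, h⟩ := split' Finset.univ v hv hr (hc _)
  obtain ⟨t1, ht1, h1⟩ := split' t v hv hr (hc _)
  obtain ⟨t2, ht2, h2⟩ := split' (Finset.univ \ t) v hv hr (hc _)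
  have key : ∀ x y z : E, ‖(2 : ℂ) • x - y‖ ≤ r → ‖(2 : ℂ) • y - z‖ ≤ r →
      ‖(4 : ℂ) • x - z‖ ≤ 3 * r := by
    intro x y z a b
    have e : (4 : ℂ) • x - z = (2 : ℂ) • ((2 : ℂ) • x - y) + ((2 : ℂ) • y - z) := by
      rw [smul_sub, smul_smul]
      norm_num
    rw [e]
    refine (norm_add_le _ _).trans ?_
    rw [norm_smul, Complex.norm_two]
    linarith
  refine ⟨fun k => k.elim t2 ![t1, t \ t1], ?_, ?_⟩
  · intro k k' i a b
    have a1 : i ∈ t2 → i ∉ t := fun h => (Finset.mem_sdiff.1 (ht2 h)).2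
    have a2 : i ∈ t1 → i ∈ t := fun h => ht1 h
    rcases k with _ | k <;> rcases k' with _ | k'
    · rfl
    · fin_cases k' <;> simp at a b <;> tauto
    · fin_cases k <;> simp at a b <;> tauto
    · fin_cases k <;> fin_cases k' <;> simp at a b ⊢ <;> tauto
  · intro k b
    rcases k with _ | k
    · exact key _ _ _ (h2 b).1 (h b).2
    · fin_cases k
      · exact key _ _ _ (h1 b).1 (h b).1
      · exact key _ _ _ (h1 b).2 (h b).1

end Pool.Agent.P.MP_95bcfc_an.EM
end

-- part Pool.Agent.P.MP_95bcfc_an.EM.Leak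
section

set_option autoImplicit false
set_option linter.unusedSectionVars false
set_option linter.deprecated false
set_option linter.style.haveILetI false

open scoped InnerProductSpace ComplexConjugate
open MeasureTheory

namespace Pool.Agent.P.MP_95bcfc_an.EM

section L2

variable {X : Type} [MeasurableSpace X] (μ : Measure X) [IsProbabilityMeasure μ]

theorem memLp_BM (f : BM X) : MemLp f.1 2 μ := by
  obtain ⟨C, hC⟩ := f.2.2
  exact MemLp.of_bound f.2.1.aestronglyMeasurable C (Filter.Eventually.of_forall hC)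

/-- bounded measurable functions as square integrable functions -/
noncomputable def JJ : BM X →ₗ[ℂ] Lp ℂ 2 μ where
  toFun f := (memLp_BM μ f).toLp f.1
  map_add' f g := MemLp.toLp_add (memLp_BM μ f) (memLp_BM μ g)
  map_smul' c f := MemLp.toLp_const_smul c (memLp_BM μ f)

theorem coe_JJ (f : BM X) : JJ μ f =ᵐ[μ] f.1 := (memLp_BM μ f).coeFn_toLp

theorem inner_JJ (f g : BM X) : ⟪JJ μ f, JJ μ g⟫_ℂ = ∫ ω, conj (f.1 ω) * g.1 ω ∂μ := by
  rw [L2.inner_def]
  refine integral_congr_ae ?_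
  filter_upwards [coe_JJ μ f, coe_JJ μ g] with ω h1 h2
  rw [h1, h2, RCLike.inner_apply, mul_comm]

theorem norm_JJ_mono {f g : BM X} (h : ∀ ω, ‖f.1 ω‖ ≤ ‖g.1 ω‖) : ‖JJ μ f‖ ≤ ‖JJ μ g‖ := by
  refine Lp.norm_le_norm_of_ae_le ?_
  filter_upwards [coe_JJ μ f, coe_JJ μ g] with ω h1 h2
  rw [h1, h2]
  exact h ω

theorem norm_JJ_one : ‖JJ μ 1‖ = 1 := by
  rw [@norm_eq_sqrt_re_inner ℂ, inner_JJ]
  simp

end L2

section Gen

variable {W G X : Type} [Group W] [Group G] [MeasurableSpace X] [MulAction G X]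
  [MeasurableConstSMul G X] {μ : Measure X} [IsProbabilityMeasure μ] [SMulInvariantMeasure G X μ]
  {L : Type} [NormedAddCommGroup L] [InnerProductSpace ℂ L] [CompleteSpace L]
  {S : Sys W G X} {σ : F2 →* unitary (L →L[ℂ] L)}
  {H : Type} [NormedAddCommGroup H] [InnerProductSpace ℂ H] {e : BM X × G × L → H}

theorem e_rel (he : ∀ y y', ⟪e y, e y'⟫_ℂ = ∫ ω, S.kf σ y y' ω ∂μ) {f f' : BM X} {v v' : G}
    {u : F2} (h : ∀ ω, f.1 ω ≠ 0 → S.Rel ω v u v') (ξ η : L) :
    ⟪e (f, v, ξ), e (f', v', η)⟫_ℂ = ⟪JJ μ f, JJ μ f'⟫_ℂ * ⟪ξ, (σ u : L →L[ℂ] L) η⟫_ℂ := by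
  rw [he, inner_JJ, ← integral_mul_const]
  refine integral_congr_ae (Filter.Eventually.of_forall fun ω => ?_)
  simp only [Sys.kf]
  by_cases h0 : f.1 ω = 0
  · simp [h0]
  · rw [Sys.κ_of_rel σ (h ω h0)]

theorem e_same (he : ∀ y y', ⟪e y, e y'⟫_ℂ = ∫ ω, S.kf σ y y' ω ∂μ) (f f' : BM X) (v : G)
    (ξ η : L) : ⟪e (f, v, ξ), e (f', v, η)⟫_ℂ = ⟪JJ μ f, JJ μ f'⟫_ℂ * ⟪ξ, η⟫_ℂ := by
  simpa using e_rel he (f := f) (f' := f') (fun ω _ => Sys.rel_refl ω v) ξ η

theorem norm_e (he : ∀ y y', ⟪e y, e y'⟫_ℂ = ∫ ω, S.kf σ y y' ω ∂μ) (f : BM X) (v : G) (ξ : L) :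
    ‖e (f, v, ξ)‖ = ‖JJ μ f‖ * ‖ξ‖ := by
  have h := e_same he f f v ξ ξ
  simp only [inner_self_eq_norm_sq_to_K] at h
  refine (sq_eq_sq₀ (norm_nonneg _) (by positivity)).1 ?_
  rw [mul_pow]
  exact_mod_cast h

/-- the generating vectors depend linearly on the function -/
noncomputable def eL (he : ∀ y y', ⟪e y, e y'⟫_ℂ = ∫ ω, S.kf σ y y' ω ∂μ) (v : G) (ξ : L) :
    BM X →ₗ[ℂ] H where
  toFun f := e (f, v, ξ)
  map_add' a b := by
    rw [← sub_eq_zero, ← @inner_self_eq_zero ℂ]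
    simp only [inner_sub_left, inner_sub_right, inner_add_left, inner_add_right, e_same he, map_add]
    ring
  map_smul' c a := by
    rw [← sub_eq_zero, ← @inner_self_eq_zero ℂ]
    simp only [inner_sub_left, inner_sub_right, inner_smul_left, inner_smul_right, e_same he,
      map_smul, RingHom.id_apply]
    ring

theorem eL_apply (he : ∀ y y', ⟪e y, e y'⟫_ℂ = ∫ ω, S.kf σ y y' ω ∂μ) (v : G) (ξ : L) (f : BM X) :
    eL he v ξ f = e (f, v, ξ) := rfl

theorem e_move (he : ∀ y y', ⟪e y, e y'⟫_ℂ = ∫ ω, S.kf σ y y' ω ∂μ) {f : BM X} {v v' : G}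
    {u : F2} (h : ∀ ω, f.1 ω ≠ 0 → S.Rel ω v u v') (ξ : L) :
    e (f, v, ξ) = e (f, v', (σ u⁻¹ : L →L[ℂ] L) ξ) := by
  have h1 := e_rel he (f' := f) h ξ ((σ u⁻¹ : L →L[ℂ] L) ξ)
  rw [← ContinuousLinearMap.mul_apply, ← Submonoid.coe_mul, ← MonoidHom.map_mul,
    mul_inv_cancel, map_one, OneMemClass.coe_one, ContinuousLinearMap.one_apply] at h1
  have h2 : ⟪e (f, v', (σ u⁻¹ : L →L[ℂ] L) ξ), e (f, v, ξ)⟫_ℂ =
      ⟪JJ μ f, JJ μ f⟫_ℂ * ⟪ξ, ξ⟫_ℂ := by
    rw [← inner_conj_symm, h1, map_mul, inner_conj_symm, inner_conj_symm]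
  rw [← sub_eq_zero, ← @inner_self_eq_zero ℂ, inner_sub_left, inner_sub_right, inner_sub_right,
    h1, h2, e_same he, e_same he, uni_inner_map]
  ring

theorem norm_sum_sq_le {ι : Type} [DecidableEq ι] (c : Finset ι) (y : ι → H) {a b : ℝ}
    (hb : 0 ≤ b) (h1 : ∀ i ∈ c, ‖y i‖ ^ 2 ≤ a)
    (h2 : ∀ i ∈ c, ∀ j ∈ c, i ≠ j → ‖⟪y i, y j⟫_ℂ‖ ≤ b) :
    ‖∑ i ∈ c, y i‖ ^ 2 ≤ c.card * a + (c.card : ℝ) ^ 2 * b := by
  have e1 : ‖∑ i ∈ c, y i‖ ^ 2 = ‖⟪∑ i ∈ c, y i, ∑ i ∈ c, y i⟫_ℂ‖ := by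
    simp [inner_self_eq_norm_sq_to_K]
  rw [e1, sum_inner]
  refine (norm_sum_le _ _).trans ((Finset.sum_le_card_nsmul c _ (a + c.card * b)
    fun i hi => ?_).trans (le_of_eq (by rw [nsmul_eq_mul]; ring)))
  rw [inner_sum]
  refine (norm_sum_le _ _).trans ((Finset.sum_le_sum
    (g := fun j => (if i = j then a else 0) + b) fun j hj => ?_).trans (le_of_eq ?_))
  · by_cases hij : i = j
    · subst hij
      have : ‖⟪y i, y i⟫_ℂ‖ = ‖y i‖ ^ 2 := by simp [inner_self_eq_norm_sq_to_K]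
      simp only [if_true, this]
      linarith [h1 i hi]
    · simpa [hij] using h2 i hi j hj hij
  · rw [Finset.sum_add_distrib, Finset.sum_ite_eq, if_pos hi, Finset.sum_const, nsmul_eq_mul]

end Gen

section Cfg

variable {G ι : Type} [Group G] [Countable G] [Fintype ι] [DecidableEq ι] (s : ι → G)
  {μ : Measure (G × ι → Bool)} [IsProbabilityMeasure μ]

theorem shiftCfg_mul (g h : G) (ω : G × ι → Bool) :
    shiftCfg (g * h) ω = shiftCfg g (shiftCfg h ω) := by
  funext e; simp [shiftCfg, mul_assoc]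

theorem shiftCfg_one (ω : G × ι → Bool) : shiftCfg (1 : G) ω = ω := by
  funext e; simp [shiftCfg]

/-- translate of a function -/
def shf (h : G) (f : BM (G × ι → Bool)) : BM (G × ι → Bool) :=
  ⟨fun ω => f.1 (shiftCfg h⁻¹ ω), f.2.1.comp (meas_shift _), f.2.2.imp fun _ hC _ => hC _⟩

theorem int_shift (hμ : ∀ g : G, μ.map (shiftCfg g) = μ) (h : G) {F : (G × ι → Bool) → ℂ}
    (hF : Measurable F) : ∫ ω, F (shiftCfg h ω) ∂μ = ∫ ω, F ω ∂μ := by
  rw [← integral_map (meas_shift h).aemeasurable hF.aestronglyMeasurable, hμ]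

theorem norm_JJ_shf (hμ : ∀ g : G, μ.map (shiftCfg g) = μ) (h : G) (f : BM (G × ι → Bool)) :
    ‖JJ μ (shf h f)‖ = ‖JJ μ f‖ := by
  rw [@norm_eq_sqrt_re_inner ℂ, @norm_eq_sqrt_re_inner ℂ, inner_JJ, inner_JJ]
  exact congrArg _ (congrArg _ (int_shift hμ h⁻¹ (F := fun ω => conj (f.1 ω) * f.1 ω)
    ((Complex.continuous_conj.measurable.comp f.2.1).mul f.2.1)))

/-- indicator of a forest edge at the identity -/
noncomputable def iop (x : ι × Bool) : BM (G × ι → Bool) := BM.ind (Op s x) (meas_op x)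

open Classical in
theorem iop_apply (x : ι × Bool) (ω : G × ι → Bool) :
    (iop s x).1 ω = if ω ∈ Op s x then 1 else 0 := rfl

/-- partial shift along a forest edge -/
noncomputable def Aop (x : ι × Bool) : BM (G × ι → Bool) →ₗ[ℂ] BM (G × ι → Bool) where
  toFun f := iop s x * shf (st s x)⁻¹ f
  map_add' f g := by rw [← mul_add]; rfl
  map_smul' c f := by rw [RingHom.id_apply, ← mul_smul_comm]; rfl

theorem Aop_apply (x : ι × Bool) (f : BM (G × ι → Bool)) (ω : G × ι → Bool) :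
    (Aop s x f).1 ω = (iop s x).1 ω * f.1 (shiftCfg (st s x) ω) := by
  change (iop s x).1 ω * f.1 (shiftCfg (st s x)⁻¹⁻¹ ω) = _
  rw [inv_inv]

theorem op_shift (i : ι) (b : Bool) (ω : G × ι → Bool) :
    shiftCfg (st s (i, b)) ω ∈ Op s (i, !b) ↔ ω ∈ Op s (i, b) := by
  refine and_congr (isForest_shift _) ?_
  have h1 := edge_rev s 1 i b
  have h2 := edge_mul (s := s) (st s (i, b))⁻¹ 1 (i, b)
  rw [one_mul] at h1
  rw [mul_one] at h2
  rw [st_not, inv_inv, h1, h2]
  rfl

theorem Aop_adj (hμ : ∀ g : G, μ.map (shiftCfg g) = μ) (i : ι) (b : Bool)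
    (f f' : BM (G × ι → Bool)) :
    ⟪JJ μ f', JJ μ (Aop s (i, b) f)⟫_ℂ = ⟪JJ μ (Aop s (i, !b) f'), JJ μ f⟫_ℂ := by
  rw [inner_JJ, inner_JJ, ← int_shift hμ (st s (i, b))
    (F := fun ω => conj ((Aop s (i, !b) f').1 ω) * f.1 ω)
    ((Complex.continuous_conj.measurable.comp (Aop s (i, !b) f').2.1).mul f.2.1)]
  refine integral_congr_ae (Filter.Eventually.of_forall fun ω => ?_)
  have h := op_shift s i b ω
  simp only [Aop_apply, iop_apply, st_not, ← shiftCfg_mul, inv_mul_cancel, shiftCfg_one]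
  by_cases h1 : ω ∈ Op s (i, b)
  · simp [h1, h.2 h1]
  · simp [h1, mt h.1 h1]

theorem norm_Aop (hμ : ∀ g : G, μ.map (shiftCfg g) = μ) (x : ι × Bool) (f : BM (G × ι → Bool)) :
    ‖JJ μ (Aop s x f)‖ ≤ ‖JJ μ f‖ := by
  rw [← norm_JJ_shf hμ (st s x)⁻¹ f]
  refine norm_JJ_mono μ fun ω => ?_
  change ‖(iop s x).1 ω * (shf (st s x)⁻¹ f).1 ω‖ ≤ _
  rw [iop_apply]
  split_ifs <;> simp

theorem deg_le (hF : ∀ᵐ ω ∂μ, IsForest s ω) :
    ∑ i, μ.real {ω | ω (1, i) = true} ≤ ‖JJ μ ((∑ i, Aop s (i, false)) 1)‖ := by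
  have h1 : ∀ i, ⟪JJ μ 1, JJ μ (Aop s (i, false) 1)⟫_ℂ = (μ.real {ω | ω (1, i) = true} : ℝ) := by
    intro i
    have h2 : μ.real {ω | ω (1, i) = true} = μ.real (Op s (i, false)) := by
      refine measureReal_congr ?_
      filter_upwards [hF] with ω hω
      refine propext ?_
      change ω (1, i) = true ↔ IsForest s ω ∧ _
      simp [hω, edge]
    rw [inner_JJ, h2, ← integral_indicator_one (meas_op _), ← integral_complex_ofReal]
    refine integral_congr_ae (Filter.Eventually.of_forall fun ω => ?_)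
    simp only [Aop_apply, iop_apply]
    by_cases h : ω ∈ Op s (i, false) <;> simp [h]
  have h3 := norm_inner_le_norm (𝕜 := ℂ) (JJ μ 1) (JJ μ ((∑ i, Aop s (i, false)) 1))
  rw [norm_JJ_one, one_mul] at h3
  refine le_trans ?_ h3
  rw [LinearMap.sum_apply, map_sum, inner_sum]
  simp only [h1]
  rw [← Complex.ofReal_sum, Complex.norm_real]
  exact le_abs_self _

variable (Q : Type) [Group Q]

/-- the action of `G × Q` through `G` -/
@[reducible] def act : MulAction (G × Q) (G × ι → Bool) where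
  smul p ω := shiftCfg p.1 ω
  one_smul := shiftCfg_one
  mul_smul p q := shiftCfg_mul p.1 q.1

attribute [local instance] act

theorem act_meas : MeasurableConstSMul (G × Q) (G × ι → Bool) := ⟨fun p => meas_shift p.1⟩

attribute [local instance] act_meas

theorem act_inv (hμ : ∀ g : G, μ.map (shiftCfg g) = μ) :
    SMulInvariantMeasure (G × Q) (G × ι → Bool) μ :=
  ⟨fun p A hA => by
    change μ (shiftCfg p.1 ⁻¹' A) = _
    rw [← Measure.map_apply (meas_shift _) hA, hμ]⟩

variable {Q} {W : Type} [Group W] (q : W →* G) (θ : FreeGroup ι →* Q) (β : FreeGroup ι →* F2)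

/-- the forest lifted to the covering given by `θ`, labelled by `β` -/
def sys : Sys W (G × Q) (G × ι → Bool) where
  q := q.prod 1
  χ _ := 1
  χ_norm _ _ := by simp
  χ_one := rfl
  χ_mul _ _ _ := by simp
  Rel ω v u v' := ∃ w, FRel s ω v.1 w v'.1 ∧ u = β w ∧ v'.2 = v.2 * θ w
  pot ω := by
    obtain ⟨cl, φ, h⟩ := exists_pot s ω
    refine ⟨G × Q, fun v => (cl v.1, v.2 * (θ (φ v.1))⁻¹), fun v => β (φ v.1),
      fun v u v' => ⟨?_, ?_⟩⟩
    · rintro ⟨w, h1, rfl, h3⟩
      obtain ⟨h4, rfl⟩ := (h _ _ _).1 h1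
      exact ⟨Prod.ext h4 (by simp [h3, mul_assoc]), by simp⟩
    · rintro ⟨h1, rfl⟩
      obtain ⟨h2, h3⟩ := Prod.ext_iff.1 h1
      refine ⟨_, (h _ _ _).2 ⟨h2, rfl⟩, by simp, ?_⟩
      rw [map_mul, map_inv, ← mul_assoc]
      exact (mul_inv_eq_iff_eq_mul.1 h3.symm)
  rel_meas v u v' := by
    have : {ω | ∃ w, FRel s ω v.1 w v'.1 ∧ u = β w ∧ v'.2 = v.2 * θ w} =
        ⋃ w, {ω | FRel s ω v.1 w v'.1} ∩ {_ω | u = β w ∧ v'.2 = v.2 * θ w} := by
      ext ω; simp
    rw [this]
    exact MeasurableSet.iUnion fun w => (meas_rel _ _ _).inter (MeasurableSet.const _)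
  rel_smul g ω v u v' := by
    rintro ⟨w, h1, h2, h3⟩
    exact ⟨w, h1.shift g.1, h2, by simp [h3, mul_assoc]⟩

/-- the lifted neighbour -/
def vx (a : Q) (x : ι × Bool) : G × Q := ((st s x)⁻¹, a * (θ (lw x))⁻¹)

variable {s q θ β} {L : Type} [NormedAddCommGroup L] [InnerProductSpace ℂ L] [CompleteSpace L]
  {σ : F2 →* unitary (L →L[ℂ] L)} {H : Type} [NormedAddCommGroup H] [InnerProductSpace ℂ H]
  {e : BM (G × ι → Bool) × (G × Q) × L → H}

theorem leak (hμ : ∀ g : G, μ.map (shiftCfg g) = μ)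
    (he : ∀ y y', ⟪e y, e y'⟫_ℂ = ∫ ω, (sys s q θ β).kf σ y y' ω ∂μ)
    (c : Finset ι) (b : Bool) {u : F2} (hu : ∀ i ∈ c, β (lw (i, b)) = u)
    {h : BM (G × ι → Bool)} (hh : ‖JJ μ h‖ = 1) {M : ℝ} (hM : ∀ ω, ‖h.1 ω‖ ≤ M) {n : ℕ} {ε : ℝ}
    (hε : 0 ≤ ε)
    (htail : ∀ x x', μ.real {ω | ∃ w, n < w.norm ∧ FRel s ω (st s x)⁻¹ w (st s x')⁻¹} ≤ ε)
    (hθ : ∀ w, w.norm ≤ n + 2 → θ w = 1 → w = 1) {r : ℝ} (hr0 : 0 ≤ r)
    (hr : Fintype.card ι + (Fintype.card ι : ℝ) ^ 2 * (M ^ 2 * ε) ≤ r ^ 2) (a : Q) (ξ : L) :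
    ‖∑ i ∈ c, e (shf (st s (i, b))⁻¹ h, vx s θ a (i, b), ξ) -
      e (∑ i ∈ c, Aop s (i, b) h, (1, a), (σ u⁻¹ : L →L[ℂ] L) ξ)‖ ≤ r * ‖ξ‖ := by
  classical
  haveI := act_inv (μ := μ) Q hμ
  let f : ι → BM (G × ι → Bool) := fun i => shf (st s (i, b))⁻¹ h - Aop s (i, b) h
  have hf : ∀ i ω, (f i).1 ω =
      if ω ∈ Op s (i, b) then 0 else (shf (st s (i, b))⁻¹ h).1 ω := fun i ω => by
    change (shf (st s (i, b))⁻¹ h).1 ω - (iop s (i, b)).1 ω * (shf (st s (i, b))⁻¹ h).1 ω = _
    rw [iop_apply]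
    split_ifs <;> simp
  have hM0 : 0 ≤ M := (norm_nonneg _).trans (hM fun _ => true)
  have hfM : ∀ i ω, ‖(f i).1 ω‖ ≤ M := fun i ω => by
    rw [hf]
    split_ifs
    · simpa using hM0
    · exact hM _
  have e1 : ∑ i ∈ c, e (shf (st s (i, b))⁻¹ h, vx s θ a (i, b), ξ) -
      e (∑ i ∈ c, Aop s (i, b) h, (1, a), (σ u⁻¹ : L →L[ℂ] L) ξ) =
      ∑ i ∈ c, e (f i, vx s θ a (i, b), ξ) := by
    rw [← eL_apply he, map_sum, ← Finset.sum_sub_distrib]
    refine Finset.sum_congr rfl fun i hi => ?_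
    rw [eL_apply, ← e_move he (v := vx s θ a (i, b)), ← eL_apply he, ← eL_apply he, ← map_sub]
    · rfl
    · intro ω h0
      rw [Aop_apply, iop_apply] at h0
      have h1 : ω ∈ Op s (i, b) := by
        by_contra h1
        simp [h1] at h0
      exact ⟨_, Op.rel h1, (hu i hi).symm, by simp [vx]⟩
  rw [e1]
  refine (sq_le_sq₀ (norm_nonneg _) (by positivity)).1 ?_
  refine (norm_sum_sq_le c _ (a := ‖ξ‖ ^ 2) (b := M ^ 2 * ε * ‖ξ‖ ^ 2) (by positivity)
    (fun i _ => ?_) fun i _ j _ hij => ?_).trans ?_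
  · rw [norm_e he]
    refine pow_le_pow_left₀ (by positivity) (mul_le_of_le_one_left (norm_nonneg _) ?_) 2
    rw [← hh, ← norm_JJ_shf hμ (st s (i, b))⁻¹ h]
    refine norm_JJ_mono μ fun ω => ?_
    rw [hf]
    split_ifs <;> simp
  · set U := {ω | ∃ w, n < w.norm ∧ FRel s ω (st s (i, b))⁻¹ w (st s (j, b))⁻¹} with hU
    have hUm : MeasurableSet U := by
      have : U = ⋃ w : FreeGroup ι, {_ω | n < w.norm} ∩
          {ω | FRel s ω (st s (i, b))⁻¹ w (st s (j, b))⁻¹} := by
        ext ω; simp [hU]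
      rw [this]
      exact MeasurableSet.iUnion fun w => (MeasurableSet.const _).inter (meas_rel _ _ _)
    rw [he]
    refine (norm_integral_le_of_norm_le (g := U.indicator fun _ => M ^ 2 * ‖ξ‖ ^ 2)
      ((integrable_const _).indicator hUm) (Filter.Eventually.of_forall fun ω => ?_)).trans ?_
    · simp only [Sys.kf]
      by_cases hω : ω ∈ U
      · rw [Set.indicator_of_mem hω, norm_mul, norm_mul, RCLike.norm_conj, sq, sq]
        exact mul_le_mul (mul_le_mul (hfM _ _) (hfM _ _) (norm_nonneg _) hM0)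
          (Sys.norm_κ_le σ _ _ _ _ _) (norm_nonneg _) (by positivity)
      · rw [Set.indicator_of_notMem hω]
        by_cases h1 : ω ∈ Op s (i, b)
        · simp [hf, h1]
        · rw [Sys.κ_of_not, mul_zero, norm_zero]
          rintro ⟨_, w, h2, -, h3⟩
          have h4 : w.norm ≤ n := not_lt.1 fun h4 => hω ⟨w, h4, h2⟩
          have h5 : (lw (i, b))⁻¹ * w * lw (j, b) = 1 := by
            refine hθ _ ?_ ?_
            · have a1 := FreeGroup.norm_mul_le ((lw (i, b))⁻¹ * w) (lw (j, b))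
              have a2 := FreeGroup.norm_mul_le (lw (i, b))⁻¹ w
              have a3 := norm_lw (i, b)
              have a4 := norm_lw (j, b)
              rw [FreeGroup.norm_inv_eq] at a2
              omega
            · simp only [vx, mul_assoc, mul_right_inj] at h3
              rw [map_mul, map_mul, map_inv, ← h3, inv_mul_cancel]
          have h6 : w = lw (i, b) * (lw (j, b))⁻¹ := by
            rw [mul_assoc, inv_mul_eq_one] at h5
            rw [h5, mul_inv_cancel_right]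
          exact h1 (op_of_rel hij (h6 ▸ h2))
    · rw [integral_indicator_const _ hUm, smul_eq_mul]
      have := mul_le_mul_of_nonneg_right (htail (i, b) (j, b))
        (show 0 ≤ M ^ 2 * ‖ξ‖ ^ 2 by positivity)
      linarith
  · have h1 : (c.card : ℝ) ≤ Fintype.card ι := by exact_mod_cast Finset.card_le_univ c
    have h2 : (c.card : ℝ) ^ 2 ≤ (Fintype.card ι : ℝ) ^ 2 := by gcongr
    have h3 := mul_le_mul_of_nonneg_right h2 (show 0 ≤ M ^ 2 * ε by positivity)
    have h4 := mul_le_mul_of_nonneg_right (show c.card + (c.card : ℝ) ^ 2 * (M ^ 2 * ε) ≤ r ^ 2 by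
      linarith) (sq_nonneg ‖ξ‖)
    rw [mul_pow]
    linarith

end Cfg

end Pool.Agent.P.MP_95bcfc_an.EM
end

-- part Pool.Agent.P.MP_95bcfc_an.EM.Wide
section

set_option autoImplicit false
set_option linter.unusedSectionVars false
set_option linter.deprecated false
set_option linter.style.haveILetI false

open scoped InnerProductSpace ComplexConjugate
open MeasureTheory

namespace Pool.Agent.P.MP_95bcfc_an.EM

section TM

variable {W ι Q : Type} [Group W] [Fintype ι] [DecidableEq ι] [Group Q] [Fintype Q] [DecidableEq Q]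
  (t : ι → W) (θ : FreeGroup ι →* Q)

/-- the twisted sum of the generators of one class -/
noncomputable def TM (c : Finset ι) (κ : ℝ) (b : Bool) : Matrix Q Q (MonoidAlgebra ℂ W) :=
  Matrix.of fun a a' => ∑ i ∈ c,
    if a' = a * (θ (lw (i, b)))⁻¹ then MonoidAlgebra.single (st t (i, b))⁻¹ (κ : ℂ) else 0

theorem TM_apply (c : Finset ι) (κ : ℝ) (b : Bool) (R : Rep W) (v : HD Q R.H) (a : Q) :
    evM (und R.π) (TM t θ c κ b) v a = (κ : ℂ) • ∑ i ∈ c,
      (R.π (st t (i, b))⁻¹ : R.H →L[ℂ] R.H) (v (a * (θ (lw (i, b)))⁻¹)) := by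
  rw [evM_apply]
  simp only [TM, Matrix.of_apply, map_sum, ContinuousLinearMap.sum_apply]
  rw [Finset.sum_comm, Finset.smul_sum]
  refine Finset.sum_congr rfl fun i _ => ?_
  rw [Finset.sum_eq_single (a * (θ (lw (i, b)))⁻¹)]
  · rw [if_pos rfl, ev_single]; rfl
  · intro j _ hj
    simp [hj]
  · simp

theorem TM_adj (c : Finset ι) (κ : ℝ) (b : Bool) (R : Rep W) (u v : HD Q R.H) :
    ⟪evM (und R.π) (TM t θ c κ (!b)) u, v⟫_ℂ = ⟪u, evM (und R.π) (TM t θ c κ b) v⟫_ℂ := by
  simp only [PiLp.inner_apply, TM_apply, inner_smul_left, inner_smul_right, sum_inner, inner_sum,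
    Complex.conj_ofReal, ← Finset.mul_sum]
  congr 1
  rw [Finset.sum_comm, Finset.sum_comm (t := c)]
  refine Finset.sum_congr rfl fun i _ => ?_
  rw [← Equiv.sum_comp (Equiv.mulRight (θ (lw (i, b))))
    fun a => ⟪u a, (R.π (st t (i, b))⁻¹ : R.H →L[ℂ] R.H) (v (a * (θ (lw (i, b)))⁻¹))⟫_ℂ]
  refine Finset.sum_congr rfl fun a _ => ?_
  rw [uni_inner, st_not, lw_not]
  simp

end TM

attribute [local instance] act act_meas

theorem nuc_of_wide {W G Λ : Type} [Group W] [Group G] [Group Λ] [Countable G]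
    (hG : WideForests G) (q : W →* G) (hq : Function.Surjective q) (hN : Nuc W Λ) :
    Nuc F2 Λ := by
  classical
  refine transfer2 hN fun L _ _ _ σ ρ hc δ hδ => ?_
  obtain ⟨N, s, μ, _, hμ, hF, hd⟩ := hG (392 / δ ^ 2)
  set d := ∑ i, μ.real {ω | ω (1, i) = true} with hdd
  have hd0 : 0 < d := by
    have h1 : 0 ≤ d := Finset.sum_nonneg fun _ _ => measureReal_nonneg
    have h2 : 0 ≤ 392 / δ ^ 2 * N := by positivity
    rcases h1.eq_or_lt with h | h
    · rw [← h] at hd; linarith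
    · exact h
  choose t ht using fun i => hq (s i)
  have hst : ∀ x, q (st t x) = st s x := fun ⟨i, b⟩ => by cases b <;> simp [ht]
  -- singular vectors
  obtain ⟨l, h0, h1, hdl, hh0, hh1, hA0, hA1⟩ := perron (JJ μ) (∑ i, Aop s (i, false))
    (∑ i, Aop s (i, true)) (fun f f' => by
      simp only [LinearMap.sum_apply, map_sum, inner_sum, sum_inner]
      exact Finset.sum_congr rfl fun i _ => Aop_adj s hμ i false f f') (C := N) (fun f => by
      rw [LinearMap.sum_apply, map_sum]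
      refine (norm_sum_le _ _).trans ((Finset.sum_le_card_nsmul _ _ _
        fun i _ => norm_Aop s hμ _ f).trans (by simp))) (norm_JJ_one μ) hd0 (deg_le s hF)
      (η := δ / 2) (by positivity)
  have hl0 : 0 < l := hd0.trans_le hdl
  let hh : Bool → BM (G × Fin N → Bool) := fun b => if b then h1 else h0
  have hhn : ∀ b, ‖JJ μ (hh b)‖ = 1 := fun b => by cases b <;> assumption
  have hA : ∀ b, ‖∑ i, JJ μ (Aop s (i, b) (hh b)) - (l : ℂ) • JJ μ (hh (!b))‖ ≤ δ / 2 * l :=
    fun b => by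
      rw [LinearMap.sum_apply, map_sum] at hA0 hA1
      cases b <;> assumption
  -- classes
  set r := Real.sqrt (2 * N) with hr
  have hr0 : 0 ≤ r := Real.sqrt_nonneg _
  have hr2 : r ^ 2 = 2 * N := Real.sq_sqrt (by positivity)
  obtain ⟨c, hc1, hc2⟩ := classes (fun b i => JJ μ (Aop s (i, b) (hh b)))
    (fun b i => (norm_Aop s hμ _ _).trans (hhn b).le) hr0 (by simp [hr2])
  let β : FreeGroup (Fin N) →* F2 := FreeGroup.lift fun i =>
    if h : ∃ k, i ∈ c k then lab h.choose else 1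
  have hβ : ∀ k, ∀ i ∈ c k, β (FreeGroup.of i) = lab k := fun k i hi => by
    have h : ∃ k, i ∈ c k := ⟨k, hi⟩
    simp only [β, FreeGroup.lift_apply_of, dif_pos h]
    rw [hc1 _ _ i h.choose_spec hi]
  -- tails
  obtain ⟨M0, hM0⟩ := h0.2.2
  obtain ⟨M1, hM1⟩ := h1.2.2
  set M := max M0 M1 with hMd
  have hM : ∀ b ω, ‖(hh b).1 ω‖ ≤ M := fun b ω => by
    cases b
    · exact (hM0 ω).trans (le_max_left _ _)
    · exact (hM1 ω).trans (le_max_right _ _)
  set ε : ℝ := 1 / (N * M ^ 2 + 1) with hε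
  have hε0 : 0 < ε := by positivity
  have hε1 : (N : ℝ) * (M ^ 2 * ε) ≤ 1 := by
    rw [← mul_assoc, hε, mul_one_div, div_le_one (by positivity)]
    linarith
  obtain ⟨n, hn⟩ := (Filter.eventually_all.2 fun x : Fin N × Bool => Filter.eventually_all.2
    fun x' : Fin N × Bool => exists_tail (s := s) μ (st s x)⁻¹ (st s x')⁻¹ hε0).exists
  obtain ⟨Q, _, _, _, θ, hθ⟩ := exists_quot (ι := Fin N) (n + 2)
  haveI := act_inv (μ := μ) Q hμ
  obtain ⟨R, e, he, hU, -⟩ := (sys s q θ β).exists_rep μ σ ρ hc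
  let π := R.π.comp (MonoidHom.inl W Λ)
  have hπ : ∀ γ f a ξ, (π γ : R.H →L[ℂ] R.H) (e (f, (1, a), ξ)) =
      e (shf (q γ) f, (q γ, a), ξ) := fun γ f a ξ => by
    have := hU γ 1 f (1, a) ξ
    rw [map_one, OneMemClass.coe_one, ContinuousLinearMap.one_apply] at this
    refine this.trans (congrArg e (Prod.ext (one_mul _) (Prod.ext ?_ rfl)))
    exact Prod.ext (mul_one _) (one_mul _)
  have hN : (0 : ℝ) < Fintype.card Q := by exact_mod_cast Fintype.card_pos
  set a : ℝ := (Real.sqrt (Fintype.card Q))⁻¹ with ha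
  have ha0 : 0 ≤ a := by positivity
  have haa : (Fintype.card Q : ℝ) * (a * a) = 1 := by
    rw [ha, ← mul_inv, Real.mul_self_sqrt hN.le, mul_inv_cancel₀ hN.ne']
  have haa' : (Fintype.card Q : ℂ) * ((a : ℂ) * a) = 1 := by exact_mod_cast haa
  have hV : ∀ b, ∃ V : L →L[ℂ] HD Q R.H,
      (∀ ξ i, V ξ i = (a : ℂ) • e (hh b, (1, i), ξ)) ∧ ∀ ξ, ‖V ξ‖ = ‖ξ‖ := fun b => by
    obtain ⟨V, hV, hVn⟩ := exists_clm (H := HD Q R.H)
      (fun ξ => WithLp.toLp 2 fun i => (a : ℂ) • e (hh b, (1, i), ξ)) fun ξ η => by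
        simp only [PiLp.inner_apply, inner_smul_left, inner_smul_right, e_same he,
          inner_self_eq_norm_sq_to_K, hhn, Finset.sum_const, Finset.card_univ, nsmul_eq_mul,
          Complex.conj_ofReal]
        push_cast
        linear_combination ⟪ξ, η⟫_ℂ * haa'
    exact ⟨V, fun ξ i => by rw [hV], hVn⟩
  choose V hVi hVn using hV
  have hrl : 7 * r / l ≤ δ / 2 := by
    rw [div_le_iff₀ hl0]
    refine le_trans ((sq_le_sq₀ (by positivity) (by positivity)).1 ?_)
      (mul_le_mul_of_nonneg_left hdl (by positivity))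
    rw [div_mul_eq_mul_div, div_lt_iff₀ (by positivity)] at hd
    nlinarith
  have key : ∀ k b (u : F2), (∀ i ∈ c k, β (lw (i, b)) = u) → ∀ ξ,
      ‖evM (und π) (TM t θ (c k) (4 / l) b) (V b ξ) - V (!b) ((σ u⁻¹ : L →L[ℂ] L) ξ)‖ ≤
        δ * ‖ξ‖ := by
    intro k b u hu ξ
    have h2 : ∀ i, ‖(evM (und π) (TM t θ (c k) (4 / l) b) (V b ξ) -
        V (!b) ((σ u⁻¹ : L →L[ℂ] L) ξ)) i‖ ≤ a * (δ * ‖ξ‖) := by
      intro i
      have h3 := leak hμ he (c k) b hu (hhn b) (hM b) hε0.le hn hθ hr0 (by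
        rw [hr2, Fintype.card_fin]
        nlinarith [(Nat.cast_nonneg N : (0 : ℝ) ≤ N)]) i ξ
      have h4 := TM_apply t θ (c k) (4 / l) b ⟨R.H, π⟩ (V b ξ) i
      set η := (σ u⁻¹ : L →L[ℂ] L) ξ with hη
      have hηn : ‖η‖ = ‖ξ‖ := uni_norm _ _
      set y := ∑ j ∈ c k, e (shf (st s (j, b))⁻¹ (hh b), vx s θ i (j, b), ξ) with hy
      set g := ∑ j ∈ c k, Aop s (j, b) (hh b) with hg
      have h5 : evM (und π) (TM t θ (c k) (4 / l) b) (V b ξ) i =
          (a : ℂ) • ((4 / l : ℝ) : ℂ) • y := by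
        refine h4.trans ?_
        rw [smul_comm, hy, Finset.smul_sum (r := (a : ℂ))]
        refine congrArg _ (Finset.sum_congr rfl fun j _ => ?_)
        change (π _ : R.H →L[ℂ] R.H) _ = _
        rw [hVi, map_smul, hπ, map_inv, hst]
        rfl
      have h6 : ‖JJ μ (((4 / l : ℝ) : ℂ) • g - hh (!b))‖ ≤ 3 * r / l + δ / 2 := by
        have hlc : (l : ℂ) ≠ 0 := by exact_mod_cast hl0.ne'
        have e1 : JJ μ (((4 / l : ℝ) : ℂ) • g - hh (!b)) = ((l⁻¹ : ℝ) : ℂ) •
            (((4 : ℂ) • ∑ j ∈ c k, JJ μ (Aop s (j, b) (hh b)) - ∑ j, JJ μ (Aop s (j, b) (hh b))) +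
            (∑ j, JJ μ (Aop s (j, b) (hh b)) - (l : ℂ) • JJ μ (hh (!b)))) := by
          rw [sub_add_sub_cancel, map_sub, map_smul, hg, map_sum, smul_sub, smul_smul, smul_smul]
          push_cast
          rw [inv_mul_cancel₀ hlc, one_smul, div_eq_inv_mul]
        rw [e1, norm_smul, Complex.norm_real, norm_inv, Real.norm_of_nonneg hl0.le,
          inv_mul_le_iff₀ hl0]
        refine (norm_add_le _ _).trans ((add_le_add (hc2 k b) (hA b)).trans (le_of_eq ?_))
        field_simp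
      have h7 : ((4 / l : ℝ) : ℂ) • y - e (hh (!b), (1, i), η) =
          ((4 / l : ℝ) : ℂ) • (y - e (g, (1, i), η)) +
            e (((4 / l : ℝ) : ℂ) • g - hh (!b), (1, i), η) := by
        rw [← eL_apply he _ _ (_ - _), map_sub, map_smul, eL_apply, eL_apply, smul_sub,
          sub_add_sub_cancel]
      rw [PiLp.sub_apply, h5, hVi, ← smul_sub, norm_smul, Complex.norm_real,
        Real.norm_of_nonneg ha0, h7]
      refine mul_le_mul_of_nonneg_left ((norm_add_le _ _).trans ?_) ha0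
      rw [norm_smul, Complex.norm_real, Real.norm_of_nonneg (by positivity), norm_e he, hηn]
      have a1 := mul_le_mul_of_nonneg_left h3 (show 0 ≤ 4 / l by positivity)
      have a2 := mul_le_mul_of_nonneg_right h6 (norm_nonneg ξ)
      have a3 := mul_le_mul_of_nonneg_right hrl (norm_nonneg ξ)
      have a4 : 4 / l * (r * ‖ξ‖) + 3 * r / l * ‖ξ‖ = 7 * r / l * ‖ξ‖ := by ring
      linarith
    refine (sq_le_sq₀ (norm_nonneg _) (by positivity)).1 ?_
    rw [PiLp.norm_sq_eq_of_L2]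
    refine (Finset.sum_le_card_nsmul _ _ _ fun i _ =>
      pow_le_pow_left₀ (norm_nonneg _) (h2 i) 2).trans (le_of_eq ?_)
    rw [nsmul_eq_mul, Finset.card_univ]
    linear_combination (δ * ‖ξ‖) ^ 2 * haa
  refine ⟨Q, inferInstance, inferInstance, fun k => TM t θ (c k) (4 / l) false,
    fun k => TM t θ (c k) (4 / l) true, ⟨R.H, π⟩, R.π.comp (MonoidHom.inr W Λ), V false, V true,
    fun g l => ?_, hVn false, fun l ξ => ?_, fun k R u v => TM_adj t θ _ _ false R u v,
    fun k ξ => ?_, fun k ξ => ?_⟩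
  · change _ * _ = _ * _
    simp only [π, MonoidHom.comp_apply, ← Submonoid.coe_mul, ← MonoidHom.map_mul]
    simp
  · ext i
    rw [diag_apply, hVi, hVi, map_smul]
    congr 1
    refine (hU 1 l (hh false) (1, i) ξ).trans (congrArg e (Prod.ext ?_ (by simp)))
    ext ω
    simp [Sys.χ_one]
  · have := key k false (lab k)⁻¹ (fun i hi => by rw [lw_false, map_inv, hβ k i hi]) ξ
    rwa [inv_inv] at this
  · exact key k true (lab k) (fun i hi => by rw [lw_true, hβ k i hi]) ξ

end Pool.Agent.P.MP_95bcfc_an.EM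
end

-- part Pool.Agent.P.MP_95bcfc_an.EM.Limit
section

set_option autoImplicit false
set_option linter.unusedSectionVars false
set_option linter.deprecated false
set_option linter.style.haveILetI false

open MeasureTheory Filter Topology

namespace Pool.Agent.P.MP_95bcfc_an.EM

variable {G ι : Type} [Group G] [Countable G] [Fintype ι] [DecidableEq ι] {s : ι → G}

theorem edges_mul (h g : G) (L : List (ι × Bool)) :
    edges s (h * g) L = (edges s g L).map fun e => (h * e.1, e.2) := by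
  induction L generalizing g with
  | nil => rfl
  | cons x L ih => rw [edges, edges, List.map_cons, mul_assoc, ih, edge_mul]

/-- the average over the translates of a periodic configuration -/
theorem exists_level (K : Subgroup G) [K.Normal] [K.FiniteIndex] (R : ℕ)
    (F : Finset ((G ⧸ K) × ι)) (hF : ∀ (g : G) (w : FreeGroup ι), w.norm ≤ R →
      (∀ e ∈ edges s g w.toWord, ((e.1 : G ⧸ K), e.2) ∈ F) → FreeGroup.lift s w = 1 → w = 1) :
    ∃ ν : ProbabilityMeasure (G × ι → Bool),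
      (∀ g : G, (ν : Measure (G × ι → Bool)).map (shiftCfg g) = ν) ∧
      (∀ (g : G) (w : FreeGroup ι), w.norm ≤ R → FreeGroup.lift s w = 1 → w ≠ 1 →
        (ν : Measure (G × ι → Bool)) {ω | OpenPath s ω g w.toWord} = 0) ∧
      ∑ i, (ν : Measure (G × ι → Bool)).real {ω | ω (1, i) = true} = F.card / K.index := by
  classical
  letI := K.fintypeQuotientOfFiniteIndex
  let ψ : G ⧸ K → G × ι → Bool := fun v e => decide ((v * (e.1 : G ⧸ K), e.2) ∈ F)
  let ν : Measure (G × ι → Bool) :=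
    (Fintype.card (G ⧸ K) : ENNReal)⁻¹ • ∑ v, Measure.dirac (ψ v)
  have happ : ∀ A, MeasurableSet A → ν A =
      (Fintype.card (G ⧸ K) : ENNReal)⁻¹ * ∑ v, A.indicator 1 (ψ v) := fun A hA => by
    simp [ν, Measure.dirac_apply' _ hA]
  have hc0 : (Fintype.card (G ⧸ K) : ENNReal) ≠ 0 := by exact_mod_cast Fintype.card_ne_zero
  have hp : IsProbabilityMeasure ν := ⟨by
    rw [happ _ MeasurableSet.univ]
    simp [ENNReal.inv_mul_cancel hc0]⟩
  refine ⟨⟨ν, hp⟩, fun g => ?_, fun g w h1 h2 h3 => ?_, ?_⟩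
  · refine Measure.ext fun A hA => ?_
    change ν.map _ A = ν A
    rw [Measure.map_apply (meas_shift g) hA, happ _ (meas_shift g hA), happ _ hA,
      ← Equiv.sum_comp (Equiv.mulRight ((g : G ⧸ K)⁻¹)) fun v => A.indicator 1 (ψ v)]
    refine congrArg _ (Finset.sum_congr rfl fun v _ => ?_)
    have e : ψ (Equiv.mulRight ((g : G ⧸ K)⁻¹) v) = shiftCfg g (ψ v) := by
      funext e; simp [ψ, shiftCfg, mul_assoc]
    rw [e]
    rfl
  · change ν _ = 0
    rw [happ _ (meas_openPath _ _), Finset.sum_eq_zero, mul_zero]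
    intro v _
    refine Set.indicator_of_notMem (fun h4 => h3 (hF (v.out * g) w h1 (fun e he => ?_) h2)) _
    rw [edges_mul] at he
    obtain ⟨e', he', rfl⟩ := List.mem_map.1 he
    simpa [ψ] using openPath_iff.1 h4 e' he'
  · have h1 : ∀ i, ν.real {ω | ω (1, i) = true} = (Fintype.card (G ⧸ K) : ℝ)⁻¹ *
        ∑ v, if (v, i) ∈ F then 1 else 0 := fun i => by
      rw [Measure.real, happ _ (meas_edge _), ENNReal.toReal_mul, ENNReal.toReal_inv,
        ENNReal.toReal_sum fun v _ => by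
          by_cases h : ψ v ∈ {ω : G × ι → Bool | ω (1, i) = true} <;> simp [h]]
      refine congrArg₂ _ (by simp) (Finset.sum_congr rfl fun v _ => ?_)
      by_cases h : (v, i) ∈ F <;> simp [ψ, h]
    change ∑ i, ν.real _ = _
    simp only [h1]
    rw [← Finset.mul_sum, Finset.sum_comm, ← Fintype.sum_prod_type', Subgroup.index_eq_card,
      Nat.card_eq_fintype_card, div_eq_inv_mul]
    simp

theorem isClopen_edge (e : G × ι) : IsClopen {ω : G × ι → Bool | ω e = true} :=
  (isClopen_discrete {true}).preimage (continuous_apply e)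

theorem isClopen_openPath (g : G) (L : List (ι × Bool)) : IsClopen {ω | OpenPath s ω g L} := by
  induction L generalizing g with
  | nil => simpa using isClopen_univ
  | cons x L ih =>
    simp only [openPath_cons]
    exact (isClopen_edge _).inter (ih _)

theorem exists_limit {d : ℝ} (ν : ℕ → ProbabilityMeasure (G × ι → Bool))
    (h1 : ∀ R (g : G), (ν R : Measure (G × ι → Bool)).map (shiftCfg g) = ν R)
    (h2 : ∀ R (g : G) (w : FreeGroup ι), w.norm ≤ R → FreeGroup.lift s w = 1 → w ≠ 1 →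
      (ν R : Measure (G × ι → Bool)) {ω | OpenPath s ω g w.toWord} = 0)
    (h3 : ∀ R, d ≤ ∑ i, (ν R : Measure (G × ι → Bool)).real {ω | ω (1, i) = true}) :
    ∃ μ : Measure (G × ι → Bool), IsProbabilityMeasure μ ∧ (∀ g : G, μ.map (shiftCfg g) = μ) ∧
      (∀ᵐ ω ∂μ, IsForest s ω) ∧ d ≤ ∑ i, μ.real {ω | ω (1, i) = true} := by
  obtain ⟨μ, -, hμ⟩ := isCompact_univ.ultrafilter_le_nhds ((hyperfilter ℕ).map ν) (by simp)
  have ht : Tendsto ν (hyperfilter ℕ) (𝓝 μ) := hμ
  have hcl : ∀ E, IsClopen E → Tendsto (fun R => (ν R : Measure (G × ι → Bool)) E) (hyperfilter ℕ)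
      (𝓝 ((μ : Measure (G × ι → Bool)) E)) := fun E hE =>
    ProbabilityMeasure.tendsto_measure_of_null_frontier_of_tendsto' ht (by simp [hE])
  refine ⟨μ, inferInstance, fun g => ?_, ?_, ?_⟩
  · have hc : Continuous (shiftCfg g : (G × ι → Bool) → (G × ι → Bool)) :=
      continuous_pi fun _ => continuous_apply _
    have h4 := ProbabilityMeasure.tendsto_map_of_tendsto_of_continuous ν μ ht hc
    have h5 : (fun R => (ν R).map hc.measurable.aemeasurable) = ν :=
      funext fun R => Subtype.ext (h1 R g)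
    rw [h5] at h4
    have h6 := tendsto_nhds_unique h4 ht
    exact congrArg Subtype.val h6
  · refine ae_all_iff.2 fun g => ae_all_iff.2 fun w => ?_
    by_cases h4 : FreeGroup.lift s w = 1 → w = 1
    · exact Eventually.of_forall fun _ _ => h4
    · push Not at h4
      have h5 : (μ : Measure (G × ι → Bool)) {ω | OpenPath s ω g w.toWord} = 0 :=
        tendsto_nhds_unique (hcl _ (isClopen_openPath g _)) (tendsto_const_nhds.congr'
          (((eventually_ge_atTop w.norm).filter_mono (Nat.hyperfilter_le_atTop)).mono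
            fun R hR => (h2 R g w hR h4.1 h4.2).symm))
      exact (measure_eq_zero_iff_ae_notMem.1 h5).mono fun ω h6 h7 => absurd h7 h6
  · exact ge_of_tendsto' (tendsto_finset_sum _ fun i _ =>
      (ENNReal.tendsto_toReal (measure_ne_top _ _)).comp (hcl _ (isClopen_edge _))) h3

theorem wide_of_rank (hG : PosRankGradient G) : WideForests G := by
  classical
  obtain ⟨hfg, H, c, hc, hanti, hH, hbot, hrank⟩ := hG
  have havoid : ∀ B : Set G, B.Finite → ∀ᶠ j in atTop, ∀ g ∈ B, g ∈ H j → g = 1 := by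
    intro B hB
    refine (eventually_all_finite hB).2 fun g _ => ?_
    by_cases hg : g = 1
    · exact Eventually.of_forall fun _ _ => hg
    · obtain ⟨j, hj⟩ : ∃ j, g ∉ H j := by
        by_contra h
        push Not at h
        exact hg (Subgroup.mem_bot.1 (hbot ▸ Subgroup.mem_iInf.2 h))
      exact (eventually_ge_atTop j).mono fun k hk h => absurd (hanti hk h) hj
  have hidx : ∀ M : ℕ, ∃ i, M ≤ (H i).index := by
    intro M
    cases finite_or_infinite G with
    | inl hfin =>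
      obtain ⟨j, hj⟩ := (havoid Set.univ Set.finite_univ).exists
      have h1 := hrank j ∅ (by
        rw [Finset.coe_empty, Subgroup.closure_empty, eq_comm, Subgroup.eq_bot_iff_forall]
        exact fun g hg => hj g trivial hg)
      have h2 : (0 : ℝ) < (H j).index := by
        exact_mod_cast Nat.pos_of_ne_zero (hH j).2.index_ne_zero
      simp only [Finset.card_empty, Nat.cast_zero] at h1
      nlinarith
    | inr hinf =>
      obtain ⟨A, hA⟩ := Infinite.exists_subset_card_eq G M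
      obtain ⟨j, hj⟩ := (havoid _ ((A ×ˢ A).finite_toSet.image fun p => p.1⁻¹ * p.2)).exists
      haveI := (hH j).2
      letI := (H j).fintypeQuotientOfFiniteIndex
      refine ⟨j, ?_⟩
      rw [← hA, Subgroup.index_eq_card, Nat.card_eq_fintype_card, ← Finset.card_univ]
      refine Finset.card_le_card_of_injOn (fun g => (g : G ⧸ H j)) (fun _ _ => Finset.mem_univ _)
        fun a ha b hb hab => inv_mul_eq_one.1 (hj _ ⟨(a, b), ?_, rfl⟩ (QuotientGroup.eq.1 hab))
      exact Finset.mem_coe.2 (Finset.mem_product.2 ⟨ha, hb⟩)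
  intro C
  obtain ⟨S, hS⟩ := hfg.1
  obtain ⟨M, hM⟩ := exists_nat_gt (|C| * S.card / c ^ 2)
  obtain ⟨i, hi⟩ := hidx M
  haveI := (hH i).2
  obtain ⟨T, hT1, hT2⟩ := (H i).exists_finset_card_le_mul hS
  let s : Fin T.card → G := fun k => (T.equivFin.symm k : H i)
  have hs : Subgroup.closure (Set.range s) = H i := by
    have : Set.range s = (H i).subtype '' (T : Set (H i)) := by
      ext g
      refine ⟨?_, ?_⟩
      · rintro ⟨k, rfl⟩
        exact ⟨_, (T.equivFin.symm k).2, rfl⟩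
      · rintro ⟨x, hx, rfl⟩
        exact ⟨T.equivFin ⟨x, hx⟩, by simp [s]⟩
    rw [this, ← MonoidHom.map_closure, hT2, ← MonoidHom.range_eq_map, Subgroup.range_subtype]
  have hlev : ∀ R : ℕ, ∃ ν : ProbabilityMeasure (G × Fin T.card → Bool),
      (∀ g : G, (ν : Measure (G × Fin T.card → Bool)).map (shiftCfg g) = ν) ∧
      (∀ (g : G) (w : FreeGroup (Fin T.card)), w.norm ≤ R → FreeGroup.lift s w = 1 → w ≠ 1 →
        (ν : Measure (G × Fin T.card → Bool)) {ω | OpenPath s ω g w.toWord} = 0) ∧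
      (H i).index * c ≤
        ∑ k, (ν : Measure (G × Fin T.card → Bool)).real {ω | ω (1, k) = true} := by
    intro R
    have hB : {w : FreeGroup (Fin T.card) | w.norm ≤ 2 * R}.Finite :=
      ((List.finite_length_le (Fin T.card × Bool) (2 * R)).image FreeGroup.mk).subset
        fun w hw => ⟨w.toWord, hw, FreeGroup.mk_toWord⟩
    obtain ⟨j, hj, hij⟩ := ((havoid _ (hB.image (FreeGroup.lift s))).and
      (eventually_ge_atTop i)).exists
    haveI := (hH j).1
    haveI := (hH j).2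
    obtain ⟨F, hF1, hF2⟩ := exists_periodic (s := s) (H j) R fun w hw h => hj _ ⟨w, hw, rfl⟩ h
    obtain ⟨ν, h1, h2, h3⟩ := exists_level (H j) R F hF2
    refine ⟨ν, h1, h2, ?_⟩
    have h4 := card_periodic (H j) (H i) (hanti hij) hs (hrank j) F hF1
    have h5 : (0 : ℝ) < (H j).index := by
      exact_mod_cast Nat.pos_of_ne_zero (hH j).2.index_ne_zero
    rw [h3, le_div_iff₀ h5, mul_assoc]
    exact h4
  choose ν h1 h2 h3 using hlev
  obtain ⟨μ, hμ, h4, h5, h6⟩ := exists_limit ν h1 h2 h3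
  refine ⟨T.card, s, μ, hμ, h4, h5, ?_⟩
  have h7 : (0 : ℝ) < (H i).index := by
    exact_mod_cast Nat.pos_of_ne_zero (hH i).2.index_ne_zero
  have h8 : (T.card : ℝ) ≤ (H i).index * S.card := by exact_mod_cast hT1
  have h9 : (M : ℝ) ≤ (H i).index := by exact_mod_cast hi
  rw [div_lt_iff₀ (by positivity)] at hM
  refine lt_of_lt_of_le ?_ (pow_le_pow_left₀ (by positivity) h6 2)
  have a1 : C * T.card ≤ |C| * ((H i).index * S.card) :=
    mul_le_mul (le_abs_self C) h8 (Nat.cast_nonneg _) (abs_nonneg C)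
  have a2 := mul_lt_mul_of_pos_left hM h7
  have a3 := mul_le_mul_of_nonneg_left (mul_le_mul_of_nonneg_right h9 (sq_nonneg c)) h7.le
  nlinarith

theorem main_wide {Γ : Type} [Group Γ] (hG : WideForests G) (S : Subgroup Γ) (π : S →* G)
    (hπ : Function.Surjective π) (hK : Kirchberg Γ) : Kirchberg (FreeGroup (Fin 2)) :=
  nuc_of_wide hG π hπ ((nuc_of_wide hG π hπ (Nuc.subgroup hK S)).symm.subgroup S)

end Pool.Agent.P.MP_95bcfc_an.EM
end
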