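import Pool.Agent.K.MP_95bcfc_an.C0
import Mathlib

-- part Pool.Agent.P.MP_95bcfc_an.Core
section

set_option autoImplicit false
set_option linter.unusedSectionVars false
set_option linter.deprecated false

open scoped InnerProductSpace ComplexConjugate
open MeasureTheory

namespace Pool.Agent.P.MP_95bcfc_an

variable {W G X Λ : Type} [Group W] [Group G] [Group Λ] [MeasurableSpace X] [MulAction G X]
  [MeasurableConstSMul G X] {μ : Measure X} [IsProbabilityMeasure μ] [SMulInvariantMeasure G X μ]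
  {L : Type} [NormedAddCommGroup L] [InnerProductSpace ℂ L] [CompleteSpace L]

open Classical in
/-- a local equivariant involution of `G × D` that is implemented in the group algebra -/
structure LocInv (S : Sys W G X) (D : Type) where
  /-- the image of the base points -/
  t : X → D → G × D
  /-- the range -/
  T : Finset G
  mem : ∀ ω i, (t ω i).1 ∈ T
  symm : ∀ h ∈ T, h⁻¹ ∈ T
  invol : ∀ ω i, t ((t ω i).1⁻¹ • ω) (t ω i).2 = ((t ω i).1⁻¹, i)
  meas : ∀ i p, MeasurableSet {ω | t ω i = p}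
  symb : ∀ i h j, h ∈ T → ∃ z : W →₀ ℂ, (∀ γ ∈ z.support, S.q γ = h) ∧
    ∀ ω, (z.sum fun γ c => c * (S.χ γ).1 ω) = if t ω i = (h, j) then 1 else 0

variable {S : Sys W G X} {D : Type} [Fintype D] [DecidableEq D]

/-- indicator of the value of the involution -/
noncomputable def LocInv.ind (J : LocInv S D) (i : D) (h : G) (j : D) : BM X :=
  BM.ind _ (J.meas i (h, j))

open Classical in
theorem LocInv.ind_apply (J : LocInv S D) (i : D) (h : G) (j : D) (ω : X) :
    (J.ind i h j).1 ω = if J.t ω i = (h, j) then 1 else 0 := by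
  simp only [LocInv.ind, BM.ind, Set.mem_setOf_eq]

theorem LocInv.sum_ind (J : LocInv S D) (i : D) (ω : X) (F : G → D → ℂ) :
    ∑ j, ∑ h ∈ J.T, (J.ind i h j).1 ω * F h j = F (J.t ω i).1 (J.t ω i).2 := by
  rw [Finset.sum_eq_single (J.t ω i).2, Finset.sum_eq_single (J.t ω i).1]
  · simp [J.ind_apply]
  · intro h _ hh
    rw [J.ind_apply, if_neg (fun e => hh (by rw [e])), zero_mul]
  · intro h; exact absurd (J.mem ω i) h
  · intro j _ hj
    refine Finset.sum_eq_zero fun h _ => ?_
    rw [J.ind_apply, if_neg (fun e => hj (by rw [e])), zero_mul]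
  · simp

theorem LocInv.ind_swap (J : LocInv S D) (i : D) (h : G) (j : D) (ω : X) :
    (J.ind j h i).1 (h • ω) = (J.ind i h⁻¹ j).1 ω := by
  rw [J.ind_apply, J.ind_apply]
  congr 1
  refine propext ⟨fun e => ?_, fun e => ?_⟩
  · simpa [e] using J.invol (h • ω) j
  · simpa [e] using J.invol ω i

section Rep

variable {σ : F2 →* unitary (L →L[ℂ] L)} {H : Type} [NormedAddCommGroup H] [InnerProductSpace ℂ H]
  [CompleteSpace H] {e : BM X × G × L → H}

theorem inner_sum_e (he : ∀ y y', ⟪e y, e y'⟫_ℂ = ∫ ω, S.kf σ y y' ω ∂μ) {ι : Type}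
    (s : Finset ι) (c : ι → ℂ) (y : ι → BM X × G × L) (y' : BM X × G × L) :
    ⟪e y', ∑ a ∈ s, c a • e (y a)⟫_ℂ = ∫ ω, ∑ a ∈ s, c a * S.kf σ y' (y a) ω ∂μ := by
  rw [inner_sum, integral_finset_sum _ fun a _ => (Sys.integrable_kf σ _ _).const_mul _]
  refine Finset.sum_congr rfl fun a _ => ?_
  rw [inner_smul_right, he, integral_const_mul]

theorem e_ext (he : ∀ y y', ⟪e y, e y'⟫_ℂ = ∫ ω, S.kf σ y y' ω ∂μ)
    (hd : Dense (Submodule.span ℂ (Set.range e) : Set H)) {ι ι' : Type}
    (s : Finset ι) (c : ι → ℂ) (y : ι → BM X × G × L)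
    (s' : Finset ι') (c' : ι' → ℂ) (y' : ι' → BM X × G × L)
    (h : ∀ ω (Φ : G → L → ℂ), ∑ a ∈ s, c a * ((y a).1.1 ω * Φ (y a).2.1 (y a).2.2) =
      ∑ a ∈ s', c' a * ((y' a).1.1 ω * Φ (y' a).2.1 (y' a).2.2)) :
    ∑ a ∈ s, c a • e (y a) = ∑ a ∈ s', c' a • e (y' a) := by
  have h1 : innerSL ℂ (∑ a ∈ s, c a • e (y a)) = innerSL ℂ (∑ a ∈ s', c' a • e (y' a)) := by
    refine ContinuousLinearMap.ext_on hd ?_
    rintro _ ⟨z, rfl⟩
    simp only [innerSL_apply_apply]
    rw [← inner_conj_symm, inner_sum_e he, ← inner_conj_symm (∑ a ∈ s', _), inner_sum_e he]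
    congr 2
    funext ω
    have := h ω fun g ξ => conj (z.1.1 ω) * S.κ σ ω z.2.1 g z.2.2 ξ
    simp only [Sys.kf]
    refine Eq.trans ?_ (this.trans ?_) <;> exact Finset.sum_congr rfl fun a _ => by ring
  exact ext_inner_right ℂ fun v => congrArg (fun T => T v) h1

theorem exists_Z (he : ∀ y y', ⟪e y, e y'⟫_ℂ = ∫ ω, S.kf σ y y' ω ∂μ)
    (hd : Dense (Submodule.span ℂ (Set.range e) : Set H)) (π : W →* unitary (H →L[ℂ] H))
    (hπ : ∀ γ f g ξ, (π γ : H →L[ℂ] H) (e (f, g, ξ)) = e (S.χ γ * BM.sh (S.q γ) f, S.q γ * g, ξ))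
    (J : LocInv S D) : ∃ Z : Matrix D D (MonoidAlgebra ℂ W), ∀ i j f g ξ,
      ev (und π) (Z i j) (e (f, g, ξ)) = ∑ h ∈ J.T, e (J.ind i h j * BM.sh h f, h * g, ξ) := by
  classical
  have h1 : ∀ i h j, ∃ z : MonoidAlgebra ℂ W, h ∈ J.T → ∀ f g ξ,
      ev (und π) z (e (f, g, ξ)) = e (J.ind i h j * BM.sh h f, h * g, ξ) := by
    intro i h j
    by_cases hh : h ∈ J.T
    swap
    · exact ⟨0, fun h' => absurd h' hh⟩
    obtain ⟨z, hz1, hz2⟩ := J.symb i h j hh
    refine ⟨MonoidAlgebra.ofCoeff z, fun _ f g ξ => ?_⟩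
    rw [ev_apply, Finsupp.sum, ContinuousLinearMap.sum_apply]
    simp only [ContinuousLinearMap.smul_apply, und_apply, hπ]
    have := e_ext he hd z.support z (fun γ => (S.χ γ * BM.sh (S.q γ) f, S.q γ * g, ξ))
      ({()} : Finset Unit) (fun _ => 1) (fun _ => (J.ind i h j * BM.sh h f, h * g, ξ)) (by
        intro ω Φ
        have hz3 : (J.ind i h j).1 ω = z.sum fun γ c => c * (S.χ γ).1 ω := by
          rw [hz2, J.ind_apply]
          by_cases h5 : J.t ω i = (h, j) <;> simp [h5]
        simp only [Finset.sum_singleton, one_mul, MulMemClass.coe_mul, Pi.mul_apply]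
        rw [hz3, Finsupp.sum, Finset.sum_mul, Finset.sum_mul]
        refine Finset.sum_congr rfl fun γ hγ => ?_
        rw [hz1 γ hγ]
        ring)
    simpa using this
  choose z hz using h1
  refine ⟨Matrix.of fun i j => ∑ h ∈ J.T, z i h j, fun i j f g ξ => ?_⟩
  rw [Matrix.of_apply, map_sum, ContinuousLinearMap.sum_apply]
  exact Finset.sum_congr rfl fun h hh => hz i h j hh f g ξ

theorem comp_apply {M M' : Matrix D D (H →L[ℂ] H)} {J J' : LocInv S D}
    (hM : ∀ i j f g ξ, M i j (e (f, g, ξ)) = ∑ h ∈ J.T, e (J.ind i h j * BM.sh h f, h * g, ξ))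
    (hM' : ∀ i j f g ξ, M' i j (e (f, g, ξ)) = ∑ h ∈ J'.T, e (J'.ind i h j * BM.sh h f, h * g, ξ))
    (i k : D) (f : BM X) (g : G) (ξ : L) :
    (M * M') i k (e (f, g, ξ)) = ∑ a ∈ (Finset.univ : Finset D) ×ˢ (J.T ×ˢ J'.T), (1 : ℂ) •
      e (J.ind i a.2.1 a.1 * BM.sh a.2.1 (J'.ind a.1 a.2.2 k * BM.sh a.2.2 f),
        a.2.1 * (a.2.2 * g), ξ) := by
  rw [Matrix.mul_apply, ContinuousLinearMap.sum_apply, Finset.sum_product]
  refine Finset.sum_congr rfl fun j _ => ?_
  rw [ContinuousLinearMap.mul_apply, hM', map_sum, Finset.sum_product, Finset.sum_comm]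
  refine Finset.sum_congr rfl fun h' _ => ?_
  rw [hM]
  simp

theorem invol_sq (he : ∀ y y', ⟪e y, e y'⟫_ℂ = ∫ ω, S.kf σ y y' ω ∂μ)
    (hd : Dense (Submodule.span ℂ (Set.range e) : Set H)) {M : Matrix D D (H →L[ℂ] H)}
    {J : LocInv S D}
    (hM : ∀ i j f g ξ, M i j (e (f, g, ξ)) = ∑ h ∈ J.T, e (J.ind i h j * BM.sh h f, h * g, ξ)) :
    M * M = 1 := by
  refine Matrix.ext fun i k => ContinuousLinearMap.ext_on hd ?_
  rintro _ ⟨⟨f, g, ξ⟩, rfl⟩
  rw [comp_apply hM hM, e_ext he hd _ _ _ ({()} : Finset Unit) (fun _ => if i = k then 1 else 0)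
    (fun _ => (f, g, ξ))]
  · by_cases h : i = k <;> simp [Matrix.one_apply, h]
  · intro ω Φ
    have h1 := J.sum_ind i ω fun h j => ∑ h' ∈ J.T, (J.ind j h' k).1 (h⁻¹ • ω) *
      (f.1 (h'⁻¹ • h⁻¹ • ω) * Φ (h * (h' * g)) ξ)
    rw [Finset.sum_product]
    simp only [Finset.sum_product, one_mul, MulMemClass.coe_mul, Pi.mul_apply, BM.sh_apply,
      Finset.sum_singleton, mul_assoc, ← Finset.mul_sum]
    rw [h1, Finset.sum_eq_single (J.t ω i).1⁻¹]
    · rw [J.ind_apply, J.invol]
      simp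
    · intro h' _ hh
      rw [J.ind_apply, J.invol, if_neg (fun e => hh (Prod.ext_iff.1 e).1.symm), zero_mul]
    · intro h; exact absurd (J.symm _ (J.mem ω i)) h

theorem invol_adj (he : ∀ y y', ⟪e y, e y'⟫_ℂ = ∫ ω, S.kf σ y y' ω ∂μ)
    (hd : Dense (Submodule.span ℂ (Set.range e) : Set H)) {M : Matrix D D (H →L[ℂ] H)}
    {J : LocInv S D}
    (hM : ∀ i j f g ξ, M i j (e (f, g, ξ)) = ∑ h ∈ J.T, e (J.ind i h j * BM.sh h f, h * g, ξ)) :
    star (blk M) = blk M := by
  have h1 : ∀ i j, ContinuousLinearMap.adjoint (M j i) = M i j := by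
    intro i j
    refine ContinuousLinearMap.ext_on hd ?_
    rintro _ ⟨⟨f, g, ξ⟩, rfl⟩
    have h2 : innerSL ℂ (ContinuousLinearMap.adjoint (M j i) (e (f, g, ξ))) =
        innerSL ℂ (M i j (e (f, g, ξ))) := by
      refine ContinuousLinearMap.ext_on hd ?_
      rintro _ ⟨⟨f', g', ξ'⟩, rfl⟩
      simp only [innerSL_apply_apply]
      rw [ContinuousLinearMap.adjoint_inner_left, hM, hM, inner_sum, sum_inner]
      refine Finset.sum_equiv (Equiv.inv G) (fun h => ⟨J.symm h, fun hh => ?_⟩) fun h _ => ?_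
      · simpa using J.symm _ hh
      · rw [he, he, ← integral_smul_eq_self (μ := μ) (g := h)]
        congr 1
        funext ω
        have e1 := Sys.κ_smul (S := S) σ h ω (h⁻¹ * g) g' ξ ξ'
        rw [mul_inv_cancel_left] at e1
        have e2 : conj ((J.ind i h⁻¹ j).1 ω) = (J.ind i h⁻¹ j).1 ω := by
          rw [J.ind_apply]; split_ifs <;> simp
        simp only [Sys.kf, MulMemClass.coe_mul, Pi.mul_apply, BM.sh_apply, inv_smul_smul, e1,
          J.ind_swap, Equiv.inv_apply, inv_inv, map_mul, e2]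
        ring
    exact ext_inner_right ℂ fun v => congrArg (fun T => T v) h2
  rw [ContinuousLinearMap.star_eq_adjoint, eq_comm, ContinuousLinearMap.eq_adjoint_iff]
  intro u v
  simp only [PiLp.inner_apply, blk_apply, sum_inner, inner_sum]
  rw [Finset.sum_comm]
  refine Finset.sum_congr rfl fun i _ => Finset.sum_congr rfl fun j _ => ?_
  rw [← h1 j i, ContinuousLinearMap.adjoint_inner_left]

end Rep

variable (μ) in
theorem core [Nonempty D] (J : Fin 2 → Fin 2 → LocInv S D) (w : D → F2) (B : Fin 2 → D → Set X)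
    (hB : ∀ k i, MeasurableSet (B k i)) {δ : ℝ} (hδ : 0 < δ)
    (hμ : ∀ k, ∑ i, μ.real (B k i) ≤ δ ^ 2 / 4 * Fintype.card D)
    (hg : ∀ k i ω, ω ∉ B k i → ∀ h j h' j', (J k 1).t ω i = (h, j) →
      (J k 0).t (h⁻¹ • ω) j = (h', j') → S.Rel ω 1 (w i * FreeGroup.of k * (w j')⁻¹) (h * h'))
    (σ : F2 →* unitary (L →L[ℂ] L)) (ρ : Λ →* unitary (L →L[ℂ] L))
    (hc : ∀ g h, Commute (σ g : L →L[ℂ] L) (ρ h : L →L[ℂ] L)) :
    ∃ (Z : Fin 2 → Fin 2 → Matrix D D (MonoidAlgebra ℂ W)) (R : Rep W)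
        (ρ' : Λ →* unitary (R.H →L[ℂ] R.H)) (V : L →L[ℂ] HD D R.H),
        (∀ g l, Commute (R.π g : R.H →L[ℂ] R.H) (ρ' l : R.H →L[ℂ] R.H)) ∧
        (∀ ξ, ‖V ξ‖ = ‖ξ‖) ∧
        (∀ l ξ, diag D (ρ' l : R.H →L[ℂ] R.H) (V ξ) = V ((ρ l : L →L[ℂ] L) ξ)) ∧
        (∀ k m, star (evM (und R.π) (Z k m)) = evM (und R.π) (Z k m) ∧
          evM (und R.π) (Z k m) * evM (und R.π) (Z k m) = 1) ∧
        ∀ k ξ, ‖evM (und R.π) (Z k 1) (evM (und R.π) (Z k 0) (V ξ)) -
          V ((σ (FreeGroup.of k) : L →L[ℂ] L) ξ)‖ ≤ δ * ‖ξ‖ := by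
  obtain ⟨R, e, he, hU, hd⟩ := S.exists_rep μ σ ρ hc
  let π := R.π.comp (MonoidHom.inl W Λ)
  have hπ : ∀ γ f g ξ, (π γ : R.H →L[ℂ] R.H) (e (f, g, ξ)) =
      e (S.χ γ * BM.sh (S.q γ) f, S.q γ * g, ξ) := fun γ f g ξ => by
    have := hU γ 1 f g ξ
    rw [map_one, OneMemClass.coe_one, ContinuousLinearMap.one_apply] at this
    exact this
  choose Z hZ using fun k m => exists_Z he hd π hπ (J k m)
  have hN : (0 : ℝ) < Fintype.card D := by exact_mod_cast Fintype.card_pos
  set a : ℝ := (Real.sqrt (Fintype.card D))⁻¹ with ha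
  have haa : (Fintype.card D : ℝ) * (a * a) = 1 := by
    rw [ha, ← mul_inv, Real.mul_self_sqrt hN.le, mul_inv_cancel₀ hN.ne']
  have haa' : (Fintype.card D : ℂ) * ((a : ℂ) * a) = 1 := by exact_mod_cast haa
  obtain ⟨V, hV, hVn⟩ := exists_clm (H := HD D R.H)
    (fun ξ => WithLp.toLp 2 fun i => (a : ℂ) • e (1, 1, (σ (w i) : L →L[ℂ] L) ξ)) fun ξ η => by
      simp only [PiLp.inner_apply, inner_smul_left, inner_smul_right, he, Sys.kf,
        Sys.κ_of_rel σ (Sys.rel_refl _ _), map_one, OneMemClass.coe_one, Pi.one_apply,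
        ContinuousLinearMap.one_apply, uni_inner_map, one_mul, integral_const, probReal_univ,
        one_smul, Finset.sum_const, Finset.card_univ, nsmul_eq_mul, Complex.conj_ofReal]
      linear_combination ⟪ξ, η⟫_ℂ * haa'
  have hVi : ∀ ξ i, V ξ i = (a : ℂ) • e (1, 1, (σ (w i) : L →L[ℂ] L) ξ) := fun ξ i => by rw [hV]
  have h4 : ∀ k m, star (evM (und π) (Z k m)) = evM (und π) (Z k m) ∧
      evM (und π) (Z k m) * evM (und π) (Z k m) = 1 := fun k m =>
    ⟨invol_adj he hd (hZ k m), by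
      rw [evM_eq, ← map_mul, invol_sq he hd (M := (Z k m).map (ev (und π))) (hZ k m), map_one]⟩
  refine ⟨Z, ⟨R.H, π⟩, R.π.comp (MonoidHom.inr W Λ), V, fun g l => ?_, hVn, fun l ξ => ?_, h4,
    fun k ξ => ?_⟩
  · change _ * _ = _ * _
    simp only [π, MonoidHom.comp_apply, ← Submonoid.coe_mul, ← MonoidHom.map_mul]
    simp
  · ext i
    rw [diag_apply, hVi, hVi, map_smul]
    congr 1
    have h1 := hU 1 l 1 1 ((σ (w i) : L →L[ℂ] L) ξ)
    rw [← ContinuousLinearMap.mul_apply (ρ l : L →L[ℂ] L), ← (hc _ _).eq] at h1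
    refine h1.trans ?_
    congr 1
    refine Prod.ext ?_ (by simp)
    ext ω
    simp [S.χ_one]
  · change ‖evM (und π) (Z k 1) (evM (und π) (Z k 0) (V ξ)) - _‖ ≤ _
    have hu : ∀ m (v : HD D R.H), ‖evM (und π) (Z k m) v‖ = ‖v‖ := fun m v =>
      ContinuousLinearMap.norm_map_of_mem_unitary
        (Unitary.mem_iff.2 (by rw [(h4 k m).1]; exact ⟨(h4 k m).2, (h4 k m).2⟩)) v
    set η := (σ (FreeGroup.of k) : L →L[ℂ] L) ξ with hη
    have hηn : ‖η‖ = ‖ξ‖ := uni_norm _ _
    have key : ∀ i, ‖ξ‖ ^ 2 * (1 - 2 * μ.real (B k i)) ≤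
        (⟪e (1, 1, (σ (w i) : L →L[ℂ] L) η), ∑ j', ((Z k 1).map (ev (und π)) *
          (Z k 0).map (ev (und π))) i j' (e (1, 1, (σ (w j') : L →L[ℂ] L) ξ))⟫_ℂ).re := by
      intro i
      simp only [comp_apply (M := (Z k 1).map (ev (und π))) (M' := (Z k 0).map (ev (und π)))
        (hZ k 1) (hZ k 0)]
      rw [← Finset.sum_product' (s := Finset.univ), inner_sum_e he]
      have hI := integrable_finset_sum (μ := μ)
        ((Finset.univ : Finset D) ×ˢ ((Finset.univ : Finset D) ×ˢ ((J k 1).T ×ˢ (J k 0).T)))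
        fun x _ => (Sys.integrable_kf (S := S) σ (1, 1, (σ (w i) : L →L[ℂ] L) η)
          ((J k 1).ind i x.2.2.1 x.2.1 * BM.sh x.2.2.1 ((J k 0).ind x.2.1 x.2.2.2 x.1 *
            BM.sh x.2.2.2 1), x.2.2.1 * (x.2.2.2 * 1), (σ (w x.1) : L →L[ℂ] L) ξ)).const_mul 1
      refine le_of_le_of_eq ?_ (integral_re (𝕜 := ℂ) hI)
      have e1 : ‖ξ‖ ^ 2 * (1 - 2 * μ.real (B k i)) =
          ∫ ω, (‖ξ‖ ^ 2 - (B k i).indicator (fun _ => 2 * ‖ξ‖ ^ 2) ω) ∂μ := by
        rw [integral_sub (integrable_const _) ((integrable_const _).indicator (hB k i)),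
          integral_indicator_const _ (hB k i)]
        simp only [integral_const, probReal_univ, smul_eq_mul]
        ring
      rw [e1]
      refine integral_mono ((integrable_const _).sub ((integrable_const _).indicator (hB k i)))
        hI.re fun ω => ?_
      have h1 := (J k 1).sum_ind i ω fun h j => ∑ j', ∑ h' ∈ (J k 0).T,
        ((J k 0).ind j h' j').1 (h⁻¹ • ω) *
          S.κ σ ω 1 (h * h') ((σ (w i) : L →L[ℂ] L) η) ((σ (w j') : L →L[ℂ] L) ξ)
      rw [(J k 0).sum_ind] at h1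
      have h2 : ∑ x ∈ (Finset.univ : Finset D) ×ˢ ((Finset.univ : Finset D) ×ˢ
          ((J k 1).T ×ˢ (J k 0).T)), 1 * S.kf σ (1, 1, (σ (w i) : L →L[ℂ] L) η)
          ((J k 1).ind i x.2.2.1 x.2.1 * BM.sh x.2.2.1 ((J k 0).ind x.2.1 x.2.2.2 x.1 *
            BM.sh x.2.2.2 1), x.2.2.1 * (x.2.2.2 * 1), (σ (w x.1) : L →L[ℂ] L) ξ) ω =
          ∑ j, ∑ h ∈ (J k 1).T, ((J k 1).ind i h j).1 ω * ∑ j', ∑ h' ∈ (J k 0).T,
            ((J k 0).ind j h' j').1 (h⁻¹ • ω) *
              S.κ σ ω 1 (h * h') ((σ (w i) : L →L[ℂ] L) η) ((σ (w j') : L →L[ℂ] L) ξ) := by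
        rw [Finset.sum_product]
        simp only [Finset.sum_product, Finset.mul_sum]
        rw [Finset.sum_comm]
        refine Finset.sum_congr rfl fun j _ => ?_
        rw [Finset.sum_comm]
        refine Finset.sum_congr rfl fun h _ => Finset.sum_congr rfl fun j' _ =>
          Finset.sum_congr rfl fun h' _ => ?_
        simp [Sys.kf, mul_assoc]
      simp only
      rw [h2, h1]
      by_cases hω : ω ∈ B k i
      · rw [Set.indicator_of_mem hω]
        have h3 := Sys.norm_κ_le (S := S) σ ω 1 (((J k 1).t ω i).1 *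
          ((J k 0).t (((J k 1).t ω i).1⁻¹ • ω) ((J k 1).t ω i).2).1) ((σ (w i) : L →L[ℂ] L) η)
          ((σ (w ((J k 0).t (((J k 1).t ω i).1⁻¹ • ω) ((J k 1).t ω i).2).2) : L →L[ℂ] L) ξ)
        rw [uni_norm (σ (w i)), hηn, uni_norm] at h3
        have h5 := (abs_le.1 ((Complex.abs_re_le_norm _).trans h3)).1
        change _ ≤ Complex.re _
        nlinarith
      · have e5 : ∀ u : F2, (σ (w i * FreeGroup.of k * u⁻¹) : L →L[ℂ] L) ((σ u : L →L[ℂ] L) ξ) =
            (σ (w i) : L →L[ℂ] L) η := by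
          intro u
          rw [← ContinuousLinearMap.mul_apply, ← Submonoid.coe_mul, ← MonoidHom.map_mul,
            inv_mul_cancel_right, MonoidHom.map_mul, Submonoid.coe_mul,
            ContinuousLinearMap.mul_apply]
        rw [Set.indicator_of_notMem hω, Sys.κ_of_rel σ (hg k i ω hω _ _ _ _ rfl rfl), e5,
          uni_inner_map, inner_self_eq_norm_sq_to_K, hηn]
        simp [← Complex.ofReal_pow]
    have e2 : (⟪V η, evM (und π) (Z k 1) (evM (und π) (Z k 0) (V ξ))⟫_ℂ).re =
        ∑ i, a * a * (⟪e (1, 1, (σ (w i) : L →L[ℂ] L) η), ∑ j', ((Z k 1).map (ev (und π)) *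
          (Z k 0).map (ev (und π))) i j' (e (1, 1, (σ (w j') : L →L[ℂ] L) ξ))⟫_ℂ).re := by
      rw [← ContinuousLinearMap.mul_apply, evM_eq, evM_eq, ← map_mul, PiLp.inner_apply,
        Complex.re_sum]
      refine Finset.sum_congr rfl fun i _ => ?_
      simp only [blk_apply, hVi, map_smul, ← Finset.smul_sum, inner_smul_left, inner_smul_right,
        Complex.conj_ofReal, Complex.re_ofReal_mul, mul_assoc]
    have h5 : ‖ξ‖ ^ 2 * (1 - δ ^ 2 / 2) ≤
        (⟪V η, evM (und π) (Z k 1) (evM (und π) (Z k 0) (V ξ))⟫_ℂ).re := by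
      rw [e2]
      refine le_trans ?_ (Finset.sum_le_sum fun i _ =>
        mul_le_mul_of_nonneg_left (key i) (mul_self_nonneg a))
      rw [← Finset.mul_sum, ← Finset.mul_sum, Finset.sum_sub_distrib, ← Finset.mul_sum]
      simp only [Finset.sum_const, Finset.card_univ, nsmul_eq_mul, mul_one]
      have h6 := mul_le_mul_of_nonneg_left (hμ k) (mul_nonneg (mul_self_nonneg a) (sq_nonneg ‖ξ‖))
      have h7 : a * a * ‖ξ‖ ^ 2 * (δ ^ 2 / 4 * Fintype.card D) = ‖ξ‖ ^ 2 * δ ^ 2 / 4 := by
        linear_combination (‖ξ‖ ^ 2 * δ ^ 2 / 4) * haa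
      have h8 : a * a * ‖ξ‖ ^ 2 * Fintype.card D = ‖ξ‖ ^ 2 := by
        linear_combination (‖ξ‖ ^ 2) * haa
      nlinarith
    refine (sq_le_sq₀ (norm_nonneg _) (by positivity)).1 ?_
    rw [norm_sub_rev, @norm_sub_sq ℂ, hu, hu, hVn, hVn, hηn]
    change _ - 2 * Complex.re _ + _ ≤ _
    nlinarith

end Pool.Agent.P.MP_95bcfc_an
end

-- part Pool.Agent.P.MP_95bcfc_an.Graph
section

set_option autoImplicit false

namespace Pool.Agent.P.MP_95bcfc_an

/-- a multigraph with edges labelled by a group -/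
structure LG (V E F : Type) where
  /-- source -/
  src : E → V
  /-- target -/
  tgt : E → V
  /-- label -/
  lab : E → F

namespace LG

variable {V E F : Type} [Group F] (G : LG V E F)

/-- start of a directed step -/
def hd (s : E × Bool) : V := if s.2 then G.src s.1 else G.tgt s.1
/-- end of a directed step -/
def tl (s : E × Bool) : V := if s.2 then G.tgt s.1 else G.src s.1
/-- label of a directed step -/
def sl (s : E × Bool) : F := if s.2 then G.lab s.1 else (G.lab s.1)⁻¹

/-- walks -/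
def Walk : V → List (E × Bool) → V → Prop
  | v, [], v' => v = v'
  | v, s :: l, v' => G.hd s = v ∧ Walk (G.tl s) l v'

/-- label of a walk -/
def wl (l : List (E × Bool)) : F := (l.map G.sl).prod

/-- an edge that lies on no cycle -/
def Bridge (e : E) : Prop := ¬ ∃ l, G.Walk (G.tgt e) l (G.src e) ∧ ∀ s ∈ l, s.1 ≠ e

/-- joined by a walk of bridges with the given label -/
def Rel (v : V) (w : F) (v' : V) : Prop :=
  ∃ l, G.Walk v l v' ∧ (∀ s ∈ l, G.Bridge s.1) ∧ G.wl l = w

/-- the reversed walk -/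
def rev (l : List (E × Bool)) : List (E × Bool) := (l.map fun s => (s.1, !s.2)).reverse

variable {G}

omit [Group F] in
theorem Walk.append {v v' v'' : V} {l l' : List (E × Bool)} (h : G.Walk v l v')
    (h' : G.Walk v' l' v'') : G.Walk v (l ++ l') v'' := by
  induction l generalizing v with
  | nil => cases h; exact h'
  | cons s l ih => exact ⟨h.1, ih h.2⟩

omit [Group F] in
theorem Walk.split {v v'' : V} {l l' : List (E × Bool)} (h : G.Walk v (l ++ l') v'') :
    ∃ v', G.Walk v l v' ∧ G.Walk v' l' v'' := by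
  induction l generalizing v with
  | nil => exact ⟨v, rfl, h⟩
  | cons s l ih =>
    obtain ⟨v', h1, h2⟩ := ih h.2
    exact ⟨v', ⟨h.1, h1⟩, h2⟩

omit [Group F] in
theorem Walk.rev {v v' : V} {l : List (E × Bool)} (h : G.Walk v l v') : G.Walk v' (rev l) v := by
  induction l generalizing v with
  | nil => exact h.symm
  | cons s l ih =>
    have e : LG.rev (s :: l) = LG.rev l ++ [(s.1, !s.2)] := by simp [LG.rev]
    rw [e]
    refine (ih h.2).append ⟨?_, ?_⟩
    · obtain ⟨e, b⟩ := s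
      cases b <;> rfl
    · obtain ⟨e, b⟩ := s
      rw [← h.1]
      cases b <;> rfl

theorem mem_rev {l : List (E × Bool)} {s : E × Bool} (h : s ∈ rev l) : ∃ t ∈ l, t.1 = s.1 := by
  simp only [rev, List.mem_reverse, List.mem_map] at h
  obtain ⟨t, ht, rfl⟩ := h
  exact ⟨t, ht, rfl⟩

@[simp] theorem wl_nil : G.wl [] = 1 := rfl

@[simp] theorem wl_cons (s : E × Bool) (l : List (E × Bool)) :
    G.wl (s :: l) = G.sl s * G.wl l := by simp [wl]

@[simp] theorem wl_append (l l' : List (E × Bool)) : G.wl (l ++ l') = G.wl l * G.wl l' := by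
  simp [wl]

theorem wl_rev (l : List (E × Bool)) : G.wl (rev l) = (G.wl l)⁻¹ := by
  induction l with
  | nil => simp [rev]
  | cons s l ih =>
    have e : LG.rev (s :: l) = LG.rev l ++ [(s.1, !s.2)] := by simp [LG.rev]
    rw [e, wl_append, ih]
    obtain ⟨e, b⟩ := s
    cases b <;> simp [sl]

omit [Group F] in
theorem Bridge.not_walk {s : E × Bool} (h : G.Bridge s.1) {l : List (E × Bool)}
    (hw : G.Walk (G.tl s) l (G.hd s)) (hl : ∀ t ∈ l, t.1 ≠ s.1) : False := by
  obtain ⟨e, b⟩ := s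
  cases b
  · refine h ⟨rev l, hw.rev, fun t ht => ?_⟩
    obtain ⟨t', h1, h2⟩ := mem_rev ht
    rw [← h2]
    exact hl t' h1
  · exact h ⟨l, hw, hl⟩

theorem wl_closed (n : ℕ) : ∀ (l : List (E × Bool)) (v : V), l.length ≤ n → G.Walk v l v →
    (∀ s ∈ l, G.Bridge s.1) → G.wl l = 1 := by
  classical
  induction n with
  | zero =>
    intro l v hl _ _
    rw [List.length_eq_zero_iff.1 (Nat.le_zero.1 hl)]
    rfl
  | succ n ih =>
    intro l v hl hw hb
    cases l with
    | nil => rfl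
    | cons s l =>
      obtain ⟨h1, h2⟩ := hw
      subst h1
      have hs := hb s (by simp)
      have hex : ∃ t ∈ l, t.1 = s.1 := by
        by_contra hc
        push Not at hc
        exact hs.not_walk h2 hc
      obtain ⟨l1, t, l2, rfl, ht, hl1⟩ : ∃ l1 t l2, l = l1 ++ t :: l2 ∧ t.1 = s.1 ∧
          ∀ u ∈ l1, u.1 ≠ s.1 := by
        clear h2 hl hb
        induction l with
        | nil => simp at hex
        | cons a l ih' =>
          by_cases ha : a.1 = s.1
          · exact ⟨[], a, l, rfl, ha, by simp⟩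
          · obtain ⟨t, ht, ht'⟩ := hex
            rcases List.mem_cons.1 ht with rfl | ht
            · exact absurd ht' ha
            · obtain ⟨l1, t', l2, rfl, h3, h4⟩ := ih' ⟨t, ht, ht'⟩
              refine ⟨a :: l1, t', l2, rfl, h3, fun u hu => ?_⟩
              rcases List.mem_cons.1 hu with rfl | hu
              · exact ha
              · exact h4 u hu
      obtain ⟨v', h3, h4, h5⟩ := h2.split
      subst h4
      have hts : t = (s.1, !s.2) := by
        by_contra hc
        have : t = s := by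
          obtain ⟨e, b⟩ := s
          obtain ⟨e', b'⟩ := t
          simp only at ht
          subst ht
          cases b <;> cases b' <;> simp_all
        subst this
        exact hs.not_walk h3 hl1
      have e1 : G.hd t = G.tl s := by
        rw [hts]; obtain ⟨e, b⟩ := s; cases b <;> rfl
      have e2 : G.tl t = G.hd s := by
        rw [hts]; obtain ⟨e, b⟩ := s; cases b <;> rfl
      have e3 : G.sl s * G.sl t = 1 := by
        rw [hts]; obtain ⟨e, b⟩ := s; cases b <;> simp [sl]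
      simp only [List.length_cons, List.length_append] at hl
      rw [e1] at h3
      rw [e2] at h5
      have h6 := ih l1 _ (by omega) h3 fun u hu => hb u (by simp [hu])
      have h7 := ih l2 _ (by omega) h5 fun u hu => hb u (by simp [hu])
      simp [h6, h7, e3]

theorem Rel.refl (v : V) : G.Rel v 1 v := ⟨[], rfl, by simp, rfl⟩

theorem Rel.symm {v v' : V} {w : F} (h : G.Rel v w v') : G.Rel v' w⁻¹ v := by
  obtain ⟨l, h1, h2, rfl⟩ := h
  refine ⟨rev l, h1.rev, fun s hs => ?_, wl_rev l⟩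
  obtain ⟨t, ht, e⟩ := mem_rev hs
  exact e ▸ h2 t ht

theorem Rel.trans {v v' v'' : V} {w w' : F} (h : G.Rel v w v') (h' : G.Rel v' w' v'') :
    G.Rel v (w * w') v'' := by
  obtain ⟨l, h1, h2, rfl⟩ := h
  obtain ⟨l', h1', h2', rfl⟩ := h'
  refine ⟨l ++ l', h1.append h1', fun s hs => ?_, wl_append _ _⟩
  rcases List.mem_append.1 hs with hs | hs
  · exact h2 s hs
  · exact h2' s hs

theorem Rel.unique {v v' : V} {w w' : F} (h : G.Rel v w v') (h' : G.Rel v w' v') : w = w' := by
  obtain ⟨l, h1, h2, h3⟩ := h.trans h'.symm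
  rw [wl_closed _ l v le_rfl h1 h2] at h3
  exact mul_inv_eq_one.1 h3.symm

theorem Bridge.rel {e : E} (h : G.Bridge e) : G.Rel (G.src e) (G.lab e) (G.tgt e) :=
  ⟨[(e, true)], ⟨rfl, rfl⟩, by simpa using h, by simp [sl]⟩

variable (G) in
theorem exists_pot : ∃ (cl : V → V) (φ : V → F), ∀ v w v',
    G.Rel v w v' ↔ cl v = cl v' ∧ w = (φ v)⁻¹ * φ v' := by
  let s : Setoid V := ⟨fun v v' => ∃ w, G.Rel v w v', fun v => ⟨1, Rel.refl v⟩,
    fun ⟨_, h⟩ => ⟨_, h.symm⟩, fun ⟨_, h⟩ ⟨_, h'⟩ => ⟨_, h.trans h'⟩⟩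
  have h1 : ∀ v, ∃ w, G.Rel (Quotient.mk s v).out w v := fun v => Quotient.mk_out (s := s) v
  choose φ hφ using h1
  refine ⟨fun v => (Quotient.mk s v).out, φ, fun v w v' => ⟨fun h => ?_, fun h => ?_⟩⟩
  · have e : Quotient.mk s v = Quotient.mk s v' := Quotient.sound ⟨w, h⟩
    refine ⟨by simp only [e], ?_⟩
    have h2 := (hφ v).trans h
    rw [e] at h2
    rw [← h2.unique (hφ v')]
    simp
  · obtain ⟨h2, rfl⟩ := h
    have h3 := hφ v'
    simp only at h2
    rw [← h2] at h3
    exact (hφ v).symm.trans h3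

omit [Group F] in
theorem Walk.nodup {v v' : V} {l : List (E × Bool)} (h : G.Walk v l v') :
    ∃ l', G.Walk v l' v' ∧ (l'.map Prod.fst).Nodup ∧ ∀ s ∈ l', s ∈ l := by
  induction l generalizing v with
  | nil => exact ⟨[], h, by simp, by simp⟩
  | cons s l ih =>
    obtain ⟨l', h1, h2, h3⟩ := ih h.2
    by_cases hs : s.1 ∈ l'.map Prod.fst
    · obtain ⟨t, ht, e⟩ := List.mem_map.1 hs
      obtain ⟨l1, l2, rfl⟩ := List.append_of_mem ht
      obtain ⟨u, -, h4⟩ := h1.split
      have h5 : ((t :: l2).map Prod.fst).Nodup := by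
        rw [List.map_append] at h2
        exact h2.of_append_right
      by_cases hb : t.2 = s.2
      · have e' : t = s := Prod.ext e hb
        subst e'
        exact ⟨t :: l2, ⟨h.1, h4.2⟩, h5, fun a ha => List.mem_cons_of_mem _ (h3 a (by simp [ha]))⟩
      · have e2 : G.tl t = v := by
          rw [← h.1]
          obtain ⟨a, b⟩ := s
          obtain ⟨a', b'⟩ := t
          simp only at e hb
          subst e
          cases b <;> cases b' <;> simp_all [hd, tl]
        refine ⟨l2, e2 ▸ h4.2, (List.nodup_cons.1 h5).2, fun a ha =>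
          List.mem_cons_of_mem _ (h3 a (by simp [ha]))⟩
    · refine ⟨s :: l', ⟨h.1, h1⟩, List.nodup_cons.2 ⟨hs, h2⟩, fun a ha => ?_⟩
      rcases List.mem_cons.1 ha with rfl | ha
      · simp
      · exact List.mem_cons_of_mem _ (h3 a ha)

section Map

variable {G' : LG V E F} {fV : V ≃ V} {fE : E ≃ E}

/-- an isomorphism of labelled graphs -/
structure IsMap (G G' : LG V E F) (fV : V ≃ V) (fE : E ≃ E) : Prop where
  src : ∀ e, G'.src (fE e) = fV (G.src e)
  tgt : ∀ e, G'.tgt (fE e) = fV (G.tgt e)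
  lab : ∀ e, G'.lab (fE e) = G.lab e

omit [Group F] in
theorem IsMap.symm (h : IsMap G G' fV fE) : IsMap G' G fV.symm fE.symm where
  src e := by rw [Equiv.eq_symm_apply, ← h.src]; simp
  tgt e := by rw [Equiv.eq_symm_apply, ← h.tgt]; simp
  lab e := by rw [← h.lab]; simp

omit [Group F] in
theorem IsMap.walk (h : IsMap G G' fV fE) {v v' : V} {l : List (E × Bool)} (hw : G.Walk v l v') :
    G'.Walk (fV v) (l.map fun s => (fE s.1, s.2)) (fV v') := by
  induction l generalizing v with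
  | nil => exact congrArg fV hw
  | cons s l ih =>
    have h2 := ih hw.2
    obtain ⟨e, b⟩ := s
    refine ⟨?_, ?_⟩
    · rw [← hw.1]
      cases b
      · exact h.tgt e
      · exact h.src e
    · cases b
      · change G'.Walk (G'.src (fE e)) _ _
        rw [h.src]
        exact h2
      · change G'.Walk (G'.tgt (fE e)) _ _
        rw [h.tgt]
        exact h2

omit [Group F] in
theorem IsMap.bridge (h : IsMap G G' fV fE) {e : E} (hb : G.Bridge e) : G'.Bridge (fE e) := by
  rintro ⟨l, h1, h2⟩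
  have h3 := h.symm.walk h1
  rw [h.src, h.tgt, Equiv.symm_apply_apply, Equiv.symm_apply_apply] at h3
  refine hb ⟨_, h3, fun s hs => ?_⟩
  obtain ⟨t, ht, rfl⟩ := List.mem_map.1 hs
  intro e'
  exact h2 t ht (by rw [← e']; simp)

theorem IsMap.rel (h : IsMap G G' fV fE) {v v' : V} {w : F} (hr : G.Rel v w v') :
    G'.Rel (fV v) w (fV v') := by
  obtain ⟨l, h1, h2, rfl⟩ := hr
  refine ⟨_, h.walk h1, fun s hs => ?_, ?_⟩
  · obtain ⟨t, ht, rfl⟩ := List.mem_map.1 hs
    exact h.bridge (h2 t ht)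
  · simp only [wl, List.map_map]
    congr 1
    refine List.map_congr_left fun s _ => ?_
    simp [sl, h.lab]

end Map

section Meas

variable {X : Type} [MeasurableSpace X] [Countable V] [Countable E] [Countable F]
  {G : X → LG V E F}

/-- a measurable family of labelled graphs -/
structure Meas (G : X → LG V E F) : Prop where
  src : ∀ e v, MeasurableSet {ω | (G ω).src e = v}
  tgt : ∀ e v, MeasurableSet {ω | (G ω).tgt e = v}
  lab : ∀ e w, MeasurableSet {ω | (G ω).lab e = w}

omit [Group F] [Countable E] [Countable F] in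
theorem Meas.walk (h : Meas G) (l : List (E × Bool)) (a b : X → V)
    (ha : ∀ v, MeasurableSet {ω | a ω = v}) (hb : ∀ v, MeasurableSet {ω | b ω = v}) :
    MeasurableSet {ω | (G ω).Walk (a ω) l (b ω)} := by
  have heq : ∀ (a b : X → V), (∀ v, MeasurableSet {ω | a ω = v}) →
      (∀ v, MeasurableSet {ω | b ω = v}) → MeasurableSet {ω | a ω = b ω} := by
    intro a b ha hb
    have : {ω | a ω = b ω} = ⋃ v, {ω | a ω = v} ∩ {ω | b ω = v} := by
      ext ω; simp [eq_comm]
    rw [this]
    exact MeasurableSet.iUnion fun v => (ha v).inter (hb v)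
  induction l generalizing a with
  | nil => exact heq a b ha hb
  | cons s l ih =>
    obtain ⟨e, c⟩ := s
    cases c
    · exact (heq _ a (h.tgt e) ha).inter (ih _ (h.src e))
    · exact (heq _ a (h.src e) ha).inter (ih _ (h.tgt e))

omit [Group F] [Countable F] in
theorem Meas.bridge (h : Meas G) (e : E) : MeasurableSet {ω | (G ω).Bridge e} := by
  have : {ω | (G ω).Bridge e} = (⋃ l : List (E × Bool),
      {ω | (G ω).Walk ((G ω).tgt e) l ((G ω).src e)} ∩ {_ω | ∀ s ∈ l, s.1 ≠ e})ᶜ := by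
    ext ω; simp [Bridge]
  rw [this]
  exact (MeasurableSet.iUnion fun l => (h.walk l _ _ (h.tgt e) (h.src e)).inter
    (MeasurableSet.const _)).compl

omit [Countable V] [Countable E] in
theorem Meas.wl (h : Meas G) (l : List (E × Bool)) (w : F) :
    MeasurableSet {ω | (G ω).wl l = w} := by
  induction l generalizing w with
  | nil => exact MeasurableSet.const (1 = w)
  | cons s l ih =>
    have : {ω | (G ω).wl (s :: l) = w} = ⋃ u, {ω | (G ω).lab s.1 = u} ∩
        {ω | (G ω).wl l = (if s.2 then u else u⁻¹)⁻¹ * w} := by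
      ext ω
      simp [sl, eq_inv_mul_iff_mul_eq]
    rw [this]
    exact MeasurableSet.iUnion fun u => (h.lab _ _).inter (ih _)

theorem Meas.rel (h : Meas G) (v : V) (w : F) (v' : V) :
    MeasurableSet {ω | (G ω).Rel v w v'} := by
  have : {ω | (G ω).Rel v w v'} = ⋃ l : List (E × Bool), {ω | (G ω).Walk v l v'} ∩
      ((⋂ s ∈ {s | s ∈ l}, {ω | (G ω).Bridge s.1}) ∩ {ω | (G ω).wl l = w}) := by
    ext ω; simp [Rel]
  rw [this]
  refine MeasurableSet.iUnion fun l => (h.walk l _ _ (fun _ => MeasurableSet.const _)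
    fun _ => MeasurableSet.const _).inter (MeasurableSet.inter ?_ (h.wl l w))
  exact MeasurableSet.biInter (Set.to_countable _) fun s _ => h.bridge _

end Meas

end LG

end Pool.Agent.P.MP_95bcfc_an
end

-- part Pool.Agent.P.MP_95bcfc_an.Kesten
section

set_option autoImplicit false
set_option linter.unusedSectionVars false

namespace Pool.Agent.P.MP_95bcfc_an

open Classical

variable {G : Type} [Group G]

/-- finitely supported functions with natural values -/
def FS (f : G → ℕ) : Prop := (Function.support f).Finite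

/-- inner product -/
noncomputable def ip (f g : G → ℕ) : ℝ := ∑' x, (f x : ℝ) * (g x : ℝ)

/-- left translation -/
def sh (s : G) (f : G → ℕ) : G → ℕ := fun x => f (s⁻¹ * x)

/-- convolution by a family of group elements -/
def cv {I : Type} [Fintype I] (s : I → G) (f : G → ℕ) : G → ℕ := fun x => ∑ a, f ((s a)⁻¹ * x)

theorem FS.sh {f : G → ℕ} (h : FS f) (s : G) : FS (sh s f) :=
  h.preimage (f := fun x => s⁻¹ * x) (mul_right_injective _).injOn

theorem FS.cv {I : Type} [Fintype I] {f : G → ℕ} (h : FS f) (s : I → G) : FS (cv s f) := by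
  refine (Set.finite_iUnion fun a => h.sh (s a)).subset fun x hx => ?_
  obtain ⟨a, -, ha⟩ := Finset.exists_ne_zero_of_sum_ne_zero hx
  exact Set.mem_iUnion.2 ⟨a, ha⟩

theorem FS.summable {f : G → ℕ} (h : FS f) (u : G → ℝ) : Summable fun x => (f x : ℝ) * u x := by
  refine summable_of_finite_support (h.subset fun x hx => ?_)
  intro h0
  exact hx (by simp [h0])

theorem ip_comm (f g : G → ℕ) : ip f g = ip g f := by simp only [ip, mul_comm]

theorem ip_sh (s : G) (f g : G → ℕ) : ip (sh s f) (sh s g) = ip f g :=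
  (Equiv.mulLeft s⁻¹).tsum_eq fun x => (f x : ℝ) * (g x : ℝ)

theorem sh_sh (s t : G) (f : G → ℕ) : sh s (sh t f) = sh (s * t) f := by
  funext x; simp [sh, mul_assoc]

theorem sh_one (f : G → ℕ) : sh 1 f = f := by funext x; simp [sh]

theorem ip_nonneg (f g : G → ℕ) : 0 ≤ ip f g := tsum_nonneg fun _ => by positivity

theorem ip_le {f g : G → ℕ} (hf : FS f) (hg : FS g) : 2 * ip f g ≤ ip f f + ip g g := by
  rw [ip, ip, ip, ← tsum_mul_left, ← (hf.summable _).tsum_add (hg.summable _)]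
  refine Summable.tsum_le_tsum (fun x => ?_) ((hf.summable _).mul_left 2)
    ((hf.summable _).add (hg.summable _))
  nlinarith [sq_nonneg ((f x : ℝ) - g x)]

theorem ip_cv {I : Type} [Fintype I] (s : I → G) {f : G → ℕ} (hf : FS f) :
    ip (cv s f) (cv s f) = ∑ a, ∑ b, ip (sh (s a) f) (sh (s b) f) := by
  have e : ∀ x, ((cv s f x : ℕ) : ℝ) * ((cv s f x : ℕ) : ℝ) =
      ∑ a, ∑ b, (sh (s a) f x : ℝ) * (sh (s b) f x : ℝ) := by
    intro x
    simp only [sh, cv, Nat.cast_sum, Finset.sum_mul_sum]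
  simp only [ip, e]
  rw [Summable.tsum_finsetSum fun a _ => summable_sum fun b _ => (hf.sh (s a)).summable _]
  exact Finset.sum_congr rfl fun a _ =>
    Summable.tsum_finsetSum fun b _ => (hf.sh (s a)).summable _

theorem layer {S : Finset G} {ε : ℝ}
    (h : ∀ F : Finset G, F.Nonempty → ∃ s ∈ S, ε * (F.card : ℝ) ≤
      (((F.image fun x => s * x) \ F).card : ℝ)) {f : G → ℕ} (hf : FS f) :
    ε * ∑' x, (f x : ℝ) ≤ ∑ s ∈ S, ∑' x, ((f (s⁻¹ * x) - f x : ℕ) : ℝ) := by
  obtain ⟨M, hM⟩ : ∃ M, ∀ x, f x ≤ M := by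
    obtain ⟨M, hM⟩ := (hf.image f).bddAbove
    refine ⟨M, fun x => ?_⟩
    by_cases hx : f x = 0
    · omega
    · exact hM ⟨x, hx, rfl⟩
  let F : ℕ → Finset G := fun t => hf.toFinset.filter fun x => t < f x
  have hF : ∀ t x, x ∈ F t ↔ t < f x := by
    intro t x
    simp only [F, Finset.mem_filter, Set.Finite.mem_toFinset, Function.mem_support]
    omega
  have hcard : ∀ A : Finset G, (A.card : ℝ) = ∑' x, if x ∈ A then (1 : ℝ) else 0 := by
    intro A
    rw [tsum_eq_sum (s := A) fun x hx => if_neg hx]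
    simp
  have hsum : ∀ A : Finset G, Summable fun x => if x ∈ A then (1 : ℝ) else 0 := fun A =>
    summable_of_ne_finset_zero (s := A) fun x hx => if_neg hx
  have h1 : ∑' x, (f x : ℝ) = ∑ t ∈ Finset.range M, ((F t).card : ℝ) := by
    simp only [hcard]
    rw [← Summable.tsum_finsetSum fun t _ => hsum _]
    refine tsum_congr fun x => ?_
    simp only [hF, Finset.sum_boole]
    congr 1
    refine (Finset.card_range (f x)).symm.trans ?_
    congr 1
    ext t
    have := hM x
    simp only [Finset.mem_range, Finset.mem_filter]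
    omega
  have h2 : ∀ s, ∑' x, ((f (s⁻¹ * x) - f x : ℕ) : ℝ) =
      ∑ t ∈ Finset.range M, ((((F t).image fun x => s * x) \ F t).card : ℝ) := by
    intro s
    simp only [hcard]
    rw [← Summable.tsum_finsetSum fun t _ => hsum _]
    refine tsum_congr fun x => ?_
    have e : ∀ t, x ∈ ((F t).image fun x => s * x) \ F t ↔ t < f (s⁻¹ * x) ∧ f x ≤ t := by
      intro t
      simp only [Finset.mem_sdiff, Finset.mem_image, hF, not_lt]
      refine and_congr_left fun _ => ⟨?_, fun h => ⟨_, h, by simp⟩⟩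
      rintro ⟨y, hy, rfl⟩
      simpa using hy
    simp only [e, Finset.sum_boole]
    congr 1
    rw [← Nat.card_Ico]
    congr 1
    ext t
    have := hM (s⁻¹ * x)
    simp only [Finset.mem_range, Finset.mem_filter, Finset.mem_Ico]
    omega
  simp only [h1, h2]
  rw [Finset.sum_comm, Finset.mul_sum]
  refine Finset.sum_le_sum fun t _ => ?_
  rcases (F t).eq_empty_or_nonempty with h0 | h0
  · simp [h0]
  · obtain ⟨s, hs, h3⟩ := h _ h0
    exact h3.trans (Finset.single_le_sum
      (f := fun s => ((((F t).image fun x => s * x) \ F t).card : ℝ)) (fun _ _ => by positivity) hs)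

theorem gap (hG : ¬ Folner G) : ∃ (S : Finset G) (c : ℝ), 0 < c ∧ ∀ g : G → ℕ, FS g →
    ∑ s ∈ S, ip (sh s g) g ≤ (S.card - c) * ip g g := by
  simp only [Folner, not_forall, not_exists, not_and, not_lt] at hG
  obtain ⟨S, ε, hε, h⟩ := hG
  have h' : ∀ F : Finset G, F.Nonempty → ∃ s ∈ S, ε * (F.card : ℝ) ≤
      (((F.image fun x => s * x) \ F).card : ℝ) := fun F hF => by
    obtain ⟨s, hs, h1⟩ := h F hF
    exact ⟨s, hs, h1⟩
  have hS : (0 : ℝ) < S.card := by
    obtain ⟨s, hs, -⟩ := h' {1} (by simp)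
    exact_mod_cast Finset.card_pos.2 ⟨s, hs⟩
  set η : ℝ := ε / (4 * S.card) with hη
  have hη0 : 0 < η := by positivity
  refine ⟨S, η * ε / 2, by positivity, fun g hg => ?_⟩
  have hf : FS fun x => g x * g x := hg.subset fun x hx h0 => hx (by simp [h0])
  have h1 := layer h' hf
  have h2 : ∀ s, η * ∑' x, ((g (s⁻¹ * x) * g (s⁻¹ * x) - g x * g x : ℕ) : ℝ) ≤
      (ip g g - ip (sh s g) g) + 2 * η ^ 2 * ip g g := by
    intro s
    have e : (ip g g - ip (sh s g) g) + 2 * η ^ 2 * ip g g =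
        ∑' x, ((1 / 2 + η ^ 2) * ((sh s g x : ℝ) * sh s g x) + (1 / 2 + η ^ 2) * ((g x : ℝ) * g x) -
          (sh s g x : ℝ) * g x) := by
      rw [Summable.tsum_sub ((((hg.sh s).summable _).mul_left _).add ((hg.summable _).mul_left _))
        ((hg.sh s).summable _), Summable.tsum_add (((hg.sh s).summable _).mul_left _)
        ((hg.summable _).mul_left _), tsum_mul_left, tsum_mul_left]
      have := ip_sh s g g
      simp only [ip] at this ⊢
      rw [this]
      ring
    rw [e, ← tsum_mul_left]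
    refine Summable.tsum_le_tsum (fun x => ?_) (Summable.mul_left _ ?_)
      (((((hg.sh s).summable _).mul_left _).add ((hg.summable _).mul_left _)).sub
        ((hg.sh s).summable _))
    · simp only [sh]
      generalize g (s⁻¹ * x) = a
      generalize g x = b
      rcases le_total (a * a) (b * b) with hab | hab
      · rw [Nat.sub_eq_zero_of_le hab]
        nlinarith [sq_nonneg ((a : ℝ) - b), sq_nonneg (η * a), sq_nonneg (η * b)]
      · rw [Nat.cast_sub hab]
        push_cast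
        nlinarith [sq_nonneg ((a : ℝ) - b - η * (a + b)), sq_nonneg (η * (a - b))]
    · refine summable_of_finite_support ((hg.sh s).subset fun x hx h0 => hx ?_)
      simp only [sh] at h0
      simp [h0]
  have h3 : η * (ε * ip g g) ≤
      ∑ s ∈ S, ((ip g g - ip (sh s g) g) + 2 * η ^ 2 * ip g g) := by
    refine le_trans ?_ (Finset.sum_le_sum fun s _ => h2 s)
    rw [← Finset.mul_sum]
    refine mul_le_mul_of_nonneg_left ?_ hη0.le
    simpa only [ip, Nat.cast_mul] using h1
  rw [Finset.sum_add_distrib, Finset.sum_sub_distrib, Finset.sum_const, Finset.sum_const,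
    nsmul_eq_mul, nsmul_eq_mul] at h3
  have h4 : (S.card : ℝ) * (2 * η ^ 2) = η * ε / 2 := by rw [hη]; field_simp; ring
  have h5 : (S.card : ℝ) * (2 * η ^ 2 * ip g g) = η * ε / 2 * ip g g := by rw [← h4]; ring
  nlinarith

/-- both convolution operators of the family contract by the factor `θ` -/
def Contr {I : Type} [Fintype I] (s : I → G) (θ : ℝ) : Prop :=
  ∀ g : G → ℕ, FS g → ip (cv s g) (cv s g) ≤ θ * (Fintype.card I : ℝ) ^ 2 * ip g g ∧
    ip (cv (fun a => (s a)⁻¹) g) (cv (fun a => (s a)⁻¹) g) ≤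
      θ * (Fintype.card I : ℝ) ^ 2 * ip g g

theorem contr_base (hG : ¬ Folner G) : ∃ (I : Type) (_ : Fintype I) (_ : Nonempty I) (s : I → G)
    (θ : ℝ), 0 ≤ θ ∧ θ < 1 ∧ Contr s θ := by
  obtain ⟨S, c, hc, h⟩ := gap hG
  have key : ∀ (s : Option S → G) (g : G → ℕ), FS g → s none = 1 →
      ∑ a : S, ip (sh (s (some a)) g) g ≤ (S.card - c) * ip g g →
      ip (cv s g) (cv s g) ≤ max 0 (1 - c / (S.card + 1) ^ 2) *
        (Fintype.card (Option S) : ℝ) ^ 2 * ip g g := by
    intro s g hg h1 h2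
    have h3 : ∀ a b, ip (sh (s a) g) (sh (s b) g) ≤ ip g g := by
      intro a b
      have := ip_le (hg.sh (s a)) (hg.sh (s b))
      rw [ip_sh, ip_sh] at this
      linarith
    rw [ip_cv s hg, Finset.sum_comm, Fintype.sum_option, Fintype.sum_option]
    have h4 : ∑ b : S, ∑ a, ip (sh (s a) g) (sh (s (some b)) g) ≤
        ∑ _b : S, ∑ _a : Option S, ip g g :=
      Finset.sum_le_sum fun b _ => Finset.sum_le_sum fun a _ => h3 _ _
    simp only [Finset.sum_const, Finset.card_univ, Fintype.card_option, Fintype.card_coe,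
      nsmul_eq_mul, Nat.cast_add, Nat.cast_one] at h4 ⊢
    rw [h1, sh_one]
    have h5 := ip_nonneg g g
    have h6 : (1 - c / ((S.card : ℝ) + 1) ^ 2) * ((S.card : ℝ) + 1) ^ 2 =
        ((S.card : ℝ) + 1) ^ 2 - c := by field_simp
    have h7 := mul_le_mul_of_nonneg_right (mul_le_mul_of_nonneg_right
      (le_max_right 0 (1 - c / ((S.card : ℝ) + 1) ^ 2)) (sq_nonneg ((S.card : ℝ) + 1))) h5
    rw [h6] at h7
    nlinarith
  refine ⟨Option S, inferInstance, inferInstance, fun a => a.elim 1 Subtype.val,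
    max 0 (1 - c / (S.card + 1) ^ 2), le_max_left _ _, max_lt one_pos ?_, fun g hg => ⟨?_, ?_⟩⟩
  · have : 0 < c / ((S.card : ℝ) + 1) ^ 2 := by positivity
    linarith
  · refine key _ g hg rfl ?_
    have h1 := h g hg
    rw [← Finset.sum_coe_sort S] at h1
    exact h1
  · refine key _ g hg (by simp) ?_
    have h1 := h g hg
    rw [← Finset.sum_coe_sort S] at h1
    refine le_of_eq_of_le (Finset.sum_congr rfl fun a _ => ?_) h1
    rw [← ip_sh (a : G), sh_sh, ip_comm]
    simp [sh_one]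

theorem cv_prod {I J : Type} [Fintype I] [Fintype J] (s : I → G) (t : J → G) (g : G → ℕ) :
    cv (fun p : I × J => s p.1 * t p.2) g = cv s (cv t g) := by
  funext x
  simp [cv, Fintype.sum_prod_type, mul_assoc]

theorem cv_prod' {I J : Type} [Fintype I] [Fintype J] (s : I → G) (t : J → G) (g : G → ℕ) :
    cv (fun p : I × J => (s p.1 * t p.2)⁻¹) g =
      cv (fun b => (t b)⁻¹) (cv (fun a => (s a)⁻¹) g) := by
  funext x
  simp only [cv, Fintype.sum_prod_type, inv_inv, mul_assoc]
  rw [Finset.sum_comm]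

theorem Contr.prod {I J : Type} [Fintype I] [Fintype J] {s : I → G} {t : J → G} {θ θ' : ℝ}
    (h : Contr s θ) (h' : Contr t θ') (h0 : 0 ≤ θ) (h0' : 0 ≤ θ') :
    Contr (fun p : I × J => s p.1 * t p.2) (θ * θ') := by
  intro g hg
  rw [cv_prod, cv_prod', Fintype.card_prod]
  push_cast
  constructor
  · refine (h _ (hg.cv t)).1.trans ((mul_le_mul_of_nonneg_left (h' g hg).1 (by positivity)).trans
      (le_of_eq (by ring)))
  · refine (h' _ (hg.cv _)).2.trans ((mul_le_mul_of_nonneg_left (h g hg).2 (by positivity)).trans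
      (le_of_eq (by ring)))

theorem exists_contr (hG : ¬ Folner G) {θ : ℝ} (hθ : 0 < θ) :
    ∃ (I : Type) (_ : Fintype I) (_ : Nonempty I) (s : I → G), Contr s θ := by
  obtain ⟨I, _, _, s, θ0, h0, h1, h⟩ := contr_base hG
  have hk : ∀ k : ℕ, ∃ (I : Type) (_ : Fintype I) (_ : Nonempty I) (s : I → G),
      Contr s (θ0 ^ (k + 1)) := by
    intro k
    induction k with
    | zero => exact ⟨I, inferInstance, inferInstance, s, by simpa using h⟩
    | succ k ih =>
      obtain ⟨J, _, _, t, ht⟩ := ih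
      exact ⟨J × I, inferInstance, inferInstance, _, ht.prod h (by positivity) h0⟩
  obtain ⟨k, hk'⟩ := exists_pow_lt_of_lt_one hθ h1
  obtain ⟨J, _, _, t, ht⟩ := hk k
  have h2 : θ0 ^ (k + 1) ≤ θ := by
    rw [pow_succ]
    nlinarith [pow_nonneg h0 k]
  refine ⟨J, inferInstance, inferInstance, t, fun g hg => ⟨(ht g hg).1.trans ?_, (ht g hg).2.trans ?_⟩⟩
  all_goals
    exact mul_le_mul_of_nonneg_right (mul_le_mul_of_nonneg_right h2 (by positivity)) (ip_nonneg _ _)

/-- number of double steps sequences of length `n` with a given product -/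
noncomputable def cnt {Q : Type} [Fintype Q] (s : Q → G) (n : ℕ) (x : G) : ℕ :=
  (Finset.univ.filter fun v : Fin n → Q × Q =>
    ((List.ofFn v).map fun q => s q.1 * (s q.2)⁻¹).prod = x).card

theorem cnt_succ {Q : Type} [Fintype Q] (s : Q → G) (n : ℕ) :
    cnt s (n + 1) = cv s (cv (fun a => (s a)⁻¹) (cnt s n)) := by
  funext x
  rw [← cv_prod]
  simp only [cnt, cv, Finset.card_filter]
  rw [← (Fin.consEquiv fun _ : Fin (n + 1) => Q × Q).sum_comp, Fintype.sum_prod_type]
  refine Finset.sum_congr rfl fun q _ => Finset.sum_congr rfl fun v _ => ?_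
  simp only [Fin.consEquiv_apply, List.ofFn_succ, Fin.cons_zero, Fin.cons_succ, List.map_cons,
    List.prod_cons, eq_inv_mul_iff_mul_eq]

theorem cnt_le {Q : Type} [Fintype Q] {s : Q → G} {θ : ℝ} (h0 : 0 ≤ θ) (h : Contr s θ) (n : ℕ) :
    (cnt s n 1 : ℝ) ≤ (θ * (Fintype.card Q : ℝ) ^ 2) ^ n := by
  have key : FS (cnt s n) ∧ ip (cnt s n) (cnt s n) ≤ ((θ * (Fintype.card Q : ℝ) ^ 2) ^ n) ^ 2 := by
    induction n with
    | zero =>
      have e : ∀ x, cnt s 0 x = if x = 1 then 1 else 0 := by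
        intro x
        simp only [cnt, List.ofFn_zero, List.map_nil, List.prod_nil]
        split_ifs with hx
        · simp [hx]
        · simp [Ne.symm hx]
      refine ⟨(Set.finite_singleton 1).subset fun x hx => ?_, ?_⟩
      · by_contra hc
        exact hx (by rw [e, if_neg (show ¬ x = 1 from hc)])
      · rw [ip, tsum_eq_single 1 fun x hx => by simp [e, hx]]
        simp [e]
    | succ n ih =>
      rw [cnt_succ]
      refine ⟨(ih.1.cv _).cv _, (h _ (ih.1.cv _)).1.trans ?_⟩
      refine (mul_le_mul_of_nonneg_left ((h _ ih.1).2.trans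
        (mul_le_mul_of_nonneg_left ih.2 (by positivity))) (by positivity)).trans (le_of_eq ?_)
      ring
  refine (pow_le_pow_iff_left₀ (by positivity) (by positivity) two_ne_zero).1 (le_trans ?_ key.2)
  rw [sq]
  exact (key.1.summable fun x => (cnt s n x : ℝ)).le_tsum 1 fun _ _ => by positivity

theorem Contr.snd {I : Type} [Fintype I] {s : I → G} {θ : ℝ} (h : Contr s θ) (h0 : 0 ≤ θ)
    (D : Type) [Fintype D] : Contr (fun q : D × I => s q.2) θ := by
  have h1 : Contr (fun _ : D => (1 : G)) 1 := by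
    intro g hg
    have : ip (cv (fun _ : D => (1 : G)) g) (cv (fun _ : D => (1 : G)) g) ≤
        1 * (Fintype.card D : ℝ) ^ 2 * ip g g := by
      rw [ip_cv _ hg]
      simp [sh_one, sq, mul_assoc]
    simpa using this
  simpa using h1.prod h zero_le_one h0

end Pool.Agent.P.MP_95bcfc_an
end

-- part Pool.Agent.P.MP_95bcfc_an.Conf
section

set_option autoImplicit false
set_option linter.unusedSectionVars false
set_option linter.deprecated false

open MeasureTheory ProbabilityTheory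
open scoped ENNReal

namespace Pool.Agent.P.MP_95bcfc_an

/-- configurations -/
def Conf (G D I : Type) : Type := G × D → I

variable {G D I : Type} [Group G] [Countable G] [Fintype D] [Fintype I] [Nonempty I]
  [MeasurableSpace I] [DiscreteMeasurableSpace I]

instance : MeasurableSpace (Conf G D I) := inferInstanceAs (MeasurableSpace (G × D → I))

instance : MulAction G (Conf G D I) where
  smul g ω := fun p => ω (g⁻¹ * p.1, p.2)
  one_smul ω := by
    funext p
    change ω (1⁻¹ * p.1, p.2) = ω p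
    simp
  mul_smul g h ω := by
    funext p
    change ω ((g * h)⁻¹ * p.1, p.2) = ω (h⁻¹ * (g⁻¹ * p.1), p.2)
    simp [mul_assoc]

theorem Conf.smul_apply (g : G) (ω : Conf G D I) (x : G) (i : D) :
    (g • ω) (x, i) = ω (g⁻¹ * x, i) := rfl

theorem Conf.meas_eval (p : G × D) : Measurable fun ω : Conf G D I => ω p := measurable_pi_apply p

instance : MeasurableConstSMul G (Conf G D I) where
  measurable_const_smul _ := measurable_pi_lambda _ fun _ => Conf.meas_eval _

/-- the uniform product measure -/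
noncomputable def Conf.μ (G D I : Type) [Fintype I] [Nonempty I] [MeasurableSpace I] :
    Measure (Conf G D I) := Measure.infinitePi fun _ : G × D => uniformOn (Set.univ : Set I)

instance : IsProbabilityMeasure (Conf.μ G D I) :=
  inferInstanceAs (IsProbabilityMeasure
    (Measure.infinitePi fun _ : G × D => uniformOn (Set.univ : Set I)))

instance : SMulInvariantMeasure G (Conf G D I) (Conf.μ G D I) where
  measure_preimage_smul g s hs := by
    have h := Measure.infinitePi_map_piCongrLeft (X := fun _ : G × D => I)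
      (fun _ : G × D => uniformOn (Set.univ : Set I)) ((Equiv.mulLeft g).prodCongr (Equiv.refl D))
    have e : (fun ω : Conf G D I => g • ω) = MeasurableEquiv.piCongrLeft (fun _ : G × D => I)
        ((Equiv.mulLeft g).prodCongr (Equiv.refl D)) := by
      funext ω p
      rw [MeasurableEquiv.coe_piCongrLeft, Equiv.piCongrLeft_apply_eq_cast]
      rfl
    rw [← Measure.map_apply (measurable_const_smul g) hs, e]
    exact congrArg (fun m : Measure (G × D → I) => m s) h

/-- a function that depends on finitely many sites -/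
def Loc {β : Type} (f : Conf G D I → β) (F : Finset G) : Prop :=
  ∀ ω ω' : Conf G D I, (∀ x ∈ F, ∀ i, ω (x, i) = ω' (x, i)) → f ω = f ω'

theorem Loc.meas {β : Type} {f : Conf G D I → β} {F : Finset G} (h : Loc f F) (s : Set β) :
    MeasurableSet (f ⁻¹' s) := by
  let r : Conf G D I → (F × D → I) := fun ω p => ω (p.1, p.2)
  have hr : Measurable r := measurable_pi_lambda _ fun _ => Conf.meas_eval _
  have : f ⁻¹' s = r ⁻¹' (r '' (f ⁻¹' s)) := by
    ext ω
    refine ⟨fun hω => ⟨ω, hω, rfl⟩, ?_⟩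
    rintro ⟨ω', h1, h2⟩
    rw [Set.mem_preimage, ← h ω' ω fun x hx i => congrFun h2 (⟨x, hx⟩, i)]
    exact h1
  rw [this]
  exact hr (Set.toFinite _).measurableSet

theorem cyl_le (c : List ((G × D) × I)) (hc : (c.map Prod.fst).Nodup) :
    Conf.μ G D I {ω | ∀ a ∈ c, ω a.1 = a.2} ≤ ((Fintype.card I : ℝ≥0∞)⁻¹) ^ c.length := by
  classical
  rcases Set.eq_empty_or_nonempty {ω : Conf G D I | ∀ a ∈ c, ω a.1 = a.2} with h | ⟨ω0, h0⟩
  · rw [h]; simp
  · have h1 : {ω : Conf G D I | ∀ a ∈ c, ω a.1 = a.2} ⊆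
        Set.pi ((c.map Prod.fst).toFinset : Set (G × D)) fun p => {ω0 p} := by
      intro ω hω p hp
      simp only [List.coe_toFinset, List.mem_map, Set.mem_setOf_eq] at hp
      obtain ⟨a, ha, rfl⟩ := hp
      exact (hω a ha).trans (h0 a ha).symm
    refine (measure_mono h1).trans (le_of_eq ?_)
    have h2 := Measure.infinitePi_pi (fun _ : G × D => uniformOn (Set.univ : Set I))
      (s := (c.map Prod.fst).toFinset) (t := fun p => {ω0 p}) fun _ _ => measurableSet_singleton _
    refine h2.trans ?_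
    simp only [uniformOn_univ, Measure.count_singleton, one_div, Finset.prod_const]
    rw [List.toFinset_card_of_nodup hc, List.length_map]

/-- mass transport -/
theorem mass_transport {X J : Type} [MeasurableSpace X] [MulAction G X] [MeasurableConstSMul G X]
    (μ : Measure X) [SMulInvariantMeasure G X μ] [Fintype J]
    (A : G × D → G × J → Set X) (hA : ∀ p p', MeasurableSet (A p p'))
    (heq : ∀ y i j, A (1, i) (y, j) ⊆ (fun ω => y⁻¹ • ω) ⁻¹' A (y⁻¹, i) (1, j))
    (hinj : ∀ p q j ω, ω ∈ A p (1, j) → ω ∈ A q (1, j) → p = q)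
    (N : J → Set X) (hN : ∀ p j, A p (1, j) ⊆ N j) :
    ∑ i, μ (⋃ p', A (1, i) p') ≤ ∑ j, μ (N j) := by
  have h1 : ∀ i, μ (⋃ p', A (1, i) p') ≤ ∑ j, ∑' x, μ (A (x, i) (1, j)) := by
    intro i
    refine (measure_iUnion_le _).trans ?_
    rw [ENNReal.tsum_prod', ENNReal.tsum_comm, tsum_fintype]
    refine Finset.sum_le_sum fun j _ => ?_
    rw [← (Equiv.inv G).tsum_eq fun x => μ (A (x, i) (1, j))]
    refine ENNReal.tsum_le_tsum fun y => (measure_mono (heq y i j)).trans (le_of_eq ?_)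
    exact measure_preimage_smul μ _ _
  refine (Finset.sum_le_sum fun i _ => h1 i).trans ?_
  rw [Finset.sum_comm]
  refine Finset.sum_le_sum fun j _ => ?_
  rw [← tsum_fintype (L := SummationFilter.unconditional D), ENNReal.tsum_comm,
    ← ENNReal.tsum_prod' (f := fun p : G × D => μ (A p (1, j))), ← measure_iUnion ?_ fun p => hA _ _]
  · exact measure_mono (Set.iUnion_subset fun p => hN p j)
  · intro p q hpq
    exact Set.disjoint_left.2 fun ω h2 h3 => hpq (hinj p q j ω h2 h3)

/-- two reflections of a finite set whose product is a cyclic shift -/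
theorem exists_refl {Q : Type} (T : Finset Q) : ∃ (R : Fin 2 → Q → Q) (rk : Q → ℤ),
    (∀ m, ∀ q ∈ T, R m q ∈ T ∧ R m (R m q) = q) ∧
    ∀ q ∈ T, ∀ q' ∈ T, rk (R 0 (R 1 q)) ≠ rk q + 1 → rk (R 0 (R 1 q')) ≠ rk q' + 1 → q = q' := by
  classical
  let e := T.equivFin
  let r : Fin 2 → Fin T.card → Fin T.card := fun m a =>
    if m = 1 then ⟨T.card - 1 - a, by have := a.2; omega⟩
    else if h : a.1 = 0 then a else ⟨T.card - a, by have := a.2; omega⟩
  have hr : ∀ m a, r m (r m a) = a := by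
    intro m a
    have := a.2
    ext
    simp only [r]
    split_ifs <;> simp only at * <;> omega
  have hr2 : ∀ a, a.1 + 1 ≠ T.card → (r 0 (r 1 a)).1 = a.1 + 1 := by
    intro a ha
    have := a.2
    simp only [r, if_true, zero_ne_one, if_false]
    split_ifs <;> simp only at * <;> omega
  refine ⟨fun m q => if h : q ∈ T then (e.symm (r m (e ⟨q, h⟩)) : T) else q,
    fun q => if h : q ∈ T then ((e ⟨q, h⟩ : ℕ) : ℤ) else 0, fun m q hq => ?_,
    fun q hq q' hq' h1 h2 => ?_⟩
  · simp [hq, hr]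
  · simp only [hq, hq', dif_pos, Finset.coe_mem, Subtype.coe_eta, Equiv.apply_symm_apply] at h1 h2
    have h3 : (e ⟨q, hq⟩).1 + 1 = T.card := by
      by_contra hc
      exact h1 (by rw [hr2 _ hc]; simp)
    have h4 : (e ⟨q', hq'⟩).1 + 1 = T.card := by
      by_contra hc
      exact h2 (by rw [hr2 _ hc]; simp)
    have h5 : e ⟨q, hq⟩ = e ⟨q', hq'⟩ := Fin.ext (by omega)
    exact congrArg Subtype.val (e.injective h5)

/-- the points visited by a zigzag -/
def pts (s : I → G) : G → List ((D × I) × (D × I)) → List ((G × D) × I)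
  | _, [] => []
  | x, q :: l => ((x, q.1.1), q.1.2) :: ((x * s q.1.2 * (s q.2.2)⁻¹, q.2.1), q.2.2) ::
      pts s (x * s q.1.2 * (s q.2.2)⁻¹) l

theorem length_pts (s : I → G) (x : G) (l : List ((D × I) × (D × I))) :
    (pts s x l).length = 2 * l.length := by
  induction l generalizing x with
  | nil => rfl
  | cons q l ih => simp only [pts, List.length_cons, ih]; ring

theorem zigzag {F : Type} (s : I → G) (ω : Conf G D I) (Γ : LG (G ⊕ G) (G × D) F)
    (hs : ∀ p, Γ.src p = Sum.inl p.1) (ht : ∀ p, Γ.tgt p = Sum.inr (p.1 * s (ω p))) (n : ℕ) :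
    ∀ (l : List ((G × D) × Bool)) (x x' : G), l.length ≤ n → Γ.Walk (Sum.inl x) l (Sum.inl x') →
      ∃ z : List ((D × I) × (D × I)), (pts s x z).map Prod.fst = l.map Prod.fst ∧
        (∀ a ∈ pts s x z, ω a.1 = a.2) ∧
        x * (z.map fun q => s q.1.2 * (s q.2.2)⁻¹).prod = x' := by
  induction n with
  | zero =>
    intro l x x' hl hw
    rw [List.length_eq_zero_iff.1 (Nat.le_zero.1 hl)] at hw ⊢
    exact ⟨[], rfl, by simp [pts], by simpa using Sum.inl.inj hw⟩
  | succ n ih =>
    intro l x x' hl hw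
    match l, hl, hw with
    | [], _, hw => exact ⟨[], rfl, by simp [pts], by simpa using Sum.inl.inj hw⟩
    | [(p, b)], _, hw =>
      cases b
      · simp [LG.Walk, LG.hd, ht] at hw
      · simp [LG.Walk, LG.tl, ht] at hw
    | (p, b) :: (p', b') :: l, hl, hw =>
      cases b
      · simp [LG.Walk, LG.hd, ht] at hw
      · cases b'
        · simp only [LG.Walk, LG.hd, LG.tl, hs, ht, if_true, Sum.inl.injEq, Bool.false_eq_true,
            if_false, Sum.inr.injEq] at hw
          obtain ⟨rfl, h2, h3⟩ := hw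
          obtain ⟨z, h4, h5, h6⟩ := ih l p'.1 x' (by simp only [List.length_cons] at hl; omega) h3
          have e : p.1 * s (ω p) * (s (ω p'))⁻¹ = p'.1 := by rw [← h2]; simp
          refine ⟨((p.2, ω p), (p'.2, ω p')) :: z, ?_, ?_, ?_⟩
          · simp only [pts, e, List.map_cons, h4]
          · simp only [pts, e, List.mem_cons]
            rintro a (rfl | rfl | ha)
            · rfl
            · rfl
            · exact h5 a ha
          · simp only [List.map_cons, List.prod_cons, ← mul_assoc, e, h6]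
        · simp [LG.Walk, LG.hd, LG.tl, hs, ht] at hw

theorem nonbridge_le {F : Type} (s : I → G) (Γ : Conf G D I → LG (G ⊕ G) (G × D) F)
    (hs : ∀ ω p, (Γ ω).src p = Sum.inl p.1)
    (ht : ∀ ω p, (Γ ω).tgt p = Sum.inr (p.1 * s (ω p))) {θ : ℝ} (h0 : 0 ≤ θ) (hθ : Contr s θ)
    (h1 : θ * (Fintype.card D : ℝ) ^ 2 ≤ 1 / 2) (i : D) :
    Conf.μ G D I {ω | ¬ (Γ ω).Bridge (1, i)} ≤
      ENNReal.ofReal (2 * (θ * (Fintype.card D : ℝ) ^ 2)) := by
  classical
  set β := θ * (Fintype.card D : ℝ) ^ 2 with hβ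
  have hβ0 : 0 ≤ β := by positivity
  let V : (n : ℕ) → Finset (Fin n → (D × I) × (D × I)) := fun n => Finset.univ.filter fun v =>
    ((List.ofFn v).map fun q => s q.1.2 * (s q.2.2)⁻¹).prod = 1
  let E : List ((D × I) × (D × I)) → Set (Conf G D I) := fun z =>
    {ω | ((pts s 1 z).map Prod.fst).Nodup ∧ ∀ a ∈ pts s 1 z, ω a.1 = a.2}
  have hsub : {ω | ¬ (Γ ω).Bridge (1, i)} ⊆ ⋃ n, ⋃ v ∈ V (n + 1), E (List.ofFn v) := by
    intro ω hω
    simp only [Set.mem_setOf_eq, LG.Bridge, not_not] at hω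
    obtain ⟨l, h2, h3⟩ := hω
    obtain ⟨l', h4, h5, h6⟩ := h2.nodup
    have h7 : (Γ ω).Walk (Sum.inl 1) (((1, i), true) :: l') (Sum.inl 1) :=
      ⟨hs ω _, by rw [hs] at h4; exact h4⟩
    obtain ⟨z, h8, h9, h10⟩ := zigzag s ω (Γ ω) (hs ω) (ht ω) _ _ _ _ le_rfl h7
    have h11 : ((pts s 1 z).map Prod.fst).Nodup := by
      rw [h8, List.map_cons, List.nodup_cons]
      refine ⟨fun h => ?_, h5⟩
      obtain ⟨a, ha, e⟩ := List.mem_map.1 h
      exact h3 a (h6 a ha) e
    cases z with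
    | nil => simp [pts] at h8
    | cons q z =>
      refine Set.mem_iUnion.2 ⟨z.length, Set.mem_iUnion₂.2 ⟨(q :: z).get, ?_, ?_⟩⟩
      · simp only [V, Finset.mem_filter, Finset.mem_univ, true_and]
        have e := List.ofFn_get (q :: z)
        rw [one_mul] at h10
        exact (congrArg (fun l => (l.map fun q : (D × I) × (D × I) =>
          s q.1.2 * (s q.2.2)⁻¹).prod) e).trans h10
      · have e := List.ofFn_get (q :: z)
        exact (congrArg (fun l => ω ∈ E l) e).mpr ⟨h11, h9⟩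
  have hE : ∀ z, Conf.μ G D I (E z) ≤ ((Fintype.card I : ℝ≥0∞)⁻¹) ^ (2 * z.length) := by
    intro z
    by_cases h : ((pts s 1 z).map Prod.fst).Nodup
    · rw [← length_pts s 1 z]
      exact (measure_mono fun ω hω => hω.2).trans (cyl_le _ h)
    · rw [show E z = ∅ from Set.eq_empty_of_forall_notMem fun ω hω => h hω.1]
      simp
  have hI : (0 : ℝ) < Fintype.card I := by exact_mod_cast Fintype.card_pos
  have hn : ∀ n, Conf.μ G D I (⋃ v ∈ V n, E (List.ofFn v)) ≤ ENNReal.ofReal (β ^ n) := by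
    intro n
    refine (measure_biUnion_finset_le _ _).trans ((Finset.sum_le_sum fun v _ => hE _).trans ?_)
    have h2 : ((V n).card : ℝ) ≤ (θ * (Fintype.card (D × I) : ℝ) ^ 2) ^ n :=
      cnt_le h0 (hθ.snd h0 D) n
    simp only [List.length_ofFn, Finset.sum_const, nsmul_eq_mul]
    have e1 : ((Fintype.card I : ℝ≥0∞)⁻¹) = ENNReal.ofReal ((Fintype.card I : ℝ)⁻¹) := by
      rw [ENNReal.ofReal_inv_of_pos hI, ENNReal.ofReal_natCast]
    rw [e1, ← ENNReal.ofReal_pow (by positivity), ← ENNReal.ofReal_natCast,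
      ← ENNReal.ofReal_mul (by positivity)]
    refine ENNReal.ofReal_le_ofReal ((mul_le_mul_of_nonneg_right h2 (by positivity)).trans
      (le_of_eq ?_))
    rw [pow_mul, ← mul_pow, hβ, Fintype.card_prod]
    congr 1
    push_cast
    field_simp
  refine (measure_mono hsub).trans ((measure_iUnion_le _).trans
    ((ENNReal.tsum_le_tsum fun n => hn (n + 1)).trans ?_))
  have hs' : Summable fun n : ℕ => β ^ (n + 1) :=
    (summable_nat_add_iff 1).2 (summable_geometric_of_lt_one hβ0 (by linarith))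
  rw [← ENNReal.ofReal_tsum_of_nonneg (fun n => by positivity) hs']
  refine ENNReal.ofReal_le_ofReal ?_
  simp only [pow_succ]
  rw [tsum_mul_right, tsum_geometric_of_lt_one hβ0 (by linarith)]
  refine mul_le_mul_of_nonneg_right ?_ hβ0
  rw [inv_le_comm₀ (by linarith) (by norm_num)]
  linarith

end Pool.Agent.P.MP_95bcfc_an
end
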