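import Pool.Agent.K.MP_95bcfc_an.C1
import Pool.Agent.K.MP_95bcfc_an.C0
import Pool.Agent.P.MP_95bcfc_an.Proj.Stmt
import Mathlib

-- part Pool.Agent.P.MP_95bcfc_an.Proj.Hell
section

set_option autoImplicit false
set_option linter.unusedSectionVars false
set_option linter.deprecated false
set_option linter.style.haveILetI false

open scoped InnerProductSpace ComplexConjugate ENNReal
open MeasureTheory

namespace Pool.Agent.P.MP_95bcfc_an.Proj

open EM

variable {W X Λ : Type} [Group W] [Group Λ] [MeasurableSpace X] [MulAction W X]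
  [MeasurableConstSMul W X] (ν : Measure X) [IsProbabilityMeasure ν]

/-- the translate of the measure -/
noncomputable def nu (g : W) : Measure X := ν.map fun x => g • x

instance (g : W) : IsProbabilityMeasure (nu ν g) :=
  Measure.isProbabilityMeasure_map (measurable_const_smul g).aemeasurable

theorem nu_mul (h g : W) : nu ν (h * g) = (nu ν g).map fun x => h • x := by
  rw [nu, nu, Measure.map_map (measurable_const_smul h) (measurable_const_smul g)]
  congr 1
  funext x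
  exact mul_smul h g x

theorem nu_one : nu ν (1 : W) = ν := by simp [nu]

theorem exists_dom [Countable W] : ∃ m : Measure X, IsFiniteMeasure m ∧ (∀ g : W, nu ν g ≪ m) ∧
    ∀ h : W, (m.map fun x => h • x) ≪ m := by
  obtain ⟨c, hc, hs⟩ := ENNReal.exists_pos_sum_of_countable' one_ne_zero W
  have h1 : ∀ g : W, nu ν g ≪ Measure.sum fun g => c g • nu ν g := fun g =>
    Measure.absolutelyContinuous_sum_right g (Measure.absolutelyContinuous_smul (hc g).ne')
  refine ⟨Measure.sum fun g => c g • nu ν g, ⟨?_⟩, h1, fun h => ?_⟩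
  · rw [Measure.sum_apply _ MeasurableSet.univ]
    simpa using hs.trans ENNReal.one_lt_top
  · rw [Measure.map_sum (measurable_const_smul h).aemeasurable]
    refine Measure.absolutelyContinuous_sum_left fun g => ?_
    rw [Measure.map_smul, ← nu_mul]
    exact (h1 _).smul_left _

variable (m : Measure X) [IsFiniteMeasure m]

/-- the square root of the density -/
noncomputable def psi (g : W) (x : X) : ℝ := Real.sqrt ((nu ν g).rnDeriv m x).toReal

theorem meas_psi (g : W) : Measurable (psi ν m g) :=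
  (Measure.measurable_rnDeriv _ _).ennreal_toReal.sqrt

theorem psi_nonneg (g : W) (x : X) : 0 ≤ psi ν m g x := Real.sqrt_nonneg _

theorem psi_sq (g : W) (x : X) : psi ν m g x * psi ν m g x = ((nu ν g).rnDeriv m x).toReal :=
  Real.mul_self_sqrt ENNReal.toReal_nonneg

theorem int_psi (g g' : W) : Integrable (fun x => psi ν m g x * psi ν m g' x) m := by
  refine ((Measure.integrable_toReal_rnDeriv (μ := nu ν g) (ν := m)).add
    (Measure.integrable_toReal_rnDeriv (μ := nu ν g') (ν := m))).mono'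
    ((meas_psi ν m g).mul (meas_psi ν m g')).aestronglyMeasurable
    (Filter.Eventually.of_forall fun x => ?_)
  rw [Real.norm_of_nonneg (mul_nonneg (psi_nonneg ν m g x) (psi_nonneg ν m g' x)), Pi.add_apply,
    ← psi_sq, ← psi_sq]
  nlinarith [sq_nonneg (psi ν m g x - psi ν m g' x), psi_nonneg ν m g x, psi_nonneg ν m g' x]

variable {ν m}

theorem psi_inv (h1 : ∀ g : W, nu ν g ≪ m) (h2 : ∀ h : W, (m.map fun x => h • x) ≪ m)
    (h g g' : W) (F : X → ℂ) :
    ∫ x, (psi ν m (h * g) x * psi ν m (h * g') x) • F x ∂m =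
      ∫ x, (psi ν m g x * psi ν m g' x) • F (h • x) ∂m := by
  have he : MeasurableEmbedding fun x : X => h • x := measurableEmbedding_const_smul h
  set m' := m.map fun x => h • x with hm'
  have a1 : ∀ g : W, nu ν (h * g) ≪ m' := fun g => by
    rw [nu_mul]
    exact (h1 g).map he.measurable
  have a2 := integral_rnDeriv_smul (h2 h)
    (f := fun x => (psi ν m' (h * g) x * psi ν m' (h * g') x) • F x)
  rw [he.integral_map] at a2
  refine (integral_congr_ae ?_).trans (a2.trans (integral_congr_ae ?_))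
  · filter_upwards [Measure.rnDeriv_mul_rnDeriv (κ := m) (a1 g),
      Measure.rnDeriv_mul_rnDeriv (κ := m) (a1 g')] with x e1 e2
    rw [smul_smul, psi, psi, psi, psi, ← e1, ← e2, Pi.mul_apply, Pi.mul_apply, ENNReal.toReal_mul,
      ENNReal.toReal_mul, Real.sqrt_mul ENNReal.toReal_nonneg, Real.sqrt_mul ENNReal.toReal_nonneg]
    congr 1
    have := Real.mul_self_sqrt (ENNReal.toReal_nonneg (a := m'.rnDeriv m x))
    linear_combination (√((nu ν (h * g)).rnDeriv m' x).toReal *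
      √((nu ν (h * g')).rnDeriv m' x).toReal) * this
  · filter_upwards [he.rnDeriv_map (nu ν g) m, he.rnDeriv_map (nu ν g') m] with x e1 e2
    rw [psi, psi, psi, psi, nu_mul, nu_mul, e1, e2]

theorem aff_self (h1 : ∀ g : W, nu ν g ≪ m) (g : W) : ∫ x, psi ν m g x * psi ν m g x ∂m = 1 := by
  simp only [psi_sq]
  rw [Measure.integral_toReal_rnDeriv (h1 g), probReal_univ]

theorem aff_ge (h1 : ∀ g : W, nu ν g ≪ m) {g : W} {δ : ℝ}
    (hδ : ∀ P, MeasurableSet P → ν.real P ≤ (nu ν g).real P + δ) :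
    1 - δ ≤ ∫ x, psi ν m (1 : W) x * psi ν m g x ∂m := by
  set P := {x | psi ν m g x ≤ psi ν m (1 : W) x} with hP
  have hm : MeasurableSet P := measurableSet_le (meas_psi ν m g) (meas_psi ν m 1)
  rw [← integral_add_compl hm (int_psi ν m 1 g)]
  have a1 : (nu ν g).real P ≤ ∫ x in P, psi ν m (1 : W) x * psi ν m g x ∂m := by
    rw [← Measure.setIntegral_toReal_rnDeriv (h1 g)]
    refine setIntegral_mono_on Measure.integrable_toReal_rnDeriv.integrableOn
      (int_psi ν m 1 g).integrableOn hm fun x hx => ?_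
    rw [← psi_sq]
    exact mul_le_mul_of_nonneg_right hx (psi_nonneg ν m g x)
  have a2 : ν.real Pᶜ ≤ ∫ x in Pᶜ, psi ν m (1 : W) x * psi ν m g x ∂m := by
    rw [← nu_one (W := W) ν, ← Measure.setIntegral_toReal_rnDeriv (h1 1), nu_one]
    refine setIntegral_mono_on Measure.integrable_toReal_rnDeriv.integrableOn
      (int_psi ν m 1 g).integrableOn hm.compl fun x hx => ?_
    rw [← nu_one (W := W) ν, ← psi_sq, nu_one]
    exact mul_le_mul_of_nonneg_left (not_le.1 (show ¬ psi ν m g x ≤ psi ν m (1 : W) x from hx)).le (psi_nonneg ν m 1 x)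
  have a3 := probReal_add_probReal_compl (μ := ν) hm
  linarith [hδ P hm]

variable {L : Type} [NormedAddCommGroup L] [InnerProductSpace ℂ L] [CompleteSpace L]
  (S : Sys W W X) (σ : F2 →* unitary (L →L[ℂ] L))

variable (ν m) in
/-- the integrand of the kernel -/
noncomputable def kf (y y' : W × L) (x : X) : ℂ :=
  (psi ν m y.1 x * psi ν m y'.1 x) • S.κ σ x y.1 y'.1 y.2 y'.2

theorem int_kf (y y' : W × L) : Integrable (kf ν m S σ y y') m := by
  refine ((int_psi ν m y.1 y'.1).mul_const (‖y.2‖ * ‖y'.2‖)).mono'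
    (((meas_psi ν m _).mul (meas_psi ν m _)).smul (Sys.meas_κ σ _ _ _ _)).aestronglyMeasurable
    (Filter.Eventually.of_forall fun x => ?_)
  have h0 := mul_nonneg (psi_nonneg ν m y.1 x) (psi_nonneg ν m y'.1 x)
  rw [kf, norm_smul, Real.norm_of_nonneg h0]
  exact mul_le_mul_of_nonneg_left (Sys.norm_κ_le σ _ _ _ _ _) h0

theorem exists_rep (h1 : ∀ g : W, nu ν g ≪ m) (h2 : ∀ h : W, (m.map fun x => h • x) ≪ m)
    (ρ : Λ →* unitary (L →L[ℂ] L))
    (hc : ∀ g h, Commute (σ g : L →L[ℂ] L) (ρ h : L →L[ℂ] L)) :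
    ∃ (R : Rep (W × Λ)) (e : W × L → R.H),
      (∀ y y', ⟪e y, e y'⟫_ℂ = ∫ x, kf ν m S σ y y' x ∂m) ∧
      ∀ γ l g ξ, (R.π (γ, l) : R.H →L[ℂ] R.H) (e (g, ξ)) = e (γ * g, (ρ l : L →L[ℂ] L) ξ) := by
  classical
  letI act : MulAction (W × Λ) (W × L) :=
    { smul := fun p y => (p.1 * y.1, (ρ p.2 : L →L[ℂ] L) y.2)
      one_smul := fun y => by
        change ((1 : W × Λ).1 * y.1, (ρ (1 : W × Λ).2 : L →L[ℂ] L) y.2) = y
        simp
      mul_smul := fun g h y => by
        change ((g * h).1 * y.1, (ρ (g * h).2 : L →L[ℂ] L) y.2) =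
          (g.1 * (h.1 * y.1), (ρ g.2 : L →L[ℂ] L) ((ρ h.2 : L →L[ℂ] L) y.2))
        simp [mul_assoc] }
  have hact : ∀ (p : W × Λ) (y : W × L), p • y = (p.1 * y.1, (ρ p.2 : L →L[ℂ] L) y.2) :=
    fun _ _ => rfl
  obtain ⟨R, e, a1, a2, -⟩ := gns (Δ := W × Λ) (fun y y' => ∫ x, kf ν m S σ y y' x ∂m)
    (fun y y' => by
      rw [← integral_conj]
      refine integral_congr_ae (Filter.Eventually.of_forall fun x => ?_)
      obtain ⟨C, cl, φ, hp⟩ := Sys.κ_pot (S := S) σ x
      simp only [kf, hp, Complex.real_smul, map_mul, Complex.conj_ofReal]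
      by_cases h : cl y.1 = cl y'.1
      · rw [if_pos h, if_pos h.symm, inner_conj_symm, mul_comm (psi ν m y.1 x)]
      · rw [if_neg h, if_neg fun h' => h h'.symm]; simp)
    (fun s c => by
      have e1 : ∑ y ∈ s, ∑ y' ∈ s, conj (c y) * c y' * ∫ x, kf ν m S σ y y' x ∂m =
          ∫ x, ∑ y ∈ s, ∑ y' ∈ s, conj (c y) * c y' * kf ν m S σ y y' x ∂m := by
        rw [integral_finset_sum _ fun y _ => integrable_finset_sum _ fun y' _ =>
          (int_kf S σ y y').const_mul _]
        refine Finset.sum_congr rfl fun y _ => ?_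
        rw [integral_finset_sum _ fun y' _ => (int_kf S σ y y').const_mul _]
        exact Finset.sum_congr rfl fun y' _ => (integral_const_mul _ _).symm
      rw [e1]
      have e2 := integral_re (μ := m) (𝕜 := ℂ) (integrable_finset_sum s fun y _ =>
        integrable_finset_sum s fun y' _ => (int_kf (ν := ν) S σ y y').const_mul
          (conj (c y) * c y'))
      refine le_of_le_of_eq (integral_nonneg fun x => ?_) e2
      obtain ⟨C, cl, φ, hp⟩ := Sys.κ_pot (S := S) σ x
      refine (sum_class_nonneg s (fun y => cl y.1)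
        fun y => (c y * psi ν m y.1 x) • (σ (φ y.1) : L →L[ℂ] L) y.2).trans (le_of_eq ?_)
      change _ = Complex.re _
      congr 1
      refine Finset.sum_congr rfl fun y _ => Finset.sum_congr rfl fun y' _ => ?_
      rw [kf, hp, inner_smul_left, inner_smul_right, map_mul, Complex.conj_ofReal,
        Complex.real_smul]
      push_cast
      split_ifs <;> ring)
    (fun p y y' => by
      simp only [kf, hact]
      rw [psi_inv h1 h2]
      refine integral_congr_ae (Filter.Eventually.of_forall fun x => ?_)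
      simp only [Sys.κ_smul]
      congr 1
      simp only [Sys.κ]
      split_ifs with h
      · rw [← ContinuousLinearMap.mul_apply, (hc _ _).eq, ContinuousLinearMap.mul_apply,
          uni_inner_map]
      · rfl)
  exact ⟨R, e, a1, fun γ l g ξ => a2 (γ, l) (g, ξ)⟩

theorem int_kf_rel (h1 : ∀ g : W, nu ν g ≪ m) {g g' : W} {w : F2}
    (hr : ∀ᵐ x ∂(nu ν g'), S.Rel x g w g') (ξ ξ' : L) :
    ∫ x, kf ν m S σ (g, ξ) (g', ξ') x ∂m =
      ((∫ x, psi ν m g x * psi ν m g' x ∂m : ℝ) : ℂ) * ⟪ξ, (σ w : L →L[ℂ] L) ξ'⟫_ℂ := by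
  rw [← integral_complex_ofReal, ← integral_mul_const]
  rw [← Measure.withDensity_rnDeriv_eq _ _ (h1 g'),
    ae_withDensity_iff (Measure.measurable_rnDeriv _ _)] at hr
  refine integral_congr_ae ?_
  filter_upwards [hr] with x hx
  by_cases h0 : (nu ν g').rnDeriv m x = 0
  · simp [kf, psi, h0]
  · rw [kf, Sys.κ_of_rel σ (hx h0), Complex.real_smul]

/-- two group elements that act like free generators on an almost invariant measure -/
theorem nuc_of_hell [Countable W] (hN : Nuc W Λ)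
    (hyp : ∀ δ : ℝ, 0 < δ → ∃ (S : Sys W W X) (g : Fin 2 → W), ∀ k,
      (∀ᵐ x ∂(nu ν (g k)), S.Rel x 1 (FreeGroup.of k) (g k)) ∧
      ∀ P, MeasurableSet P → ν.real P ≤ (nu ν (g k)).real P + δ) : Nuc F2 Λ := by
  classical
  refine transfer2 hN fun L _ _ _ σ ρ hc δ hδ => ?_
  obtain ⟨S, g, hg⟩ := hyp (δ ^ 2 / 2) (by positivity)
  obtain ⟨m, _, h1, h2⟩ := exists_dom (W := W) ν
  obtain ⟨R, e, he, hU⟩ := exists_rep S σ h1 h2 ρ hc
  have hs : ∀ (a : W) ξ ξ', ⟪e (a, ξ), e (a, ξ')⟫_ℂ = ⟪ξ, ξ'⟫_ℂ := fun a ξ ξ' => by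
    rw [he, int_kf_rel S σ h1 (Filter.Eventually.of_forall fun x => Sys.rel_refl x a),
      aff_self h1]
    simp
  have hn : ∀ (a : W) ξ, ‖e (a, ξ)‖ = ‖ξ‖ := fun a ξ => by
    rw [@norm_eq_sqrt_re_inner ℂ, @norm_eq_sqrt_re_inner ℂ, hs]
  let π := R.π.comp (MonoidHom.inl W Λ)
  have hπ : ∀ γ a ξ, (π γ : R.H →L[ℂ] R.H) (e (a, ξ)) = e (γ * a, ξ) := fun γ a ξ => by
    simpa [π] using hU γ 1 a ξ
  obtain ⟨V, hV, hVn⟩ := exists_clm (H := HD Unit R.H)
    (fun ξ => WithLp.toLp 2 fun _ => e (1, ξ)) fun ξ η => by simp [PiLp.inner_apply, hs]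
  let w : Option (Fin 2) → W := fun k => k.elim 1 g
  have key : ∀ k ξ, ‖e (w k, ξ) - e (1, (σ (lab k) : L →L[ℂ] L) ξ)‖ ≤ δ * ‖ξ‖ := by
    intro k ξ
    cases k with
    | none => simp only [w, lab, Option.elim, map_one, OneMemClass.coe_one,
        ContinuousLinearMap.one_apply, sub_self, norm_zero]; positivity
    | some k =>
      refine (sq_le_sq₀ (norm_nonneg _) (by positivity)).1 ?_
      simp only [w, lab, Option.elim]
      rw [norm_sub_rev, @norm_sub_sq ℂ, hn, hn, uni_norm, he, int_kf_rel S σ h1 (hg k).1,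
        inner_self_eq_norm_sq_to_K, uni_norm]
      have a1 := mul_le_mul_of_nonneg_right (aff_ge h1 (hg k).2) (sq_nonneg ‖ξ‖)
      have a2 : RCLike.re ((((∫ x, psi ν m (1 : W) x * psi ν m (g k) x ∂m : ℝ) : ℂ)) *
          ((‖ξ‖ : ℝ) : ℂ) ^ 2) = (∫ x, psi ν m (1 : W) x * psi ν m (g k) x ∂m) * ‖ξ‖ ^ 2 := by
        rw [← Complex.ofReal_pow, ← Complex.ofReal_mul]
        exact Complex.ofReal_re _
      erw [a2]
      nlinarith
  have hT : ∀ (a : W) (R' : Rep W) (v : HD Unit R'.H) (i : Unit), evM (und R'.π)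
      (Matrix.of fun _ _ => MonoidAlgebra.single a 1) v i = (R'.π a : R'.H →L[ℂ] R'.H) (v ()) := by
    intro a R' v i
    simp [evM_apply]
  have hnorm : ∀ v : HD Unit R.H, ‖v‖ = ‖v ()‖ := fun v => by
    rw [PiLp.norm_eq_of_L2]
    simp
  refine ⟨Unit, inferInstance, inferInstance,
    fun k => Matrix.of fun _ _ => MonoidAlgebra.single (w k) 1,
    fun k => Matrix.of fun _ _ => MonoidAlgebra.single (w k)⁻¹ 1, ⟨R.H, π⟩,
    R.π.comp (MonoidHom.inr W Λ), V, V, fun a l => ?_, hVn, fun l ξ => ?_, fun k R' u v => ?_,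
    fun k ξ => ?_, fun k ξ => ?_⟩
  · change _ * _ = _ * _
    simp only [π, MonoidHom.comp_apply, ← Submonoid.coe_mul, ← MonoidHom.map_mul]
    simp
  · ext i
    rw [diag_apply, hV, hV]
    simpa using hU 1 l 1 ξ
  · simp only [PiLp.inner_apply, hT, Finset.univ_unique, Finset.sum_singleton, map_inv]
    rw [uni_inner, inv_inv]
  · rw [hnorm, PiLp.sub_apply, hT (w k) ⟨R.H, π⟩, hV, hV]
    simpa [hπ] using key k ξ
  · have := key k ((σ (lab k)⁻¹ : L →L[ℂ] L) ξ)
    rw [uni_norm, ← ContinuousLinearMap.mul_apply, ← Submonoid.coe_mul, ← MonoidHom.map_mul,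
      mul_inv_cancel, map_one, OneMemClass.coe_one, ContinuousLinearMap.one_apply] at this
    rw [hnorm, PiLp.sub_apply, hT (w k)⁻¹ ⟨R.H, π⟩, hV, hV, ← uni_norm (π (w k)), map_sub,
      norm_sub_rev]
    simpa only [hπ, mul_inv_cancel, mul_one] using this

end Pool.Agent.P.MP_95bcfc_an.Proj
end

-- part Pool.Agent.P.MP_95bcfc_an.Proj.Germ
section

set_option autoImplicit false
set_option linter.unusedSectionVars false
set_option linter.deprecated false
set_option linter.style.haveILetI false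

open scoped MatrixGroups Topology ENNReal NNReal
open MeasureTheory Filter Set

namespace Pool.Agent.P.MP_95bcfc_an.Proj

theorem det_eq (M : SL(2, ℝ)) : M 0 0 * M 1 1 - M 0 1 * M 1 0 = 1 := by
  have := M.det_coe
  rwa [Matrix.det_fin_two] at this

theorem sends_one (x : ℝ) : Sends 1 x x := by simp [Sends]

theorem sends_mul {M N : SL(2, ℝ)} {x y z : ℝ} (h : Sends M y z) (h' : Sends N x y) :
    Sends (M * N) x z := by
  simp only [Sends, Matrix.SpecialLinearGroup.coe_mul, Matrix.mul_apply, Fin.sum_univ_two] at *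
  linear_combination (N 1 0 * x + N 1 1) * h + (M 0 0 - z * M 1 0) * h'

theorem sends_inv {M : SL(2, ℝ)} {x y : ℝ} (h : Sends M x y) : Sends M⁻¹ y x := by
  simp only [Sends, Matrix.SpecialLinearGroup.coe_inv, Matrix.adjugate_fin_two, Matrix.of_apply,
    Matrix.cons_val', Matrix.cons_val_zero, Matrix.cons_val_one, Matrix.cons_val_fin_one] at *
  linear_combination (-1 : ℝ) * h

theorem sq_eq_one {M : SL(2, ℝ)} {x : ℝ} (h : ∀ᶠ z in 𝓝 x, Sends M z z) : M * M = 1 := by
  obtain ⟨ε, hε, h1⟩ := Metric.eventually_nhds_iff.1 h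
  have a0 := h1 (y := x) (by simpa using hε)
  have a1 := h1 (y := x + ε / 2) (by rw [Real.dist_eq, abs_lt]; constructor <;> linarith)
  have a2 := h1 (y := x - ε / 2) (by rw [Real.dist_eq, abs_lt]; constructor <;> linarith)
  simp only [Sends] at a0 a1 a2
  have c0 : M 1 0 = 0 := by
    have : M 1 0 * (ε * ε / 2) = 0 := by linear_combination a1 + a2 - 2 * a0
    exact (mul_eq_zero.1 this).resolve_right (by positivity)
  rw [c0] at a0 a1
  have c1 : M 1 1 = M 0 0 := by
    have : (M 1 1 - M 0 0) * (ε / 2) = 0 := by linear_combination a1 - a0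
    exact sub_eq_zero.1 ((mul_eq_zero.1 this).resolve_right (by positivity))
  have c2 : M 0 1 = 0 := by rw [c1] at a0; linear_combination -a0
  have hd := det_eq M
  rw [c0, c1, c2] at hd
  ext i j
  fin_cases i <;> fin_cases j <;>
    simp [Matrix.mul_apply, Fin.sum_univ_two, c0, c1, c2] <;> linarith

theorem exists_pot' {G F : Type} [Group F] (r : G → F → G → Prop) (h1 : ∀ g, r g 1 g)
    (h2 : ∀ g w g', r g w g' → r g' w⁻¹ g)
    (h3 : ∀ g w g' w' g'', r g w g' → r g' w' g'' → r g (w * w') g'')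
    (h4 : ∀ g w, r g w g → w = 1) : ∃ (C : Type) (cl : G → C) (φ : G → F), ∀ v w v',
      r v w v' ↔ cl v = cl v' ∧ w = (φ v)⁻¹ * φ v' := by
  let s : Setoid G := ⟨fun v v' => ∃ w, r v w v', fun v => ⟨1, h1 v⟩,
    fun ⟨_, h⟩ => ⟨_, h2 _ _ _ h⟩, fun ⟨_, h⟩ ⟨_, h'⟩ => ⟨_, h3 _ _ _ _ _ h h'⟩⟩
  have a1 : ∀ v, ∃ w, r (Quotient.mk s v).out w v := fun v => Quotient.mk_out (s := s) v
  choose φ hφ using a1
  refine ⟨Quotient s, Quotient.mk s, φ, fun v w v' => ⟨fun h => ?_, fun h => ?_⟩⟩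
  · have e : Quotient.mk s v = Quotient.mk s v' := Quotient.sound ⟨w, h⟩
    refine ⟨e, ?_⟩
    have a2 := h3 _ _ _ _ _ (hφ v) h
    rw [e] at a2
    have a3 := h4 _ _ (h3 _ _ _ _ _ a2 (h2 _ _ _ (hφ v')))
    rw [mul_inv_eq_one] at a3
    rw [← a3, inv_mul_cancel_left]
  · have a2 := h2 _ _ _ (hφ v)
    rw [h.1] at a2
    rw [h.2]
    exact h3 _ _ _ _ _ a2 (hφ v')

variable {W Λ : Type} [Group W] [Group Λ] (φ : W →* (ℝ ≃o ℝ))

/-- the action on the line -/
@[reducible] def act : MulAction W ℝ where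
  smul w x := φ w x
  one_smul x := by
    change φ 1 x = x
    simp
  mul_smul a b x := by
    change φ (a * b) x = φ a (φ b x)
    simp

theorem app_mul (a b : W) (x : ℝ) : φ (a * b) x = φ a (φ b x) := by simp

/-- the germ of `g⁻¹ g'` is the Moebius map of `w` -/
def Rel (M : F2 →* SL(2, ℝ)) (x : ℝ) (g : W) (w : F2) (g' : W) : Prop :=
  ∀ᶠ z in 𝓝 (φ g'⁻¹ x), Sends (M w) z (φ (g⁻¹ * g') z)

theorem tends (x : ℝ) (g g' : W) :
    Tendsto (φ (g⁻¹ * g')) (𝓝 (φ g'⁻¹ x)) (𝓝 (φ g⁻¹ x)) := by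
  have := (φ (g⁻¹ * g')).continuous.tendsto (φ g'⁻¹ x)
  rwa [← app_mul, mul_inv_cancel_right] at this

/-- the system of germs -/
noncomputable def sys (M : F2 →* SL(2, ℝ)) (hM : Function.Injective M) :
    @Sys W W ℝ _ _ _ (act φ) :=
  letI := act φ
  { q := MonoidHom.id W
    χ := fun _ => 1
    χ_norm := fun _ _ => by simp
    χ_one := rfl
    χ_mul := fun _ _ _ => by simp
    Rel := Rel φ M
    pot := fun x => exists_pot' (Rel φ M x)
      (fun g => Eventually.of_forall fun z => by simpa using sends_one z)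
      (fun g w g' h => ((tends φ x g' g).eventually h).mono fun z hz => by
        rw [← app_mul, mul_assoc, mul_inv_cancel_left, inv_mul_cancel, map_one] at hz
        rw [map_inv M]
        exact sends_inv hz)
      (fun g w g' w' g'' h h' => (((tends φ x g' g'').eventually h).and h').mono fun z hz => by
        have := sends_mul hz.1 hz.2
        rwa [← app_mul, mul_assoc, mul_inv_cancel_left, ← map_mul] at this)
      (fun g w h => by
        have h1 : M w * M w = 1 := sq_eq_one (h.mono fun z hz => by simpa using hz)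
        rw [← map_mul, ← map_one M] at h1
        exact (pow_eq_one_iff_left two_ne_zero).1 ((sq w).trans (hM h1)))
    rel_meas := fun g w g' => (φ g'⁻¹).continuous.measurable
      (isOpen_setOf_eventually_nhds (p := fun z => Sends (M w) z (φ (g⁻¹ * g') z))).measurableSet
    rel_smul := fun h x g w g' hr => by
      change ∀ᶠ z in 𝓝 (φ (h * g')⁻¹ (φ h x)), Sends (M w) z (φ ((h * g)⁻¹ * (h * g')) z)
      rw [← app_mul, show (h * g')⁻¹ * h = g'⁻¹ by group,
        show (h * g)⁻¹ * (h * g') = g⁻¹ * g' by group]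
      exact hr }

theorem vol_le {g : ℝ ≃o ℝ} {a b τ η : ℝ} (hτ : 0 ≤ τ) (hη : 0 ≤ η) (hab : a ≤ b)
    (h1 : ∀ x ∈ Icc a b, ∀ y ∈ Icc a b, |g x - g y| ≤ (1 + τ) * |x - y|)
    (h2 : g a ≤ a + η) (h3 : b - η ≤ g b) (P : Set ℝ) :
    volume.real (Icc a b ∩ P) ≤ volume.real (Icc a b ∩ g ⁻¹' P) + (τ * (b - a) + 2 * η) := by
  set E := Icc a b ∩ g ⁻¹' P with hE
  have hfin : volume E ≠ ∞ := ((measure_mono inter_subset_left).trans_lt measure_Icc_lt_top).ne
  have hl : LipschitzOnWith (⟨1 + τ, by linarith⟩ : ℝ≥0) g E :=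
    LipschitzOnWith.of_dist_le_mul fun x hx y hy => h1 x hx.1 y hy.1
  have a1 := hl.hausdorffMeasure_image_le zero_le_one
  rw [hausdorffMeasure_real, ENNReal.rpow_one] at a1
  have a2 : volume (g '' E) ≠ ∞ := (a1.trans_lt (ENNReal.mul_lt_top ENNReal.coe_lt_top hfin.lt_top)).ne
  have a3 : volume.real (g '' E) ≤ (1 + τ) * volume.real E := by
    have := ENNReal.toReal_mono (ENNReal.mul_ne_top ENNReal.coe_ne_top hfin) a1
    rwa [ENNReal.toReal_mul] at this
  have a4 : volume.real E ≤ b - a := by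
    rw [← Real.volume_real_Icc_of_le hab]
    exact measureReal_mono inter_subset_left measure_Icc_lt_top.ne
  have a5 : Icc a b ∩ P ⊆ g '' E ∪ (Icc a (a + η) ∪ Icc (b - η) b) := by
    rintro x ⟨hx, hP⟩
    by_cases b1 : x ≤ a + η
    · exact Or.inr (Or.inl ⟨hx.1, b1⟩)
    by_cases b2 : b - η ≤ x
    · exact Or.inr (Or.inr ⟨b2, hx.2⟩)
    refine Or.inl ⟨g.symm x, ⟨⟨?_, ?_⟩, by simpa using hP⟩, by simp⟩
    · exact g.le_symm_apply.2 (by linarith)
    · exact g.symm_apply_le.2 (by linarith)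
  have a6 := (measureReal_mono a5 (measure_union_ne_top a2 (measure_union_ne_top
    measure_Icc_lt_top.ne measure_Icc_lt_top.ne))).trans ((measureReal_union_le _ _).trans
      (add_le_add le_rfl (measureReal_union_le _ _)))
  rw [Real.volume_real_Icc_of_le (by linarith), Real.volume_real_Icc_of_le (by linarith)] at a6
  nlinarith

theorem close {M : SL(2, ℝ)} {R τ : ℝ} (hR : 0 ≤ R) (hτ : τ ≤ 1 / 4)
    (h : ∀ i j, |M i j - (1 : SL(2, ℝ)) i j| < τ / (R + 1)) :
    (∀ x y, |x| ≤ R → Sends M x y → |y - x| ≤ 2 * (τ * (R + 1))) ∧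
    ∀ x y x' y', |x| ≤ R → |x'| ≤ R → Sends M x y → Sends M x' y' →
      |y - y'| ≤ (1 + 4 * τ) * |x - x'| := by
  set ε := τ / (R + 1) with hε
  have e1 : ε * (R + 1) = τ := div_mul_cancel₀ _ (by linarith)
  have h00 : |M 0 0 - 1| < ε := by simpa using h 0 0
  have h01 : |M 0 1| < ε := by simpa using h 0 1
  have h10 : |M 1 0| < ε := by simpa using h 1 0
  have h11 : |M 1 1 - 1| < ε := by simpa using h 1 1
  have hε0 : 0 < ε := (abs_nonneg _).trans_lt h01
  have hτ0 : 0 < τ := by nlinarith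
  have hm : ∀ {p x : ℝ}, |p| < ε → |x| ≤ R → |p * x| ≤ ε * R := fun hp hx => by
    rw [abs_mul]
    exact mul_le_mul hp.le hx (abs_nonneg _) hε0.le
  have hd : ∀ x, |x| ≤ R → |M 1 0 * x + M 1 1 - 1| ≤ τ := fun x hx => by
    rw [add_sub_assoc]
    exact (abs_add_le _ _).trans (by linarith [hm h10 hx])
  refine ⟨fun x y hx hs => ?_, fun x y x' y' hx hx' hs hs' => ?_⟩
  · have a1 : (y - x) * (M 1 0 * x + M 1 1) =
        (M 0 0 - 1) * x + M 0 1 - (M 1 0 * x + M 1 1 - 1) * x := by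
      unfold Sends at hs
      linear_combination hs
    have a2 : |(y - x) * (M 1 0 * x + M 1 1)| ≤ τ * (R + 1) := by
      rw [a1]
      refine (abs_sub _ _).trans ((add_le_add (abs_add_le _ _) le_rfl).trans ?_)
      have := mul_le_mul (hd x hx) hx (abs_nonneg _) hτ0.le
      rw [← abs_mul] at this
      linarith [hm h00 hx]
    have a3 := abs_le.1 (hd x hx)
    rw [abs_mul, abs_of_pos (a := M 1 0 * x + M 1 1) (by linarith)] at a2
    nlinarith [abs_nonneg (y - x)]
  · have a1 : (y - y') * ((M 1 0 * x + M 1 1) * (M 1 0 * x' + M 1 1)) = x - x' := by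
      unfold Sends at hs hs'
      linear_combination (M 1 0 * x' + M 1 1) * hs - (M 1 0 * x + M 1 1) * hs' +
        (x - x') * det_eq M
    have a3 := abs_le.1 (hd x hx)
    have a4 := abs_le.1 (hd x' hx')
    have a5 : (1 - τ) * (1 - τ) ≤ (M 1 0 * x + M 1 1) * (M 1 0 * x' + M 1 1) :=
      mul_le_mul (by linarith) (by linarith) (by linarith) (by linarith)
    have a6 : 1 ≤ (1 + 4 * τ) * ((M 1 0 * x + M 1 1) * (M 1 0 * x' + M 1 1)) := by
      refine le_trans ?_ (mul_le_mul_of_nonneg_left a5 (by linarith))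
      nlinarith [mul_pos hτ0 hτ0, mul_pos hτ0 (mul_pos hτ0 hτ0)]
    rw [← a1, abs_mul, abs_of_pos (a := _ * _) (by nlinarith)]
    nlinarith [abs_nonneg (y - y')]

theorem nuc_of_act [Countable W] {a b : ℝ} (hab : a < b)
    (h : ∀ ε : ℝ, 0 < ε → ∃ M : Fin 2 → SL(2, ℝ), Function.Injective (FreeGroup.lift M) ∧ ∀ k,
      (∀ i j, |M k i j - (1 : SL(2, ℝ)) i j| < ε) ∧ ∃ g, ∀ x ∈ Icc a b, Sends (M k) x (φ g x))
    (hN : Nuc W Λ) : Nuc F2 Λ := by
  letI := act φ
  haveI : MeasurableConstSMul W ℝ := ⟨fun g => (φ g).continuous.measurable⟩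
  have hv : volume (Icc a b) ≠ 0 := by simpa using hab
  haveI := ProbabilityTheory.cond_isProbabilityMeasure_of_finite hv measure_Icc_lt_top.ne
  refine nuc_of_hell (X := ℝ) (ν := ProbabilityTheory.cond volume (Icc a b)) hN fun δ hδ => ?_
  set R := |a| + |b| with hR
  have hR0 : 0 ≤ R := by positivity
  have hba : 0 < b - a := by linarith
  set τ := min (1 / 4) (δ * (b - a) / (4 * (b - a) + 4 * (R + 1))) with hτ
  have hτ0 : 0 < τ := by positivity
  have hτ1 : τ * (4 * (b - a) + 4 * (R + 1)) ≤ δ * (b - a) :=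
    (le_div_iff₀ (by positivity)).1 (min_le_right _ _)
  obtain ⟨M, hM, hk⟩ := h (τ / (R + 1)) (by positivity)
  choose hc g hg using hk
  have hx : ∀ x ∈ Icc a b, |x| ≤ R := fun x hx => by
    rw [abs_le]
    constructor <;> linarith [hx.1, hx.2, neg_abs_le a, le_abs_self b, abs_nonneg a, abs_nonneg b]
  refine ⟨sys φ _ hM, g, fun k => ⟨?_, fun P hP => ?_⟩⟩
  · refine (ae_map_iff (measurable_const_smul _).aemeasurable
      ((sys φ _ hM).rel_meas _ _ _)).2 ?_
    have a1 : ∀ᵐ x ∂(ProbabilityTheory.cond volume (Icc a b)), x ∈ Ioo a b := by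
      refine Measure.ae_smul_measure ?_ _
      rw [← Measure.restrict_congr_set Ioo_ae_eq_Icc]
      exact ae_restrict_mem measurableSet_Ioo
    filter_upwards [a1] with x hx'
    change ∀ᶠ z in 𝓝 (φ (g k)⁻¹ (φ (g k) x)),
      Sends (FreeGroup.lift M (FreeGroup.of k)) z (φ (1⁻¹ * g k) z)
    rw [← app_mul, inv_mul_cancel, map_one, FreeGroup.lift_apply_of, inv_one, one_mul]
    filter_upwards [Icc_mem_nhds hx'.1 hx'.2] with z hz using hg k z hz
  · obtain ⟨c1, c2⟩ := close hR0 (min_le_left _ _) (hc k)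
    have ha : a ∈ Icc a b := left_mem_Icc.2 hab.le
    have hb : b ∈ Icc a b := right_mem_Icc.2 hab.le
    have a1 := vol_le (g := φ (g k)) (τ := 4 * τ) (η := 2 * (τ * (R + 1))) (by positivity)
      (by positivity) hab.le
      (fun x hx1 y hy => c2 _ _ _ _ (hx x hx1) (hx y hy) (hg k x hx1) (hg k y hy))
      (by linarith [(abs_le.1 (c1 _ _ (hx a ha) (hg k a ha))).2])
      (by linarith [(abs_le.1 (c1 _ _ (hx b hb) (hg k b hb))).1]) P
    have a2 : ∀ Q, (ProbabilityTheory.cond volume (Icc a b)).real Q =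
        (b - a)⁻¹ * volume.real (Icc a b ∩ Q) := fun Q => by
      rw [Measure.real, ProbabilityTheory.cond_apply measurableSet_Icc, ENNReal.toReal_mul,
        ENNReal.toReal_inv, Real.volume_Icc, ENNReal.toReal_ofReal hba.le, Measure.real]
    rw [nu, map_measureReal_apply (measurable_const_smul _) hP, a2, a2, inv_mul_le_iff₀ hba,
      mul_add, mul_inv_cancel_left₀ hba.ne']
    exact a1.trans (add_le_add le_rfl (by linarith))

theorem nuc_of_loc {G : Subgroup (ℝ ≃o ℝ)} (hG : LocallyFree G) (π : W →* G)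
    (hπ : Function.Surjective π) (hN : Nuc W Λ) : Nuc F2 Λ := by
  obtain ⟨a, b, hab, h⟩ := hG
  choose M hM hc g hg hs using fun n : ℕ => h (1 / (n + 1)) Nat.one_div_pos_of_nat
  choose w hw using fun p : ℕ × Fin 2 => hπ ⟨g p.1 p.2, hg _ _⟩
  haveI : Countable (FreeGroup.lift w).range := (Set.countable_range _).to_subtype
  refine nuc_of_act (G.subtype.comp (π.comp (FreeGroup.lift w).range.subtype)) hab
    (fun ε hε => ?_) (hN.subgroup _)
  obtain ⟨n, hn⟩ := exists_nat_one_div_lt hε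
  refine ⟨M n, hM n, fun k => ⟨fun i j => (hc n k i j).trans hn,
    ⟨w (n, k), FreeGroup.of (n, k), FreeGroup.lift_apply_of⟩, fun x hx => ?_⟩⟩
  simpa [hw] using hs n k x hx

theorem main_loc {Γ : Type} [Group Γ] {G : Subgroup (ℝ ≃o ℝ)} (hG : LocallyFree G)
    (S : Subgroup Γ) (π : S →* G) (hπ : Function.Surjective π) (hK : Kirchberg Γ) :
    Kirchberg (FreeGroup (Fin 2)) :=
  nuc_of_loc hG π hπ ((nuc_of_loc hG π hπ (Nuc.subgroup hK S)).symm.subgroup S)

end Pool.Agent.P.MP_95bcfc_an.Proj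
end

-- part Pool.Agent.P.MP_95bcfc_an.Proj.Free
section

set_option autoImplicit false
set_option linter.style.haveILetI false

open scoped MatrixGroups Matrix IntermediateField Pointwise
open Filter

namespace Pool.Agent.P.MP_95bcfc_an.Proj

/-- two matrices that tend to the identity with `z` -/
def pr2 {R : Type} [CommRing R] (z : R) : Fin 2 → SL(2, R) :=
  ![⟨!![1 + z * z, z; z, 1], by simp [Matrix.det_fin_two]⟩,
    ⟨!![1, z; z, 1 + z * z], by simp [Matrix.det_fin_two]⟩]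

theorem map_pr2 {R R' : Type} [CommRing R] [CommRing R'] (f : R →+* R') (z : R) :
    (Matrix.SpecialLinearGroup.map f).comp (FreeGroup.lift (pr2 z)) =
      FreeGroup.lift (pr2 (f z)) := by
  ext k i j
  simp only [MonoidHom.comp_apply, FreeGroup.lift_apply_of]
  change f (pr2 z k i j) = _
  fin_cases k <;> fin_cases i <;> fin_cases j <;> simp [pr2]

section PingPong

variable {K : Type} [Field K] (v : AbsoluteValue K ℝ)

theorem big {x y z : K} (h : v (x - z * y) ≤ v y) (hz : 3 ≤ v z) : 2 * v y ≤ v x := by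
  have h1 := v.sub_le_add x (x - z * y)
  rw [sub_sub_cancel, v.map_mul] at h1
  nlinarith [v.nonneg y]

theorem big' {x y z : K} (h : v (x + z * y) ≤ v y) (hz : 3 ≤ v z) : 2 * v y ≤ v x :=
  big v (z := -z) (by simpa using h) (by simpa using hz)

theorem sep {x y z : K} (h : v (x - z * y) < v y) (h' : v (x + z * y) ≤ v y)
    (hz : 2 ≤ v 2 * v z) : False := by
  have h1 := v.sub_le_add (x + z * y) (x - z * y)
  rw [show x + z * y - (x - z * y) = 2 * z * y by ring, v.map_mul, v.map_mul] at h1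
  nlinarith [v.nonneg y]

theorem ping {z : K} (h3 : 3 ≤ v z) (h2 : 2 ≤ v 2 * v z) :
    Function.Injective (FreeGroup.lift (pr2 z)) := by
  letI : MulAction SL(2, K) {p : Fin 2 → K // p ≠ 0} :=
    { smul := fun M p => ⟨M.1 *ᵥ p.1, fun h => p.2 (by
        have := congrArg (fun q => (M⁻¹).1 *ᵥ q) h
        simpa only [Matrix.mulVec_mulVec, ← Matrix.SpecialLinearGroup.coe_mul, inv_mul_cancel,
          Matrix.SpecialLinearGroup.coe_one, Matrix.one_mulVec, Matrix.mulVec_zero] using this)⟩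
      one_smul := fun p => Subtype.ext (Matrix.one_mulVec _)
      mul_smul := fun M N p => Subtype.ext (Matrix.mulVec_mulVec p.1 M.1 N.1).symm }
  have hs : ∀ (M : SL(2, K)) (p : {p : Fin 2 → K // p ≠ 0}) i,
      (M • p).1 i = M i 0 * p.1 0 + M i 1 * p.1 1 := fun M p i => by
    change (M.1 *ᵥ p.1) i = _
    simp [Matrix.mulVec, dotProduct, Fin.sum_univ_two]
  let X : Fin 2 → Set {p : Fin 2 → K // p ≠ 0} :=
    ![{p | v (p.1 0 - z * p.1 1) < v (p.1 1)}, {p | v (p.1 1 - z * p.1 0) < v (p.1 0)}]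
  let Y : Fin 2 → Set {p : Fin 2 → K // p ≠ 0} := fun i => {p | pr2 z i • p ∉ X i}
  have y0 : ∀ p ∈ Y 0, v (p.1 1 + z * p.1 0) ≤ v (p.1 0) := fun p hp => by
    have : ¬ v (((pr2 z 0 • p).1 0) - z * (pr2 z 0 • p).1 1) < v ((pr2 z 0 • p).1 1) := hp
    rw [hs, hs, not_lt, show (pr2 z 0 : SL(2, K)) 1 0 = z from rfl,
      show (pr2 z 0 : SL(2, K)) 1 1 = 1 from rfl, show (pr2 z 0 : SL(2, K)) 0 1 = z from rfl,
      show (pr2 z 0 : SL(2, K)) 0 0 = 1 + z * z from rfl] at this
    ring_nf at this ⊢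
    exact this
  have y1 : ∀ p ∈ Y 1, v (p.1 0 + z * p.1 1) ≤ v (p.1 1) := fun p hp => by
    have : ¬ v (((pr2 z 1 • p).1 1) - z * (pr2 z 1 • p).1 0) < v ((pr2 z 1 • p).1 0) := hp
    rw [hs, hs, not_lt, show (pr2 z 1 : SL(2, K)) 1 0 = z from rfl,
      show (pr2 z 1 : SL(2, K)) 0 0 = 1 from rfl, show (pr2 z 1 : SL(2, K)) 0 1 = z from rfl,
      show (pr2 z 1 : SL(2, K)) 1 1 = 1 + z * z from rfl] at this
    ring_nf at this ⊢
    exact this
  have x0 : ∀ p ∈ X 0, v (p.1 0 - z * p.1 1) < v (p.1 1) := fun p hp => hp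
  have x1 : ∀ p ∈ X 1, v (p.1 1 - z * p.1 0) < v (p.1 0) := fun p hp => hp
  have nz : ∀ p : {p : Fin 2 → K // p ≠ 0}, 2 * v (p.1 0) ≤ v (p.1 1) →
      2 * v (p.1 1) ≤ v (p.1 0) → False := fun p a b => p.2 (by
    have c0 := v.nonneg (p.1 0)
    have c1 := v.nonneg (p.1 1)
    funext i
    fin_cases i
    · exact v.eq_zero.1 (show v (p.1 0) = 0 by linarith)
    · exact v.eq_zero.1 (show v (p.1 1) = 0 by linarith))
  have pw : ∀ {Z : Fin 2 → Set {p : Fin 2 → K // p ≠ 0}}, Disjoint (Z 0) (Z 1) →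
      Pairwise (Function.onFun Disjoint Z) := fun h i j hij => by
    fin_cases i <;> fin_cases j
    · exact absurd rfl hij
    · exact h
    · exact h.symm
    · exact absurd rfl hij
  refine FreeGroup.injective_lift_of_ping_pong (pr2 z) X Y (fun i => ?_)
    (pw (Set.disjoint_left.2 fun p a b => nz p (big v (x1 p b).le h3) (big v (x0 p a).le h3)))
    (pw (Set.disjoint_left.2 fun p a b => nz p (big' v (y0 p a) h3) (big' v (y1 p b) h3)))
    (fun i j => Set.disjoint_left.2 fun p a b => ?_) (fun i => ?_) fun i => ?_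
  · fin_cases i
    · exact ⟨⟨![z, 1], fun h => by simpa using congrFun h 1⟩, by simp [X]⟩
    · exact ⟨⟨![1, z], fun h => by simpa using congrFun h 0⟩, by simp [X]⟩
  · fin_cases i <;> fin_cases j
    · exact nz p (big' v (y0 p b) h3) (big v (x0 p a).le h3)
    · exact sep v (x0 p a) (y1 p b) h2
    · exact sep v (x1 p a) (y0 p b) h2
    · exact nz p (big v (x1 p a).le h3) (big' v (y1 p b) h3)
  · rintro _ ⟨p, hp, rfl⟩
    exact not_not.1 hp
  · rintro _ ⟨p, hp, rfl⟩
    change pr2 z i • (pr2 z i)⁻¹ • p ∉ X i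
    rwa [smul_inv_smul]

theorem free_of_place {R : Type} [CommRing R] (ι : R →+* ℝ) (hι : Function.Injective ι)
    (φ : R →+* K) {x : R} (h1 : 1 < v (φ x)) (h2 : (2 : K) ≠ 0) :
    ∀ᶠ n in atTop, Function.Injective (FreeGroup.lift (pr2 (ι x ^ n))) := by
  have ht := tendsto_pow_atTop_atTop_of_one_lt h1
  have h0 : 0 < v 2 := v.pos h2
  filter_upwards [ht.eventually_ge_atTop 3, ht.eventually_ge_atTop (2 / v 2)] with n a b
  rw [← v.map_pow, ← map_pow] at a b
  have c := ping v a (by rwa [div_le_iff₀' h0] at b)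
  rw [← map_pr2] at c
  rw [← map_pow, ← map_pr2]
  refine Function.Injective.comp (g := Matrix.SpecialLinearGroup.map ι) (fun M N h => ?_)
    (Function.Injective.of_comp (f := Matrix.SpecialLinearGroup.map φ) c)
  ext i j
  exact hι (congrArg (fun A : SL(2, ℝ) => A i j) h)

end PingPong

open NumberField in
theorem free_pow {t : ℝ} (h0 : 0 < t) (h1 : t < 1) :
    ∀ᶠ n in atTop, Function.Injective (FreeGroup.lift (pr2 (t ^ n))) := by
  by_cases ht : IsAlgebraic ℚ t
  · haveI : NumberField ℚ⟮t⟯ :=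
      { to_finiteDimensional := IntermediateField.adjoin.finiteDimensional ht.isIntegral }
    set x := IntermediateField.AdjoinSimple.gen ℚ t with hx
    have hxt : algebraMap ℚ⟮t⟯ ℝ x = t := IntermediateField.AdjoinSimple.algebraMap_gen ℚ t
    have hx0 : x ≠ 0 := fun h => h0.ne' (by rw [← hxt, h, map_zero])
    have : ∃ v : AbsoluteValue ℚ⟮t⟯ ℝ, 1 < v x := by
      by_contra hc
      push Not at hc
      classical
      have hp := prod_abs_eq_one hx0
      let w0 : InfinitePlace ℚ⟮t⟯ := InfinitePlace.mk (Complex.ofRealHom.comp (algebraMap _ ℝ))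
      have a1 : w0 x = t := by
        rw [InfinitePlace.apply, RingHom.comp_apply, hxt]
        simpa using h0.le
      have a2 : ∏ w : InfinitePlace ℚ⟮t⟯, w x ^ w.mult < 1 := by
        rw [← Finset.mul_prod_erase _ _ (Finset.mem_univ w0), a1]
        exact mul_lt_one_of_nonneg_of_lt_one_left (by positivity)
          (pow_lt_one₀ h0.le h1 InfinitePlace.mult_pos.ne')
          (Finset.prod_le_one (fun w _ => by positivity) fun w _ =>
            pow_le_one₀ (apply_nonneg _ _) (hc w.1))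
      have a3 : 0 ≤ ∏ᶠ w : FinitePlace ℚ⟮t⟯, w x ∧ ∏ᶠ w : FinitePlace ℚ⟮t⟯, w x ≤ 1 :=
        finprod_induction (fun r : ℝ => 0 ≤ r ∧ r ≤ 1) ⟨zero_le_one, le_rfl⟩
          (fun a b ha hb => ⟨mul_nonneg ha.1 hb.1, mul_le_one₀ ha.2 hb.1 hb.2⟩)
          fun w => ⟨apply_nonneg _ _, hc w.1⟩
      exact (mul_lt_one_of_nonneg_of_lt_one_left (Finset.prod_nonneg fun w _ => by positivity)
        a2 a3.2).ne hp
    obtain ⟨v, hv⟩ := this
    have := free_of_place v (algebraMap ℚ⟮t⟯ ℝ) (RingHom.injective _) (RingHom.id _) (x := x) hv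
      two_ne_zero
    rwa [hxt] at this
  · have := free_of_place (K := ℝ) AbsoluteValue.abs (Polynomial.aeval (R := ℚ) t).toRingHom
      (transcendental_iff_injective.1 ht) (Polynomial.aeval (R := ℚ) (2 : ℝ)).toRingHom
      (x := Polynomial.X) (by simp) two_ne_zero
    simpa using this

end Pool.Agent.P.MP_95bcfc_an.Proj
end

-- part Pool.Agent.P.MP_95bcfc_an.Proj.Inst
section

set_option autoImplicit false

open scoped MatrixGroups Topology
open Filter Set

namespace Pool.Agent.P.MP_95bcfc_an.Proj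

theorem loc_of_pairs {G : Subgroup (ℝ ≃o ℝ)} {t : ℝ} (h0 : 0 < t) (h1 : t < 1) (Q : SL(2, ℝ))
    (h : ∀ n k, ∃ g ∈ G, ∀ x ∈ Icc (0 : ℝ) 1, Sends (Q⁻¹ * pr2 (t ^ n) k * Q) x (g x)) :
    LocallyFree G := by
  refine ⟨0, 1, one_pos, fun ε hε => ?_⟩
  have hc : ∀ k i j, ∀ᶠ n in atTop,
      |(Q⁻¹ * pr2 (t ^ n) k * Q) i j - (1 : SL(2, ℝ)) i j| < ε := fun k i j => by
    have c1 : Continuous fun z : ℝ => (Q⁻¹ * pr2 z k * Q) i j := by
      have : ∀ a b, Continuous fun z : ℝ => pr2 z k a b := fun a b => by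
        fin_cases k <;> fin_cases a <;> fin_cases b <;> simp [pr2] <;> fun_prop
      simp only [Matrix.SpecialLinearGroup.coe_mul, Matrix.mul_apply, Fin.sum_univ_two]
      fun_prop
    have c2 : pr2 (0 : ℝ) k = 1 := by
      ext a b
      fin_cases k <;> fin_cases a <;> fin_cases b <;> simp [pr2]
    have c3 := (c1.tendsto 0).comp (tendsto_pow_atTop_nhds_zero_of_lt_one h0.le h1)
    rw [c2, mul_one, inv_mul_cancel] at c3
    exact (Metric.tendsto_nhds.1 c3 ε hε).mono fun n hn => by rwa [Real.dist_eq] at hn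
  obtain ⟨n, a, b⟩ := ((free_pow h0 h1).and (eventually_all.2 fun k => eventually_all.2 fun i =>
    eventually_all.2 fun j => hc k i j)).exists
  refine ⟨fun k => Q⁻¹ * pr2 (t ^ n) k * Q, ?_, fun k => ⟨b k, h n k⟩⟩
  have : FreeGroup.lift (fun k => Q⁻¹ * pr2 (t ^ n) k * Q) =
      (MulAut.conj Q⁻¹).toMonoidHom.comp (FreeGroup.lift (pr2 (t ^ n))) := by
    refine FreeGroup.ext_hom _ _ fun k => ?_
    simp
  rw [this]
  exact (MulAut.conj Q⁻¹).injective.comp a

theorem glue (u w : ℝ ≃o ℝ) {α β γ δ p q : ℝ} (hpq : p ≤ q) (hd : β * γ < α * δ)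
    (h1 : 0 < γ * p + δ) (h2 : 0 < γ * q + δ) (hp : u p * (γ * p + δ) = α * p + β)
    (hq : w q * (γ * q + δ) = α * q + β) : ∃ g : ℝ ≃o ℝ, (∀ x, x ≤ p → g x = u x) ∧
      (∀ x ∈ Icc p q, g x = (α * x + β) / (γ * x + δ)) ∧ ∀ x, q ≤ x → g x = w x := by
  have pos : ∀ x ∈ Icc p q, 0 < γ * x + δ := fun x hx => by
    rcases le_total 0 γ with c | c <;> nlinarith [hx.1, hx.2]
  let f : ℝ → ℝ := fun x => if x ≤ p then u x else if x ≤ q then (α * x + β) / (γ * x + δ) else w x
  have f1 : ∀ x, x ≤ p → f x = u x := fun x hx => if_pos hx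
  have f2 : ∀ x ∈ Icc p q, f x = (α * x + β) / (γ * x + δ) := fun x hx => by
    rcases hx.1.eq_or_lt with rfl | c
    · rw [f1 _ le_rfl, eq_div_iff h1.ne', hp]
    · exact (if_neg c.not_ge).trans (if_pos hx.2)
  have f3 : ∀ x, q ≤ x → f x = w x := fun x hx => by
    rcases hx.eq_or_lt with rfl | c
    · rw [f2 _ ⟨hpq, le_rfl⟩, div_eq_iff h2.ne', hq]
    · exact (if_neg (hpq.trans_lt c).not_ge).trans (if_neg c.not_ge)
  have m : StrictMono f := by
    refine StrictMonoOn.Iic_union_Ici (a := p) (fun x hx y hy c => ?_) ?_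
    · rw [f1 x hx, f1 y hy]
      exact u.strictMono c
    rw [← Icc_union_Ici_eq_Ici hpq]
    refine StrictMonoOn.union (c := q) (fun x hx y hy c => ?_) (fun x hx y hy c => ?_)
      (isGreatest_Icc hpq) isLeast_Ici
    · rw [f2 x hx, f2 y hy, div_lt_div_iff₀ (pos x hx) (pos y hy)]
      nlinarith [mul_pos (sub_pos.2 c) (sub_pos.2 hd)]
    · rw [f3 x hx, f3 y hy]
      exact w.strictMono c
  refine ⟨m.orderIsoOfSurjective f fun y => ?_, f1, f2, f3⟩
  by_cases a : y ≤ u p
  · exact ⟨u.symm y, by rw [f1 _ (u.symm_apply_le.2 a), u.apply_symm_apply]⟩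
  by_cases b : w q ≤ y
  · exact ⟨w.symm y, by rw [f3 _ (w.le_symm_apply.2 b), w.apply_symm_apply]⟩
  have c : ContinuousOn f (Icc p q) := ContinuousOn.congr
    (ContinuousOn.div (by fun_prop) (by fun_prop) fun x hx => (pos x hx).ne') f2
  obtain ⟨x, -, hx⟩ := intermediate_value_Icc hpq c (a := p) (b := q)
    (show y ∈ Icc (f p) (f q) from ⟨by rw [f1 _ le_rfl]; linarith, by rw [f3 _ le_rfl]; linarith⟩)
  exact ⟨x, hx⟩

/-- upper triangular unipotent matrices -/
def up (z : ℝ) : SL(2, ℝ) := ⟨!![1, z; 0, 1], by simp [Matrix.det_fin_two]⟩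

/-- lower triangular unipotent matrices -/
def lo (z : ℝ) : SL(2, ℝ) := ⟨!![1, 0; z, 1], by simp [Matrix.det_fin_two]⟩

theorem sends_up (z x : ℝ) : Sends (up z) x (x + z) := by simp [Sends, up]

theorem mul_ap (M N : SL(2, ℝ)) (i j : Fin 2) : (M * N) i j = M i 0 * N 0 j + M i 1 * N 1 j := by
  simp only [Matrix.SpecialLinearGroup.coe_mul, Matrix.mul_apply, Fin.sum_univ_two]

theorem pr2_zero (z : ℝ) : pr2 z 0 = up z * lo z := by
  ext i j
  rw [mul_ap]
  fin_cases i <;> fin_cases j <;> simp [pr2, up, lo]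

theorem pr2_one (z : ℝ) : pr2 z 1 = lo z * up z := by
  ext i j
  rw [mul_ap]
  fin_cases i <;> fin_cases j <;> simp [pr2, up, lo, add_comm]

theorem monod_loc {A : Subring ℝ} (hA : A ≠ ⊥) : LocallyFree (Monod A) := by
  obtain ⟨a, ha, hb⟩ := SetLike.exists_of_lt hA.bot_lt
  have t0 : 0 < Int.fract a := (Int.fract_nonneg a).lt_of_ne' fun h =>
    hb (Subring.mem_bot.2 ⟨⌊a⌋, (sub_eq_zero.1 h).symm⟩)
  refine loc_of_pairs t0 (Int.fract_lt_one a) 1 fun n k => ?_
  have hz : Int.fract a ^ n ∈ A := pow_mem (sub_mem ha (intCast_mem A _)) n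
  have z0 : 0 < Int.fract a ^ n := pow_pos t0 n
  have z1 : Int.fract a ^ n ≤ 1 := pow_le_one₀ t0.le (Int.fract_lt_one a).le
  generalize Int.fract a ^ n = z at hz z0 z1
  have e2 : (2 : ℝ) ∈ A := ofNat_mem A 2
  have eu : ∀ y ∈ A, EntriesIn A (up y) := fun y hy i j => by
    fin_cases i <;> fin_cases j <;> simp [up, hy]
  have el : EntriesIn A (lo z) := fun i j => by
    fin_cases i <;> fin_cases j <;> simp [lo, hz]
  have hu : OrderIso.addRight z ∈ Monod A := Subgroup.subset_closure ⟨∅, by simp,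
    fun x _ => ⟨up z, eu z hz, .of_forall (sends_up z)⟩,
    .inr ⟨up z, eu z hz, .of_forall (sends_up z)⟩⟩
  obtain ⟨s, s0, s2⟩ : ∃ s : ℝ, 0 ≤ s ∧ z * (s * s) = z + 2 :=
    ⟨√(1 + 2 / z), Real.sqrt_nonneg _, by
      rw [Real.mul_self_sqrt (by positivity)]
      field_simp⟩
  have s1 : 1 < s := by
    by_contra c
    nlinarith [mul_le_one₀ (not_lt.1 c) s0 (not_lt.1 c)]
  have s3 : 0 < z * (1 - s) + 1 := by
    by_contra c
    have : z + 1 ≤ z * s := by linarith
    nlinarith [mul_self_le_mul_self (by positivity) this]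
  obtain ⟨g, g1, g2, g3⟩ := glue (OrderIso.addRight (-2)) (OrderIso.addRight (-2))
    (α := 1) (β := 0) (γ := z) (δ := 1) (p := 1 - s) (q := 1 + s) (by linarith) (by simp) s3
    (by positivity) (by rw [OrderIso.addRight_apply]; linear_combination s2)
    (by rw [OrderIso.addRight_apply]; linear_combination s2)
  have g4 : ∀ x ∈ Icc (1 - s) (1 + s), Sends (lo z) x (g x) := fun x hx => by
    have : 0 < z * x + 1 := by nlinarith [hx.1]
    rw [Sends, g2 x hx]
    exact div_mul_cancel₀ _ this.ne'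
  have g5 : ∀ x ∈ (Icc (1 - s) (1 + s))ᶜ, Sends (up (-2)) x (g x) := fun x hx => by
    rcases not_and_or.1 hx with c | c
    · rw [g1 x (not_le.1 c).le]
      exact sends_up _ _
    · rw [g3 x (not_le.1 c).le]
      exact sends_up _ _
  have hg : g ∈ Monod A := by
    refine Subgroup.subset_closure ⟨{1 - s, 1 + s}, fun x hx => ⟨up 2 * lo z, fun i j => ?_, ?_,
      ?_⟩, fun x hx => ?_,
      .inr ⟨_, eu _ (neg_mem e2), mem_of_superset isCompact_Icc.compl_mem_cocompact g5⟩⟩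
    · rw [mul_ap]
      exact add_mem (mul_mem (eu _ e2 _ _) (el _ _)) (mul_mem (eu _ e2 _ _) (el _ _))
    · rw [Hyperbolic, mul_ap, mul_ap, lt_abs]
      left
      simp [up, lo]
      linarith
    · simp only [Sends, mul_ap]
      simp [up, lo]
      simp only [Finset.mem_insert, Finset.mem_singleton] at hx
      rcases hx with rfl | rfl <;> linear_combination s2
    · simp only [Finset.mem_insert, Finset.mem_singleton, not_or] at hx
      by_cases c : x ∈ Icc (1 - s) (1 + s)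
      · exact ⟨_, el, mem_of_superset
          (Icc_mem_nhds (c.1.lt_of_ne' hx.1) (c.2.lt_of_ne hx.2)) g4⟩
      · exact ⟨_, eu _ (neg_mem e2),
          mem_of_superset (isClosed_Icc.isOpen_compl.mem_nhds c) g5⟩
  rw [inv_one, one_mul, mul_one]
  fin_cases k
  · exact ⟨_, mul_mem hu hg, fun x hx => (pr2_zero z).symm ▸
      sends_mul (sends_up z _) (g4 x ⟨by linarith [hx.1], by linarith [hx.2]⟩)⟩
  · exact ⟨_, mul_mem hg hu, fun x hx => (pr2_one z).symm ▸
      sends_mul (g4 (x + z) ⟨by linarith [hx.1], by linarith [hx.2]⟩) (sends_up z _)⟩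

/-- an element of the Lodha-Moore group maps the unit interval into itself by a Moebius map -/
def Re (α β γ δ : ℝ) : Prop := ∃ g ∈ LodhaMoore, ∀ x ∈ Icc (0 : ℝ) 1,
  g x ∈ Icc (0 : ℝ) 1 ∧ g x * (γ * x + δ) = α * x + β

theorem Re.mul {α β γ δ α' β' γ' δ' c a b e d : ℝ} (h : Re α β γ δ) (h' : Re α' β' γ' δ')
    (hc : c ≠ 0) (h1 : α * α' + β * γ' = c * a) (h2 : α * β' + β * δ' = c * b)
    (h3 : γ * α' + δ * γ' = c * e) (h4 : γ * β' + δ * δ' = c * d) : Re a b e d := by
  obtain ⟨g, hg, k⟩ := h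
  obtain ⟨g', hg', k'⟩ := h'
  refine ⟨_, mul_mem hg hg', fun x hx => ⟨(k _ (k' x hx).1).1, mul_left_cancel₀ hc ?_⟩⟩
  have a1 := (k _ (k' x hx).1).2
  have a2 := (k' x hx).2
  change c * (g (g' x) * _) = _
  linear_combination (γ' * x + δ') * a1 + (α - g (g' x) * γ) * a2 + x * h1 + h2 -
    g (g' x) * x * h3 - g (g' x) * h4

theorem re_base : Re 2 0 1 1 ∧ Re 1 0 (-1) 2 ∧ Re 1 0 1 1 ∧ Re 0 1 (-1) 2 := by
  obtain ⟨c, c1, c2, c3⟩ := glue (OrderIso.refl ℝ) (OrderIso.refl ℝ) (α := 2) (β := 0) (γ := 1)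
    (δ := 1) (p := 0) (q := 1) (by norm_num) (by norm_num) (by norm_num) (by norm_num) (by simp)
    (by norm_num)
  obtain ⟨e, e1, e2, e3⟩ := glue (OrderIso.refl ℝ) (OrderIso.addRight (1 / 2)) (α := 1) (β := 0)
    (γ := -1) (δ := 1) (p := 0) (q := 1 / 2) (by norm_num) (by norm_num) (by norm_num)
    (by norm_num) (by simp) (by norm_num)
  obtain ⟨b, b1, b2, b3⟩ := glue e (OrderIso.addRight 1) (α := 3) (β := -1)
    (γ := 1) (δ := 0) (p := 1 / 2) (q := 1) (by norm_num) (by norm_num) (by norm_num)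
    (by norm_num) (by rw [e3 _ le_rfl]; norm_num) (by norm_num)
  have hc : c ∈ LodhaMoore := Subgroup.subset_closure (.inr (.inr fun t => by
    unfold lmC
    split_ifs with h
    · rw [c2 t h]
      ring
    · rcases not_and_or.1 h with h | h
      · exact c1 t (not_le.1 h).le
      · exact c3 t (not_le.1 h).le))
  have hb : b ∈ LodhaMoore := Subgroup.subset_closure (.inr (.inl fun t => by
    unfold lmB
    split_ifs with h h' h''
    · rw [b1 t (by linarith), e1 t h]
      rfl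
    · rw [b1 t h', e2 t ⟨by linarith, h'⟩]
      ring
    · rw [b2 t ⟨by linarith, h''⟩]
      have : t ≠ 0 := fun c => h c.le
      rw [one_mul, add_zero]
      field_simp
      ring
    · exact b3 t (by linarith)))
  have ha : OrderIso.addRight (1 : ℝ) ∈ LodhaMoore := Subgroup.subset_closure (.inl fun _ => rfl)
  have inv : ∀ (g : ℝ ≃o ℝ) (x y : ℝ), g y = x → g⁻¹ x = y := fun g x y h => by
    rw [← h]
    exact g.symm_apply_apply y
  refine ⟨⟨c, hc, fun x hx => ?_⟩, ⟨_, inv_mem hc, fun x hx => ?_⟩, ⟨_, inv_mem hb, fun x hx => ?_⟩,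
    ⟨_, mul_mem (inv_mem hb) ha, fun x hx => ?_⟩⟩ <;> obtain ⟨x0, x1⟩ := id hx
  · rw [c2 x hx]
    exact ⟨⟨by positivity, (div_le_one (by positivity)).2 (by linarith)⟩,
      div_mul_cancel₀ _ (by positivity)⟩
  · have p : 0 < 2 - x := by linarith
    have m : x / (2 - x) ∈ Icc (0 : ℝ) 1 := ⟨by positivity, (div_le_one p).2 (by linarith)⟩
    rw [inv c x _ (by rw [c2 _ m]; field_simp; ring)]
    exact ⟨m, by field_simp; ring⟩
  · have m : x / (1 + x) ∈ Icc (0 : ℝ) (1 / 2) :=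
      ⟨by positivity, (div_le_iff₀ (by positivity)).2 (by linarith)⟩
    rw [inv b x _ (by rw [b1 _ m.2, e2 _ m]; field_simp; ring)]
    exact ⟨⟨m.1, by linarith [m.2]⟩, by field_simp; ring⟩
  · have p : 0 < 2 - x := by linarith
    have m : 1 / (2 - x) ∈ Icc (1 / 2 : ℝ) 1 :=
      ⟨one_div_le_one_div_of_le p (by linarith), (div_le_one p).2 (by linarith)⟩
    change b⁻¹ (x + 1) ∈ _ ∧ b⁻¹ (x + 1) * _ = _
    rw [inv b (x + 1) _ (by rw [b2 _ m]; field_simp; ring)]
    exact ⟨⟨by linarith [m.1], m.2⟩, by field_simp; ring⟩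

theorem lm_loc : LocallyFree LodhaMoore := by
  obtain ⟨c, c', v, u⟩ := re_base
  have key : ∀ n : ℕ, Re 1 0 ((1 / 2) ^ n) 1 ∧
      Re (1 - (1 / 2) ^ n) ((1 / 2) ^ n) (-(1 / 2) ^ n) (1 + (1 / 2) ^ n) := fun n => by
    induction n with
    | zero => exact ⟨by simpa using v, by simpa [one_add_one_eq_two] using u⟩
    | succ n ih =>
      rw [pow_succ]
      generalize (1 / 2 : ℝ) ^ n = z at ih
      exact ⟨(c.mul ih.1 one_ne_zero (one_mul _).symm (one_mul _).symm (one_mul _).symm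
          (one_mul _).symm).mul c' two_ne_zero (by ring) (by ring) (by ring) (by ring),
        (c'.mul ih.2 one_ne_zero (one_mul _).symm (one_mul _).symm (one_mul _).symm
          (one_mul _).symm).mul c two_ne_zero (by ring) (by ring) (by ring) (by ring)⟩
  refine loc_of_pairs (t := 1 / 2) (by norm_num) (by norm_num) (lo (-1)) fun n k => ?_
  obtain ⟨v, u⟩ := key n
  generalize (1 / 2 : ℝ) ^ n = z at u v
  suffices h : Re (((lo (-1))⁻¹ * pr2 z k * lo (-1)) 0 0) (((lo (-1))⁻¹ * pr2 z k * lo (-1)) 0 1)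
      (((lo (-1))⁻¹ * pr2 z k * lo (-1)) 1 0) (((lo (-1))⁻¹ * pr2 z k * lo (-1)) 1 1) from
    h.imp fun g hg => ⟨hg.1, fun x hx => (hg.2 x hx).2⟩
  have e : (lo (-1))⁻¹ = lo 1 := inv_eq_of_mul_eq_one_right (by
    ext i j
    rw [mul_ap]
    fin_cases i <;> fin_cases j <;> simp [lo])
  simp only [e, mul_ap]
  fin_cases k
  · refine u.mul v one_ne_zero ?_ ?_ ?_ ?_ <;> simp [lo, pr2] <;> ring
  · refine v.mul u one_ne_zero ?_ ?_ ?_ ?_ <;> simp [lo, pr2] <;> ring

end Pool.Agent.P.MP_95bcfc_an.Proj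
end
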