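import Pool.Agent.P.MP_95bcfc_an.Dehn.Stmt
import Pool.Agent.K.MP_95bcfc_an.C2
import Pool.Agent.K.MP_95bcfc_an.C3

-- part Pool.Agent.P.MP_95bcfc_an.Dehn.Forest
section

set_option autoImplicit false
set_option linter.unusedSectionVars false
set_option linter.deprecated false
set_option linter.style.haveILetI false

open MeasureTheory ProbabilityTheory
open scoped ENNReal

namespace Pool.Agent.P.MP_95bcfc_an.Dehn

open EM

variable {G ι : Type} [Group G] [Countable G] [Fintype ι] [DecidableEq ι] {s : ι → G}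

theorem mk_ne_one {L : List (ι × Bool)} (h : FreeGroup.IsReduced L) (h0 : L ≠ []) :
    FreeGroup.mk L ≠ 1 := fun e => h0 (by
  have := congrArg FreeGroup.toWord e
  rwa [FreeGroup.toWord_mk, h.reduce_eq, FreeGroup.toWord_one] at this)

theorem red_sub {L M : List (ι × Bool)} (h : FreeGroup.IsReduced L) (h' : M <:+: L) :
    FreeGroup.IsReduced M := by
  obtain ⟨A, B, rfl⟩ := h'
  exact List.IsChain.right_of_append (List.IsChain.left_of_append h)

/-- a closed reduced walk contains a closed reduced walk without repeated edges -/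
theorem exists_nodup (A : G × ι → Prop) (n : ℕ) : ∀ (L : List (ι × Bool)) (g : G), L.length ≤ n →
    L ≠ [] → FreeGroup.IsReduced L → FreeGroup.lift s (FreeGroup.mk L) = 1 →
    (∀ e ∈ edges s g L, A e) → ∃ (L' : List (ι × Bool)) (g' : G), L' ≠ [] ∧
      FreeGroup.IsReduced L' ∧ FreeGroup.lift s (FreeGroup.mk L') = 1 ∧
      (∀ e ∈ edges s g' L', A e) ∧ (edges s g' L').Nodup := by
  induction n with
  | zero => intro L g hL h; exact absurd (List.length_eq_zero_iff.1 (Nat.le_zero.1 hL)) h
  | succ n ih =>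
    intro L g hL h0 hr h1 hA
    by_cases hn : (edges s g L).Nodup
    · exact ⟨L, g, h0, hr, h1, hA, hn⟩
    have key : ∀ (M : List (ι × Bool)) (g : G), ¬ (edges s g M).Nodup → ∃ L1 x L2 y L3,
        M = L1 ++ x :: (L2 ++ y :: L3) ∧
        edge s (g * FreeGroup.lift s (FreeGroup.mk L1) * st s x *
          FreeGroup.lift s (FreeGroup.mk L2)) y =
          edge s (g * FreeGroup.lift s (FreeGroup.mk L1)) x := by
      intro M
      induction M with
      | nil => intro g h; simp [edges] at h
      | cons x M ihM =>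
        intro g h
        rw [edges, List.nodup_cons, not_and_or, not_not] at h
        rcases h with h | h
        · obtain ⟨L2, y, L3, rfl, h2, -⟩ := edges_first h
          exact ⟨[], x, L2, y, L3, rfl, by simpa [← FreeGroup.one_eq_mk] using h2⟩
        · obtain ⟨L1, x', L2, y, L3, rfl, h2⟩ := ihM _ h
          refine ⟨x :: L1, x', L2, y, L3, rfl, ?_⟩
          rw [mk_cons, map_mul, ← mul_assoc]
          exact h2
    obtain ⟨L1, x, L2, y, L3, rfl, h2⟩ := key L g hn
    simp only [List.length_append, List.length_cons] at hL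
    set g1 := g * FreeGroup.lift s (FreeGroup.mk L1) with hg1
    have hsub : ∀ e ∈ edges s g1 (x :: L2), A e := fun e he => hA e (by
      rw [edges_append, ← List.cons_append, edges_append]
      exact List.mem_append_right _ (List.mem_append_left _ he))
    rcases edge_eq h2 with h3 | ⟨rfl, h3⟩
    · refine ih (x :: L2) g1 (by simp only [List.length_cons]; omega) (by simp)
        (red_sub hr ⟨L1, y :: L3, by simp⟩) ?_ hsub
      rw [mk_cons, map_mul]
      rw [mul_assoc] at h3
      exact mul_eq_left.1 h3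
    · have h4 : L2 ≠ [] := by
        rintro rfl
        have := red_sub hr (M := [x, (x.1, !x.2)]) ⟨L1, L3, by simp⟩
        simp [FreeGroup.IsReduced] at this
      exact ih L2 (g1 * st s x) (by omega) h4 (red_sub hr ⟨L1 ++ [x], (x.1, !x.2) :: L3, by simp⟩)
        (mul_eq_left.1 h3) fun e he => hsub e (List.mem_cons_of_mem _ he)

variable {I : Type} (o : I) (W : ℕ → Finset (List (ι × Bool)))

variable (s) in
/-- the edge lies on a fully open path without repeated edges that reads a forbidden word -/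
def Bad (ω : G × ι → I) (e : G × ι) : Prop :=
  ∃ l, ∃ u ∈ W l, ∃ g, e ∈ edges s g u ∧ (edges s g u).Nodup ∧ ∀ e' ∈ edges s g u, ω e' = o

open Classical in
variable (s) in
/-- the open edges that are not bad -/
noncomputable def thin (ω : G × ι → I) : G × ι → Bool := fun e => decide (ω e = o ∧ ¬ Bad s o W ω e)

theorem thin_iff {ω : G × ι → I} {e : G × ι} :
    thin s o W ω e = true ↔ ω e = o ∧ ¬ Bad s o W ω e := by simp [thin]

theorem thin_forest (hW : ∀ w : FreeGroup ι, w ≠ 1 → FreeGroup.lift s w = 1 →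
    ∃ l, 0 < l ∧ ∃ u ∈ W l, u <:+: w.toWord) (hl : ∀ l, ∀ u ∈ W l, u.length = l)
    (ω : G × ι → I) : IsForest s (thin s o W ω) := by
  intro g w hp h1
  by_contra hw
  obtain ⟨L, g', h0, hr, h2, hA, hn⟩ := exists_nodup (s := s) (fun e => thin s o W ω e = true) _
    w.toWord g le_rfl (fun e => hw (FreeGroup.toWord_eq_nil_iff.1 e)) FreeGroup.isReduced_toWord
    (by rwa [FreeGroup.mk_toWord]) (openPath_iff.1 hp)
  obtain ⟨l, hl0, u, hu, A, B, hAB⟩ := hW _ (mk_ne_one hr h0) h2
  rw [FreeGroup.toWord_mk, hr.reduce_eq] at hAB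
  subst hAB
  rw [edges_append, edges_append] at hA hn
  have hA' : ∀ e ∈ edges s (g' * FreeGroup.lift s (FreeGroup.mk A)) u, thin s o W ω e = true :=
    fun e he => hA e (List.mem_append_left _ (List.mem_append_right _ he))
  cases u with
  | nil => exact absurd (hl l _ hu) (by simpa using hl0.ne)
  | cons x u =>
    exact ((thin_iff o W).1 (hA' _ List.mem_cons_self)).2 ⟨l, _, hu, _, List.mem_cons_self,
      hn.of_append_left.of_append_right, fun e he => ((thin_iff o W).1 (hA' e he)).1⟩

theorem bad_shift (h : G) {ω : G × ι → I} {e : G × ι} (hb : Bad s o W ω e) :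
    Bad s o W (fun p => ω (h⁻¹ * p.1, p.2)) (h * e.1, e.2) := by
  obtain ⟨l, u, hu, g, h1, h2, h3⟩ := hb
  refine ⟨l, u, hu, h * g, ?_, ?_, ?_⟩ <;> rw [edges_mul]
  · exact List.mem_map_of_mem h1
  · refine h2.map fun a b hab => ?_
    simp only [Prod.mk.injEq, mul_right_inj] at hab
    exact Prod.ext hab.1 hab.2
  · intro e' he'
    obtain ⟨a, ha, rfl⟩ := List.mem_map.1 he'
    simpa using h3 a ha

theorem thin_shift (h : G) (ω : G × ι → I) :
    thin s o W (fun p => ω (h⁻¹ * p.1, p.2)) = shiftCfg h (thin s o W ω) := by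
  funext e
  rw [Bool.eq_iff_iff, shiftCfg, thin_iff, thin_iff]
  refine and_congr_right fun _ => not_congr ⟨fun hb => ?_, fun hb => ?_⟩
  · simpa using bad_shift o W h⁻¹ hb
  · simpa using bad_shift o W h hb

variable (s) in
/-- the start of the path that reads `u` and passes the edge `(1, i)` at step `j` -/
noncomputable def start (u : List (ι × Bool)) (j : ℕ) : G :=
  (match u[j]? with
    | some (i, false) => s i
    | _ => 1) * (FreeGroup.lift s (FreeGroup.mk (u.take j)))⁻¹

theorem bad_start {ω : G × ι → I} {i : ι} (hb : Bad s o W ω (1, i)) :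
    ∃ l, ∃ u ∈ W l, ∃ j < u.length, (u[j]?).map Prod.fst = some i ∧
      (edges s (start s u j) u).Nodup ∧ ∀ e' ∈ edges s (start s u j) u, ω e' = o := by
  obtain ⟨l, u, hu, g, h1, h2, h3⟩ := hb
  obtain ⟨L1, ⟨k, b⟩, L2, rfl, h4, -⟩ := edges_first h1
  have e1 : (L1 ++ (k, b) :: L2)[L1.length]? = some (k, b) := by simp
  have e2 : start s (L1 ++ (k, b) :: L2) L1.length = g := by
    rw [start, e1, List.take_left, mul_inv_eq_iff_eq_mul]
    cases b
    · simp only [edge, Bool.false_eq_true, if_false, Prod.mk.injEq] at h4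
      exact (mul_inv_eq_one.1 h4.1).symm
    · simp only [edge, if_true, Prod.mk.injEq] at h4
      exact h4.1.symm
  refine ⟨l, _, hu, L1.length, by simp, ?_, e2 ▸ h2, e2 ▸ h3⟩
  rw [e1]
  cases b <;> simp only [edge, Bool.false_eq_true, if_false, if_true, Prod.mk.injEq] at h4 <;>
    simp [h4.2]

theorem length_edges (g : G) (L : List (ι × Bool)) : (edges s g L).length = L.length := by
  induction L generalizing g with
  | nil => rfl
  | cons x L ih => simp [edges, ih]

variable [Fintype I] [Nonempty I] [MeasurableSpace I]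
  [DiscreteMeasurableSpace I]

theorem meas_open (e : G × ι) : MeasurableSet {ω : Conf G ι I | ω e = o} :=
  Conf.meas_eval e (measurableSet_singleton o)

theorem meas_bad (e : G × ι) : MeasurableSet {ω : Conf G ι I | Bad s o W ω e} := by
  simp only [Bad, Set.setOf_exists, Set.setOf_and]
  refine MeasurableSet.iUnion fun l => MeasurableSet.iUnion fun u => (MeasurableSet.const _).inter
    (MeasurableSet.iUnion fun g => (MeasurableSet.const _).inter ((MeasurableSet.const _).inter ?_))
  simp only [Set.setOf_forall]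
  exact MeasurableSet.iInter fun e' => MeasurableSet.iInter fun _ => meas_open o e'

theorem meas_thin : Measurable (fun ω : Conf G ι I => thin s o W ω) := by
  refine measurable_pi_lambda _ fun e => measurable_to_bool ?_
  have : (fun ω : Conf G ι I => thin s o W ω e) ⁻¹' {true} =
      {ω : Conf G ι I | ω e = o} ∩ {ω : Conf G ι I | Bad s o W ω e}ᶜ := by
    ext ω
    exact thin_iff o W
  rw [this]
  exact (meas_open o e).inter (meas_bad o W e).compl

theorem open_eq (e : G × ι) : Conf.μ G ι I {ω | ω e = o} = (Fintype.card I : ℝ≥0∞)⁻¹ := by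
  classical
  have h2 := Measure.infinitePi_pi (fun _ : G × ι => uniformOn (Set.univ : Set I))
    (s := {e}) (t := fun _ => {o}) fun _ _ => measurableSet_singleton _
  simp only [uniformOn_univ, Measure.count_singleton, one_div, Finset.prod_singleton] at h2
  rw [← h2]
  congr 1
  ext ω
  simp only [Finset.coe_singleton, Set.singleton_pi]
  rfl

theorem bad_le (hl : ∀ l, ∀ u ∈ W l, u.length = l) :
    ∑ i, Conf.μ G ι I {ω | Bad s o W ω (1, i)} ≤
      ∑' l : ℕ, ((W l).card * l : ℕ) * ((Fintype.card I : ℝ≥0∞)⁻¹) ^ l := by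
  classical
  let T : ℕ → ι → Finset (List (ι × Bool) × ℕ) := fun l i =>
    (W l ×ˢ Finset.range l).filter fun a => (a.1[a.2]?).map Prod.fst = some i
  have h1 : ∀ i, Conf.μ G ι I {ω | Bad s o W ω (1, i)} ≤
      ∑' l : ℕ, ((T l i).card : ℝ≥0∞) * ((Fintype.card I : ℝ≥0∞)⁻¹) ^ l := by
    intro i
    have h2 : {ω : Conf G ι I | Bad s o W ω (1, i)} ⊆ ⋃ l, ⋃ a ∈ T l i,
        {ω | (edges s (start s a.1 a.2) a.1).Nodup ∧
          ∀ e' ∈ edges s (start s a.1 a.2) a.1, ω e' = o} := by
      intro ω hω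
      obtain ⟨l, u, hu, j, hj, h3, h4⟩ := bad_start o W hω
      refine Set.mem_iUnion.2 ⟨l, Set.mem_biUnion (x := (u, j)) ?_ h4⟩
      simp only [T, Finset.mem_coe, Finset.mem_filter, Finset.mem_product, Finset.mem_range]
      exact ⟨⟨hu, hl l u hu ▸ hj⟩, h3⟩
    refine (measure_mono h2).trans ((measure_iUnion_le _).trans (ENNReal.tsum_le_tsum fun l => ?_))
    refine (measure_biUnion_finset_le _ _).trans ((Finset.sum_le_card_nsmul _ _ _
      fun a ha => ?_).trans (nsmul_eq_mul _ _).le)
    by_cases hn : (edges s (start s a.1 a.2) a.1).Nodup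
    · have h5 := cyl_le (G := G) (D := ι) (I := I)
        ((edges s (start s a.1 a.2) a.1).map fun e => (e, o)) (by simpa [Function.comp_def] using hn)
      rw [List.length_map, length_edges,
        hl l _ (Finset.mem_product.1 (Finset.mem_filter.1 ha).1).1] at h5
      refine (measure_mono fun ω hω => ?_).trans h5
      intro c hc
      obtain ⟨e, he, rfl⟩ := List.mem_map.1 hc
      exact hω.2 e he
    · simp [hn]
  refine (Finset.sum_le_sum fun i _ => h1 i).trans ?_
  rw [← Summable.tsum_finsetSum fun _ _ => ENNReal.summable]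
  refine ENNReal.tsum_le_tsum fun l => ?_
  rw [← Finset.sum_mul]
  refine mul_le_mul_left ?_ _
  rw [← Nat.cast_sum, Nat.cast_le, ← Finset.card_biUnion]
  · refine (Finset.card_le_card (t := W l ×ˢ Finset.range l) ?_).trans (by simp)
    exact Finset.biUnion_subset.2 fun i _ => Finset.filter_subset _ _
  · intro i _ j _ hij
    refine Finset.disjoint_left.2 fun a ha hb => hij ?_
    exact Option.some.inj ((Finset.mem_filter.1 ha).2.symm.trans (Finset.mem_filter.1 hb).2)

theorem deg_ge (hl : ∀ l, ∀ u ∈ W l, u.length = l)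
    (hc : ∀ l, (W l).card * 4 ^ l ≤ Fintype.card I ^ l) :
    (Fintype.card ι : ℝ) / Fintype.card I - 2 ≤ ∑ i, ((Conf.μ G ι I).map
      fun ω : Conf G ι I => thin s o W ω).real {ω | ω (1, i) = true} := by
  have hI : (Fintype.card I : ℝ≥0∞) ≠ 0 := by simp
  have h1 : ∑ i, Conf.μ G ι I {ω | Bad s o W ω (1, i)} ≤ 2 := by
    refine (bad_le o W hl).trans (le_of_le_of_eq (ENNReal.tsum_le_tsum fun l => ?_)
      ENNReal.tsum_geometric_two)
    have h2 : (W l).card * l * 2 ^ l ≤ Fintype.card I ^ l := by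
      refine le_trans ?_ (hc l)
      rw [mul_assoc, show 4 ^ l = 2 ^ l * 2 ^ l from mul_pow 2 2 l]
      exact Nat.mul_le_mul_left _ (Nat.mul_le_mul_right _ Nat.lt_two_pow_self.le)
    have h3 : (((W l).card * l : ℕ) : ℝ≥0∞) * 2 ^ l ≤ (Fintype.card I : ℝ≥0∞) ^ l := by
      exact_mod_cast h2
    rw [← ENNReal.inv_pow, ← ENNReal.inv_pow, ← div_eq_mul_inv,
      ENNReal.div_le_iff (pow_ne_zero _ hI) (by simp), ← ENNReal.div_eq_inv_mul,
      ENNReal.le_div_iff_mul_le (by simp) (by simp)]
    exact h3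
  have h4 : ∑ i, (Conf.μ G ι I).real {ω | Bad s o W ω (1, i)} ≤ 2 := by
    simp only [Measure.real]
    rw [← ENNReal.toReal_sum fun _ _ => measure_ne_top _ _]
    exact ENNReal.toReal_le_of_le_ofReal zero_le_two (by simpa using h1)
  have h5 : ∀ i, (Fintype.card I : ℝ)⁻¹ - (Conf.μ G ι I).real {ω | Bad s o W ω (1, i)} ≤
      ((Conf.μ G ι I).map fun ω : Conf G ι I => thin s o W ω).real {ω | ω (1, i) = true} := by
    intro i
    rw [map_measureReal_apply (meas_thin o W) (meas_edge _), sub_le_iff_le_add]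
    refine le_trans (le_of_eq ?_) ((measureReal_mono (s₁ := {ω : Conf G ι I | ω (1, i) = o})
      fun ω hω => ?_).trans (measureReal_union_le _ _))
    · rw [Measure.real, open_eq]
      simp
    · by_cases hb : Bad s o W ω (1, i)
      · exact Or.inr hb
      · exact Or.inl ((thin_iff o W).2 ⟨hω, hb⟩)
  refine le_trans ?_ (Finset.sum_le_sum fun i _ => h5 i)
  rw [Finset.sum_sub_distrib, Finset.sum_const, Finset.card_univ, nsmul_eq_mul, div_eq_mul_inv]
  linarith

theorem wide_of_sparse (hG : SparseDehn G) : WideForests G := by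
  obtain ⟨θ0, hθ0, hG⟩ := hG
  intro C
  set θ := max θ0 0 with hθd
  have hθ : θ < 1 / 2 := max_lt hθ0 (by norm_num)
  have hθ' : 0 ≤ θ := le_max_right _ _
  have ht := (tendsto_rpow_atTop (y := 1 / 2 - θ) (by linarith)).comp
    (tendsto_natCast_atTop_atTop (R := ℝ))
  obtain ⟨N, hN⟩ := Filter.eventually_atTop.1 (ht.eventually_gt_atTop (10 * (|C| + 3)))
  obtain ⟨n, hn, s, W, hW, hD⟩ := hG (max N 1)
  have hn1 : (1 : ℝ) ≤ n := by exact_mod_cast (le_max_right N 1).trans hn
  have hn2 : 10 * (|C| + 3) < (n : ℝ) ^ (1 / 2 - θ) := hN n ((le_max_left N 1).trans hn)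
  set x : ℝ := (2 * n : ℝ) ^ θ with hx
  have hx1 : 1 ≤ x := Real.one_le_rpow (by linarith) hθ'
  set k := ⌈4 * x⌉₊ with hk
  have hk1 : 4 * x ≤ k := Nat.le_ceil _
  have hk2 : (k : ℝ) ≤ 5 * x := (Nat.ceil_lt_add_one (by linarith)).le.trans (by linarith)
  have hk0 : 0 < k := Nat.ceil_pos.2 (by linarith)
  letI : MeasurableSpace (Fin k) := ⊤
  haveI : DiscreteMeasurableSpace (Fin k) := ⟨fun _ => trivial⟩
  haveI : Nonempty (Fin k) := ⟨⟨0, hk0⟩⟩
  have hl : ∀ l, ∀ u ∈ W l, u.length = l := fun l => (hW l).2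
  have hm := meas_thin (s := s) (⟨0, hk0⟩ : Fin k) W
  refine ⟨n, s, (Conf.μ G (Fin n) (Fin k)).map
    fun ω : Conf G (Fin n) (Fin k) => thin s ⟨0, hk0⟩ W ω,
    Measure.isProbabilityMeasure_map hm.aemeasurable, fun g => ?_, ?_, ?_⟩
  · rw [Measure.map_map (meas_shift g) hm]
    conv_rhs => rw [← (measurePreserving_smul g (Conf.μ G (Fin n) (Fin k))).map_eq,
      Measure.map_map hm (measurable_const_smul g)]
    congr 1
    funext ω
    exact (thin_shift _ W g ω).symm
  · exact (ae_map_iff hm.aemeasurable meas_forest).2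
      (Filter.Eventually.of_forall (thin_forest _ W hD hl))
  · have h1 := deg_ge (s := s) (⟨0, hk0⟩ : Fin k) W hl fun l => by
      have h2 : ((W l).card : ℝ) ≤ x ^ l := by
        rw [hx, ← Real.rpow_natCast, ← Real.rpow_mul (by linarith)]
        exact (hW l).1.trans (Real.rpow_le_rpow_of_exponent_le (by linarith)
          (mul_le_mul_of_nonneg_right (le_max_left _ _) (Nat.cast_nonneg l)))
      have h3 : ((W l).card : ℝ) * 4 ^ l ≤ (k : ℝ) ^ l := by
        refine le_trans ?_ (pow_le_pow_left₀ (by linarith) hk1 l)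
        rw [mul_pow, mul_comm]
        exact mul_le_mul_of_nonneg_left h2 (by positivity)
      rw [Fintype.card_fin]
      exact_mod_cast h3
    simp only [Fintype.card_fin] at h1
    set r : ℝ := Real.sqrt n with hr
    have hr1 : 1 ≤ r := Real.one_le_sqrt.2 hn1
    have hr2 : r * r = n := Real.mul_self_sqrt (by linarith)
    have hx2 : x * (n : ℝ) ^ (1 / 2 - θ) ≤ 2 * r := by
      rw [hx, Real.mul_rpow zero_le_two (by linarith), mul_assoc, ← Real.rpow_add (by linarith),
        hr, Real.sqrt_eq_rpow, add_sub_cancel]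
      refine mul_le_mul_of_nonneg_right ?_ (by positivity)
      simpa using Real.rpow_le_rpow_of_exponent_le (x := 2) (by norm_num) (by linarith : θ ≤ 1)
    have hC := abs_nonneg C
    have h4 : (|C| + 3) * r ≤ n / k := by
      rw [le_div_iff₀ (by exact_mod_cast hk0), ← hr2]
      have h5 : (|C| + 3) * k ≤ r := by nlinarith
      nlinarith
    have h6 : (|C| + 1) * r ≤ n / k - 2 := by nlinarith
    refine lt_of_lt_of_le ?_ (pow_le_pow_left₀ (by positivity) (h6.trans h1) 2)
    rw [mul_pow, sq r, hr2]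
    have h7 : C < (|C| + 1) ^ 2 := by nlinarith [le_abs_self C]
    exact mul_lt_mul_of_pos_right h7 (by linarith)

end Pool.Agent.P.MP_95bcfc_an.Dehn
end

-- part Pool.Agent.P.MP_95bcfc_an.Dehn.Power
section

set_option autoImplicit false
set_option linter.unusedSectionVars false

open FreeGroup

namespace Pool.Agent.P.MP_95bcfc_an.Dehn

section Words

variable {β : Type}

/-- powers of a word -/
def pw (r : ℕ) (A : List β) : List β := (List.replicate r A).flatten

theorem pw_add (a b : ℕ) (A : List β) : pw (a + b) A = pw a A ++ pw b A := by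
  rw [pw, List.replicate_add, List.flatten_append, pw, pw]

theorem length_pw (r : ℕ) (A : List β) : (pw r A).length = r * A.length := by simp [pw]

/-- the word contains no `r`-th power -/
def Free (r : ℕ) (X : List β) : Prop := ∀ A, A ≠ [] → ¬ pw r A <:+: X

theorem Free.sub {r : ℕ} {X Y : List β} (h : Free r X) (h' : Y <:+: X) : Free r Y :=
  fun A a b => h A a (b.trans h')

theorem Free.append {a b : ℕ} {X Y : List β} (h : Free a X) (h' : Free b Y) :
    Free (a + b) (X ++ Y) := fun A hA c => by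
  rw [pw_add] at c
  rcases List.infix_append_iff.1 c with c | c | ⟨l1, l2, e, c1, c2⟩
  · exact h A hA ((List.prefix_append _ _).isInfix.trans c)
  · exact h' A hA ((List.suffix_append _ _).isInfix.trans c)
  · rcases List.append_eq_append_iff.1 e with ⟨m, rfl, -⟩ | ⟨m, -, rfl⟩
    · exact h A hA ((List.prefix_append _ _).isInfix.trans c1.isInfix)
    · exact h' A hA ((List.suffix_append _ _).isInfix.trans c2.isInfix)

theorem free_nil {r : ℕ} (hr : 0 < r) : Free r ([] : List β) := fun A hA c => by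
  have := c.length_le
  rw [length_pw] at this
  exact (Nat.mul_pos hr (List.length_pos_iff.2 hA)).not_ge this

open Classical in
/-- all words of a given length -/
noncomputable def Ls (β : Type) [Fintype β] (m : ℕ) : Finset (List β) :=
  Finset.univ.image fun f : Fin m → β => List.ofFn f

theorem mem_Ls [Fintype β] {m : ℕ} {u : List β} : u ∈ Ls β m ↔ u.length = m := by
  simp only [Ls, Finset.mem_image, Finset.mem_univ, true_and]
  exact ⟨fun ⟨f, h⟩ => h ▸ List.length_ofFn, fun h => h ▸ ⟨u.get, List.ofFn_get u⟩⟩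

theorem card_Ls [Fintype β] (m : ℕ) : (Ls β m).card ≤ Fintype.card β ^ m := by
  classical
  exact Finset.card_image_le.trans (by simp)

theorem pre {α : Type} {R : α → List β → Prop} {Sm : List β → Prop}
    (hS : ∀ X Y, Sm X → Y <:+: X → Sm Y) (h0 : Sm []) (hR : ∀ x B, R x B → Sm B) {w : List α}
    {Bs : List (List β)} (h : List.Forall₂ R w Bs) : ∀ T, T <+: Bs.flatten →
      ∃ u Cs t, u <+: w ∧ List.Forall₂ R u Cs ∧ Sm t ∧ T = Cs.flatten ++ t := by
  induction h with
  | nil => exact fun T hT => ⟨[], [], [], List.nil_prefix, .nil, h0, by simpa using hT⟩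
  | @cons x B w Bs hx _ ih =>
    intro T hT
    rcases List.prefix_or_prefix_of_prefix hT (List.prefix_append B Bs.flatten) with c | ⟨T', rfl⟩
    · exact ⟨[], [], T, List.nil_prefix, .nil, hS _ _ (hR _ _ hx) c.isInfix, rfl⟩
    · obtain ⟨u, Cs, t, a1, a2, a3, rfl⟩ := ih T' ((List.prefix_append_right_inj B).1 hT)
      exact ⟨x :: u, B :: Cs, t, (List.prefix_cons_inj x).2 a1, .cons hx a2, a3, by simp⟩

theorem inf {α : Type} {R : α → List β → Prop} {Sm : List β → Prop}
    (hS : ∀ X Y, Sm X → Y <:+: X → Sm Y) (h0 : Sm []) (hR : ∀ x B, R x B → Sm B) {w : List α}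
    {Bs : List (List β)} (h : List.Forall₂ R w Bs) (T : List β) : ∀ g, Sm g →
      T <:+: g ++ Bs.flatten → ∃ a u Cs t, u <:+: w ∧ List.Forall₂ R u Cs ∧ Sm a ∧ Sm t ∧
        T = a ++ (Cs.flatten ++ t) := by
  induction h with
  | nil => exact fun g hg hT => ⟨T, [], [], [], List.nil_infix, .nil,
      hS _ _ hg (by simpa using hT), h0, by simp⟩
  | @cons x B w Bs hx hw ih =>
    intro g hg hT
    rcases List.infix_append_iff.1 hT with c | c | ⟨l1, l2, rfl, c1, c2⟩
    · exact ⟨T, [], [], [], List.nil_infix, .nil, hS _ _ hg c, h0, by simp⟩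
    · obtain ⟨a, u, Cs, t, a1, a2⟩ := ih B (hR _ _ hx) c
      exact ⟨a, u, Cs, t, a1.trans (List.suffix_cons x w).isInfix, a2⟩
    · obtain ⟨u, Cs, t, a1, a2, a3, rfl⟩ := pre hS h0 hR (.cons hx hw) l2 c2
      exact ⟨l1, u, Cs, t, a1.isInfix, a2, hS _ _ hg c1.isInfix, a3, rfl⟩

end Words

/-- letters -/
abbrev Lt : Type := Fin 2 × Bool

open Classical in
/-- positive words without sixth powers -/
noncomputable def Fr (L : ℕ) : Finset (List Lt) :=
  (Ls Lt L).filter fun w => Free 6 w ∧ ∀ x ∈ w, x.2 = true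

theorem mem_Fr {L : ℕ} {w : List Lt} :
    w ∈ Fr L ↔ w.length = L ∧ Free 6 w ∧ ∀ x ∈ w, x.2 = true := by
  simp only [Fr, Finset.mem_filter, mem_Ls]

theorem fr_step (L : ℕ) : 2 * (Fr L).card ≤ (Fr (L + 1)).card +
    ∑ p ∈ Finset.range ((L + 1) / 5), (Fr (L + 1 - 5 * (p + 1))).card := by
  have h1 : (Finset.univ ×ˢ Fr L).image (fun q : Fin 2 × List Lt => (q.1, true) :: q.2) ⊆
      Fr (L + 1) ∪ (Finset.range ((L + 1) / 5)).biUnion fun p =>
        (Fr (L + 1 - 5 * (p + 1))).image fun v => pw 5 (v.take (p + 1)) ++ v := by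
    intro _ h
    obtain ⟨⟨c, w⟩, h', rfl⟩ := Finset.mem_image.1 h
    obtain ⟨a1, a2, a3⟩ := mem_Fr.1 (Finset.mem_product.1 h').2
    dsimp only at a1 a2 a3 ⊢
    have a4 : ∀ x ∈ (c, true) :: w, x.2 = true := List.forall_mem_cons.2 ⟨rfl, a3⟩
    by_cases hf : Free 6 ((c, true) :: w)
    · exact Finset.mem_union_left _ (mem_Fr.2 ⟨by simp [a1], hf, a4⟩)
    simp only [Free, not_forall, not_not] at hf
    obtain ⟨A, hA, hf⟩ := hf
    obtain ⟨t, ht⟩ := (List.infix_cons_iff.1 hf).resolve_right (a2 A hA)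
    have e : pw 5 A ++ (A ++ t) = (c, true) :: w := by
      rw [← ht, show 6 = 5 + 1 from rfl, pw_add]
      simp [pw]
    have l1 := congrArg List.length e
    simp only [List.length_append, length_pw, List.length_cons, a1] at l1
    have l2 := List.length_pos_iff.2 hA
    have s1 : A ++ t <:+ w := List.suffix_of_suffix_length_le ⟨_, e⟩ (List.suffix_cons _ _)
      (by rw [List.length_append]; omega)
    refine Finset.mem_union_right _ (Finset.mem_biUnion.2 ⟨A.length - 1,
      Finset.mem_range.2 (by omega), Finset.mem_image.2 ⟨A ++ t, mem_Fr.2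
        ⟨by rw [List.length_append]; omega, a2.sub s1.isInfix, fun x hx => a3 x (s1.subset hx)⟩,
        ?_⟩⟩)
    rw [Nat.sub_add_cancel l2, List.take_left, e]
  have h2 := Finset.card_le_card h1
  rw [Finset.card_image_of_injective _ fun a b h => by
    simp only [List.cons.injEq, Prod.mk.injEq, and_true] at h
    exact Prod.ext h.1 h.2, Finset.card_product, Finset.card_univ, Fintype.card_fin] at h2
  exact h2.trans ((Finset.card_union_le _ _).trans (Nat.add_le_add_left
    (Finset.card_biUnion_le.trans (Finset.sum_le_sum fun _ _ => Finset.card_image_le)) _))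

theorem fr_grow (L : ℕ) : ∀ m ≤ L, ((Fr m).card : ℝ) ≤ (2 / 3) ^ (L - m) * (Fr L).card := by
  induction L with
  | zero => intro m hm; simp [Nat.le_zero.1 hm]
  | succ L ih =>
    have h0 : (0 : ℝ) ≤ (Fr L).card := Nat.cast_nonneg _
    have h1 : ((Fr L).card : ℝ) ≤ 2 / 3 * (Fr (L + 1)).card := by
      have h2 : (2 : ℝ) * (Fr L).card ≤ (Fr (L + 1)).card +
          ∑ p ∈ Finset.range ((L + 1) / 5), ((Fr (L + 1 - 5 * (p + 1))).card : ℝ) := by
        exact_mod_cast fr_step L
      have h3 : ∑ p ∈ Finset.range ((L + 1) / 5), ((Fr (L + 1 - 5 * (p + 1))).card : ℝ) ≤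
          ∑ p ∈ Finset.range ((L + 1) / 5), (1 / 2 : ℝ) ^ p * ((Fr L).card / 4) := by
        refine Finset.sum_le_sum fun p hp => (ih _ (by omega)).trans ?_
        have := Finset.mem_range.1 hp
        rw [show L - (L + 1 - 5 * (p + 1)) = 5 * p + 4 by omega, pow_add, pow_mul, mul_assoc]
        exact mul_le_mul (pow_le_pow_left₀ (by positivity) (by norm_num) p) (by linarith)
          (by positivity) (by positivity)
      rw [← Finset.sum_mul] at h3
      have h4 := mul_le_mul_of_nonneg_right (sum_geometric_two_le ((L + 1) / 5))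
        (show (0 : ℝ) ≤ (Fr L).card / 4 by positivity)
      linarith
    intro m hm
    rcases hm.eq_or_lt with rfl | hm
    · simp
    · rw [show L + 1 - m = L - m + 1 by omega, pow_succ, mul_assoc]
      exact (ih m (by omega)).trans (mul_le_mul_of_nonneg_left h1 (by positivity))

theorem fr_card (j : ℕ) : 2 ^ j ≤ (Fr (2 * j)).card := by
  have h1 := fr_grow (2 * j) 0 (Nat.zero_le _)
  have h2 : (1 : ℝ) ≤ (Fr 0).card := by
    exact_mod_cast Finset.card_pos.2 ⟨[], mem_Fr.2 ⟨rfl, free_nil (by norm_num), by simp⟩⟩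
  have h3 : ((2 / 3 : ℝ) ^ 2) ^ j * 2 ^ j ≤ 1 := by
    rw [← mul_pow]
    exact pow_le_one₀ (by positivity) (by norm_num)
  rw [Nat.sub_zero, pow_mul] at h1
  exact_mod_cast le_of_mul_le_mul_left (h3.trans (h2.trans h1)) (by positivity)

theorem invRev_sub {X Y : List Lt} (h : X <:+: Y) : invRev X <:+: invRev Y := by
  obtain ⟨a, b, rfl⟩ := h
  exact ⟨invRev b, invRev a, by simp⟩

theorem Free.inv {r : ℕ} {X : List Lt} (h : Free r X) : Free r (invRev X) := fun A hA c => by
  have e : ∀ r, invRev (pw r A) = pw r (invRev A) := fun r => by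
    induction r with
    | zero => simp [pw]
    | succ r ih =>
      rw [pw_add, invRev_append, ih, add_comm, pw_add]
      simp [pw]
  have := invRev_sub c
  rw [invRev_invRev, e] at this
  exact h _ (fun z => hA (by rw [← invRev_invRev (L₁ := A), z, invRev_empty])) this

theorem red_of_sign {X : List Lt} {b : Bool} (h : ∀ x ∈ X, x.2 = b) : IsReduced X :=
  List.Pairwise.isChain (List.pairwise_of_forall_mem_list fun x hx y hy _ =>
    (h x hx).trans (h y hy).symm)

theorem cancel (Q : List Lt) : ∀ P : List Lt, IsReduced P → IsReduced Q → P.length = Q.length →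
    Q ≠ invRev P → ∃ P1 Q1 C, P = P1 ++ C ∧ Q = invRev C ++ Q1 ∧ P1 ≠ [] ∧ Q1 ≠ [] ∧
      IsReduced (P1 ++ Q1) := by
  induction Q with
  | nil => exact fun P _ _ h h' => absurd (by rw [List.length_eq_zero_iff.1 h, invRev_empty]) h'
  | cons y Q ih =>
    intro P hP hQ h h'
    rcases P.eq_nil_or_concat' with rfl | ⟨P, x, rfl⟩
    · simp at h
    by_cases c : x.1 = y.1 → x.2 = y.2
    · exact ⟨_, _, [], (List.append_nil _).symm, rfl, by simp, by simp,
        List.IsChain.append hP hQ (by simpa using c)⟩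
    have e : invRev [x] = [y] := by
      rw [Classical.not_imp] at c
      obtain ⟨x1, x2⟩ := x
      obtain ⟨y1, y2⟩ := y
      cases x2 <;> cases y2 <;> simp_all [invRev]
    obtain ⟨P1, Q1, C, rfl, rfl, a⟩ := ih P (red_sub hP (List.prefix_append _ _).isInfix)
      (red_sub hQ (List.suffix_cons _ _).isInfix) (by simpa using h)
      fun z => h' (by rw [invRev_append, e, z]; rfl)
    exact ⟨P1, Q1, C ++ [x], by simp, by rw [invRev_append, e]; rfl, a⟩

section Blocks

variable {ι : Type} [DecidableEq ι] [Fintype ι] {L : ℕ} (e : ι → List Lt)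

/-- the block of a letter -/
def blk (x : ι × Bool) : List Lt := if x.2 then e x.1 else invRev (e x.1)

/-- short words without high powers -/
def Sm (L : ℕ) (X : List Lt) : Prop := X.length ≤ 3 * L ∧ Free 18 X

variable (he : ∀ i, e i ∈ Fr L) (hL : 0 < L) (hi : Function.Injective e)
include he

theorem blk_len (x : ι × Bool) : (blk e x).length = L := by
  unfold blk
  split_ifs <;> simp [(mem_Fr.1 (he x.1)).1]

theorem blk_free (x : ι × Bool) : Free 6 (blk e x) := by
  unfold blk
  split_ifs
  exacts [(mem_Fr.1 (he x.1)).2.1, (mem_Fr.1 (he x.1)).2.1.inv]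

theorem blk_sign (x : ι × Bool) : ∀ y ∈ blk e x, y.2 = x.2 := by
  obtain ⟨i, b⟩ := x
  have := (mem_Fr.1 (he i)).2.2
  cases b
  · intro y hy
    simp only [blk, invRev, Bool.false_eq_true, if_false, List.mem_reverse, List.mem_map] at hy
    obtain ⟨z, hz, rfl⟩ := hy
    simp [this z hz]
  · exact this

include hL hi

theorem blk_inj : Function.Injective (blk e) := fun x y h => by
  obtain ⟨z, hz⟩ := List.exists_mem_of_length_pos ((blk_len e he x).symm ▸ hL)
  have a := (blk_sign e he x z hz).symm.trans (blk_sign e he y z (h ▸ hz))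
  refine Prod.ext (hi ?_) a
  unfold blk at h
  rw [a] at h
  split_ifs at h
  exacts [h, invRev_injective h]

theorem struct (w : List (ι × Bool)) : ∀ x, IsReduced (x :: w) → ∃ Bs,
    List.Forall₂ (fun x B => blk e x <+: B ∧ Sm L B) (x :: w) Bs ∧
    IsReduced (blk e x ++ Bs.flatten) ∧ mk (blk e x ++ Bs.flatten) =
      FreeGroup.lift (fun i => mk (e i) ^ 3) (mk (x :: w)) := by
  have h1 : ∀ x, FreeGroup.lift (fun i => mk (e i) ^ 3) (EM.lw x) = mk (blk e x) ^ 3 := by
    rintro ⟨i, b⟩
    cases b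
    · simp [EM.lw, blk, ← inv_mk]
    · simp [EM.lw, blk]
  have h2 : ∀ x, IsReduced (blk e x ++ blk e x ++ blk e x) := fun x =>
    red_of_sign (b := x.2) (by
      simp only [List.mem_append, or_self]
      exact blk_sign e he x)
  induction w with
  | nil =>
    refine fun x _ => ⟨[blk e x ++ blk e x], .cons ⟨List.prefix_append _ _, ?_, ?_⟩ .nil, ?_, ?_⟩
    · rw [List.length_append, blk_len e he]
      omega
    · simpa using ((blk_free e he x).append (blk_free e he x)).append (free_nil (r := 6) (by simp))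
    · simpa using h2 x
    · rw [EM.mk_cons, ← one_eq_mk, mul_one, h1]
      simp [← mul_mk, pow_succ, mul_assoc]
  | cons y w ih =>
    intro x hr
    obtain ⟨Bs, a1, a2, a3⟩ := ih y (red_sub hr (List.suffix_cons _ _).isInfix)
    obtain ⟨P, Q, C, b1, b2, b3, b4, b5⟩ := cancel (blk e y) (blk e x)
      (red_of_sign (blk_sign e he x)) (red_of_sign (blk_sign e he y))
      (by rw [blk_len e he, blk_len e he]) fun z => by
        have : y = (x.1, !x.2) := blk_inj e he hL hi (z.trans (by
          obtain ⟨i, b⟩ := x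
          cases b <;> simp [blk]))
        subst this
        simp [FreeGroup.IsReduced] at hr
    have c1 : P <:+: blk e x := (List.IsPrefix.isInfix ⟨C, b1.symm⟩)
    have c2 : Q <:+: blk e y := (List.IsSuffix.isInfix ⟨_, b2.symm⟩)
    refine ⟨(blk e x ++ P ++ Q) :: Bs, .cons ⟨⟨P ++ Q, by simp⟩, ?_, ((blk_free e he x).append
      ((blk_free e he x).sub c1)).append ((blk_free e he y).sub c2)⟩ a1, ?_, ?_⟩
    · have d1 := c1.length_le
      have d2 := c2.length_le
      simp only [List.length_append, blk_len e he] at d1 d2 ⊢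
      omega
    · have d1 : IsReduced (blk e x ++ blk e x ++ P) :=
        red_sub (h2 x) ⟨[], C, by nth_rw 5 [b1]; simp⟩
      have d2 : IsReduced (Q ++ Bs.flatten) := red_sub a2 ⟨invRev C, [], by rw [b2]; simp⟩
      simpa using (d1.append_overlap b5 b3).append_overlap d2 b4
    · rw [EM.mk_cons, _root_.map_mul, h1, ← a3, b2]
      have d : mk (blk e x) = mk P * mk C := by rw [b1, mul_mk]
      simp [← mul_mk, ← inv_mk, pow_succ, mul_assoc, d]

theorem decode {u : List (ι × Bool)} {Cs : List (List Lt)}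
    (h : List.Forall₂ (fun x B => blk e x <+: B ∧ Sm L B) u Cs) : ∀ (u' : List (ι × Bool))
    (Cs' : List (List Lt)) (t t' : List Lt),
    List.Forall₂ (fun x B => blk e x <+: B ∧ Sm L B) u' Cs' →
    Cs.map (fun B => Fin.ofNat (3 * L + 1) B.length) =
      Cs'.map (fun B => Fin.ofNat (3 * L + 1) B.length) →
    Cs.flatten ++ t = Cs'.flatten ++ t' → u = u' := by
  induction h with
  | nil =>
    intro u' Cs' t t' h1 h2 _
    obtain rfl := List.map_eq_nil_iff.1 h2.symm
    exact (List.forall₂_nil_right_iff.1 h1).symm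
  | @cons x B u Cs hx _ ih =>
    intro u' Cs' t t' h1 h2 h3
    cases h1 with
    | nil => simp at h2
    | @cons y B' u' Cs' hy h1 =>
      rw [List.map_cons, List.map_cons, List.cons.injEq] at h2
      have l := congrArg Fin.val h2.1
      rw [Fin.val_ofNat, Fin.val_ofNat, Nat.mod_eq_of_lt (Nat.lt_succ_of_le hx.2.1),
        Nat.mod_eq_of_lt (Nat.lt_succ_of_le hy.2.1)] at l
      simp only [List.flatten_cons, List.append_assoc] at h3
      obtain ⟨rfl, h4⟩ := List.append_inj h3 l
      have := blk_inj e he hL hi ((List.prefix_of_prefix_length_le hx.1 hy.1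
        (by rw [blk_len e he, blk_len e he])).eq_of_length (by rw [blk_len e he, blk_len e he]))
      rw [this, ih _ _ _ _ h1 h2.2 h4]

end Blocks

theorem sparse_of_power {G : Type} [Group G] (hG : PowerRelations G) : SparseDehn G := by
  classical
  obtain ⟨s, hs⟩ := hG
  refine ⟨3 / 8, by norm_num, fun N => ?_⟩
  obtain ⟨i, i0, i1, i2⟩ : ∃ i : ℕ, 0 < i ∧ N ≤ 2 ^ (8 * i) ∧ (i + 1) * (48 * i + 1) ^ 2 ≤ 2 ^ i := by
    refine ⟨3 * (N + 11), by omega, (show N ≤ 8 * (3 * (N + 11)) by omega).trans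
      Nat.lt_two_pow_self.le, ?_⟩
    have a : N < 2 ^ N := Nat.lt_two_pow_self
    have b : 48 * (3 * (N + 11)) + 1 ≤ 2 ^ (N + 11) := by rw [pow_add]; omega
    rw [mul_comm 3, pow_mul, pow_succ' _ 2, mul_comm _ 3]
    exact Nat.mul_le_mul (by omega) (Nat.pow_le_pow_left b 2)
  obtain ⟨f⟩ : Nonempty (Fin (2 ^ (8 * i)) ↪ Fr (2 * (8 * i))) :=
    Function.Embedding.nonempty_of_card_le (by simpa using fr_card (8 * i))
  set L := 2 * (8 * i) with hL
  have L0 : 0 < L := by omega
  set e : Fin (2 ^ (8 * i)) → List Lt := fun k => (f k).1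
  have he : ∀ k, e k ∈ Fr L := fun k => (f k).2
  have hi : Function.Injective e := Subtype.val_injective.comp f.injective
  let P : List (Fin (2 ^ (8 * i)) × Bool) → List Lt × List Lt × List (List Lt) × List Lt → Prop :=
    fun u q => List.Forall₂ (fun x B => blk e x <+: B ∧ Sm L B) u q.2.2.1 ∧ Sm L q.2.1 ∧
      Sm L q.2.2.2 ∧ pw 144 q.1 = q.2.1 ++ (q.2.2.1.flatten ++ q.2.2.2)
  refine ⟨_, i1, fun k => FreeGroup.lift s (mk (e k) ^ 3),
    fun l => (Ls _ l).filter fun u => ∃ q, P u q,
    fun l => ⟨?_, fun u hu => mem_Ls.1 (Finset.mem_filter.1 hu).1⟩, fun w h1 h2 => ?_⟩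
  · rcases l.eq_zero_or_pos with rfl | l0
    · simpa using (Finset.card_filter_le _ _).trans (card_Ls (β := Fin (2 ^ (8 * i)) × Bool) 0)
    have : ∀ u, ∃ q, (∃ q, P u q) → P u q := fun u => by
      by_cases c : ∃ q, P u q
      exacts [c.imp fun q h _ => h, ⟨default, fun h => absurd h c⟩]
    choose q hq using this
    have k1 := Finset.card_le_card_of_injOn (s := (Ls _ l).filter fun u => ∃ q, P u q)
      (t := (Finset.range (i * l + 1)).biUnion (Ls Lt) ×ˢ Ls (Fin (3 * L + 1)) (l + 1))
      (fun u => ((q u).1, ((q u).2.1 :: (q u).2.2.1).map fun B => Fin.ofNat (3 * L + 1) B.length))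
      (fun u hu => by
        obtain ⟨a, b⟩ := Finset.mem_filter.1 hu
        obtain ⟨c1, c2, c3, c4⟩ := hq u b
        have d1 := c1.length_eq.symm.trans (mem_Ls.1 a)
        refine Finset.mem_product.2 ⟨Finset.mem_biUnion.2 ⟨_, Finset.mem_range.2 ?_,
          mem_Ls.2 rfl⟩, mem_Ls.2 (by simp [d1])⟩
        have d2 : (q u).2.2.1.flatten.length ≤ l * (3 * L) := by
          rw [List.length_flatten, ← d1, ← smul_eq_mul, ← List.length_map List.length]
          refine List.sum_le_card_nsmul _ _ fun x hx => ?_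
          obtain ⟨B, hB, rfl⟩ := List.mem_map.1 hx
          obtain ⟨j, hj, rfl⟩ := List.getElem_of_mem hB
          exact (c1.get (c1.length_eq ▸ hj) hj).2.1
        have d3 := congrArg List.length c4
        have d4 := c2.1
        have d5 := c3.1
        simp only [length_pw, List.length_append] at d3
        change (q u).1.length < _
        nlinarith)
      (fun u hu u' hu' h => by
        obtain ⟨c1, c2, -, c4⟩ := hq u (Finset.mem_filter.1 hu).2
        obtain ⟨d1, d2, -, d4⟩ := hq u' (Finset.mem_filter.1 hu').2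
        simp only [Prod.mk.injEq, List.map_cons, List.cons.injEq] at h
        have l := congrArg Fin.val h.2.1
        rw [Fin.val_ofNat, Fin.val_ofNat, Nat.mod_eq_of_lt (Nat.lt_succ_of_le c2.1),
          Nat.mod_eq_of_lt (Nat.lt_succ_of_le d2.1)] at l
        rw [h.1, d4] at c4
        exact decode e he L0 hi c1 _ _ _ _ d1 h.2.2 (List.append_inj c4.symm l).2)
    have k2 : ((Finset.range (i * l + 1)).biUnion (Ls Lt)).card ≤ (i * l + 1) * 4 ^ (i * l) := by
      refine Finset.card_biUnion_le.trans ((Finset.sum_le_card_nsmul _ _ _ fun m hm =>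
        (card_Ls m).trans ?_).trans (by rw [Finset.card_range, smul_eq_mul]))
      exact Nat.pow_le_pow_right (by norm_num) (Nat.lt_succ_iff.1 (Finset.mem_range.1 hm))
    have k3 : (Ls (Fin (3 * L + 1)) (l + 1)).card ≤ (48 * i + 1) ^ (l + 1) :=
      (card_Ls _).trans (by rw [Fintype.card_fin, show 3 * L + 1 = 48 * i + 1 by omega])
    have k4 : i * l + 1 ≤ (i + 1) ^ l := by
      have := one_add_mul_le_pow (a := (i : ℤ)) (by omega) l
      rw [add_comm, add_comm 1, mul_comm] at this
      exact_mod_cast this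
    have k5 : (i * l + 1) * 4 ^ (i * l) * (48 * i + 1) ^ (l + 1) ≤ 2 ^ (3 * (i * l)) := by
      calc _ ≤ (i + 1) ^ l * 4 ^ (i * l) * (48 * i + 1) ^ (2 * l) := by gcongr <;> omega
        _ = ((i + 1) * (48 * i + 1) ^ 2) ^ l * 4 ^ (i * l) := by rw [mul_pow, pow_mul _ 2]; ring
        _ ≤ (2 ^ i) ^ l * 4 ^ (i * l) := by gcongr
        _ = _ := by rw [← pow_mul, ← mul_pow, pow_mul 2 3]; rfl
    rw [Finset.card_product] at k1
    refine (Nat.cast_le.2 (k1.trans ((Nat.mul_le_mul k2 k3).trans k5))).trans ?_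
    push_cast
    rw [← pow_succ', ← Real.rpow_natCast, ← Real.rpow_natCast, ← Real.rpow_mul zero_le_two]
    refine Real.rpow_le_rpow_of_exponent_le one_le_two ?_
    push_cast
    nlinarith [(Nat.cast_nonneg l : (0 : ℝ) ≤ l)]
  · obtain ⟨x, w', hw⟩ := List.exists_cons_of_ne_nil fun z => h1 (toWord_eq_nil_iff.1 z)
    obtain ⟨Bs, a1, a2, a3⟩ := struct e he L0 hi w' x (hw ▸ isReduced_toWord)
    rw [← hw, mk_toWord] at a3
    obtain ⟨A, b1, b2⟩ := hs _ (mk_ne_one a2 fun z => L0.ne' (by
      rw [← blk_len e he x, (List.append_eq_nil_iff.1 z).1, List.length_nil])) (by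
      rw [a3, ← h2]
      exact DFunLike.congr_fun (FreeGroup.ext_hom ((FreeGroup.lift s).comp _) _ (by simp)) w)
    rw [toWord_mk, a2.reduce_eq] at b2
    obtain ⟨a, u, Cs, t, c1, c2, c3, c4, c5⟩ := inf (Sm := Sm L)
      (fun X Y h h' => ⟨h'.length_le.trans h.1, h.2.sub h'⟩) ⟨by simp, free_nil (by simp)⟩
      (fun _ _ h => h.2) a1 _ _ ⟨by rw [blk_len e he]; omega, by
        simpa using (blk_free e he x).append (free_nil (r := 12) (by simp))⟩ b2
    refine ⟨u.length, List.length_pos_iff.2 ?_, u, Finset.mem_filter.2 ⟨mem_Ls.2 rfl,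
      (A, a, Cs, t), c2, c3, c4, c5⟩, hw ▸ c1⟩
    rintro rfl
    obtain rfl := List.forall₂_nil_left_iff.1 c2
    refine c3.2.append c4.2 A b1 (List.IsPrefix.isInfix ⟨pw 108 A, ?_⟩)
    rw [← pw_add]
    exact c5

end Pool.Agent.P.MP_95bcfc_an.Dehn
end
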