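import Mathlib
import Pool.Agent.K.MP_95bcfc_an.C3

-- part Pool.Agent.P.MP_95bcfc_an.Chars
section

set_option autoImplicit false

namespace Pool.Agent.P.MP_95bcfc_an

theorem infinite_characterModule (A : Type) [AddCommGroup A] [Infinite A] :
    Infinite (CharacterModule A) := by
  by_contra hc
  rw [not_infinite_iff_finite] at hc
  set n := Nat.card (CharacterModule A) with hn
  have hn0 : 0 < n := Nat.card_pos
  have hfin : {u : AddCircle (1 : ℚ) | n • u = 0}.Finite := AddCircle.finite_torsion 1 hn0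
  haveI := hfin.to_subtype
  let f : A → CharacterModule A → {u : AddCircle (1 : ℚ) | n • u = 0} := fun a c =>
    ⟨c a, by
      have h1 : n • c = 0 := card_nsmul_eq_zero'
      exact congrArg (fun d : CharacterModule A => d a) h1⟩
  have hf : Function.Injective f := by
    intro a b hab
    rw [← sub_eq_zero]
    refine CharacterModule.eq_zero_of_character_apply fun c => ?_
    rw [map_sub, sub_eq_zero]
    exact congrArg Subtype.val (congrFun hab c)
  haveI := Finite.of_injective f hf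
  exact not_finite A

/-- the embedding of the rational circle in the complex numbers -/
theorem exists_circle_emb : ∃ j : Multiplicative (AddCircle (1 : ℚ)) →* ℂ,
    Function.Injective j ∧ ∀ x, ‖j x‖ = 1 := by
  let f : ℚ →+ AddCircle (1 : ℝ) := (QuotientAddGroup.mk' _).comp (Rat.castHom ℝ).toAddMonoidHom
  have hf : ∀ x : ℚ, f x = 0 ↔ x ∈ AddSubgroup.zmultiples (1 : ℚ) := by
    intro x
    change ((x : ℝ) : AddCircle (1 : ℝ)) = 0 ↔ _
    rw [AddCircle.coe_eq_zero_iff, AddSubgroup.mem_zmultiples_iff]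
    refine exists_congr fun n => ?_
    simp only [zsmul_eq_mul, mul_one]
    exact_mod_cast Iff.rfl
  let g : AddCircle (1 : ℚ) →+ AddCircle (1 : ℝ) :=
    QuotientAddGroup.lift _ f fun x hx => (hf x).2 hx
  have hg : Function.Injective g := by
    rw [injective_iff_map_eq_zero]
    intro x hx
    induction x using QuotientAddGroup.induction_on with
    | H x => exact (QuotientAddGroup.eq_zero_iff x).2 ((hf x).1 hx)
  refine ⟨⟨⟨fun x => (AddCircle.toCircle (g x.toAdd) : ℂ), by simp⟩, fun x y => by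
    simp [AddCircle.toCircle_add]⟩, fun x y h => ?_, fun x => Circle.norm_coe _⟩
  exact hg (AddCircle.injective_toCircle one_ne_zero (Subtype.ext h))

theorem exists_chars (A : Type) [AddCommGroup A] [Infinite A] (Ω : Type) [Fintype Ω]
    [DecidableEq Ω] : ∃ ch : Ω → (Multiplicative A →* ℂ), (∀ ω a, ‖ch ω a‖ = 1) ∧
      ∀ v : Ω, ∃ z : Multiplicative A →₀ ℂ, ∀ ω,
        (z.sum fun a c => c * ch ω a) = if ω = v then 1 else 0 := by
  haveI := infinite_characterModule A
  obtain ⟨j, hj, hj1⟩ := exists_circle_emb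
  obtain ⟨u⟩ : Nonempty (Ω ↪ CharacterModule A) :=
    ⟨(Fintype.equivFin Ω).toEmbedding.trans
      (Fin.valEmbedding.trans (Infinite.natEmbedding _))⟩
  let ch : Ω → (Multiplicative A →* ℂ) := fun ω =>
    j.comp (AddMonoidHom.toMultiplicative (show A →+ AddCircle (1 : ℚ) from u ω))
  have hch : Function.Injective ch := by
    intro ω ω' h
    refine u.injective (AddMonoidHom.ext fun a => ?_)
    exact hj (DFunLike.congr_fun h (Multiplicative.ofAdd a))
  refine ⟨ch, fun ω a => hj1 _, fun v => ?_⟩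
  have hli := (linearIndependent_monoidHom (Multiplicative A) ℂ).comp ch hch
  have htop : Submodule.span ℂ (Set.range fun a : Multiplicative A => fun ω => ch ω a) = ⊤ := by
    by_contra hc
    obtain ⟨f, hf0, hf⟩ := Submodule.exists_le_ker_of_lt_top _ (lt_top_iff_ne_top.2 hc)
    have h1 : ∀ a, f (fun ω => ch ω a) = 0 := fun a => hf (Submodule.subset_span ⟨a, rfl⟩)
    have h2 := Fintype.linearIndependent_iff.1 hli (fun ω => f (Pi.single ω 1)) (by
      funext a
      have := h1 a
      rw [LinearMap.pi_apply_eq_sum_univ] at this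
      rw [Finset.sum_apply, Pi.zero_apply, ← this]
      refine Finset.sum_congr rfl fun ω _ => ?_
      have e : (fun j => if ω = j then (1 : ℂ) else 0) = Pi.single ω 1 := by
        funext j; simp [Pi.single_apply, eq_comm]
      simp [e, mul_comm])
    apply hf0
    ext ω
    simpa using h2 ω
  have hm : (fun ω => if ω = v then (1 : ℂ) else 0) ∈
      Submodule.span ℂ (Set.range fun a : Multiplicative A => fun ω => ch ω a) := by
    rw [htop]; trivial
  obtain ⟨z, hz⟩ := Finsupp.mem_span_range_iff_exists_finsupp.1 hm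
  refine ⟨z, fun ω => ?_⟩
  rw [← congrFun hz ω, Finsupp.sum, Finsupp.sum, Finset.sum_apply]
  rfl

end Pool.Agent.P.MP_95bcfc_an
end

-- part Pool.Agent.P.MP_95bcfc_an.Model
section

set_option autoImplicit false
set_option linter.unusedSectionVars false
set_option linter.deprecated false

open MeasureTheory ProbabilityTheory
open scoped ENNReal

namespace Pool.Agent.P.MP_95bcfc_an

open Classical

variable {G D I : Type} [Group G] [Countable G] [Fintype D] [Fintype I] [Nonempty I]
  [MeasurableSpace I] [DiscreteMeasurableSpace I] (s : I → G)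

/-- reflections of a finite set -/
noncomputable def rf {Q : Type} (T : Finset Q) : Fin 2 → Q → Q := (exists_refl T).choose

/-- rank in a finite set -/
noncomputable def rk {Q : Type} (T : Finset Q) : Q → ℤ := (exists_refl T).choose_spec.choose

theorem rf_mem {Q : Type} {T : Finset Q} (m : Fin 2) {q : Q} (hq : q ∈ T) : rf T m q ∈ T :=
  ((exists_refl T).choose_spec.choose_spec.1 m q hq).1

theorem rf_rf {Q : Type} {T : Finset Q} (m : Fin 2) {q : Q} (hq : q ∈ T) :
    rf T m (rf T m q) = q := ((exists_refl T).choose_spec.choose_spec.1 m q hq).2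

theorem rk_unique {Q : Type} {T : Finset Q} {q q' : Q} (hq : q ∈ T) (hq' : q' ∈ T)
    (h : rk T (rf T 0 (rf T 1 q)) ≠ rk T q + 1) (h' : rk T (rf T 0 (rf T 1 q')) ≠ rk T q' + 1) :
    q = q' := (exists_refl T).choose_spec.choose_spec.2 q hq q' hq' h h'

/-- the edges entering a vertex -/
noncomputable def In (ω : Conf G D I) (y : G) : Finset (D × I) :=
  Finset.univ.filter fun q => ω (y * (s q.2)⁻¹, q.1) = q.2

theorem mem_In {ω : Conf G D I} {y : G} {q : D × I} :
    q ∈ In s ω y ↔ ω (y * (s q.2)⁻¹, q.1) = q.2 := by simp [In]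

theorem In_smul (g : G) (ω : Conf G D I) (y : G) : In s (g • ω) y = In s ω (g⁻¹ * y) := by
  ext q
  rw [mem_In, mem_In, Conf.smul_apply, mul_assoc]

theorem self_mem_In (ω : Conf G D I) (p : G × D) : (p.2, ω p) ∈ In s ω (p.1 * s (ω p)) := by
  rw [mem_In]; simp

/-- the random graph -/
noncomputable def gr (ω : Conf G D I) : LG (G ⊕ G) (G × D) F2 where
  src p := Sum.inl p.1
  tgt p := Sum.inr (p.1 * s (ω p))
  lab p := FreeGroup.of 0 ^ rk Finset.univ p.2 *
    (FreeGroup.of 1 ^ rk (In s ω (p.1 * s (ω p))) (p.2, ω p))⁻¹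

theorem gr_map (g : G) (ω : Conf G D I) : LG.IsMap (gr s ω) (gr s (g • ω))
    ((Equiv.mulLeft g).sumCongr (Equiv.mulLeft g)) ((Equiv.mulLeft g).prodCongr (Equiv.refl D)) where
  src p := rfl
  tgt p := by
    obtain ⟨x, i⟩ := p
    simp [gr, Conf.smul_apply, mul_assoc]
  lab p := by
    obtain ⟨x, i⟩ := p
    simp [gr, Conf.smul_apply, mul_assoc, In_smul]

/-- the differences of the steps -/
noncomputable def dif : Finset G := Finset.univ.image fun a : I × I => s a.1 * (s a.2)⁻¹

theorem mem_dif (a b : I) : s a * (s b)⁻¹ ∈ dif s := Finset.mem_image.2 ⟨(a, b), by simp, rfl⟩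

theorem loc_of (x : G) {β : Type} (Φ : (D → I) → (I → Finset (D × I)) → β) :
    Loc (fun ω : Conf G D I => Φ (fun i => ω (x, i)) fun a => In s ω (x * s a))
      ((dif s).image fun h => x * h) := by
  intro ω ω' h
  have h1 : (fun i => ω (x, i)) = fun i => ω' (x, i) := by
    funext i
    obtain ⟨a⟩ := ‹Nonempty I›
    exact h x (Finset.mem_image.2 ⟨_, mem_dif s a a, by simp⟩) i
  have h2 : (fun a => In s ω (x * s a)) = fun a => In s ω' (x * s a) := by
    funext a
    ext q
    rw [mem_In, mem_In, h _ (Finset.mem_image.2 ⟨_, mem_dif s a q.2, (mul_assoc _ _ _).symm⟩)]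
  simp only [h1, h2]

theorem gr_meas : LG.Meas (gr (D := D) s) where
  src e v := MeasurableSet.const (Sum.inl e.1 = v)
  tgt e v := (loc_of s e.1 fun f _ => (Sum.inr (e.1 * s (f e.2)) : G ⊕ G)).meas {v}
  lab e w := (loc_of s e.1 fun f T => FreeGroup.of (0 : Fin 2) ^ rk Finset.univ e.2 *
    (FreeGroup.of 1 ^ rk (T (f e.2)) (e.2, f e.2))⁻¹).meas {w}

variable {W A : Type} [Group W] [AddCommGroup A] (π : W →* Wreath A G)
  (ch : (D → I) → (Multiplicative A →* ℂ)) (hch : ∀ v a, ‖ch v a‖ = 1)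

/-- the character of the lamp group at a configuration -/
noncomputable def chi (a : G →₀ A) (ω : Conf G D I) : ℂ :=
  a.prod fun x v => ch (fun i => ω (x, i)) (Multiplicative.ofAdd v)

theorem chi_loc (a : G →₀ A) : Loc (chi ch a) a.support := by
  intro ω ω' h
  refine Finsupp.prod_congr fun x hx => ?_
  rw [show (fun i => ω (x, i)) = fun i => ω' (x, i) from funext (h x hx)]

include hch in
theorem chi_norm (a : G →₀ A) (ω : Conf G D I) : ‖chi ch a ω‖ = 1 := by
  simp [chi, Finsupp.prod, norm_prod, hch]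

theorem chi_add (a b : G →₀ A) (ω : Conf G D I) : chi ch (a + b) ω = chi ch a ω * chi ch b ω :=
  Finsupp.prod_add_index' (by simp) (by simp [ofAdd_add])

theorem chi_shift (g : G) (a : Multiplicative (G →₀ A)) (ω : Conf G D I) :
    chi ch (shift A G g a).toAdd ω = chi ch a.toAdd (g⁻¹ • ω) := by
  change chi ch (Finsupp.equivMapDomain (Equiv.mulLeft g) a.toAdd) ω = _
  rw [chi, Finsupp.prod_equivMapDomain]
  refine Finsupp.prod_congr fun x _ => ?_
  simp [Conf.smul_apply]

/-- the system attached to the random graph -/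
noncomputable def sys : Sys W G (Conf G D I) where
  q := SemidirectProduct.rightHom.comp π
  χ γ := ⟨chi ch (π γ).left.toAdd, fun t _ => (chi_loc ch _).meas t, 1,
    fun ω => (chi_norm ch hch _ ω).le⟩
  χ_norm γ ω := chi_norm ch hch _ ω
  χ_one := by
    ext ω
    simp [chi]
  χ_mul γ γ' ω := by
    change chi ch (π (γ * γ')).left.toAdd ω = chi ch _ ω * chi ch _ _
    rw [map_mul, SemidirectProduct.mul_left, toAdd_mul, chi_add, chi_shift]
    rfl
  Rel ω v w v' := (gr s ω).Rel (Sum.inl v) w (Sum.inl v')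
  pot ω := by
    obtain ⟨cl, φ, h⟩ := (gr s ω).exists_pot
    exact ⟨G ⊕ G, fun v => cl (Sum.inl v), fun v => φ (Sum.inl v), fun v w v' => h _ _ _⟩
  rel_meas v w v' := (gr_meas s).rel _ _ _
  rel_smul g ω v w v' h := (gr_map s g ω).rel h

theorem symb_of_loc (hπ : Function.Surjective π)
    (hsp : ∀ v : D → I, ∃ z : Multiplicative A →₀ ℂ, ∀ ω,
      (z.sum fun a c => c * ch ω a) = if ω = v then 1 else 0)
    {φ : Conf G D I → ℂ} {F : Finset G} (hφ : Loc φ F) (h : G) :
    ∃ z : W →₀ ℂ, (∀ γ ∈ z.support, (sys s π ch hch).q γ = h) ∧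
      ∀ ω, (z.sum fun γ c => c * ((sys s π ch hch).χ γ).1 ω) = φ ω := by
  let M : Submodule ℂ (Conf G D I → ℂ) := Submodule.span ℂ (Set.range (chi (G := G) ch))
  have hmul : ∀ f ∈ M, ∀ g ∈ M, f * g ∈ M := by
    intro f hf g hg
    have := Submodule.mul_mem_mul hf hg
    rw [Submodule.span_mul_span] at this
    refine Submodule.span_mono ?_ this
    rintro _ ⟨_, ⟨a, rfl⟩, _, ⟨b, rfl⟩, rfl⟩
    exact ⟨a + b, funext fun ω => chi_add ch a b ω⟩
  have hone : (1 : Conf G D I → ℂ) ∈ M :=
    Submodule.subset_span ⟨0, funext fun ω => by simp [chi]⟩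
  have hsite : ∀ (x : G) (v : D → I),
      (fun ω : Conf G D I => if (fun i => ω (x, i)) = v then (1 : ℂ) else 0) ∈ M := by
    intro x v
    obtain ⟨z, hz⟩ := hsp v
    have e : (fun ω : Conf G D I => if (fun i => ω (x, i)) = v then (1 : ℂ) else 0) =
        ∑ a ∈ z.support, z a • chi ch (Finsupp.single x a.toAdd) := by
      funext ω
      rw [← hz, Finset.sum_apply, Finsupp.sum]
      refine Finset.sum_congr rfl fun a _ => ?_
      rw [Pi.smul_apply, chi, Finsupp.prod_single_index (by simp)]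
      rfl
    rw [e]
    exact Submodule.sum_mem _ fun a _ => Submodule.smul_mem _ _ (Submodule.subset_span ⟨_, rfl⟩)
  have hφM : φ ∈ M := by
    obtain ⟨a0⟩ := ‹Nonempty I›
    let ex : (F → D → I) → Conf G D I := fun v p => if hp : p.1 ∈ F then v ⟨p.1, hp⟩ p.2 else a0
    have e : φ = ∑ v : F → D → I, φ (ex v) •
        ∏ x : F, fun ω : Conf G D I => if (fun i => ω (x, i)) = v x then (1 : ℂ) else 0 := by
      funext ω
      rw [Finset.sum_apply, Finset.sum_eq_single fun (x : F) i => ω (x, i)]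
      · simp only [Pi.smul_apply, Finset.prod_apply, if_true, Finset.prod_const_one, smul_eq_mul,
          mul_one]
        exact hφ _ _ fun x hx i => by simp [ex, hx]
      · intro v _ hv
        obtain ⟨x, hx⟩ := Function.ne_iff.1 hv
        rw [Pi.smul_apply, Finset.prod_apply, Finset.prod_eq_zero (Finset.mem_univ x), smul_zero]
        exact if_neg (Ne.symm hx)
      · simp
    rw [e]
    refine Submodule.sum_mem _ fun v _ => Submodule.smul_mem _ _ ?_
    exact Finset.prod_induction _ (· ∈ M) (fun f g hf hg => hmul f hf g hg) hone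
      fun x _ => hsite _ _
  obtain ⟨c, hc⟩ := Finsupp.mem_span_range_iff_exists_finsupp.1 hφM
  choose u hu using hπ
  refine ⟨c.mapDomain fun a => u ⟨Multiplicative.ofAdd a, h⟩, fun γ hγ => ?_, fun ω => ?_⟩
  · obtain ⟨a, -, rfl⟩ := Finset.mem_image.1 (Finsupp.mapDomain_support hγ)
    change (π _).right = h
    rw [hu]
  · rw [Finsupp.sum_mapDomain_index (by simp) (by simp [add_mul]), ← hc, Finsupp.sum,
      Finsupp.sum, Finset.sum_apply]
    refine Finset.sum_congr rfl fun a _ => ?_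
    change c a * chi ch (π _).left.toAdd ω = _
    rw [hu]
    rfl

/-- the reflections at a target vertex, seen from the base points -/
noncomputable def tt (m : Fin 2) (ω : Conf G D I) (i : D) : G × D :=
  (s (ω (1, i)) * (s (rf (In s ω (s (ω (1, i)))) m (i, ω (1, i))).2)⁻¹,
    (rf (In s ω (s (ω (1, i)))) m (i, ω (1, i))).1)

theorem tt_loc (m : Fin 2) (i : D) :
    Loc (fun ω : Conf G D I => tt s m ω i) ((dif s).image fun h => 1 * h) := by
  have := loc_of s 1 fun (f : D → I) T =>
    (s (f i) * (s (rf (T (f i)) m (i, f i)).2)⁻¹, (rf (T (f i)) m (i, f i)).1)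
  simpa only [one_mul, tt] using this

theorem tt_shift (m : Fin 2) (ω : Conf G D I) {y : G} {q : D × I} (hq : q ∈ In s ω y) :
    tt s m ((y * (s q.2)⁻¹)⁻¹ • ω) q.1 =
      (s q.2 * (s (rf (In s ω y) m q).2)⁻¹, (rf (In s ω y) m q).1) := by
  have e1 : ((y * (s q.2)⁻¹)⁻¹ • ω) (1, q.1) = q.2 := by
    rw [Conf.smul_apply, inv_inv, mul_one]
    exact (mem_In s).1 hq
  simp only [tt, e1, In_smul, inv_inv, inv_mul_cancel_right]

theorem one_mem_In (ω : Conf G D I) (i : D) : (i, ω (1, i)) ∈ In s ω (s (ω (1, i))) := by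
  simpa using self_mem_In s ω (1, i)

variable (hπ : Function.Surjective π)
  (hsp : ∀ v : D → I, ∃ z : Multiplicative A →₀ ℂ, ∀ ω,
    (z.sum fun a c => c * ch ω a) = if ω = v then 1 else 0)

/-- the involutions at the sources -/
noncomputable def inv0 (m : Fin 2) : LocInv (sys s π ch hch) D where
  t _ i := (1, rf Finset.univ m i)
  T := {1}
  mem _ _ := by simp
  symm := by simp
  invol _ i := by simp [rf_rf]
  meas i p := MeasurableSet.const _
  symb i h j _ := symb_of_loc s π ch hch hπ hsp (F := ∅) (fun _ _ _ => rfl) h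

/-- the involutions at the targets -/
noncomputable def inv1 (m : Fin 2) : LocInv (sys s π ch hch) D where
  t := tt s m
  T := dif s
  mem _ _ := mem_dif s _ _
  symm h hh := by
    obtain ⟨a, -, rfl⟩ := Finset.mem_image.1 hh
    simpa using mem_dif s a.2 a.1
  invol ω i := by
    have h1 := one_mem_In s ω i
    have h2 := tt_shift s m ω (rf_mem m h1)
    rw [rf_rf m h1] at h2
    refine h2.trans ?_
    simp [tt]
  meas i p := (tt_loc s m i).meas {p}
  symb i h j _ := symb_of_loc s π ch hch hπ hsp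
    (fun ω ω' hω => by rw [show tt s m ω i = tt s m ω' i from tt_loc s m i ω ω' hω]) h

/-- the next edge with the same target -/
noncomputable def nq (ω : Conf G D I) (p : G × D) : D × I :=
  rf (In s ω (p.1 * s (ω p))) 0 (rf (In s ω (p.1 * s (ω p))) 1 (p.2, ω p))

/-- the next edge with the same target -/
noncomputable def nxt (ω : Conf G D I) (p : G × D) : G × D :=
  (p.1 * s (ω p) * (s (nq s ω p).2)⁻¹, (nq s ω p).1)

/-- the rank does not increase by one -/
def Wrap (ω : Conf G D I) (p : G × D) : Prop :=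
  rk (In s ω (p.1 * s (ω p))) (nq s ω p) ≠ rk (In s ω (p.1 * s (ω p))) (p.2, ω p) + 1

theorem nq_mem (ω : Conf G D I) (p : G × D) : nq s ω p ∈ In s ω (p.1 * s (ω p)) :=
  rf_mem 0 (rf_mem 1 (self_mem_In s ω p))

theorem val_nxt (ω : Conf G D I) (p : G × D) : ω (nxt s ω p) = (nq s ω p).2 :=
  (mem_In s).1 (nq_mem s ω p)

theorem tgt_nxt (ω : Conf G D I) (p : G × D) :
    (nxt s ω p).1 * s (ω (nxt s ω p)) = p.1 * s (ω p) := by
  rw [val_nxt s ω p]; simp [nxt]

theorem eq_of_tgt {ω : Conf G D I} {p p' : G × D} (h : p.1 * s (ω p) = p'.1 * s (ω p'))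
    (h' : (p.2, ω p) = (p'.2, ω p')) : p = p' := by
  have h2 : ω p = ω p' := (Prod.ext_iff.1 h').2
  rw [h2] at h
  exact Prod.ext (mul_right_cancel h) (Prod.ext_iff.1 h').1

theorem nxt_inj {ω : Conf G D I} {p p' : G × D} (h : nxt s ω p = nxt s ω p') : p = p' := by
  have h1 : p.1 * s (ω p) = p'.1 * s (ω p') := by rw [← tgt_nxt, h, tgt_nxt]
  have h2 : nq s ω p = nq s ω p' :=
    Prod.ext (Prod.ext_iff.1 h).2 (by rw [← val_nxt s ω p, h, val_nxt s ω p'])
  refine eq_of_tgt s h1 ?_
  have h3 := self_mem_In s ω p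
  have h4 := self_mem_In s ω p'
  rw [nq, nq, ← h1] at h2
  rw [← h1] at h4
  rw [← rf_rf 1 h3, ← rf_rf 0 (rf_mem 1 h3), h2, rf_rf 0 (rf_mem 1 h4), rf_rf 1 h4]

theorem nq_smul (g : G) (ω : Conf G D I) (x : G) (i : D) :
    nq s (g • ω) (g * x, i) = nq s ω (x, i) := by
  simp [nq, Conf.smul_apply, In_smul, mul_assoc]

theorem good_rel {ω : Conf G D I} {i : D} (h1 : (gr s ω).Bridge (1, i))
    (h2 : (gr s ω).Bridge (nxt s ω (1, i))) (h3 : ¬ Wrap s ω (1, i)) :
    (gr s ω).Rel (Sum.inl 1) (FreeGroup.of 0 ^ rk Finset.univ i * FreeGroup.of 1 *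
      (FreeGroup.of 0 ^ rk Finset.univ (nxt s ω (1, i)).2)⁻¹) (Sum.inl (nxt s ω (1, i)).1) := by
  have h4 := h1.rel
  have h5 := h2.rel.symm
  have e : (gr s ω).tgt (nxt s ω (1, i)) = (gr s ω).tgt (1, i) := congrArg Sum.inr (tgt_nxt s ω _)
  rw [e] at h5
  have h6 := h4.trans h5
  have e2 : (gr s ω).lab (1, i) * ((gr s ω).lab (nxt s ω (1, i)))⁻¹ =
      FreeGroup.of 0 ^ rk Finset.univ i * FreeGroup.of 1 *
      (FreeGroup.of 0 ^ rk Finset.univ (nxt s ω (1, i)).2)⁻¹ := by
    have e3 : ((nxt s ω (1, i)).2, ω (nxt s ω (1, i))) = nq s ω (1, i) := by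
      rw [val_nxt s ω (1, i)]; rfl
    simp only [gr, tgt_nxt, e3]
    rw [not_not.1 h3]
    group
  rwa [e2] at h6

theorem nxt_meas (p p' : G × D) : MeasurableSet {ω : Conf G D I | nxt s ω p = p'} :=
  (loc_of s p.1 fun (f : D → I) T => (p.1 * s (f p.2) *
    (s (rf (T (f p.2)) 0 (rf (T (f p.2)) 1 (p.2, f p.2))).2)⁻¹,
    (rf (T (f p.2)) 0 (rf (T (f p.2)) 1 (p.2, f p.2))).1)).meas {p'}

theorem wrap_meas (p : G × D) (y : G) :
    MeasurableSet {ω : Conf G D I | p.1 * s (ω p) = y ∧ Wrap s ω p} :=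
  (loc_of s p.1 fun (f : D → I) T => (p.1 * s (f p.2) = y ∧
    rk (T (f p.2)) (rf (T (f p.2)) 0 (rf (T (f p.2)) 1 (p.2, f p.2))) ≠
      rk (T (f p.2)) (p.2, f p.2) + 1)).meas {P | P}

/-- the bad event for the second generator -/
def bad (i : D) : Set (Conf G D I) :=
  {ω | ¬ (gr s ω).Bridge (1, i)} ∪
    (⋃ p' : G × D, {ω | nxt s ω (1, i) = p'} ∩ {ω | ¬ (gr s ω).Bridge p'}) ∪
    ⋃ p' : G × Unit, {ω | (1, i).1 * s (ω (1, i)) = p'.1 ∧ Wrap s ω (1, i)}

theorem bad_meas (i : D) : MeasurableSet (bad s i) :=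
  (((gr_meas s).bridge _).compl.union (MeasurableSet.iUnion fun p' =>
    (nxt_meas s _ _).inter ((gr_meas s).bridge _).compl)).union
    (MeasurableSet.iUnion fun _ => wrap_meas s _ _)

theorem bad_le {θ : ℝ} (h0 : 0 ≤ θ) (hθ : Contr s θ)
    (h1 : θ * (Fintype.card D : ℝ) ^ 2 ≤ 1 / 2) :
    ∑ i : D, (Conf.μ G D I).real (bad s i) ≤
      4 * (θ * (Fintype.card D : ℝ) ^ 2) * Fintype.card D + 1 := by
  set β := θ * (Fintype.card D : ℝ) ^ 2 with hβ
  have hβ0 : 0 ≤ β := by positivity
  have hn : ∑ i : D, Conf.μ G D I {ω | ¬ (gr s ω).Bridge (1, i)} ≤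
      ENNReal.ofReal (2 * β * Fintype.card D) := by
    refine (Finset.sum_le_sum fun i _ => nonbridge_le s (gr s) (fun _ _ => rfl) (fun _ _ => rfl)
      h0 hθ h1 i).trans (le_of_eq ?_)
    rw [Finset.sum_const, Finset.card_univ, nsmul_eq_mul, ENNReal.ofReal_mul (by positivity)
      (q := Fintype.card D), ENNReal.ofReal_natCast, mul_comm]
  have h2 := mass_transport (Conf.μ G D I)
    (fun p p' : G × D => {ω | nxt s ω p = p'} ∩ {ω | ¬ (gr s ω).Bridge p'})
    (fun p p' => (nxt_meas s _ _).inter ((gr_meas s).bridge _).compl)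
    (fun y i j ω hω => by
      obtain ⟨h3, h4⟩ := hω
      refine ⟨?_, fun h5 => h4 ?_⟩
      · have h6 := nq_smul s y⁻¹ ω 1 i
        rw [mul_one] at h6
        simp only [Set.mem_setOf_eq, nxt, Prod.mk.injEq, one_mul] at h3 ⊢
        rw [h6, Conf.smul_apply, inv_inv, mul_inv_cancel, mul_assoc, h3.1]
        exact ⟨by simp, h3.2⟩
      · simpa using (gr_map s y (y⁻¹ • ω)).bridge h5)
    (fun p q j ω h3 h4 => nxt_inj s (h3.1.trans h4.1.symm))
    (fun j => {ω | ¬ (gr s ω).Bridge (1, j)}) (fun p j ω h3 => h3.2)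
  have h3 := mass_transport (Conf.μ G D I)
    (fun (p : G × D) (p' : G × Unit) => {ω | p.1 * s (ω p) = p'.1 ∧ Wrap s ω p})
    (fun p p' => wrap_meas s _ _)
    (fun y i j ω hω => by
      obtain ⟨h3, h4⟩ := hω
      have h6 := nq_smul s y⁻¹ ω 1 i
      rw [mul_one] at h6
      simp only [one_mul] at h3
      refine ⟨by simp [Conf.smul_apply, h3], ?_⟩
      simpa [Wrap, h6, Conf.smul_apply, In_smul] using h4)
    (fun p q j ω h3 h4 => by
      have h5 : p.1 * s (ω p) = q.1 * s (ω q) := h3.1.trans h4.1.symm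
      refine eq_of_tgt s h5 (rk_unique (self_mem_In s ω p) (h5 ▸ self_mem_In s ω q) h3.2 ?_)
      have h6 := h4.2
      rwa [Wrap, nq, ← h5] at h6)
    (fun _ => Set.univ) (fun _ _ => Set.subset_univ _)
  simp only [measure_univ, Finset.univ_unique, Finset.sum_singleton] at h3
  have h4 : ∑ i : D, Conf.μ G D I (bad s i) ≤ ENNReal.ofReal (4 * β * Fintype.card D + 1) := by
    refine (Finset.sum_le_sum fun i _ => (measure_union_le _ _).trans
      (add_le_add (measure_union_le _ _) le_rfl)).trans ?_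
    rw [Finset.sum_add_distrib, Finset.sum_add_distrib]
    refine (add_le_add (add_le_add hn (h2.trans hn)) h3).trans (le_of_eq ?_)
    rw [← ENNReal.ofReal_add (by positivity) (by positivity), ← ENNReal.ofReal_one,
      ← ENNReal.ofReal_add (by positivity) (by positivity)]
    congr 1
    ring
  simp only [Measure.real]
  rw [← ENNReal.toReal_sum fun i _ => measure_ne_top _ _]
  exact ENNReal.toReal_le_of_le_ofReal (by positivity) h4

end Pool.Agent.P.MP_95bcfc_an
end

-- part Pool.Agent.P.MP_95bcfc_an.Main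
section

set_option autoImplicit false
set_option linter.unusedSectionVars false
set_option linter.deprecated false

open MeasureTheory

namespace Pool.Agent.P.MP_95bcfc_an

theorem nuc_of_wreath {W Λ A G : Type} [Group W] [Group Λ] [AddCommGroup A] [Infinite A] [Group G]
    [Countable G] (hG : ¬ Folner G) (π : W →* Wreath A G) (hπ : Function.Surjective π)
    (hN : Nuc W Λ) : Nuc F2 Λ := by
  classical
  refine transfer hN fun L _ _ _ σ ρ hc δ hδ => ?_
  obtain ⟨n, hn⟩ := exists_nat_ge (8 / δ ^ 2)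
  have hn0 : (0 : ℝ) < n := lt_of_lt_of_le (by positivity) hn
  have hn1 : 8 ≤ δ ^ 2 * n := by rwa [div_le_iff₀ (by positivity), mul_comm] at hn
  haveI : Nonempty (Fin n) := ⟨⟨0, by exact_mod_cast hn0⟩⟩
  set β : ℝ := min (1 / 2) (δ ^ 2 / 32) with hβ
  have hβ0 : 0 < β := by positivity
  obtain ⟨I, _, _, s, hs⟩ := exists_contr hG (θ := β / (n : ℝ) ^ 2) (by positivity)
  letI : MeasurableSpace I := ⊤
  obtain ⟨ch, hch, hsp⟩ := exists_chars A (Fin n → I)
  have e1 : β / (n : ℝ) ^ 2 * (Fintype.card (Fin n) : ℝ) ^ 2 = β := by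
    rw [Fintype.card_fin]; field_simp
  let bad0 : Fin n → Set (Conf G (Fin n) I) := fun i =>
    {_ω | rk Finset.univ (rf Finset.univ 0 (rf Finset.univ 1 i)) ≠ rk Finset.univ i + 1}
  refine ⟨Fin n, inferInstance, inferInstance, core (Conf.μ G (Fin n) I)
    (S := sys s π ch hch) ![fun m => inv0 s π ch hch hπ hsp m, fun m => inv1 s π ch hch hπ hsp m]
    (fun i => FreeGroup.of 0 ^ rk Finset.univ i) ![bad0, bad s] ?_ hδ ?_ ?_ σ ρ hc⟩
  · refine Fin.forall_fin_two.2 ⟨fun i => MeasurableSet.const _, fun i => bad_meas s i⟩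
  · refine Fin.forall_fin_two.2 ⟨?_, ?_⟩
    · change ∑ i, (Conf.μ G (Fin n) I).real (bad0 i) ≤ _
      have h1 : ∑ i, (Conf.μ G (Fin n) I).real (bad0 i) ≤ 1 := by
        by_cases h : ∃ i, rk Finset.univ (rf Finset.univ 0 (rf Finset.univ 1 i)) ≠
            rk (Finset.univ : Finset (Fin n)) i + 1
        · obtain ⟨i, hi⟩ := h
          rw [Finset.sum_eq_single i]
          · exact measureReal_le_one
          · intro j _ hj
            rw [show bad0 j = ∅ from Set.eq_empty_of_forall_notMem fun _ h =>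
              hj (rk_unique (Finset.mem_univ _) (Finset.mem_univ _) h hi)]
            simp
          · simp
        · rw [Finset.sum_eq_zero fun j _ => by
            rw [show bad0 j = ∅ from Set.eq_empty_of_forall_notMem fun _ h' => h ⟨j, h'⟩]
            simp]
          exact zero_le_one
      rw [Fintype.card_fin]
      linarith
    · change ∑ i, (Conf.μ G (Fin n) I).real (bad s i) ≤ _
      refine (bad_le s (by positivity) hs (by rw [e1]; exact min_le_left _ _)).trans ?_
      rw [e1, Fintype.card_fin]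
      have := mul_le_mul_of_nonneg_right (min_le_right (1 / 2) (δ ^ 2 / 32)) hn0.le
      linarith
  · refine Fin.forall_fin_two.2 ⟨fun i ω hω h j h' j' h1 h2 => ?_,
      fun i ω hω h j h' j' h1 h2 => ?_⟩
    · obtain ⟨rfl, rfl⟩ : (1 : G) = h ∧ rf Finset.univ 1 i = j := Prod.ext_iff.1 h1
      obtain ⟨rfl, rfl⟩ : (1 : G) = h' ∧ rf Finset.univ 0 (rf Finset.univ 1 i) = j' :=
        Prod.ext_iff.1 h2
      have h3 : rk Finset.univ (rf Finset.univ 0 (rf Finset.univ 1 i)) = rk Finset.univ i + 1 :=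
        not_not.1 hω
      rw [h3, ← zpow_add_one, mul_inv_cancel, mul_one]
      exact Sys.rel_refl _ _
    · change ω ∉ bad s i at hω
      change tt s 1 ω i = (h, j) at h1
      change tt s 0 (h⁻¹ • ω) j = (h', j') at h2
      simp only [bad, Set.mem_union, Set.mem_iUnion, not_or, not_exists] at hω
      obtain ⟨⟨h3, h4⟩, h5⟩ := hω
      have h6 := good_rel s (not_not.1 h3) (not_not.1 fun h => h4 _ ⟨rfl, h⟩)
        fun h => h5 (_, ()) ⟨rfl, h⟩
      obtain ⟨rfl, rfl⟩ := Prod.ext_iff.1 h1.symm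
      have h7 := tt_shift s 0 ω (rf_mem 1 (one_mem_In s ω i))
      obtain ⟨rfl, rfl⟩ := Prod.ext_iff.1 (h2.symm.trans h7)
      have e : nxt s ω (1, i) = ((tt s 1 ω i).1 * (s (rf (In s ω (s (ω (1, i)))) 1
          (i, ω (1, i))).2 * (s (rf (In s ω (s (ω (1, i)))) 0 (rf (In s ω (s (ω (1, i)))) 1
          (i, ω (1, i)))).2)⁻¹), (rf (In s ω (s (ω (1, i)))) 0 (rf (In s ω (s (ω (1, i)))) 1
          (i, ω (1, i)))).1) := by
        simp [nxt, nq, tt, mul_assoc]
      rw [e] at h6
      exact h6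

theorem main_wreath {Γ A G : Type} [Group Γ] [AddCommGroup A] [Infinite A] [Group G]
    [Countable G] (hG : ¬ Folner G) (S : Subgroup Γ) (π : S →* Wreath A G)
    (hπ : Function.Surjective π) (hK : Kirchberg Γ) : Kirchberg (FreeGroup (Fin 2)) :=
  nuc_of_wreath hG π hπ ((nuc_of_wreath hG π hπ (Nuc.subgroup hK S)).symm.subgroup S)

end Pool.Agent.P.MP_95bcfc_an
end
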